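import Pool.Agent.BAB67.Vol

/-!
# [BAB67-Avg] averaging over the group

`count_trans`: the number of `g` with `φ g z = w` is the same for all `w` (translate by a `g₀` with `φ g₀ w = w'`), the sum over `w ∈ Q` is `|A|`.
`averaging`. For every `p` with `T.dist q₀ p ≤ m k` fix points `q₀ = z p 0, z p 1, ..., z p m = p` with `T.dist (z p i) (z p (i + 1)) ≤ k` (points of a shortest walk:
there is a point at every distance; e.g. by induction on `m`). For `g : A` and `p` say that `(g, p)` is bad if `φ g (z p i) ∈ W` for some `i < m`. If `(g, p)` is not bad then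
`piece (φ g p) = piece (φ g q₀)` by `hW` (`Act.dist`). For given `p` and `i` the number of `g` with `φ g (z p i) ∈ W` is `|A| |W| / |Q|` (`count_trans`), so at most `m |A| |W| / |Q| ≤ |A| / 2`
elements `g` are bad for `p`. So at least half of the pairs `(g, p)`, `p ∈ B(q₀, m k)`, are not bad, and there is `g` with at least `vol T q₀ (m k) / 2` points `p`
such that `φ g p` has the same label as `φ g q₀`; so `vol T q₀ (m k) / 2 ≤ S` (`φ g` is injective).
-/

set_option autoImplicit false

namespace Pool.Agent.BAB67

theorem count_trans {A Q : Type} [Group A] [Finite A] [Finite Q] {φ : A →* Equiv.Perm Q} {T : SimpleGraph Q}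
    (h : Act φ T) (z : Q) (W : Set Q) : {g : A | φ g z ∈ W}.ncard * Nat.card Q = W.ncard * Nat.card A := by
  classical
  have : Fintype A := Fintype.ofFinite A
  have : Fintype Q := Fintype.ofFinite Q
  let F : Q → Finset A := fun w => Finset.univ.filter fun g => φ g z = w
  have hle : ∀ w w', (F w).card ≤ (F w').card := by
    intro w w'
    obtain ⟨g₀, hg₀⟩ := h.trans w w'
    refine Finset.card_le_card_of_injOn (fun g => g₀ * g) ?_ ?_
    · intro g hg
      simp only [F, Finset.coe_filter, Finset.mem_univ, true_and, Set.mem_ofPred_eq] at hg ⊢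
      rw [map_mul, Equiv.Perm.mul_apply, hg, hg₀]
    · intro g _ g' _ hgg
      exact mul_left_cancel hgg
  have heq : ∀ w, (F w).card = (F z).card := fun w => le_antisymm (hle w z) (hle z w)
  have hsum : ∀ U : Finset Q, (Finset.univ.filter fun g : A => φ g z ∈ U).card = U.card * (F z).card := by
    intro U
    rw [Finset.card_eq_sum_card_fiberwise (f := fun g : A => φ g z) (t := U)]
    · rw [Finset.sum_const_nat (m := (F z).card)]
      intro w hw
      rw [← heq w]
      congr 1
      ext g
      simp only [F, Finset.mem_filter, Finset.mem_univ, true_and]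
      constructor
      · rintro ⟨-, h2⟩
        exact h2
      · intro h2
        rw [h2]
        exact ⟨hw, rfl⟩
    · intro g hg
      simp only [Finset.coe_filter, Finset.mem_univ, true_and, Set.mem_ofPred_eq] at hg
      exact hg
  have h1 : {g : A | φ g z ∈ W}.ncard = W.toFinset.card * (F z).card := by
    rw [← hsum W.toFinset, Set.ncard_eq_toFinset_card']
    congr 1
    ext g
    simp
  have h2 : Nat.card A = Nat.card Q * (F z).card := by
    have h3 := hsum Finset.univ
    rw [Nat.card_eq_fintype_card, Nat.card_eq_fintype_card, ← Finset.card_univ, ← Finset.card_univ, ← h3]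
    congr 1
    ext g
    simp
  rw [h1, h2, Set.ncard_eq_toFinset_card']
  ring

private theorem avg_path {Q : Type} {T : SimpleGraph Q} (hT : T.Connected) (k : ℕ) (q₀ : Q) (m : ℕ) :
    ∀ p, T.dist q₀ p ≤ m * k → ∃ z : ℕ → Q, z 0 = q₀ ∧ z m = p ∧ ∀ i, i < m → T.dist (z i) (z (i + 1)) ≤ k := by
  induction m with
  | zero =>
    intro p hp
    have h0 : T.dist q₀ p = 0 := by omega
    have h1 : q₀ = p := hT.dist_eq_zero_iff.1 h0
    exact ⟨fun _ => q₀, rfl, h1, fun i hi => absurd hi (Nat.not_lt_zero _)⟩
  | succ m ih =>
    intro p hp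
    obtain ⟨w, hw⟩ := hT.exists_walk_length_eq_dist q₀ p
    have h1 : T.dist q₀ (w.getVert (m * k)) ≤ m * k := by
      refine (SimpleGraph.dist_le (w.take (m * k))).trans ?_
      rw [SimpleGraph.Walk.take_length]
      exact min_le_left _ _
    have h2 : T.dist (w.getVert (m * k)) p ≤ k := by
      refine (SimpleGraph.dist_le (w.drop (m * k))).trans ?_
      rw [SimpleGraph.Walk.drop_length, hw]
      have h3 : (m + 1) * k = m * k + k := by ring
      omega
    obtain ⟨z, hz0, hzm, hz⟩ := ih _ h1
    refine ⟨fun i => if i ≤ m then z i else p, ?_, ?_, ?_⟩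
    · simp [hz0]
    · simp
    · intro i hi
      by_cases him : i = m
      · subst him
        simp only [le_refl, if_true]
        rw [if_neg (by omega), hzm]
        exact h2
      · have h4 : i ≤ m := by omega
        have h5 : i + 1 ≤ m := by omega
        simp only [h4, h5, if_true]
        exact hz i (by omega)

theorem averaging {A Q : Type} [Group A] [Finite A] [Finite Q] {φ : A →* Equiv.Perm Q} {T : SimpleGraph Q}
    (h : Act φ T) (hT : T.Connected) {ι : Type} (piece : Q → ι) (W : Set Q) (k m S : ℕ)
    (hW : ∀ q ∉ W, ∀ p, T.dist q p ≤ k → piece p = piece q) (hS : ∀ q, {p | piece p = piece q}.ncard ≤ S)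
    (hm : 2 * m * W.ncard ≤ Nat.card Q) (q₀ : Q) : vol T q₀ (m * k) ≤ 2 * S := by
  classical
  have : Fintype A := Fintype.ofFinite A
  have : Fintype Q := Fintype.ofFinite Q
  have hz : ∀ p : Q, ∃ z : ℕ → Q, T.dist q₀ p ≤ m * k →
      (z 0 = q₀ ∧ z m = p ∧ ∀ i, i < m → T.dist (z i) (z (i + 1)) ≤ k) := by
    intro p
    by_cases hp : T.dist q₀ p ≤ m * k
    · obtain ⟨z, hz⟩ := avg_path hT k q₀ m p hp
      exact ⟨z, fun _ => hz⟩
    · exact ⟨fun _ => q₀, fun hp' => absurd hp' hp⟩
  choose z hz using hz
  let bad : A → Q → Prop := fun g p => ∃ i, i < m ∧ φ g (z p i) ∈ W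
  let Bf : Finset Q := Finset.univ.filter fun p => T.dist q₀ p ≤ m * k
  have hvol : vol T q₀ (m * k) = Bf.card := by
    unfold vol
    rw [Set.ncard_eq_toFinset_card']
    congr 1
    ext p
    simp [Bf]
  -- for a given `g` there are at most `S` points which are not bad
  have hgood : ∀ g : A, (Bf.filter fun p => ¬ bad g p).card ≤ S := by
    intro g
    refine le_trans ?_ (hS (φ g q₀))
    rw [Set.ncard_eq_toFinset_card']
    refine Finset.card_le_card_of_injOn (fun p => φ g p) ?_ ?_
    · intro p hp
      simp only [Bf, Finset.coe_filter, Finset.mem_filter, Finset.mem_univ, true_and, Set.mem_ofPred_eq] at hp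
      obtain ⟨hp1, hp2⟩ := hp
      obtain ⟨h0, h1, h2⟩ := hz p hp1
      have hind : ∀ i, i ≤ m → piece (φ g (z p i)) = piece (φ g q₀) := by
        intro i
        induction i with
        | zero => intro _; rw [h0]
        | succ i ih =>
          intro hi
          rw [← ih (by omega)]
          refine hW _ (fun hmem => hp2 ⟨i, by omega, hmem⟩) _ ?_
          rw [h.dist]
          exact h2 i (by omega)
      have h3 := hind m le_rfl
      rw [h1] at h3
      simpa using h3
    · intro p _ p' _ hpp
      exact (φ g).injective hpp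
  -- for a given `p` there are few `g`
  have hbad : ∀ p : Q, (Finset.univ.filter fun g : A => bad g p).card * Nat.card Q ≤
      m * (W.ncard * Nat.card A) := by
    intro p
    have h1 : (Finset.univ.filter fun g : A => bad g p).card ≤
        ∑ i ∈ Finset.range m, (Finset.univ.filter fun g : A => φ g (z p i) ∈ W).card := by
      refine le_trans (Finset.card_le_card ?_) Finset.card_biUnion_le
      intro g hg
      simp only [bad, Finset.mem_filter, Finset.mem_univ, true_and, Finset.mem_biUnion, Finset.mem_range] at hg ⊢
      exact hg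
    refine le_trans (Nat.mul_le_mul_right _ h1) ?_
    rw [Finset.sum_mul]
    refine le_trans (Finset.sum_le_card_nsmul _ _ (W.ncard * Nat.card A) ?_) ?_
    · intro i _
      have h2 := count_trans h (z p i) W
      rw [Set.ncard_eq_toFinset_card'] at h2
      rw [← h2]
      refine Nat.mul_le_mul_right _ (Finset.card_le_card ?_)
      intro g hg
      simpa using hg
    · rw [Finset.card_range, smul_eq_mul]
  have hdouble : ∑ g : A, (Bf.filter fun p => bad g p).card =
      ∑ p ∈ Bf, (Finset.univ.filter fun g : A => bad g p).card := by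
    simp only [Finset.card_filter]
    exact Finset.sum_comm
  have hcount : Bf.card * Nat.card A ≤
      ∑ p ∈ Bf, (Finset.univ.filter fun g : A => bad g p).card + Nat.card A * S := by
    have h1 : Bf.card * Nat.card A = ∑ g : A, ((Bf.filter fun p => bad g p).card +
        (Bf.filter fun p => ¬ bad g p).card) := by
      have h2 : ∀ g : A, (Bf.filter fun p => bad g p).card + (Bf.filter fun p => ¬ bad g p).card = Bf.card :=
        fun g => Finset.card_filter_add_card_filter_not _
      rw [Finset.sum_congr rfl fun g _ => h2 g, Finset.sum_const, Finset.card_univ, smul_eq_mul,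
        Nat.card_eq_fintype_card, mul_comm]
    rw [h1, Finset.sum_add_distrib, hdouble]
    refine Nat.add_le_add_left ?_ _
    refine le_trans (Finset.sum_le_card_nsmul _ _ S fun g _ => hgood g) ?_
    rw [Finset.card_univ, smul_eq_mul, Nat.card_eq_fintype_card]
  have hQ : 0 < Nat.card Q := by
    have : Nonempty Q := ⟨q₀⟩
    exact Nat.card_pos
  have hA : 0 < Nat.card A := Nat.card_pos
  have h1 : (∑ p ∈ Bf, (Finset.univ.filter fun g : A => bad g p).card) * Nat.card Q ≤
      Bf.card * (m * (W.ncard * Nat.card A)) := by
    rw [Finset.sum_mul]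
    refine le_trans (Finset.sum_le_card_nsmul _ _ _ fun p _ => hbad p) ?_
    rw [smul_eq_mul]
  rw [hvol]
  have h2 := Nat.mul_le_mul_left 2 (Nat.mul_le_mul_right (Nat.card Q) hcount)
  have h3 := Nat.mul_le_mul_left (Bf.card * Nat.card A) hm
  have h4 : (Nat.card A * Nat.card Q) * Bf.card ≤ (Nat.card A * Nat.card Q) * (2 * S) := by
    nlinarith
  exact Nat.le_of_mul_le_mul_left h4 (Nat.mul_pos hA hQ)

end Pool.Agent.BAB67
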