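import Pool.Agent.BAB67.Minor

/-!
# [BAB67-Bfs] cells around a set of points

`bfs_cells`: choose a linear order on `P` (for instance through an injection `P → ℕ`). For `p` let `δ p` be the least distance from `p` to a point of `N`, and
`c p` the least (in the order) point `x` of `N` with `H.dist p x = δ p`. The first three claims are clear (`c x = x` as only `x` has distance `0`).
Let `x ∈ N`. If `c p = x` and `p ≠ x` there is a neighbour `p'` of `p` with `H.dist p' x = H.dist p x - 1` (first step of a shortest walk). Then `c p' = x`:
for `y ∈ N`, `H.dist p y ≤ 1 + H.dist p' y`, so `H.dist p' y ≥ H.dist p x - 1 = H.dist p' x`, and in case of equality `H.dist p y ≤ H.dist p x`, so `x ≤ y` in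
the order. So by induction on `H.dist p x` every `p` with `c p = x` is reachable from `x` within the fibre.
-/

set_option autoImplicit false

namespace Pool.Agent.BAB67

theorem bfs_cells {P : Type} [Finite P] (H : SimpleGraph P) (hH : H.Connected) (N : Set P) (hN : N.Nonempty) :
    ∃ c : P → P, (∀ p, c p ∈ N) ∧ (∀ x ∈ N, c x = x) ∧ (∀ p, ∀ x ∈ N, H.dist p (c p) ≤ H.dist p x) ∧
      ∀ x ∈ N, (H.induce {p | c p = x}).Connected := by
  classical
  obtain ⟨n, ⟨e⟩⟩ := Finite.exists_equiv_fin P
  have hex : ∀ p : P, ∃ x ∈ N, ∀ y ∈ N, H.dist p x < H.dist p y ∨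
      (H.dist p x = H.dist p y ∧ (e x : ℕ) ≤ e y) := by
    intro p
    obtain ⟨x, hx, hmin⟩ := Set.exists_min_image N (fun x => toLex (H.dist p x, (e x : ℕ)))
      (Set.toFinite N) hN
    refine ⟨x, hx, fun y hy => ?_⟩
    have h1 := hmin y hy
    rw [Prod.Lex.le_iff] at h1
    exact h1
  choose c hcN hcmin using hex
  refine ⟨c, hcN, ?_, ?_, ?_⟩
  · intro x hx
    have h0 : H.dist x x = 0 := SimpleGraph.dist_self
    rcases hcmin x x hx with h1 | h1
    · omega
    · have h2 : H.dist x (c x) = 0 := by omega
      exact ((hH.dist_eq_zero_iff).1 h2).symm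
  · intro p x hx
    rcases hcmin p x hx with h1 | h1
    · exact h1.le
    · exact h1.1.le
  · intro x hx
    have hcx : c x = x := by
      have h0 : H.dist x x = 0 := SimpleGraph.dist_self
      rcases hcmin x x hx with h1 | h1
      · omega
      · have h2 : H.dist x (c x) = 0 := by omega
        exact ((hH.dist_eq_zero_iff).1 h2).symm
    have key : ∀ m : ℕ, ∀ p : P, ∀ hp : c p = x, H.dist p x = m →
        (H.induce {p | c p = x}).Reachable ⟨p, hp⟩ ⟨x, hcx⟩ := by
      intro m
      induction m with
      | zero =>
        intro p hp hd
        have h1 : p = x := (hH.dist_eq_zero_iff).1 hd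
        subst h1
        exact SimpleGraph.Reachable.refl _
      | succ m ih =>
        intro p hp hd
        obtain ⟨w, hw⟩ := (hH.preconnected p x).exists_walk_length_eq_dist
        rw [hd] at hw
        cases w with
        | nil => simp at hw
        | @cons _ p' _ hadj w' =>
          rw [SimpleGraph.Walk.length_cons] at hw
          have h1 : H.dist p' x ≤ m := by
            have := SimpleGraph.dist_le w'
            omega
          have hpp : H.dist p p' = 1 := SimpleGraph.dist_eq_one_iff_adj.2 hadj
          have h2 : H.dist p x ≤ H.dist p p' + H.dist p' x := hH.dist_triangle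
          have h3 : H.dist p' x = m := by omega
          have h4 : c p' = x := by
            have h5 := hcmin p' x hx
            have h6 := hcmin p (c p') (hcN p')
            rw [hp] at h6
            have h7 : H.dist p (c p') ≤ H.dist p p' + H.dist p' (c p') := hH.dist_triangle
            have h8 : (e (c p') : ℕ) = e x := by
              rcases h5 with h5 | h5
              · omega
              · rcases h6 with h6 | h6
                · omega
                · omega
            exact e.injective (Fin.ext h8)
          have h9 := ih p' h4 h3
          refine SimpleGraph.Reachable.trans ?_ h9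
          apply SimpleGraph.Adj.reachable
          exact hadj
    have hne : Nonempty ({p | c p = x} : Set P) := ⟨⟨x, hcx⟩⟩
    refine { preconnected := ?_, nonempty := hne }
    rintro ⟨p, hp⟩ ⟨q, hq⟩
    exact (key _ p hp rfl).trans (key _ q hq rfl).symm

end Pool.Agent.BAB67
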