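import Pool.Agent.BAB67.Minor

/-!
# [BAB67-Bip] distances in the bipartite graph and in the half graph

`half_dist`: a walk of `half I` of length `n` from `q` to `q'` gives a walk of length `2 n` of `bip I`; a walk of `bip I` from `inr q` to `inr q'` alternates,
has even length `2 n` and gives a walk of length at most `n` of `half I` (consecutive points of `Q` on the walk are equal or adjacent in `half I`); prove by
strong induction on the length, taking off two steps: every walk of `bip I` of length `n` from `inr q` to `inr q'` gives a walk of `half I` of length `m` with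
`2 m ≤ n`. `half_conn`: the same (`Q` is not empty: `hQ`).
-/

set_option autoImplicit false

namespace Pool.Agent.BAB67

private lemma walk_bip {O Q : Type} {I : O → Q → Prop} {q q' : Q} (w : (half I).Walk q q') :
    ∃ p : (bip I).Walk (Sum.inr q) (Sum.inr q'), p.length = 2 * w.length := by
  induction w with
  | nil => exact ⟨SimpleGraph.Walk.nil, rfl⟩
  | @cons a b c h w ih =>
    obtain ⟨p, hp⟩ := ih
    obtain ⟨_, o, h1, h2⟩ := h
    have e1 : (bip I).Adj (Sum.inr a) (Sum.inl o) := Or.inr ⟨o, a, rfl, rfl, h1⟩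
    have e2 : (bip I).Adj (Sum.inl o) (Sum.inr b) := Or.inl ⟨o, b, rfl, rfl, h2⟩
    refine ⟨SimpleGraph.Walk.cons e1 (SimpleGraph.Walk.cons e2 p), ?_⟩
    rw [SimpleGraph.Walk.length_cons, SimpleGraph.Walk.length_cons, SimpleGraph.Walk.length_cons, hp]
    ring

private lemma walk_half {O Q : Type} {I : O → Q → Prop} {a b : O ⊕ Q} (p : (bip I).Walk a b) :
    (∀ q q', a = Sum.inr q → b = Sum.inr q' → ∃ w : (half I).Walk q q', 2 * w.length ≤ p.length) ∧
      (∀ o q', a = Sum.inl o → b = Sum.inr q' →
        ∃ q, I o q ∧ ∃ w : (half I).Walk q q', 2 * w.length + 1 ≤ p.length) := by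
  induction p with
  | nil =>
    refine ⟨fun q q' h1 h2 => ?_, fun o q' h1 h2 => ?_⟩
    · have h3 : q = q' := Sum.inr.inj (h1.symm.trans h2)
      subst h3
      exact ⟨SimpleGraph.Walk.nil, le_rfl⟩
    · exact absurd (h1.symm.trans h2) (by simp)
  | @cons a c b h p ih =>
    obtain ⟨ih1, ih2⟩ := ih
    refine ⟨fun q q' h1 h2 => ?_, fun o q' h1 h2 => ?_⟩
    · subst h1
      rcases h with ⟨o, q1, h3, _, _⟩ | ⟨o, q1, h3, h4, h5⟩
      · exact absurd h3 (by simp)
      · have h6 : q = q1 := Sum.inr.inj h4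
        subst h6
        obtain ⟨q2, h7, w, hw⟩ := ih2 o q' h3 h2
        rw [SimpleGraph.Walk.length_cons]
        by_cases hq : q = q2
        · subst hq
          exact ⟨w, by omega⟩
        · refine ⟨SimpleGraph.Walk.cons ⟨hq, o, h5, h7⟩ w, ?_⟩
          rw [SimpleGraph.Walk.length_cons]
          omega
    · subst h1
      rcases h with ⟨o1, q1, h3, h4, h5⟩ | ⟨o1, q1, _, h4, _⟩
      · have h6 : o = o1 := Sum.inl.inj h3
        subst h6
        obtain ⟨w, hw⟩ := ih1 q1 q' h4 h2
        rw [SimpleGraph.Walk.length_cons]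
        exact ⟨q1, h5, w, by omega⟩
      · exact absurd h4 (by simp)

theorem half_conn {O Q : Type} {I : O → Q → Prop} (h : (bip I).Connected) (hQ : Nonempty Q) :
    (half I).Connected := by
  refine (SimpleGraph.connected_iff _).2 ⟨fun q q' => ?_, hQ⟩
  obtain ⟨p⟩ := h.preconnected (Sum.inr q) (Sum.inr q')
  obtain ⟨w, _⟩ := (walk_half p).1 q q' rfl rfl
  exact ⟨w⟩

theorem half_dist {O Q : Type} {I : O → Q → Prop} (h : (bip I).Connected) (q q' : Q) :
    (bip I).dist (Sum.inr q) (Sum.inr q') = 2 * (half I).dist q q' := by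
  refine le_antisymm ?_ ?_
  · obtain ⟨w, hw⟩ := (half_conn h ⟨q⟩).exists_walk_length_eq_dist q q'
    obtain ⟨p, hp⟩ := walk_bip w
    rw [← hw, ← hp]
    exact SimpleGraph.dist_le p
  · obtain ⟨p, hp⟩ := h.exists_walk_length_eq_dist (Sum.inr q) (Sum.inr q')
    obtain ⟨w, hw⟩ := (walk_half p).1 q q' rfl rfl
    have h1 := SimpleGraph.dist_le w
    omega

end Pool.Agent.BAB67
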