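import Pool.Agent.BAB67.Bfs
import Pool.Agent.BAB67.Bip

/-!
# [BAB67-CellBip] the cell property for half graphs of connected `K_h`-free bipartite graphs

`cellProp_half`: let `k`, `N ⊆ Q` be given (`N` is not empty). `bfs_cells` for `bip I` and `N' = Sum.inr '' N` gives `c : O ⊕ Q → O ⊕ Q` with values in `N'`; let `c' : O ⊕ Q → N` be the
corresponding map (`c a = Sum.inr (c' a)`) and `M = fgraph (bip I) c'`; it is a minor of `bip I` (`fgraph_minor`; the fibre of `c'` over `x` is the fibre of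
`c` over `Sum.inr x`), so `K_h`-free. The map is `q ↦ c' (inr q)`. `2 (half I).dist q (c' q) = (bip I).dist (inr q) (c (inr q)) ≤ (bip I).dist (inr q) (inr x) = 2 (half I).dist q x ≤ 2 k` for the
`x ∈ N` with `(half I).dist q x ≤ k`. Let `q, q'` be adjacent, `o` a common neighbour; take `x = c' (inl o)`. As `inr q` and `inl o` are adjacent, `c' (inr q) = x` or they
are adjacent in `M`; the same for `q'`. `(bip I).dist (inl o) (inr x) ≤ (bip I).dist (inl o) (c (inr q)) ≤ 1 + 2 k`, so `2 (half I).dist q x ≤ 2 k + 2`.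
-/

set_option autoImplicit false

namespace Pool.Agent.BAB67

theorem cellProp_half {h : ℕ} {O Q : Type} [Finite O] [Finite Q] {I : O → Q → Prop} (hI : (bip I).Connected)
    (hQ : Nonempty Q) (hf : ¬ HasModel h (bip I)) : CellProp h (half I) := by
  intro k N hN
  have hNne : N.Nonempty := by
    obtain ⟨q⟩ := hQ
    obtain ⟨x, hx, -⟩ := hN q
    exact ⟨x, hx⟩
  obtain ⟨c, hc1, hc2, hc3, hc4⟩ := bfs_cells (bip I) hI (Sum.inr '' N) (hNne.image _)
  have hex : ∀ a, ∃ x : N, c a = Sum.inr (x : Q) := by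
    intro a
    obtain ⟨x, hx, hx2⟩ := hc1 a
    exact ⟨⟨x, hx⟩, hx2.symm⟩
  choose c' hc' using hex
  have hiff : ∀ a (x : N), c' a = x ↔ c a = Sum.inr (x : Q) := by
    intro a x
    rw [hc' a]
    constructor
    · rintro rfl
      rfl
    · intro h1
      exact Subtype.ext (Sum.inr_injective h1)
  have hM : MinorOf (fgraph (bip I) c') (bip I) := by
    refine fgraph_minor (bip I) c' ?_
    intro x
    have h1 : {p | c' p = x} = {p | c p = Sum.inr (x : Q)} := by
      ext a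
      exact hiff a x
    rw [h1]
    exact hc4 _ ⟨x, x.2, rfl⟩
  have hadj : ∀ a b, (bip I).Adj a b → c' a = c' b ∨ (fgraph (bip I) c').Adj (c' a) (c' b) := by
    intro a b hab
    by_cases h1 : c' a = c' b
    · exact Or.inl h1
    · exact Or.inr ⟨h1, a, b, rfl, rfl, hab⟩
  refine ⟨fgraph (bip I) c', fun q => c' (Sum.inr q), fun hm => hf (hM.hasModel hm), ?_, ?_⟩
  · intro q
    obtain ⟨x, hx, hxk⟩ := hN q
    have h1 := hc3 (Sum.inr q) (Sum.inr x) ⟨x, hx, rfl⟩
    rw [hc', half_dist hI, half_dist hI] at h1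
    change (half I).dist q (c' (Sum.inr q)) ≤ k
    omega
  · rintro q q' ⟨hne, o, ho, ho'⟩
    have hqo : (bip I).Adj (Sum.inr q) (Sum.inl o) := Or.inr ⟨o, q, rfl, rfl, ho⟩
    have hoq : (bip I).Adj (Sum.inl o) (Sum.inr q') := Or.inl ⟨o, q', rfl, rfl, ho'⟩
    refine ⟨c' (Sum.inl o), hadj _ _ hqo, hadj _ _ hoq, ?_⟩
    obtain ⟨x, hx, hxk⟩ := hN q
    have h1 := hc3 (Sum.inl o) (Sum.inr x) ⟨x, hx, rfl⟩
    have h2 : (bip I).dist (Sum.inl o) (Sum.inr x) ≤
        (bip I).dist (Sum.inl o) (Sum.inr q) + (bip I).dist (Sum.inr q) (Sum.inr x) :=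
      hI.dist_triangle
    have h3 : (bip I).dist (Sum.inl o) (Sum.inr q) = 1 := SimpleGraph.dist_eq_one_iff_adj.2 hqo.symm
    have h4 : (bip I).dist (Sum.inr q) (Sum.inr (c' (Sum.inl o) : Q)) ≤
        (bip I).dist (Sum.inr q) (Sum.inl o) +
          (bip I).dist (Sum.inl o) (Sum.inr (c' (Sum.inl o) : Q)) := hI.dist_triangle
    have h5 : (bip I).dist (Sum.inr q) (Sum.inl o) = 1 := SimpleGraph.dist_eq_one_iff_adj.2 hqo
    rw [hc'] at h1
    rw [half_dist hI] at h2 h4
    omega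

end Pool.Agent.BAB67
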