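import Pool.Agent.BAB67.Bfs

/-!
# [BAB67-CellVT] the cell property for connected `K_h`-free graphs

`cellProp_of_free`: let `k`, `N` be given (`N` is not empty: `Q` is not empty as `T` is connected). `bfs_cells` gives `c : Q → Q`; let `c' : Q → N` be the same map and
`M = fgraph T c'`. The fibres of `c'` are connected, so `M` is a minor of `T` (`fgraph_minor`), hence `K_h`-free (`MinorOf.hasModel`). `T.dist q (c q) ≤ k` by the
minimality of `T.dist q (c q)`. For adjacent `q, q'` take `x = c' q'`: `c' q = x` or `M.Adj (c' q) x`, and `T.dist q x ≤ 1 + T.dist q' x ≤ k + 1`.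
-/

set_option autoImplicit false

namespace Pool.Agent.BAB67

theorem cellProp_of_free {h : ℕ} {Q : Type} [Finite Q] {T : SimpleGraph Q} (hT : T.Connected)
    (hf : ¬ HasModel h T) : CellProp h T := by
  intro k N hN
  obtain ⟨q0⟩ := hT.nonempty
  obtain ⟨x0, hx0, -⟩ := hN q0
  obtain ⟨c, hcN, -, hcd, hcc⟩ := bfs_cells T hT N ⟨x0, hx0⟩
  refine ⟨fgraph T (fun q => (⟨c q, hcN q⟩ : N)), fun q => ⟨c q, hcN q⟩, ?_, ?_, ?_⟩
  · intro hm
    refine hf ((fgraph_minor T _ ?_).hasModel hm)
    rintro ⟨x, hx⟩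
    have e : {p | (⟨c p, hcN p⟩ : N) = ⟨x, hx⟩} = {p | c p = x} := by
      ext p
      simp
    rw [e]
    exact hcc x hx
  · intro q
    obtain ⟨x, hx, hd⟩ := hN q
    exact (hcd q x hx).trans hd
  · intro q q' hqq
    refine ⟨⟨c q', hcN q'⟩, ?_, Or.inl rfl, ?_⟩
    · by_cases h : c q = c q'
      · exact Or.inl (Subtype.ext h)
      · exact Or.inr ⟨fun h' => h (congrArg Subtype.val h'), q, q', rfl, rfl, hqq⟩
    · obtain ⟨x, hx, hd⟩ := hN q'
      have h1 : T.dist q' (c q') ≤ k := (hcd q' x hx).trans hd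
      have h2 : T.dist q (c q') ≤ T.dist q q' + T.dist q' (c q') := hT.dist_triangle
      have h3 : T.dist q q' = 1 := SimpleGraph.dist_eq_one_iff_adj.2 hqq
      change T.dist q (c q') ≤ k + 1
      omega

end Pool.Agent.BAB67
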