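import Pool.Agent.BAB67.PermQ

/-!
# [BAB67-ClassPerm] permutations which preserve the classes of an equivalence relation

`classPerm_quot`. Suppose `f` is surjective. For `b : β` let `N b` be the set of the `σ ∈ ClassPerm r` which fix all `c` not related to `b`; it is a normal subgroup, and it is
the image of the homomorphism `Perm {c // r c b} → ClassPerm r` (`Equiv.Perm.ofSubtype` / extension by the identity; the result preserves the classes). The image of `N b` in `G` is
normal (`f` is surjective), so trivial or `G`; by `perm_quot` it is not `G`. So `f σ = 1` for `σ ∈ N b`, for all `b`. Every `σ ∈ ClassPerm r` has `f σ = 1`, by induction on the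
number of points moved by `σ`: if `σ b ≠ b`, let `σ'` be `σ` on the class of `b` and the identity elsewhere; `σ' ∈ N b` and `σ'⁻¹ σ` moves less points. So `G` is trivial, a
contradiction to `hG`.
-/

set_option autoImplicit false

namespace Pool.Agent.BAB67

universe u v

/-- The permutations preserving every class of `r`. -/
def ClassPerm {β : Type u} (r : Setoid β) : Subgroup (Equiv.Perm β) where
  carrier := {σ | ∀ c, r (σ c) c}
  mul_mem' := by
    intro σ τ h1 h2 c
    exact r.trans (h1 (τ c)) (h2 c)
  one_mem' := fun c => r.refl c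
  inv_mem' := by
    intro σ h c
    have h1 := h (σ⁻¹ c)
    rw [show σ (σ⁻¹ c) = c from σ.apply_symm_apply c] at h1
    exact r.symm h1

/-- The permutations preserving all classes and fixing everything outside of the class of `b`. -/
private def classPermN {β : Type u} (r : Setoid β) (b : β) : Subgroup (ClassPerm r) where
  carrier := {σ | ∀ c, ¬ r c b → σ.1 c = c}
  mul_mem' := by
    intro σ τ h1 h2 c hc
    change σ.1 (τ.1 c) = c
    rw [h2 c hc, h1 c hc]
  one_mem' := fun c _ => rfl
  inv_mem' := by
    intro σ h c hc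
    change σ.1⁻¹ c = c
    rw [Equiv.Perm.inv_eq_iff_eq, h c hc]

private theorem classPermN_normal {β : Type u} (r : Setoid β) (b : β) : (classPermN r b).Normal := by
  constructor
  intro σ hσ τ c hc
  have h1 : ¬ r (τ.1⁻¹ c) b := by
    intro h
    apply hc
    have h2 := τ.2 (τ.1⁻¹ c)
    rw [show τ.1 (τ.1⁻¹ c) = c from τ.1.apply_symm_apply c] at h2
    exact r.trans h2 h
  change τ.1 (σ.1 (τ.1⁻¹ c)) = c
  rw [hσ _ h1]
  exact τ.1.apply_symm_apply c

private theorem classPerm_iff {β : Type u} {r : Setoid β} (σ : ClassPerm r) (b c : β) :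
    r (σ.1 c) b ↔ r c b :=
  ⟨fun h => r.trans (r.symm (σ.2 c)) h, fun h => r.trans (σ.2 c) h⟩

open Classical in
/-- Extension by the identity. -/
private noncomputable def classPermE {β : Type u} (r : Setoid β) (b : β) :
    Equiv.Perm {c // r c b} →* ClassPerm r where
  toFun σ := ⟨Equiv.Perm.ofSubtype σ, by
    intro c
    by_cases hc : r c b
    · rw [Equiv.Perm.ofSubtype_apply_of_mem (p := fun c => r c b) σ hc]
      exact r.trans (σ ⟨c, hc⟩).2 (r.symm hc)
    · rw [Equiv.Perm.ofSubtype_apply_of_not_mem (p := fun c => r c b) σ hc]⟩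
  map_one' := Subtype.ext (map_one _)
  map_mul' σ τ := Subtype.ext (map_mul _ _ _)

private theorem classPermE_of_mem {β : Type u} {r : Setoid β} {b : β} {σ : ClassPerm r}
    (hσ : σ ∈ classPermN r b) :
    classPermE r b (σ.1.subtypePerm (p := fun c => r c b) (classPerm_iff σ b)) = σ := by
  classical
  apply Subtype.ext
  change Equiv.Perm.ofSubtype _ = σ.1
  apply Equiv.Perm.ofSubtype_subtypePerm
  intro c hc
  by_contra h
  exact hc (hσ c h)

/-- The restriction to a class. -/
private theorem classPerm_split {β : Type u} {r : Setoid β} (σ : ClassPerm r) (b : β) :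
    ∃ σ' ∈ classPermN r b, ∀ c, r c b → σ'.1 c = σ.1 c := by
  classical
  refine ⟨classPermE r b (σ.1.subtypePerm (p := fun c => r c b) (classPerm_iff σ b)), ?_, ?_⟩
  · intro c hc
    exact Equiv.Perm.ofSubtype_apply_of_not_mem (p := fun c => r c b) _ hc
  · intro c hc
    change Equiv.Perm.ofSubtype _ c = σ.1 c
    rw [Equiv.Perm.ofSubtype_apply_of_mem (p := fun c => r c b) _ hc]
    rfl

theorem classPerm_quot {β : Type u} [Finite β] (r : Setoid β) {G : Type v} [Group G] [IsSimpleGroup G] (hG : NC G)
    (f : ClassPerm r →* G) : ¬ Function.Surjective f := by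
  classical
  intro hf
  have hN : ∀ b, ∀ σ ∈ classPermN r b, f σ = 1 := by
    intro b σ hσ
    have h1 : ((classPermN r b).map f).Normal := (classPermN_normal r b).map f hf
    rcases h1.eq_bot_or_eq_top with h2 | h2
    · have h3 : f σ ∈ (classPermN r b).map f := ⟨σ, hσ, rfl⟩
      rw [h2] at h3
      exact Subgroup.mem_bot.1 h3
    · exfalso
      refine perm_quot hG (f.comp (classPermE r b)) fun g => ?_
      have h3 : g ∈ (classPermN r b).map f := by
        rw [h2]
        trivial
      obtain ⟨τ, hτ, h4⟩ := h3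
      exact ⟨_, by rw [MonoidHom.comp_apply, classPermE_of_mem hτ, h4]⟩
  have key : ∀ n, ∀ σ : ClassPerm r, {c | σ.1 c ≠ c}.ncard = n → f σ = 1 := by
    intro n
    induction n using Nat.strong_induction_on with
    | _ n ih =>
      intro σ hn
      by_cases h1 : ∀ c, σ.1 c = c
      · have h2 : σ = 1 := Subtype.ext (Equiv.ext h1)
        rw [h2, map_one]
      · push Not at h1
        obtain ⟨b, hb⟩ := h1
        obtain ⟨σ', hσ', h2⟩ := classPerm_split σ b
        have h3 : ∀ c, (σ'⁻¹ * σ).1 c ≠ c → σ.1 c ≠ c ∧ ¬ r c b := by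
          intro c hc
          have h4 : (σ'⁻¹ * σ).1 c = σ'.1⁻¹ (σ.1 c) := rfl
          have h5 : ¬ r c b := by
            intro h
            apply hc
            rw [h4, Equiv.Perm.inv_eq_iff_eq, h2 c h]
          refine ⟨fun h => hc ?_, h5⟩
          rw [h4, Equiv.Perm.inv_eq_iff_eq, h, hσ' c h5]
        have h4 : {c | (σ'⁻¹ * σ).1 c ≠ c}.ncard < n := by
          rw [← hn]
          refine Set.ncard_lt_ncard ⟨fun c hc => (h3 c hc).1, fun h => ?_⟩ (Set.toFinite _)
          exact (h3 b (h hb)).2 (r.refl b)
        have h5 := ih _ h4 (σ'⁻¹ * σ) rfl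
        rw [map_mul, map_inv, hN b σ' hσ', inv_one, one_mul] at h5
        exact h5
  obtain ⟨a, b, hab⟩ := hG
  obtain ⟨σ, rfl⟩ := hf a
  exact hab (by rw [key _ σ rfl, one_mul, mul_one])

end Pool.Agent.BAB67
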