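import Pool.Agent.BAB67.MinRep
import Pool.Agent.BAB67.ClassPerm

/-!
# [BAB67-CompFixed] no component of `Y` is moved

`comp_lift`: for `σ : Perm 𝓒` (`𝓒` the set of components) such that every component `c` is mapped by `σ` to a component in the orbit of `c` (there is `g_c ∈ A` with `g_c` mapping `c` to `σ c`), the map
`v ↦ g_{cc v} v` is an element of `A = CAut Y κ` which induces `σ` on `𝓒`: it maps the component `c` bijectively onto `σ c` (components are mapped onto components by `g_c`), so it is a bijection of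
`V`; adjacent vertices are in the same component, non-adjacent vertices in different components stay non-adjacent (they are in different components).
`MinRep.comp_fixed`. Let `A` act on `𝓒`, `ρ : A → Perm 𝓒`, `r` the setoid of orbits on `𝓒`. `ρ` maps `A` into `ClassPerm r`, and onto it by `comp_lift`. The kernel of `ρ` is `L = CAut Y κ'` with
`κ' v = (κ v, cc v)`. Suppose that some component is moved: `L ≠ A`. `L` is normalised by `A`, so every surjective `π : A → G` is trivial on `L` (`normal_trivial`), so `π` factors through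
`ClassPerm r → G`, which is surjective: contradiction to `classPerm_quot`.
`MinRep.connected`: `comp_moved` and `comp_fixed`.
-/

set_option autoImplicit false

namespace Pool.Agent.BAB67

universe w

variable {h : ℕ} {G : Type w} [Group G] {V α : Type} [Finite V] {Y : SimpleGraph V} {κ : V → α}

omit [Finite V] in
private theorem compFixed_reach {g : Equiv.Perm V} (hg : g ∈ CAut Y κ) {a b : V}
    (hab : Y.connectedComponentMk a = Y.connectedComponentMk b) :
    Y.connectedComponentMk (g a) = Y.connectedComponentMk (g b) := by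
  rw [SimpleGraph.ConnectedComponent.eq] at hab ⊢
  exact hab.map (⟨g, fun {x y} hxy => (hg.1 x y).2 hxy⟩ : Y →g Y)

omit [Finite V] in
private theorem compFixed_reach_inv {g : Equiv.Perm V} (hg : g ∈ CAut Y κ) {a b : V}
    (hab : Y.connectedComponentMk (g a) = Y.connectedComponentMk b) :
    Y.connectedComponentMk a = Y.connectedComponentMk (g⁻¹ b) := by
  have h1 := compFixed_reach ((CAut Y κ).inv_mem hg) hab
  rwa [show g⁻¹ (g a) = a from g.symm_apply_apply a] at h1

omit [Finite V] in
theorem comp_lift (σ : Equiv.Perm Y.ConnectedComponent) (hσ : ∀ c, ∃ g ∈ CAut Y κ, ∀ v,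
    Y.connectedComponentMk v = c → Y.connectedComponentMk (g v) = σ c) :
    ∃ g ∈ CAut Y κ, ∀ v, Y.connectedComponentMk (g v) = σ (Y.connectedComponentMk v) := by
  classical
  choose G' hG1 hG2 using hσ
  let f : V → V := fun v => G' (Y.connectedComponentMk v) v
  have hf : ∀ v, Y.connectedComponentMk (f v) = σ (Y.connectedComponentMk v) :=
    fun v => hG2 _ v rfl
  have hinj : Function.Injective f := by
    intro a b hab
    have h1 : σ (Y.connectedComponentMk a) = σ (Y.connectedComponentMk b) := by
      rw [← hf a, ← hf b, hab]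
    have h2 : Y.connectedComponentMk a = Y.connectedComponentMk b := σ.injective h1
    have h3 : G' (Y.connectedComponentMk a) a = G' (Y.connectedComponentMk a) b := by
      have h4 : f a = f b := hab
      have h5 : f b = G' (Y.connectedComponentMk a) b := by
        change G' (Y.connectedComponentMk b) b = _
        rw [h2]
      rw [← h5, ← h4]
    exact (G' (Y.connectedComponentMk a)).injective h3
  have hsurj : Function.Surjective f := by
    intro w
    set c := σ.symm (Y.connectedComponentMk w) with hc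
    have hσc : σ c = Y.connectedComponentMk w := σ.apply_symm_apply _
    obtain ⟨v0, hv0⟩ := c.exists_rep
    have hv0' : Y.connectedComponentMk v0 = c := hv0
    have h1 : Y.connectedComponentMk (G' c v0) = Y.connectedComponentMk w := by
      rw [hG2 c v0 hv0', hσc]
    have h2 := compFixed_reach_inv (hG1 c) h1
    refine ⟨(G' c)⁻¹ w, ?_⟩
    change G' (Y.connectedComponentMk ((G' c)⁻¹ w)) ((G' c)⁻¹ w) = w
    rw [← h2, hv0']
    exact (G' c).apply_symm_apply w
  refine ⟨Equiv.ofBijective f ⟨hinj, hsurj⟩, ⟨fun a b => ?_, fun a => ?_⟩, fun v => hf v⟩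
  · change Y.Adj (f a) (f b) ↔ Y.Adj a b
    by_cases h1 : Y.connectedComponentMk a = Y.connectedComponentMk b
    · have h5 : f b = G' (Y.connectedComponentMk a) b := by
        change G' (Y.connectedComponentMk b) b = _
        rw [h1]
      rw [h5]
      exact (hG1 (Y.connectedComponentMk a)).1 a b
    · constructor
      · intro h2
        have h3 : Y.connectedComponentMk (f a) = Y.connectedComponentMk (f b) :=
          SimpleGraph.ConnectedComponent.eq.2 h2.reachable
        rw [hf, hf] at h3
        exact absurd (σ.injective h3) h1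
      · intro h2
        exact absurd (SimpleGraph.ConnectedComponent.eq.2 h2.reachable) h1
  · exact (hG1 (Y.connectedComponentMk a)).2 a

theorem MinRep.comp_fixed [IsSimpleGroup G] (hG : NC G) (hm : MinRep h G Y κ) :
    ∀ g ∈ CAut Y κ, ∀ v, Y.connectedComponentMk (g v) = Y.connectedComponentMk v := by
  classical
  by_contra hcon
  push Not at hcon
  obtain ⟨g₀, hg₀, v₀, hv₀⟩ := hcon
  obtain ⟨π, hπ⟩ := hm.rep
  let κ' : V → α × Y.ConnectedComponent := fun v => (κ v, Y.connectedComponentMk v)
  have hL : ∀ g, g ∈ CAut Y κ' ↔ g ∈ CAut Y κ ∧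
      ∀ v, Y.connectedComponentMk (g v) = Y.connectedComponentMk v := by
    intro g
    constructor
    · rintro ⟨h1, h2⟩
      exact ⟨⟨h1, fun a => congrArg Prod.fst (h2 a)⟩, fun a => congrArg Prod.snd (h2 a)⟩
    · rintro ⟨⟨h1, h2⟩, h3⟩
      exact ⟨h1, fun a => Prod.ext (h2 a) (h3 a)⟩
  have hle : CAut Y κ' ≤ CAut Y κ := fun g hg => ((hL g).1 hg).1
  have hne : CAut Y κ' ≠ CAut Y κ := by
    intro h1
    have h2 : g₀ ∈ CAut Y κ' := by rw [h1]; exact hg₀
    exact hv₀ (((hL g₀).1 h2).2 v₀)
  have hn : ∀ g ∈ CAut Y κ, ∀ x ∈ CAut Y κ', g * x * g⁻¹ ∈ CAut Y κ' := by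
    intro g hg x hx
    refine (hL _).2 ⟨mul_mem (mul_mem hg (hle hx)) (inv_mem hg), fun v => ?_⟩
    have h1 := compFixed_reach hg (((hL x).1 hx).2 (g⁻¹ v))
    rwa [show g (g⁻¹ v) = v from g.apply_symm_apply v] at h1
  have htriv := hm.normal_trivial hle hne hn π hπ
  -- the orbits on the set of components
  let r : Setoid Y.ConnectedComponent :=
    { r := fun c c' => ∃ g ∈ CAut Y κ, ∀ v, Y.connectedComponentMk v = c →
        Y.connectedComponentMk (g v) = c'
      iseqv := by
        refine ⟨fun c => ⟨1, one_mem _, fun v hv => hv⟩, ?_, ?_⟩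
        · rintro c c' ⟨g, hg, h1⟩
          refine ⟨g⁻¹, inv_mem hg, fun v hv => ?_⟩
          obtain ⟨v0, hv0⟩ := c.exists_rep
          have hv0' : Y.connectedComponentMk v0 = c := hv0
          have h2 : Y.connectedComponentMk (g v0) = Y.connectedComponentMk v := by
            rw [h1 v0 hv0', hv]
          rw [← compFixed_reach_inv hg h2, hv0']
        · rintro c c' c'' ⟨g, hg, h1⟩ ⟨g', hg', h2⟩
          exact ⟨g' * g, mul_mem hg' hg, fun v hv => h2 (g v) (h1 v hv)⟩ }
  have hlift : ∀ σ : ClassPerm r, ∃ g, ∃ hg : g ∈ CAut Y κ,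
      ∀ v, Y.connectedComponentMk (g v) = σ.1 (Y.connectedComponentMk v) := by
    intro σ
    obtain ⟨g, hg, h1⟩ := comp_lift (Y := Y) (κ := κ) σ.1 (fun c => r.symm (σ.2 c))
    exact ⟨g, hg, h1⟩
  choose L hL1 hL2 using hlift
  have hwd : ∀ (σ : ClassPerm r) (g : Equiv.Perm V) (hg : g ∈ CAut Y κ),
      (∀ v, Y.connectedComponentMk (g v) = σ.1 (Y.connectedComponentMk v)) →
      π ⟨L σ, hL1 σ⟩ = π ⟨g, hg⟩ := by
    intro σ g hg h1
    have h2 : g⁻¹ * L σ ∈ CAut Y κ' := by
      refine (hL _).2 ⟨mul_mem (inv_mem hg) (hL1 σ), fun v => ?_⟩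
      have h3 : Y.connectedComponentMk (g v) = Y.connectedComponentMk (L σ v) := by
        rw [h1, hL2]
      exact (compFixed_reach_inv hg h3).symm
    have h3 := htriv _ h2
    have h4 : (⟨L σ, hL1 σ⟩ : CAut Y κ) = ⟨g, hg⟩ * ⟨g⁻¹ * L σ, hle h2⟩ := by
      apply Subtype.ext
      change L σ = g * (g⁻¹ * L σ)
      group
    rw [h4, map_mul, h3, mul_one]
  let F : ClassPerm r →* G :=
    { toFun := fun σ => π ⟨L σ, hL1 σ⟩
      map_one' := by
        rw [hwd 1 1 (one_mem _) (fun v => rfl)]
        exact map_one π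
      map_mul' := by
        intro σ τ
        rw [hwd (σ * τ) (L σ * L τ) (mul_mem (hL1 σ) (hL1 τ)) (fun v => by
          rw [Equiv.Perm.mul_apply, hL2, hL2]
          rfl), ← map_mul]
        rfl }
  have : Finite Y.ConnectedComponent :=
    Finite.of_surjective Y.connectedComponentMk (fun c => c.exists_rep)
  refine classPerm_quot r hG F fun x => ?_
  obtain ⟨⟨a, ha⟩, rfl⟩ := hπ x
  let ρ : Equiv.Perm Y.ConnectedComponent :=
    { toFun := SimpleGraph.ConnectedComponent.map (⟨a, fun {x y} hxy => (ha.1 x y).2 hxy⟩ : Y →g Y)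
      invFun := SimpleGraph.ConnectedComponent.map
        (⟨(a⁻¹ : Equiv.Perm V), fun {x y} hxy => (((CAut Y κ).inv_mem ha).1 x y).2 hxy⟩ : Y →g Y)
      left_inv := by
        intro c
        obtain ⟨v, rfl⟩ := c.exists_rep
        change Y.connectedComponentMk (a⁻¹ (a v)) = Y.connectedComponentMk v
        rw [show a⁻¹ (a v) = v from a.symm_apply_apply v]
      right_inv := by
        intro c
        obtain ⟨v, rfl⟩ := c.exists_rep
        change Y.connectedComponentMk (a (a⁻¹ v)) = Y.connectedComponentMk v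
        rw [show a (a⁻¹ v) = v from a.apply_symm_apply v] }
  have hρ : ∀ v, Y.connectedComponentMk (a v) = ρ (Y.connectedComponentMk v) := fun v => rfl
  have hρr : ρ ∈ ClassPerm r := fun c => r.symm ⟨a, ha, fun v hv => by rw [hρ, hv]⟩
  exact ⟨⟨ρ, hρr⟩, hwd ⟨ρ, hρr⟩ a ha hρ⟩

end Pool.Agent.BAB67
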