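import Pool.Agent.BAB67.MinRep

/-!
# [BAB67-CompMoved] if `Y` is not connected some component is moved

`MinRep.comp_moved`. Write `cc v` for the component of `v` and `A = CAut Y κ`. Suppose that `cc (g v) = cc v` for all `g ∈ A` and all `v`, and that `Y` is not connected. Let `π : A → G` be surjective.
For a component `c` let `κ_c : V → α × Option V`, `κ_c v = (κ v, none)` if `cc v = c` and `(κ v, some v)` otherwise; `A_c = CAut Y κ_c ≤ A` is the group of the elements of `A` which fix all
points outside of `c`. It is normalised by `A` (as `A` preserves `c`). For `g ∈ A` and a component `c` let `g_c` be `g` on `c` and the identity outside: `g_c ∈ A_c` (adjacent vertices are in the same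
component). If `π` is trivial on all `A_c` then `π = 1`: for a set `S` of components let `g_S` be `g` on the union of `S` and the identity outside; `π g_S = 1` by induction on `S` (finitely many
components), since `g_{S ∪ {c}} = g_c g_S`; for the set of all components this is `g`. So `G` would be trivial, which it is not. So there is `c` with `π` not trivial on `A_c`; by
`normal_trivial`, `A_c = A`. As `Y` is not connected (and `V` not empty) there is `v` with `cc v ≠ c`; it is fixed by `A_c = A`, contradiction to `MinRep.moved`.
-/

set_option autoImplicit false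

namespace Pool.Agent.BAB67

universe w

variable {h : ℕ} {G : Type w} [Group G] {V α : Type} [Finite V] {Y : SimpleGraph V} {κ : V → α}

open Classical in
/-- the colouring which fixes all points outside of the component `c` -/
private noncomputable def compMovedCol (Y : SimpleGraph V) (κ : V → α) (c : Y.ConnectedComponent) (v : V) :
    α × Option V := (κ v, if Y.connectedComponentMk v = c then none else some v)

open Classical in
/-- `g` on the component `c` and the identity outside -/
private noncomputable def compMovedPart (Y : SimpleGraph V) (g : Equiv.Perm V) (c : Y.ConnectedComponent)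
    (hg : ∀ v, Y.connectedComponentMk (g v) = Y.connectedComponentMk v)
    (hg' : ∀ v, Y.connectedComponentMk (g⁻¹ v) = Y.connectedComponentMk v) : Equiv.Perm V where
  toFun v := if Y.connectedComponentMk v = c then g v else v
  invFun v := if Y.connectedComponentMk v = c then g⁻¹ v else v
  left_inv := by
    intro v
    beta_reduce
    by_cases hv : Y.connectedComponentMk v = c
    · have h1 : Y.connectedComponentMk (g v) = c := (hg v).trans hv
      rw [if_pos hv, if_pos h1]
      exact g.symm_apply_apply v
    · rw [if_neg hv, if_neg hv]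
  right_inv := by
    intro v
    beta_reduce
    by_cases hv : Y.connectedComponentMk v = c
    · have h1 : Y.connectedComponentMk (g⁻¹ v) = c := (hg' v).trans hv
      rw [if_pos hv, if_pos h1]
      exact g.apply_symm_apply v
    · rw [if_neg hv, if_neg hv]

omit [Finite V] in
private theorem compMoved_part_mem (Y : SimpleGraph V) (g : Equiv.Perm V) (c : Y.ConnectedComponent)
    (hg : ∀ v, Y.connectedComponentMk (g v) = Y.connectedComponentMk v)
    (hg' : ∀ v, Y.connectedComponentMk (g⁻¹ v) = Y.connectedComponentMk v) {v : V}
    (hv : Y.connectedComponentMk v = c) : compMovedPart Y g c hg hg' v = g v := if_pos hv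

omit [Finite V] in
private theorem compMoved_part_not (Y : SimpleGraph V) (g : Equiv.Perm V) (c : Y.ConnectedComponent)
    (hg : ∀ v, Y.connectedComponentMk (g v) = Y.connectedComponentMk v)
    (hg' : ∀ v, Y.connectedComponentMk (g⁻¹ v) = Y.connectedComponentMk v) {v : V}
    (hv : Y.connectedComponentMk v ≠ c) : compMovedPart Y g c hg hg' v = v := if_neg hv

omit [Finite V] in
private theorem compMoved_le (c : Y.ConnectedComponent) : CAut Y (compMovedCol Y κ c) ≤ CAut Y κ := by
  rintro x ⟨h1, h2⟩
  exact ⟨h1, fun a => congrArg Prod.fst (h2 a)⟩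

omit [Finite V] in
private theorem compMoved_fix {c : Y.ConnectedComponent} {x : Equiv.Perm V}
    (hx : x ∈ CAut Y (compMovedCol Y κ c)) {v : V} (hv : Y.connectedComponentMk v ≠ c) : x v = v := by
  classical
  have h1 : (if Y.connectedComponentMk (x v) = c then none else some (x v)) =
      (if Y.connectedComponentMk v = c then none else some v) := congrArg Prod.snd (hx.2 v)
  rw [if_neg hv] at h1
  by_cases h2 : Y.connectedComponentMk (x v) = c
  · rw [if_pos h2] at h1
    cases h1
  · rw [if_neg h2] at h1
    exact Option.some.inj h1

omit [Finite V] in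
private theorem compMoved_col {c : Y.ConnectedComponent} {x : Equiv.Perm V} (hx : ∀ a, κ (x a) = κ a)
    (h1 : ∀ v, Y.connectedComponentMk v = c → Y.connectedComponentMk (x v) = c)
    (h2 : ∀ v, Y.connectedComponentMk v ≠ c → x v = v) (v : V) :
    compMovedCol Y κ c (x v) = compMovedCol Y κ c v := by
  by_cases hv : Y.connectedComponentMk v = c
  · unfold compMovedCol
    rw [if_pos hv, if_pos (h1 v hv), hx]
  · rw [h2 v hv]

omit [Finite V] in
private theorem compMoved_part_CAut {g : Equiv.Perm V} (hgA : g ∈ CAut Y κ) (c : Y.ConnectedComponent)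
    (hg : ∀ v, Y.connectedComponentMk (g v) = Y.connectedComponentMk v)
    (hg' : ∀ v, Y.connectedComponentMk (g⁻¹ v) = Y.connectedComponentMk v) :
    compMovedPart Y g c hg hg' ∈ CAut Y (compMovedCol Y κ c) := by
  have hadj : ∀ a b, Y.Adj a b → Y.connectedComponentMk a = Y.connectedComponentMk b := fun a b hab =>
    SimpleGraph.ConnectedComponent.eq.mpr hab.reachable
  refine ⟨fun a b => ?_, compMoved_col (fun a => ?_) (fun v hv => ?_) fun v hv => ?_⟩
  · by_cases ha : Y.connectedComponentMk a = c
    · by_cases hb : Y.connectedComponentMk b = c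
      · rw [compMoved_part_mem Y g c hg hg' ha, compMoved_part_mem Y g c hg hg' hb]
        exact hgA.1 a b
      · rw [compMoved_part_mem Y g c hg hg' ha, compMoved_part_not Y g c hg hg' hb]
        constructor
        · intro h1
          exact (hb (by rw [← hadj _ _ h1, hg, ha])).elim
        · intro h1
          exact (hb (by rw [← hadj _ _ h1, ha])).elim
    · by_cases hb : Y.connectedComponentMk b = c
      · rw [compMoved_part_not Y g c hg hg' ha, compMoved_part_mem Y g c hg hg' hb]
        constructor
        · intro h1
          exact (ha (by rw [hadj _ _ h1, hg, hb])).elim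
        · intro h1
          exact (ha (by rw [hadj _ _ h1, hb])).elim
      · rw [compMoved_part_not Y g c hg hg' ha, compMoved_part_not Y g c hg hg' hb]
  · by_cases ha : Y.connectedComponentMk a = c
    · rw [compMoved_part_mem Y g c hg hg' ha]
      exact hgA.2 a
    · rw [compMoved_part_not Y g c hg hg' ha]
  · rw [compMoved_part_mem Y g c hg hg' hv, hg, hv]
  · exact compMoved_part_not Y g c hg hg' hv

theorem MinRep.comp_moved [IsSimpleGroup G] (hm : MinRep h G Y κ) (hc : ¬ Y.Connected) :
    ∃ g ∈ CAut Y κ, ∃ v, Y.connectedComponentMk (g v) ≠ Y.connectedComponentMk v := by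
  classical
  by_contra hcon
  push Not at hcon
  have hinv : ∀ g ∈ CAut Y κ, ∀ v, Y.connectedComponentMk (g⁻¹ v) = Y.connectedComponentMk v :=
    fun g hg v => hcon g⁻¹ (inv_mem hg) v
  have hne : Nonempty V := hm.nonempty
  obtain ⟨π, hπ⟩ := hm.rep
  -- every component misses some vertex
  have hmiss : ∀ c : Y.ConnectedComponent, ∃ v, Y.connectedComponentMk v ≠ c := by
    intro c
    by_contra h1
    push Not at h1
    refine hc ⟨fun a b => ?_⟩
    exact SimpleGraph.ConnectedComponent.eq.mp ((h1 a).trans (h1 b).symm)
  have htriv : ∀ (c : Y.ConnectedComponent) (x : Equiv.Perm V) (hx : x ∈ CAut Y (compMovedCol Y κ c)),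
      π ⟨x, compMoved_le c hx⟩ = 1 := by
    intro c x hx
    refine hm.normal_trivial (compMoved_le c) ?_ ?_ π hπ x hx
    · intro heq
      obtain ⟨v, hv⟩ := hmiss c
      obtain ⟨g, hg, hgv⟩ := hm.moved v
      rw [← heq] at hg
      exact hgv (compMoved_fix hg hv)
    · intro g hg y hy
      have hyA : y ∈ CAut Y κ := compMoved_le c hy
      have hmem : g * y * g⁻¹ ∈ CAut Y κ := mul_mem (mul_mem hg hyA) (inv_mem hg)
      refine ⟨hmem.1, compMoved_col hmem.2 (fun v hv => ?_) fun v hv => ?_⟩
      · rw [hcon _ hmem v, hv]
      · have h1 : Y.connectedComponentMk (g⁻¹ v) ≠ c := by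
          rw [hinv g hg v]
          exact hv
        have h2 : y (g⁻¹ v) = g⁻¹ v := compMoved_fix hy h1
        rw [Equiv.Perm.mul_apply, Equiv.Perm.mul_apply, h2]
        exact g.apply_symm_apply v
  -- by induction on the components which are moved
  have hall : ∀ (S : Finset Y.ConnectedComponent) (g : Equiv.Perm V) (hg : g ∈ CAut Y κ),
      (∀ v, Y.connectedComponentMk v ∉ S → g v = v) → π ⟨g, hg⟩ = 1 := by
    intro S
    induction S using Finset.induction_on with
    | empty =>
      intro g hg h1
      have h2 : g = 1 := Equiv.ext fun v => h1 v (Finset.notMem_empty _)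
      subst h2
      exact map_one π
    | insert c S _ ih =>
      intro g hg h1
      have hp : compMovedPart Y g c (hcon g hg) (hinv g hg) ∈ CAut Y (compMovedCol Y κ c) :=
        compMoved_part_CAut hg c (hcon g hg) (hinv g hg)
      have hpA := compMoved_le c hp
      have h2 : π ⟨(compMovedPart Y g c (hcon g hg) (hinv g hg))⁻¹ * g, mul_mem (inv_mem hpA) hg⟩ = 1 := by
        refine ih _ _ fun v hv => ?_
        rw [Equiv.Perm.mul_apply, Equiv.Perm.inv_eq_iff_eq]
        by_cases hvc : Y.connectedComponentMk v = c
        · rw [compMoved_part_mem Y g c _ _ hvc]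
        · rw [compMoved_part_not Y g c _ _ hvc]
          refine h1 v ?_
          rw [Finset.mem_insert]
          push Not
          exact ⟨hvc, hv⟩
      have h3 := htriv c _ hp
      have h4 : (⟨g, hg⟩ : CAut Y κ) = ⟨compMovedPart Y g c (hcon g hg) (hinv g hg), hpA⟩ *
          ⟨(compMovedPart Y g c (hcon g hg) (hinv g hg))⁻¹ * g, mul_mem (inv_mem hpA) hg⟩ := by
        apply Subtype.ext
        simp
      rw [h4, map_mul, h2, h3, mul_one]
  have hfin : Finite Y.ConnectedComponent :=
    Finite.of_surjective Y.connectedComponentMk fun c => c.ind fun v => ⟨v, rfl⟩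
  have hft : Fintype Y.ConnectedComponent := Fintype.ofFinite _
  obtain ⟨x, hx⟩ := exists_ne (1 : G)
  obtain ⟨⟨g, hg⟩, rfl⟩ := hπ x
  exact hx (hall Finset.univ g hg fun v hv => (hv (Finset.mem_univ _)).elim)

end Pool.Agent.BAB67
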