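import Pool.Agent.BAB67.Minor

/-!
# [BAB67-Contract] contracting an edge with few common neighbours

`contract_edge`: `V' = {w // w ≠ v}`, `G'.Adj a b` iff `a ≠ b` and (`G.Adj a b` or (`a = u` and `G.Adj v b`) or (`b = u` and `G.Adj v a`)). Branch sets:
`{a}` for `a ≠ u`, `{u, v}` for `u`. Edges: the edges of `G` are the edges not containing `v` (they are edges of `G'`), the edge `uv`, the edges `vw`,
`w ≠ u`, `w` not adjacent to `u` (each gives an edge `uw` of `G'` which is not an edge of `G`; different `w` give different edges) and the edges `vw`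
with `w` adjacent to `u` (there are `codeg < c` of them). So `|E(G)| ≤ |E(G')| + 1 + codeg ≤ |E(G')| + c`.
(It may be easier to count with `G.neighborSet v`, which is the disjoint union of `{u}`, common neighbours, others.)
-/

set_option autoImplicit false

namespace Pool.Agent.BAB67

open scoped Classical in
/-- the contraction map -/
private noncomputable def contractMap {V : Type} {u v : V} (huv : u ≠ v) (x : V) : {w : V // w ≠ v} :=
  if h : x = v then ⟨u, huv⟩ else ⟨x, h⟩

private theorem contractMap_v {V : Type} {u v : V} (huv : u ≠ v) :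
    ((contractMap huv v : {w : V // w ≠ v}) : V) = u := by
  simp [contractMap]

private theorem contractMap_ne {V : Type} {u v : V} (huv : u ≠ v) {x : V} (hx : x ≠ v) :
    ((contractMap huv x : {w : V // w ≠ v}) : V) = x := by
  simp [contractMap, hx]

private theorem contractMap_eq {V : Type} {u v : V} (huv : u ≠ v) {x y : V}
    (h : contractMap huv x = contractMap huv y) : x = y ∨ (x = u ∧ y = v) ∨ (x = v ∧ y = u) := by
  have h' := congrArg Subtype.val h
  by_cases hx : x = v
  · by_cases hy : y = v
    · exact Or.inl (hx.trans hy.symm)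
    · rw [contractMap_ne huv hy, hx, contractMap_v] at h'
      exact Or.inr (Or.inr ⟨hx, h'.symm⟩)
  · by_cases hy : y = v
    · rw [contractMap_ne huv hx, hy, contractMap_v] at h'
      exact Or.inr (Or.inl ⟨h', hy⟩)
    · rw [contractMap_ne huv hx, contractMap_ne huv hy] at h'
      exact Or.inl h'

/-- the bad edges: `uv` and the edges from `v` to the common neighbours -/
private def contractBad {V : Type} (G : SimpleGraph V) (u v : V) : Set (Sym2 V) :=
  insert s(u, v) ((fun w => s(v, w)) '' {w | G.Adj u w ∧ G.Adj v w})

private theorem contract_key {V : Type} {G : SimpleGraph V} {u v : V} (huv : G.Adj u v) {a b c d : V}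
    (hab : G.Adj a b) (hcd : G.Adj c d) (h1 : s(a, b) ∉ contractBad G u v) (h2 : s(c, d) ∉ contractBad G u v)
    (hac : contractMap huv.ne a = contractMap huv.ne c) (hbd : contractMap huv.ne b = contractMap huv.ne d) :
    a = c := by
  rcases contractMap_eq huv.ne hac with h | ⟨rfl, rfl⟩ | ⟨rfl, rfl⟩
  · exact h
  · exfalso
    rcases contractMap_eq huv.ne hbd with rfl | ⟨rfl, rfl⟩ | ⟨rfl, rfl⟩
    · exact h2 (Set.mem_insert_of_mem _ ⟨b, ⟨hab, hcd⟩, rfl⟩)
    · exact hab.ne rfl
    · exact h1 (Set.mem_insert _ _)
  · exfalso
    rcases contractMap_eq huv.ne hbd with rfl | ⟨rfl, rfl⟩ | ⟨rfl, rfl⟩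
    · exact h1 (Set.mem_insert_of_mem _ ⟨b, ⟨hcd, hab⟩, rfl⟩)
    · exact h1 (Set.mem_insert_iff.2 (Or.inl Sym2.eq_swap))
    · exact hab.ne rfl

theorem contract_edge {V : Type} [Finite V] (G : SimpleGraph V) {u v : V} (huv : G.Adj u v) (c : ℕ)
    (hc : {w | G.Adj u w ∧ G.Adj v w}.ncard < c) :
    ∃ (V' : Type) (_ : Finite V') (G' : SimpleGraph V'), MinorOf G' G ∧ Nat.card V' + 1 = Nat.card V ∧
      G.edgeSet.ncard ≤ G'.edgeSet.ncard + c := by
  refine ⟨{w : V // w ≠ v}, inferInstance, fgraph G (contractMap huv.ne), ?_, ?_, ?_⟩
  · refine fgraph_minor G _ ?_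
    rintro ⟨x, hx⟩
    by_cases hxu : x = u
    · have hset : {p | contractMap huv.ne p = ⟨x, hx⟩} = {u} ∪ {v} := by
        subst hxu
        ext p
        simp only [Set.mem_ofPred_eq, Set.mem_union, Set.mem_singleton_iff]
        constructor
        · intro h
          have h' := congrArg Subtype.val h
          by_cases hp : p = v
          · exact Or.inr hp
          · rw [contractMap_ne huv.ne hp] at h'
            exact Or.inl h'
        · rintro (rfl | rfl)
          · exact Subtype.ext (contractMap_ne huv.ne hx)
          · exact Subtype.ext (contractMap_v huv.ne)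
      rw [hset]
      exact conn_union_adj (conn_singleton G u) (conn_singleton G v) rfl rfl huv
    · have hset : {p | contractMap huv.ne p = ⟨x, hx⟩} = {x} := by
        ext p
        simp only [Set.mem_ofPred_eq, Set.mem_singleton_iff]
        constructor
        · intro h
          have h' := congrArg Subtype.val h
          by_cases hp : p = v
          · rw [hp, contractMap_v] at h'
            exact absurd h'.symm hxu
          · rw [contractMap_ne huv.ne hp] at h'
            exact h'
        · rintro rfl
          exact Subtype.ext (contractMap_ne huv.ne hx)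
      rw [hset]
      exact conn_singleton G x
  · have h1 : Nat.card {w : V // w ≠ v} = Nat.card V - 1 := by
      classical
      have := Fintype.ofFinite V
      rw [Nat.card_eq_fintype_card, Nat.card_eq_fintype_card, Fintype.card_subtype_compl,
        Fintype.card_subtype_eq]
    have h2 : 0 < Nat.card V := by
      have : Nonempty V := ⟨v⟩
      exact Nat.card_pos
    omega
  · have hbad : (contractBad G u v).ncard ≤ c := by
      have h1 := Set.ncard_insert_le s(u, v) ((fun w => s(v, w)) '' {w | G.Adj u w ∧ G.Adj v w})
      have h2 := Set.ncard_image_le (f := fun w => s(v, w)) (Set.toFinite {w | G.Adj u w ∧ G.Adj v w})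
      unfold contractBad
      omega
    have hinj : Set.InjOn (Sym2.map (contractMap huv.ne)) (G.edgeSet \ contractBad G u v) := by
      intro e he f hf hef
      induction e with
      | h a b =>
      induction f with
      | h p q =>
      obtain ⟨hab, hab'⟩ := he
      obtain ⟨hpq, hpq'⟩ := hf
      rw [SimpleGraph.mem_edgeSet] at hab hpq
      rw [Sym2.map_mk, Sym2.map_mk, Sym2.eq_iff] at hef
      rcases hef with ⟨h1, h2⟩ | ⟨h1, h2⟩
      · have e1 := contract_key huv hab hpq hab' hpq' h1 h2
        have e2 := contract_key huv hab.symm hpq.symm (by rwa [Sym2.eq_swap]) (by rwa [Sym2.eq_swap]) h2 h1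
        rw [e1, e2]
      · have e1 := contract_key huv hab hpq.symm hab' (by rwa [Sym2.eq_swap]) h1 h2
        have e2 := contract_key huv hab.symm hpq (by rwa [Sym2.eq_swap]) hpq' h2 h1
        rw [e1, e2, Sym2.eq_swap]
    have himg : Sym2.map (contractMap huv.ne) '' (G.edgeSet \ contractBad G u v) ⊆
        (fgraph G (contractMap huv.ne)).edgeSet := by
      rintro _ ⟨e, he, rfl⟩
      induction e with
      | h a b =>
      obtain ⟨hab, hab'⟩ := he
      rw [SimpleGraph.mem_edgeSet] at hab
      rw [Sym2.map_mk, SimpleGraph.mem_edgeSet]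
      refine ⟨?_, a, b, rfl, rfl, hab⟩
      intro heq
      rcases contractMap_eq huv.ne heq with h | ⟨rfl, rfl⟩ | ⟨rfl, rfl⟩
      · exact hab.ne h
      · exact hab' (Set.mem_insert _ _)
      · exact hab' (Set.mem_insert_iff.2 (Or.inl Sym2.eq_swap))
    have h3 : (G.edgeSet \ contractBad G u v).ncard ≤ (fgraph G (contractMap huv.ne)).edgeSet.ncard := by
      rw [← hinj.ncard_image]
      exact Set.ncard_le_ncard himg (Set.toFinite _)
    have h4 := Set.ncard_le_ncard_sdiff_add_ncard G.edgeSet (contractBad G u v)
    omega

end Pool.Agent.BAB67
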