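import Pool.Agent.BAB67.Contract

/-!
# [BAB67-Mader] dense graphs have large complete minors

`mader`: induction on `h`, inside a strong induction on `card V`. `h = 0`: `Fin 0`. `h = 1`: one branch set `{v}` (this may be included in the step: see below).
Step from `h` to `h + 1`: `G` has at least `2 ^ (h + 1) * card V ≥ 2` edges. If some edge `uv` has less than `2 ^ (h + 1)` common neighbours,
`contract_edge` with `c = 2 ^ (h + 1)` gives `G'` with `card V' = card V - 1 ≥ 1` and at least `2 ^ (h + 1) * card V'` edges, it has a model of `K_{h+1}` by induction, and so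
has `G` (`MinorOf.hasModel`). Otherwise let `u` be the end of an edge, `N = {w | G.Adj u w}`, not empty, and `F = G.induce N`. Every vertex `w` of `F` has
degree at least `2 ^ (h + 1)` in `F` (the common neighbours of `u` and `w`), so `F` has at least `2 ^ h * card N` edges (sum of degrees). By induction on `h`, `F` has a
model of `K_h`; add the branch set `{u}`, which is adjacent to all vertices of `N`.
`edges_le`: the contrapositive, `c = 2 ^ h`; if `V` is empty there are no edges.
`degree_sum`: if every vertex has degree at least `d` then `d * card V ≤ 2 * |E|`.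
-/

set_option autoImplicit false

namespace Pool.Agent.BAB67

private theorem mader_degree_sum {V : Type} [Finite V] (G : SimpleGraph V) (d : ℕ)
    (hd : ∀ v, d ≤ (G.neighborSet v).ncard) : d * Nat.card V ≤ 2 * G.edgeSet.ncard := by
  classical
  have := Fintype.ofFinite V
  have h1 := G.sum_degrees_eq_twice_card_edges
  have h2 : G.edgeSet.ncard = G.edgeFinset.card := by
    rw [Set.ncard_eq_toFinset_card', SimpleGraph.edgeFinset]
  rw [h2, ← h1, Nat.card_eq_fintype_card, mul_comm, ← Finset.card_univ, ← smul_eq_mul]
  refine Finset.card_nsmul_le_sum _ _ _ (fun v _ => ?_)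
  have h3 := hd v
  rw [Set.ncard_eq_toFinset_card'] at h3
  exact h3

private theorem mader_cone (h : ℕ) {V : Type} (G : SimpleGraph V) (u : V)
    (hF : HasModel h (G.induce {w | G.Adj u w})) : HasModel (h + 1) G := by
  obtain ⟨B, hB1, hB2, hB3⟩ := hF
  have hne : ∀ i, ∃ y : {w | G.Adj u w}, y ∈ B i := fun i => by
    obtain ⟨y⟩ := (hB1 i).nonempty
    exact ⟨y.1, y.2⟩
  refine ⟨Fin.cons ({u} : Set V) (fun i => ⋃ a ∈ B i, ({(a : V)} : Set V)), ?_, ?_, ?_⟩
  · intro i
    refine Fin.cases ?_ (fun i => ?_) i
    · exact conn_singleton G u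
    · refine conn_biUnion (H := G.induce {w | G.Adj u w}) (hB1 i) (fun a _ => conn_singleton G _) ?_
      intro a _ b _ hab
      exact ⟨a, rfl, b, rfl, hab⟩
  · intro i j
    refine Fin.cases ?_ (fun i => ?_) i
    · refine Fin.cases ?_ (fun j => ?_) j
      · intro hij
        exact absurd rfl hij
      · intro _
        rw [Fin.cons_zero, Fin.cons_succ, Set.disjoint_left]
        intro x hx hx'
        rw [Set.mem_singleton_iff] at hx
        simp only [Set.mem_iUnion, Set.mem_singleton_iff] at hx'
        obtain ⟨a, -, rfl⟩ := hx'
        have h1 : G.Adj u a := a.2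
        rw [hx] at h1
        exact h1.ne rfl
    · refine Fin.cases ?_ (fun j => ?_) j
      · intro _
        rw [Fin.cons_zero, Fin.cons_succ, Set.disjoint_right]
        intro x hx hx'
        rw [Set.mem_singleton_iff] at hx
        simp only [Set.mem_iUnion, Set.mem_singleton_iff] at hx'
        obtain ⟨a, -, rfl⟩ := hx'
        have h1 : G.Adj u a := a.2
        rw [hx] at h1
        exact h1.ne rfl
      · intro hij
        have hij' : i ≠ j := fun h => hij (by rw [h])
        rw [Fin.cons_succ, Fin.cons_succ, Set.disjoint_left]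
        intro x hx hx'
        simp only [Set.mem_iUnion, Set.mem_singleton_iff] at hx hx'
        obtain ⟨a, ha, rfl⟩ := hx
        obtain ⟨b, hb, hab⟩ := hx'
        have : a = b := Subtype.ext hab
        subst this
        exact Set.disjoint_left.1 (hB2 i j hij') ha hb
  · intro i j
    refine Fin.cases ?_ (fun i => ?_) i
    · refine Fin.cases ?_ (fun j => ?_) j
      · intro hij
        exact absurd rfl hij
      · intro _
        obtain ⟨y, hy⟩ := hne j
        refine ⟨u, rfl, y, ?_, y.2⟩
        rw [Fin.cons_succ]
        exact Set.mem_biUnion hy rfl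
    · refine Fin.cases ?_ (fun j => ?_) j
      · intro _
        obtain ⟨y, hy⟩ := hne i
        refine ⟨y, ?_, u, rfl, y.2.symm⟩
        rw [Fin.cons_succ]
        exact Set.mem_biUnion hy rfl
      · intro hij
        have hij' : i ≠ j := fun h => hij (by rw [h])
        obtain ⟨x, hx, y, hy, hxy⟩ := hB3 i j hij'
        refine ⟨x, ?_, y, ?_, hxy⟩
        · rw [Fin.cons_succ]
          exact Set.mem_biUnion hx rfl
        · rw [Fin.cons_succ]
          exact Set.mem_biUnion hy rfl

private theorem mader_aux (h : ℕ) : ∀ (n : ℕ) (V : Type) [Finite V] [Nonempty V] (G : SimpleGraph V),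
    Nat.card V = n → 2 ^ h * Nat.card V ≤ G.edgeSet.ncard → HasModel h G := by
  induction h with
  | zero =>
    intro n V _ _ G _ _
    exact ⟨fun i => i.elim0, fun i => i.elim0, fun i => i.elim0, fun i => i.elim0⟩
  | succ h ih =>
    intro n
    induction n with
    | zero =>
      intro V _ _ G hn _
      have : 0 < Nat.card V := Nat.card_pos
      omega
    | succ n ihn =>
      intro V _ _ G hn hE
      have hc : 0 < Nat.card V := Nat.card_pos
      have hp : 0 < 2 ^ (h + 1) := by positivity
      by_cases hlow : ∃ u v, G.Adj u v ∧ {w | G.Adj u w ∧ G.Adj v w}.ncard < 2 ^ (h + 1)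
      · obtain ⟨u, v, huv, hco⟩ := hlow
        obtain ⟨V', hV', G', hm, hcard, hedge⟩ := contract_edge G huv (2 ^ (h + 1)) hco
        have h2 : 2 ≤ Nat.card V := by
          have : Nontrivial V := ⟨u, v, huv.ne⟩
          exact Finite.one_lt_card
        have h3 : Nonempty V' := by
          by_contra hne
          rw [not_nonempty_iff] at hne
          have : Nat.card V' = 0 := Nat.card_of_isEmpty
          omega
        have h4 : Nat.card V' = n := by omega
        refine hm.hasModel (ihn V' G' h4 ?_)
        have h5 : 2 ^ (h + 1) * Nat.card V = 2 ^ (h + 1) * Nat.card V' + 2 ^ (h + 1) := by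
          rw [← hcard]; ring
        omega
      · push Not at hlow
        have hne : G.edgeSet.Nonempty := by
          apply Set.nonempty_of_ncard_ne_zero
          have : 0 < 2 ^ (h + 1) * Nat.card V := Nat.mul_pos hp hc
          omega
        obtain ⟨e, he⟩ := hne
        induction e with
        | h u v =>
        rw [SimpleGraph.mem_edgeSet] at he
        apply mader_cone h G u
        have hNne : Nonempty {w | G.Adj u w} := ⟨⟨v, he⟩⟩
        refine ih _ {w | G.Adj u w} (G.induce {w | G.Adj u w}) rfl ?_
        have h6 : 2 ^ (h + 1) * Nat.card {w | G.Adj u w} ≤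
            2 * (G.induce {w | G.Adj u w}).edgeSet.ncard := by
          refine mader_degree_sum _ _ (fun w => ?_)
          refine le_trans (hlow u w w.2) ?_
          have h7 : Subtype.val '' ((G.induce {w | G.Adj u w}).neighborSet w) =
              {x | G.Adj u x ∧ G.Adj w x} := by
            ext x
            constructor
            · rintro ⟨y, hy, rfl⟩
              exact ⟨y.2, hy⟩
            · rintro ⟨hx1, hx2⟩
              exact ⟨⟨x, hx1⟩, hx2, rfl⟩
          rw [← h7, Set.ncard_image_of_injective _ Subtype.val_injective]
        have h8 : 2 ^ (h + 1) * Nat.card {w | G.Adj u w} = 2 * (2 ^ h * Nat.card {w | G.Adj u w}) := by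
          ring
        omega

theorem mader (h : ℕ) (V : Type) [Finite V] [Nonempty V] (G : SimpleGraph V)
    (hE : 2 ^ h * Nat.card V ≤ G.edgeSet.ncard) : HasModel h G :=
  mader_aux h _ V G rfl hE

theorem edges_le (h : ℕ) (V : Type) [Finite V] (G : SimpleGraph V) (hG : ¬ HasModel h G) :
    G.edgeSet.ncard ≤ 2 ^ h * Nat.card V := by
  rcases isEmpty_or_nonempty V with hV | hV
  · have : G.edgeSet = ∅ := by
      rw [Set.eq_empty_iff_forall_notMem]
      intro e
      induction e with
      | h u v => exact (hV.false u).elim
    rw [this, Set.ncard_empty]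
    exact Nat.zero_le _
  · by_contra hlt
    push Not at hlt
    exact hG (mader h V G hlt.le)

theorem degree_sum {V : Type} [Finite V] (G : SimpleGraph V) (d : ℕ) (hd : ∀ v, d ≤ (G.neighborSet v).ncard) :
    d * Nat.card V ≤ 2 * G.edgeSet.ncard :=
  mader_degree_sum G d hd

end Pool.Agent.BAB67
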