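import Pool.Agent.BAB67.Defs

/-!
# [BAB67-Vol] balls

* `Act.dist`: the automorphism `φ g` maps walks to walks (`T.dist` is invariant under isomorphisms).
* `Act.vol`: `φ g` maps `B(q, r)` onto `B(φ g q, r)`; choose `g` with `φ g q = q'`.
* `vol_one`: `T.dist q p ≤ 1` iff `p = q` or `p` is a neighbour of `q` (`T` connected).
* `vol_pow`: induction on `r`: `B(q, r + 1)` is contained in the union of the balls `B(p, 1)`, `p ∈ B(q, r)`.
* `vol_top`: if all points have distance at most `R` from `q`.
* `Doubling.iter`: `2 ^ j * (r + 1) - 1` is the `j`-th iterate of `r ↦ 2 r + 1`.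
* `Doubling.pos`: `1 ≤ K` if there is a point, as `1 ≤ vol T q 1 ≤ K * vol T q 0 = K`.
-/

set_option autoImplicit false

namespace Pool.Agent.BAB67

universe u v

variable {A : Type u} {Q : Type v} [Group A] [Finite Q] {φ : A →* Equiv.Perm Q} {T : SimpleGraph Q}

omit [Finite Q] in
private theorem walk_len (h : Act φ T) (g : A) {q q' : Q} {n : ℕ} (hw : ∃ w : T.Walk q q', w.length = n) :
    ∃ w : T.Walk (φ g q) (φ g q'), w.length = n := by
  obtain ⟨w, rfl⟩ := hw
  refine ⟨w.map ⟨φ g, fun {a b} hab => (h.adj g a b).2 hab⟩, ?_⟩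
  simp

omit [Finite Q] in
theorem Act.dist (h : Act φ T) (g : A) (q q' : Q) : T.dist (φ g q) (φ g q') = T.dist q q' := by
  rw [SimpleGraph.dist_eq_sInf, SimpleGraph.dist_eq_sInf]
  congr 1
  ext n
  simp only [Set.mem_range]
  constructor
  · intro hw
    have := walk_len h g⁻¹ hw
    have e : ∀ x, φ g⁻¹ (φ g x) = x := fun x => by
      rw [← Equiv.Perm.mul_apply, ← map_mul, inv_mul_cancel, map_one, Equiv.Perm.one_apply]
    rw [e, e] at this
    exact this
  · exact walk_len h g

omit [Finite Q] in
theorem Act.vol (h : Act φ T) (q q' : Q) (r : ℕ) : vol T q r = vol T q' r := by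
  obtain ⟨g, hg⟩ := h.trans q q'
  unfold BAB67.vol
  have : {p | T.dist q' p ≤ r} = φ g '' {p | T.dist q p ≤ r} := by
    ext p
    simp only [Set.mem_ofPred_eq, Set.mem_image]
    constructor
    · intro hp
      refine ⟨(φ g).symm p, ?_, by simp⟩
      rw [← h.dist g, hg]
      simpa using hp
    · rintro ⟨x, hx, rfl⟩
      rw [← hg, h.dist]
      exact hx
  rw [this, Set.ncard_image_of_injective _ (φ g).injective]

theorem vol_mono (q : Q) {r s : ℕ} (h : r ≤ s) : vol T q r ≤ vol T q s :=
  Set.ncard_le_ncard (fun _ hp => le_trans hp h) (Set.toFinite _)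

theorem vol_pos (q : Q) (r : ℕ) : 1 ≤ vol T q r := by
  have : 0 < ({p | T.dist q p ≤ r} : Set Q).ncard := by
    rw [Set.ncard_pos (Set.toFinite _)]
    exact ⟨q, by simp⟩
  exact this

omit [Finite Q] in
theorem vol_zero (hT : T.Connected) (q : Q) : vol T q 0 = 1 := by
  unfold vol
  have : {p | T.dist q p ≤ 0} = {q} := by
    ext p
    simp only [Set.mem_ofPred_eq, Set.mem_singleton_iff, Nat.le_zero, hT.dist_eq_zero_iff]
    exact eq_comm
  rw [this, Set.ncard_singleton]

theorem vol_le_card (q : Q) (r : ℕ) : vol T q r ≤ Nat.card Q := by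
  rw [← Set.ncard_univ]
  exact Set.ncard_le_ncard (Set.subset_univ _) (Set.toFinite _)

theorem vol_one (hT : T.Connected) (q : Q) : vol T q 1 = (T.neighborSet q).ncard + 1 := by
  unfold vol
  have : {p | T.dist q p ≤ 1} = insert q (T.neighborSet q) := by
    ext p
    simp only [Set.mem_ofPred_eq, Set.mem_insert_iff, SimpleGraph.mem_neighborSet]
    constructor
    · intro hp
      rcases Nat.le_one_iff_eq_zero_or_eq_one.1 hp with h0 | h1
      · exact Or.inl ((hT.dist_eq_zero_iff.1 h0).symm)
      · exact Or.inr (SimpleGraph.dist_eq_one_iff_adj.1 h1)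
    · rintro (rfl | h)
      · simp
      · exact (SimpleGraph.dist_eq_one_iff_adj.2 h).le
  rw [this, Set.ncard_insert_of_notMem (by simp) (Set.toFinite _)]

theorem vol_top {q : Q} {R : ℕ} (h : ∀ p, T.dist q p ≤ R) : vol T q R = Nat.card Q := by
  unfold vol
  rw [show {p | T.dist q p ≤ R} = Set.univ from Set.eq_univ_of_forall h, Set.ncard_univ]

theorem vol_pow (hT : T.Connected) {D : ℕ} (hD : ∀ q, vol T q 1 ≤ D) (q : Q) (r : ℕ) : vol T q r ≤ D ^ r := by
  classical
  have := Fintype.ofFinite Q
  induction r with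
  | zero => rw [vol_zero hT, pow_zero]
  | succ r ih =>
    have hsub : {p | T.dist q p ≤ r + 1} ⊆
        (↑((Finset.univ.filter (fun p => T.dist q p ≤ r)).biUnion
          (fun p => Finset.univ.filter (fun x => T.dist p x ≤ 1))) : Set Q) := by
      intro p hp
      simp only [Set.mem_ofPred_eq] at hp
      simp only [Finset.coe_biUnion, Finset.coe_filter, Finset.mem_univ, true_and, Set.mem_ofPred_eq, Set.mem_iUnion,
        exists_prop]
      by_cases h0 : T.dist q p ≤ r
      · exact ⟨p, h0, by simp⟩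
      · obtain ⟨w, hw⟩ := hT.exists_walk_length_eq_dist p q
        cases w with
        | nil =>
          exfalso
          apply h0
          simp
        | @cons _ v _ hadj w' =>
          refine ⟨v, ?_, ?_⟩
          · rw [SimpleGraph.Walk.length_cons, SimpleGraph.dist_comm] at hw
            have h1 : T.dist v q ≤ w'.length := SimpleGraph.dist_le w'
            rw [SimpleGraph.dist_comm] at h1
            omega
          · exact (SimpleGraph.dist_eq_one_iff_adj.2 hadj.symm).le
    have hcard : ∀ (x : Q) (s : ℕ), (Finset.univ.filter (fun p => T.dist x p ≤ s)).card = vol T x s := by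
      intro x s
      unfold vol
      rw [← Set.ncard_coe_finset]
      simp
    calc vol T q (r + 1) ≤ _ := Set.ncard_le_ncard hsub (Set.toFinite _)
      _ = _ := Set.ncard_coe_finset _
      _ ≤ ∑ p ∈ Finset.univ.filter (fun p => T.dist q p ≤ r),
          (Finset.univ.filter (fun x => T.dist p x ≤ 1)).card := Finset.card_biUnion_le
      _ ≤ ∑ _p ∈ Finset.univ.filter (fun p => T.dist q p ≤ r), D :=
          Finset.sum_le_sum (fun p _ => (hcard p 1).trans_le (hD p))
      _ = vol T q r * D := by rw [Finset.sum_const, smul_eq_mul, hcard]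
      _ ≤ D ^ r * D := Nat.mul_le_mul_right _ ih
      _ = D ^ (r + 1) := (pow_succ _ _).symm

omit [Finite Q] in
theorem Doubling.iter {K : ℕ} (h : Doubling K T) (q : Q) (r j : ℕ) :
    vol T q (2 ^ j * (r + 1) - 1) ≤ K ^ j * vol T q r := by
  induction j with
  | zero => simp
  | succ j ih =>
    have h1 : 0 < 2 ^ j * (r + 1) := by positivity
    have h2 : 2 ^ (j + 1) * (r + 1) - 1 = 2 * (2 ^ j * (r + 1) - 1) + 1 := by
      rw [pow_succ]
      have : 2 ^ j * 2 * (r + 1) = 2 * (2 ^ j * (r + 1)) := by ring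
      rw [this]
      omega
    rw [h2]
    calc _ ≤ K * vol T q (2 ^ j * (r + 1) - 1) := h q _
      _ ≤ K * (K ^ j * vol T q r) := Nat.mul_le_mul_left _ ih
      _ = K ^ (j + 1) * vol T q r := by ring

theorem Doubling.pos {K : ℕ} (h : Doubling K T) (q : Q) : 1 ≤ K := by
  have h1 := h q 0
  have h2 := vol_pos (T := T) q (2 * 0 + 1)
  rcases Nat.eq_zero_or_pos K with h0 | h0
  · rw [h0, Nat.zero_mul] at h1
    omega
  · exact h0

end Pool.Agent.BAB67
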