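import Pool.Agent.BAB67.CellBip
import Pool.Agent.BAB67.Vol
import Pool.Agent.BAB67.Mader

/-!
# [BAB67-CoreBip] half graphs of edge-transitive-like bipartite `K_h`-free graphs

`core_bip`. Let `c = 2 ^ h`, `d = 2 c`.
* Degrees in `O`: all `o ∈ O` have the same number `d_O` of neighbours in `Q` (transitivity on `O` and `hI`), `bip I` has `d_O card O` edges, and at most `c (card O + card Q) ≤ 2 c card O` (`edges_le`),
  so `d_O ≤ d` (`O` is not empty, as `card Q ≤ card O` and `Q` is not empty).
* Let `R` be a subgraph of `half I` with the largest number of edges such that there is an injective map `w` from the edges of `R` to `O` for which `w e` is a common neighbour of the two ends of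
  `e`. `R` is a minor of `bip I`: orient every edge of `R` (choose one of its ends, e.g. by an order on `Q` or by `Quot.out`); the branch set of `q` is `{inr q}` with all `inl (w e)`, `e` an edge of `R` whose
  chosen end is `q`: connected (a star), pairwise disjoint, adjacent for the ends of an edge of `R`. So `R` is `K_h`-free and has at most `c card Q` edges.
* An edge `e` of `half I` which is not in `R` has a common neighbour `o` of its ends; by maximality `o = w e'` for some edge `e'` of `R`. For given `e'` the edges `e` are pairs of neighbours of `w e'`, so there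
  are at most `d ^ 2` of them. So `half I` has at most `c card Q (1 + d ^ 2)` edges. All vertices of `half I` have the same degree (transitivity on `Q`), so it is at most `2 c (1 + d ^ 2)` (`degree_sum`).
* `act` is clear from `hI`; `conn`: `half_conn`; `cell`: `cellProp_half`; `deg`: `vol_one`.
-/

set_option autoImplicit false

namespace Pool.Agent.BAB67

universe u

open Finset in
open scoped Classical in
private noncomputable def nb {O Q : Type} [Fintype Q] (I : O → Q → Prop) (o : O) : Finset Q :=
  univ.filter (fun q => I o q)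

private lemma mem_nb {O Q : Type} [Fintype Q] (I : O → Q → Prop) (o : O) (q : Q) :
    q ∈ nb I o ↔ I o q := by
  simp [nb]

private lemma nb_card {A : Type u} {O Q : Type} [Group A] [Fintype Q] {I : O → Q → Prop}
    {φO : A →* Equiv.Perm O} {φQ : A →* Equiv.Perm Q} (hI : ∀ g o q, I (φO g o) (φQ g q) ↔ I o q)
    (g : A) (o : O) : (nb I (φO g o)).card = (nb I o).card := by
  have h1 : nb I (φO g o) = (nb I o).map (φQ g).toEmbedding := by
    ext q
    rw [mem_nb, Finset.mem_map]
    constructor
    · intro h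
      refine ⟨(φQ g).symm q, ?_, (φQ g).apply_symm_apply q⟩
      rw [mem_nb, ← hI g, (φQ g).apply_symm_apply]
      exact h
    · rintro ⟨q', hq', rfl⟩
      rw [mem_nb] at hq'
      exact (hI g o q').2 hq'
  rw [h1, Finset.card_map]

private lemma bip_edges {O Q : Type} [Fintype O] [Fintype Q] (I : O → Q → Prop) (δ : ℕ)
    (hδ : ∀ o, δ ≤ (nb I o).card) : δ * Nat.card O ≤ (bip I).edgeSet.ncard := by
  classical
  let P : Finset (Σ _ : O, Q) := (Finset.univ : Finset O).sigma (fun o => nb I o)
  let f : (Σ _ : O, Q) → Sym2 (O ⊕ Q) := fun p => s(Sum.inl p.1, Sum.inr p.2)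
  have hf : Function.Injective f := by
    rintro ⟨o, q⟩ ⟨o', q'⟩ h
    simp only [f, Sym2.eq_iff] at h
    rcases h with ⟨h1, h2⟩ | ⟨h1, h2⟩
    · rw [Sum.inl.inj h1, Sum.inr.inj h2]
    · simp at h1
  have h1 : δ * Nat.card O ≤ P.card := by
    rw [Finset.card_sigma, Nat.card_eq_fintype_card, mul_comm, ← smul_eq_mul, ← Finset.card_univ]
    exact Finset.card_nsmul_le_sum _ _ _ fun o _ => hδ o
  refine h1.trans ?_
  rw [← Finset.card_image_of_injective P hf, ← Set.ncard_coe_finset]
  refine Set.ncard_le_ncard ?_ (Set.toFinite _)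
  intro e he
  rw [Finset.mem_coe, Finset.mem_image] at he
  obtain ⟨⟨o, q⟩, hp, rfl⟩ := he
  have h2 : I o q := by
    have := (Finset.mem_sigma.1 hp).2
    exact (mem_nb I o q).1 this
  rw [SimpleGraph.mem_edgeSet]
  exact Or.inl ⟨o, q, rfl, rfl, h2⟩

private lemma minor_aux {O Q : Type} {I : O → Q → Prop} {S : Set (Sym2 Q)} {w : Sym2 Q → O}
    (hw : Set.InjOn w S) (hI : ∀ e ∈ S, ∀ q ∈ e, I (w e) q) :
    MinorOf (SimpleGraph.fromEdgeSet S) (bip I) := by
  refine ⟨fun q => insert (Sum.inr q) {x | ∃ e ∈ S, e.out.1 = q ∧ x = Sum.inl (w e)}, ?_, ?_, ?_⟩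
  · intro q
    rw [SimpleGraph.connected_iff_exists_forall_reachable]
    refine ⟨⟨Sum.inr q, Or.inl rfl⟩, ?_⟩
    rintro ⟨x, hx⟩
    rcases hx with rfl | ⟨e, he, hq, rfl⟩
    · exact SimpleGraph.Reachable.refl _
    · refine SimpleGraph.Adj.reachable ?_
      rw [SimpleGraph.induce_adj]
      refine Or.inr ⟨w e, q, rfl, rfl, hI e he q ?_⟩
      rw [← hq]
      exact Sym2.out_fst_mem e
  · intro a b hab
    rw [Set.disjoint_left]
    rintro x (rfl | ⟨e, he, hq, rfl⟩) hx
    · rcases hx with h | ⟨e, _, _, h⟩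
      · exact hab (Sum.inr.inj h)
      · simp at h
    · rcases hx with h | ⟨e', he', hq', h⟩
      · simp at h
      · have := hw he he' (Sum.inl.inj h)
        subst this
        exact hab (hq.symm.trans hq')
  · intro a b hab
    rw [SimpleGraph.fromEdgeSet_adj] at hab
    obtain ⟨he, hne⟩ := hab
    have h1 := Sym2.out_fst_mem (s(a, b))
    rcases Sym2.mem_iff.1 h1 with h2 | h2
    · refine ⟨Sum.inl (w s(a, b)), Or.inr ⟨_, he, h2, rfl⟩, Sum.inr b, Or.inl rfl, ?_⟩
      exact Or.inl ⟨_, b, rfl, rfl, hI _ he b (Sym2.mem_mk_right a b)⟩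
    · refine ⟨Sum.inr a, Or.inl rfl, Sum.inl (w s(a, b)), Or.inr ⟨_, he, h2, rfl⟩, ?_⟩
      exact Or.inr ⟨_, a, rfl, rfl, hI _ he a (Sym2.mem_mk_left a b)⟩

private lemma half_edges {h d : ℕ} {O Q : Type} [Fintype O] [Fintype Q] {I : O → Q → Prop}
    (hf : ¬ HasModel h (bip I)) (hd : ∀ o, (nb I o).card ≤ d) (hO : Nonempty O) :
    (half I).edgeSet.ncard ≤ 2 ^ h * Nat.card Q * (1 + d ^ 2) := by
  classical
  let P : Set (Sym2 Q) → Prop := fun S => S ⊆ (half I).edgeSet ∧
    ∃ w : Sym2 Q → O, Set.InjOn w S ∧ ∀ e ∈ S, ∀ q ∈ e, I (w e) q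
  have hP0 : P ∅ := ⟨Set.empty_subset _, fun _ => hO.some, Set.injOn_empty _, by simp⟩
  obtain ⟨S, hS⟩ := (Set.toFinite {S | P S}).exists_maximal ⟨∅, hP0⟩
  obtain ⟨⟨hSE, w, hw, hwI⟩, hmax⟩ := hS
  -- the number of edges in S
  have hSc : S.ncard ≤ 2 ^ h * Nat.card Q := by
    have h1 := edges_le h Q (SimpleGraph.fromEdgeSet S)
      (fun hm => hf ((minor_aux hw hwI).hasModel hm))
    rw [SimpleGraph.edgeSet_fromEdgeSet] at h1
    have h2 : S \ Sym2.diagSet = S := by
      ext e
      constructor
      · exact fun h => h.1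
      · exact fun h => ⟨h, SimpleGraph.not_isDiag_of_mem_edgeSet _ (hSE h)⟩
    rwa [h2] at h1
  -- the other edges
  have hcov : (half I).edgeSet \ S ⊆ ((S.toFinset.biUnion fun e' =>
      (nb I (w e') ×ˢ nb I (w e')).image fun p => s(p.1, p.2) : Finset (Sym2 Q)) : Set (Sym2 Q)) := by
    rintro e ⟨he, heS⟩
    rw [Finset.mem_coe, Finset.mem_biUnion]
    revert he heS
    refine Sym2.ind (fun x y => ?_) e
    intro he heS
    rw [SimpleGraph.mem_edgeSet] at he
    obtain ⟨hne, o, hox, hoy⟩ := he
    have h1 : ∃ e' ∈ S, w e' = o := by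
      by_contra hcon
      push Not at hcon
      have h2 : P (insert s(x, y) S) := by
        refine ⟨Set.insert_subset ?_ hSE, Function.update w s(x, y) o, ?_, ?_⟩
        · rw [SimpleGraph.mem_edgeSet]
          exact ⟨hne, o, hox, hoy⟩
        · intro a ha b hb hab
          rcases ha with rfl | ha <;> rcases hb with rfl | hb
          · rfl
          · have hbne : b ≠ s(x, y) := fun h => heS (h ▸ hb)
            rw [Function.update_self, Function.update_of_ne hbne] at hab
            exact absurd hab.symm (hcon b hb)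
          · have hane : a ≠ s(x, y) := fun h => heS (h ▸ ha)
            rw [Function.update_self, Function.update_of_ne hane] at hab
            exact absurd hab (hcon a ha)
          · have hane : a ≠ s(x, y) := fun h => heS (h ▸ ha)
            have hbne : b ≠ s(x, y) := fun h => heS (h ▸ hb)
            rw [Function.update_of_ne hane, Function.update_of_ne hbne] at hab
            exact hw ha hb hab
        · intro a ha q hq
          rcases ha with rfl | ha
          · rw [Function.update_self]
            rcases Sym2.mem_iff.1 hq with rfl | rfl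
            · exact hox
            · exact hoy
          · have hane : a ≠ s(x, y) := fun h => heS (h ▸ ha)
            rw [Function.update_of_ne hane]
            exact hwI a ha q hq
      have h3 := hmax h2 (Set.subset_insert _ _)
      exact heS (h3 (Set.mem_insert _ _))
    obtain ⟨e', he', rfl⟩ := h1
    refine ⟨e', Set.mem_toFinset.2 he', Finset.mem_image.2 ⟨(x, y), ?_, rfl⟩⟩
    rw [Finset.mem_product, mem_nb, mem_nb]
    exact ⟨hox, hoy⟩
  have h4 : ((half I).edgeSet \ S).ncard ≤ S.ncard * d ^ 2 := by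
    refine (Set.ncard_le_ncard hcov (Finset.finite_toSet _)).trans ?_
    rw [Set.ncard_coe_finset, Set.ncard_eq_toFinset_card']
    refine Finset.card_biUnion_le_card_mul _ _ _ fun e' _ => ?_
    refine Finset.card_image_le.trans ?_
    rw [Finset.card_product, sq]
    exact Nat.mul_le_mul (hd _) (hd _)
  have h5 : (half I).edgeSet.ncard ≤ ((half I).edgeSet \ S).ncard + S.ncard :=
    Set.ncard_le_ncard_diff_add_ncard _ _ (Set.toFinite _)
  calc (half I).edgeSet.ncard ≤ S.ncard * d ^ 2 + S.ncard := h5.trans (Nat.add_le_add_right h4 _)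
    _ = S.ncard * (1 + d ^ 2) := by ring
    _ ≤ 2 ^ h * Nat.card Q * (1 + d ^ 2) := Nat.mul_le_mul_right _ hSc

theorem core_bip {h : ℕ} {A : Type u} {O Q : Type} [Group A] [Finite O] [Finite Q] {I : O → Q → Prop}
    {φO : A →* Equiv.Perm O} {φQ : A →* Equiv.Perm Q} (hI : ∀ g o q, I (φO g o) (φQ g q) ↔ I o q)
    (hO : ∀ o o', ∃ g, φO g o = o') (hQ : ∀ q q', ∃ g, φQ g q = q') (hc : (bip I).Connected)
    (hf : ¬ HasModel h (bip I)) (hcard : Nat.card Q ≤ Nat.card O) (hn : ∃ q q' : Q, q ≠ q') :
    Core h (2 * 2 ^ h * (1 + (2 * 2 ^ h) ^ 2) + 1) φQ (half I) := by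
  classical
  haveI := Fintype.ofFinite O
  haveI := Fintype.ofFinite Q
  obtain ⟨q0, q1, hq01⟩ := hn
  have hQne : Nonempty Q := ⟨q0⟩
  have hconn := half_conn hc hQne
  have hQpos : 0 < Nat.card Q := Nat.card_pos
  have hOpos : 0 < Nat.card O := hQpos.trans_le hcard
  have hOne : Nonempty O := (Nat.card_pos_iff.1 hOpos).1
  have hact : Act φQ (half I) := by
    refine ⟨fun g q q' => ?_, hQ⟩
    constructor
    · rintro ⟨h1, o, h2, h3⟩
      refine ⟨fun h => h1 (by rw [h]), (φO g).symm o, ?_, ?_⟩
      · rw [← hI g, (φO g).apply_symm_apply]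
        exact h2
      · rw [← hI g, (φO g).apply_symm_apply]
        exact h3
    · rintro ⟨h1, o, h2, h3⟩
      exact ⟨fun h => h1 ((φQ g).injective h), φO g o, (hI g o q).2 h2, (hI g o q').2 h3⟩
  have hd : ∀ o, (nb I o).card ≤ 2 * 2 ^ h := by
    intro o
    have h1 : ∀ o', (nb I o).card ≤ (nb I o').card := by
      intro o'
      obtain ⟨g, rfl⟩ := hO o o'
      exact (nb_card hI g o).ge
    have h2 := bip_edges I _ h1
    have h3 := edges_le h (O ⊕ Q) (bip I) hf
    rw [Nat.card_sum] at h3
    have h4 : (nb I o).card * Nat.card O ≤ 2 * 2 ^ h * Nat.card O := by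
      refine (h2.trans h3).trans ?_
      calc 2 ^ h * (Nat.card O + Nat.card Q) ≤ 2 ^ h * (Nat.card O + Nat.card O) :=
            Nat.mul_le_mul_left _ (Nat.add_le_add_left hcard _)
        _ = 2 * 2 ^ h * Nat.card O := by ring
    exact Nat.le_of_mul_le_mul_right h4 hOpos
  refine ⟨hact, hconn, cellProp_half hc hQne hf, fun q => ?_, q0, q1, hq01⟩
  have h1 : ∀ q', ((half I).neighborSet q).ncard ≤ ((half I).neighborSet q').ncard := by
    intro q'
    have h2 := hact.vol q q' 1
    rw [vol_one hconn, vol_one hconn] at h2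
    omega
  have h2 := degree_sum (half I) _ h1
  have h3 := half_edges hf hd hOne
  rw [vol_one hconn]
  refine Nat.succ_le_succ ?_
  refine Nat.le_of_mul_le_mul_right (c := Nat.card Q) ?_ hQpos
  calc ((half I).neighborSet q).ncard * Nat.card Q ≤ 2 * (half I).edgeSet.ncard := h2
    _ ≤ 2 * (2 ^ h * Nat.card Q * (1 + (2 * 2 ^ h) ^ 2)) := Nat.mul_le_mul_left _ h3
    _ = 2 * 2 ^ h * (1 + (2 * 2 ^ h) ^ 2) * Nat.card Q := by ring

end Pool.Agent.BAB67
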