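import Pool.Agent.BAB67.Vol

/-!
# [BAB67-Net] separated sets

`exists_net`: a maximal subset `N` of `S` with pairwise distances greater than `k` (finite, so it exists); if `q ∈ S` had distance greater than `k` from all points of
`N` then `N ∪ {q}` would be larger.
`packing`: the balls `B(x, k / 2)`, `x ∈ N`, are pairwise disjoint (`2 (k / 2) ≤ k < T.dist x y`), have the same number `vol T q₀ (k / 2)` of points (`Act.vol`) and are
contained in `B(q, R + k / 2)`. `packing_all`: they are contained in `Q`.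
-/

set_option autoImplicit false

namespace Pool.Agent.BAB67

universe u v

theorem exists_net {Q : Type v} [Finite Q] (T : SimpleGraph Q) (S : Set Q) (k : ℕ) :
    ∃ N : Set Q, N ⊆ S ∧ (∀ x ∈ N, ∀ y ∈ N, x ≠ y → k < T.dist x y) ∧ ∀ q ∈ S, ∃ x ∈ N, T.dist q x ≤ k := by
  classical
  let F : Set (Set Q) := {N | N ⊆ S ∧ ∀ x ∈ N, ∀ y ∈ N, x ≠ y → k < T.dist x y}
  have hne : F.Nonempty := ⟨∅, Set.empty_subset _, by simp⟩
  obtain ⟨N, hN⟩ := (Set.toFinite F).exists_maximal hne
  have hNF : N ⊆ S ∧ ∀ x ∈ N, ∀ y ∈ N, x ≠ y → k < T.dist x y := hN.prop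
  refine ⟨N, hNF.1, hNF.2, fun q hq => ?_⟩
  by_contra hcon
  push Not at hcon
  have hqN : q ∉ N := fun h => by
    have := hcon q h
    rw [SimpleGraph.dist_self] at this
    exact absurd this (Nat.not_lt_zero _)
  have hins : insert q N ∈ F := by
    refine ⟨Set.insert_subset hq hNF.1, ?_⟩
    intro x hx y hy hxy
    rcases Set.mem_insert_iff.1 hx with rfl | hx1
    · rcases Set.mem_insert_iff.1 hy with rfl | hy1
      · exact absurd rfl hxy
      · exact hcon y hy1
    · rcases Set.mem_insert_iff.1 hy with rfl | hy1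
      · rw [SimpleGraph.dist_comm]
        exact hcon x hx1
      · exact hNF.2 x hx1 y hy1 hxy
  exact hqN (hN.le_of_ge hins (Set.subset_insert q N) (Set.mem_insert q N))

variable {A : Type u} {Q : Type v} [Group A] [Finite Q] {φ : A →* Equiv.Perm Q} {T : SimpleGraph Q}

private theorem packing_aux (h : Act φ T) (hT : T.Connected) {N : Set Q} {k : ℕ}
    (hN : ∀ x ∈ N, ∀ y ∈ N, x ≠ y → k < T.dist x y) (S : Set Q)
    (hS : ∀ x ∈ N, ∀ p, T.dist x p ≤ k / 2 → p ∈ S) (q₀ : Q) :
    N.ncard * vol T q₀ (k / 2) ≤ S.ncard := by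
  classical
  have := Fintype.ofFinite Q
  let t : Q → Finset Q := fun x => Finset.univ.filter (fun p => T.dist x p ≤ k / 2)
  have hcard : ∀ x, (t x).card = vol T q₀ (k / 2) := by
    intro x
    rw [← h.vol x q₀]
    unfold vol
    rw [← Set.ncard_coe_finset]
    simp [t]
  have hdis : ∀ x ∈ N.toFinset, ∀ y ∈ N.toFinset, x ≠ y → Disjoint (t x) (t y) := by
    intro x hx y hy hxy
    rw [Set.mem_toFinset] at hx hy
    rw [Finset.disjoint_left]
    intro p hp hp'
    simp only [t, Finset.mem_filter, Finset.mem_univ, true_and] at hp hp'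
    have h1 := hN x hx y hy hxy
    have h2 : T.dist x y ≤ T.dist x p + T.dist p y := hT.dist_triangle
    rw [SimpleGraph.dist_comm (u := p)] at h2
    omega
  have hsub : (↑(N.toFinset.biUnion t) : Set Q) ⊆ S := by
    intro p hp
    rw [Finset.mem_coe, Finset.mem_biUnion] at hp
    obtain ⟨x, hx, hp⟩ := hp
    rw [Set.mem_toFinset] at hx
    simp only [t, Finset.mem_filter, Finset.mem_univ, true_and] at hp
    exact hS x hx p hp
  calc N.ncard * vol T q₀ (k / 2) = ∑ x ∈ N.toFinset, (t x).card := by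
        rw [Finset.sum_congr rfl (fun x _ => hcard x), Finset.sum_const, smul_eq_mul, Set.ncard_eq_toFinset_card']
    _ = (N.toFinset.biUnion t).card := (Finset.card_biUnion hdis).symm
    _ = (↑(N.toFinset.biUnion t) : Set Q).ncard := (Set.ncard_coe_finset _).symm
    _ ≤ S.ncard := Set.ncard_le_ncard hsub (Set.toFinite _)

theorem packing (h : Act φ T) (hT : T.Connected) {N : Set Q} {k : ℕ}
    (hN : ∀ x ∈ N, ∀ y ∈ N, x ≠ y → k < T.dist x y) {q : Q} {R : ℕ} (hR : ∀ x ∈ N, T.dist q x ≤ R) (q₀ : Q) :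
    N.ncard * vol T q₀ (k / 2) ≤ vol T q₀ (R + k / 2) := by
  rw [h.vol q₀ q (R + k / 2)]
  refine packing_aux h hT hN {p | T.dist q p ≤ R + k / 2} (fun x hx p hp => ?_) q₀
  have h1 := hR x hx
  have h2 : T.dist q p ≤ T.dist q x + T.dist x p := hT.dist_triangle
  change T.dist q p ≤ R + k / 2
  omega

theorem packing_all (h : Act φ T) (hT : T.Connected) {N : Set Q} {k : ℕ}
    (hN : ∀ x ∈ N, ∀ y ∈ N, x ≠ y → k < T.dist x y) (q₀ : Q) : N.ncard * vol T q₀ (k / 2) ≤ Nat.card Q := by
  rw [← Set.ncard_univ]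
  exact packing_aux h hT hN Set.univ (fun _ _ _ _ => Set.mem_univ _) q₀

end Pool.Agent.BAB67
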