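import Pool.Agent.BAB67.QuotG
import Pool.Agent.BAB67.Net

/-!
# [BAB67-QuotD] the quotient is doubling

`quot_doubling`. Let `T' = fgraph T (Quotient.mk (kerSetoid φ π))`, `y = ⟦q⟧`, `S = {z | T'.dist y z ≤ 2 r + 1}`, `N ⊆ S` a net with parameter `r` (`exists_net`). For `z ∈ N` choose `f z` with `⟦f z⟧ = z` and
`T.dist q (f z) ≤ 2 r + 1` (`quot_lift`). For `z ≠ z'` in `N`: `r < T'.dist z z' ≤ T.dist (f z) (f z')` (`quot_dist_le`). By `packing`, `|N| vol T q (r / 2) ≤ vol T q (2 r + 1 + r / 2) ≤ vol T q (2 (2 r + 1) + 1) ≤ K² vol T q r ≤ K³ vol T q (r / 2)`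
(`r ≤ 2 (r / 2) + 1`), so `|N| ≤ K³`. `S` is covered by the balls `{z | T'.dist x z ≤ r}`, `x ∈ N`, which all have `vol T' y r` points (`Act.vol` for the action of `G`: `quot_act`, `quot_Act`).
-/

set_option autoImplicit false

namespace Pool.Agent.BAB67

universe u v

/-- A set which is `r`-dense in a ball. -/
private theorem QuotD_cover {P : Type} [Finite P] (T : SimpleGraph P) {y : P} {m r : ℕ}
    (hvol : ∀ x, vol T x r = vol T y r) (N : Set P)
    (hN : ∀ z ∈ {z | T.dist y z ≤ m}, ∃ x ∈ N, T.dist z x ≤ r) : vol T y m ≤ N.ncard * vol T y r := by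
  classical
  have := Fintype.ofFinite P
  let t : P → Finset P := fun x => Finset.univ.filter (fun p => T.dist x p ≤ r)
  have hcard : ∀ x, (t x).card = vol T y r := by
    intro x
    rw [← hvol x]
    unfold vol
    rw [← Set.ncard_coe_finset]
    simp [t]
  have hsub : {z | T.dist y z ≤ m} ⊆ (↑(N.toFinset.biUnion t) : Set P) := by
    intro z hz
    obtain ⟨x, hx, hxz⟩ := hN z hz
    rw [Finset.mem_coe, Finset.mem_biUnion]
    refine ⟨x, Set.mem_toFinset.2 hx, ?_⟩
    simp only [t, Finset.mem_filter, Finset.mem_univ, true_and]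
    rw [SimpleGraph.dist_comm]
    exact hxz
  calc vol T y m ≤ (↑(N.toFinset.biUnion t) : Set P).ncard := Set.ncard_le_ncard hsub (Set.toFinite _)
    _ = (N.toFinset.biUnion t).card := Set.ncard_coe_finset _
    _ ≤ ∑ x ∈ N.toFinset, (t x).card := Finset.card_biUnion_le
    _ = N.ncard * vol T y r := by
        rw [Finset.sum_congr rfl (fun x _ => hcard x), Finset.sum_const, smul_eq_mul, Set.ncard_eq_toFinset_card']

theorem quot_doubling {A : Type u} {Q : Type} {G : Type v} [Group A] [Group G] [Finite Q] {φ : A →* Equiv.Perm Q}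
    {π : A →* G} {T : SimpleGraph Q} (h : Act φ T) (hT : T.Connected) (hπ : Function.Surjective π) {K : ℕ}
    (hK : Doubling K T) : Doubling (K ^ 3) (fgraph T (Quotient.mk (kerSetoid φ π))) := by
  classical
  intro y r
  induction y using Quotient.inductionOn with
  | h q =>
    obtain ⟨ψ, hψ⟩ := quot_act (φ := φ) hπ
    have hAct := quot_Act h hπ hψ
    obtain ⟨N, hNS, hNsep, hNdense⟩ := exists_net (fgraph T (Quotient.mk (kerSetoid φ π)))
      {z | (fgraph T (Quotient.mk (kerSetoid φ π))).dist (Quotient.mk _ q) z ≤ 2 * r + 1} r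
    have hcov := QuotD_cover (fgraph T (Quotient.mk (kerSetoid φ π))) (y := Quotient.mk _ q) (m := 2 * r + 1)
      (r := r) (fun x => hAct.vol x _ r) N hNdense
    refine hcov.trans (Nat.mul_le_mul_right _ ?_)
    -- the lifts
    choose f hf hfd using fun z => quot_lift (φ := φ) (π := π) h hT q z
    have hinj : Function.Injective f := fun a b hab => by
      rw [← hf a, ← hf b, hab]
    have hsep : ∀ x ∈ f '' N, ∀ x' ∈ f '' N, x ≠ x' → r < T.dist x x' := by
      rintro _ ⟨z, hz, rfl⟩ _ ⟨z', hz', rfl⟩ hne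
      have h1 := hNsep z hz z' hz' (fun he => hne (by rw [he]))
      have h2 := quot_dist_le (φ := φ) (π := π) hT (f z) (f z')
      rw [hf, hf] at h2
      exact lt_of_lt_of_le h1 h2
    have hR : ∀ x ∈ f '' N, T.dist q x ≤ 2 * r + 1 := by
      rintro _ ⟨z, hz, rfl⟩
      exact (hfd z).trans (hNS hz)
    have hpack := packing h hT hsep hR q
    rw [Set.ncard_image_of_injective _ hinj] at hpack
    have h1 : vol T q (2 * r + 1 + r / 2) ≤ vol T q (2 * (2 * r + 1) + 1) := vol_mono q (by omega)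
    have h2 := hK q (2 * r + 1)
    have h3 := hK q r
    have h4 : vol T q r ≤ vol T q (2 * (r / 2) + 1) := vol_mono q (by omega)
    have h5 := hK q (r / 2)
    have h6 : N.ncard * vol T q (r / 2) ≤ K ^ 3 * vol T q (r / 2) :=
      calc N.ncard * vol T q (r / 2) ≤ vol T q (2 * r + 1 + r / 2) := hpack
        _ ≤ vol T q (2 * (2 * r + 1) + 1) := h1
        _ ≤ K * vol T q (2 * r + 1) := h2
        _ ≤ K * (K * vol T q r) := Nat.mul_le_mul_left _ h3
        _ ≤ K * (K * (K * vol T q (r / 2))) :=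
            Nat.mul_le_mul_left _ (Nat.mul_le_mul_left _ (h4.trans h5))
        _ = K ^ 3 * vol T q (r / 2) := by ring
    exact Nat.le_of_mul_le_mul_right h6 (vol_pos q (r / 2))

end Pool.Agent.BAB67
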