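import Pool.Agent.BAB67.Poincare
import Pool.Agent.BAB67.Net

/-!
# [BAB67-DimBound] the dimension of a space of functions of small energy (Colding-Minicozzi, Kleiner)

`dim_bound`. Let `t = 3 K⁵ ≥ 1` (`Doubling.pos`), `r = R / t ≥ 1`, so `R < (r + 1) t ≤ 2 r t`. Let `N` be a net of `X` with parameter `r` (`exists_net`). Number of points: `|N| vol (r / 2) ≤ |X| = vol R` (`packing_all`, `vol_top`), and
`R + 1 ≤ (r + 1) t ≤ 2 (r / 2 + 1) 2 ^ t = 2 ^ (t + 1) (r / 2 + 1)` (`r + 1 ≤ 2 (r / 2 + 1)`), so `vol R ≤ vol (2 ^ (t + 1) (r / 2 + 1) - 1) ≤ K ^ (t + 1) vol (r / 2)` (`Doubling.iter`): `|N| ≤ K ^ (t + 1)`.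
Suppose `finrank W > K ^ (t + 1) ≥ |N|`. The linear map `W → (N → ℝ)`, `f ↦ (x ↦ ∑ y ∈ B(x, r), f y)` is not injective: there is `0 ≠ f ∈ W` with `∑ y ∈ B(x, r), f y = 0` for all `x ∈ N`. Then
`∑ y ∈ B(x, r), f y ^ 2 = (2 vol r)⁻¹ ∑ y, y' ∈ B(x, r), (f y - f y')² ≤ (2 vol r)⁻¹ 4 r² vol (2 r) ∑ y ∈ B(x, 3 r), grad2 T f y ≤ 2 K r² ∑ y ∈ B(x, 3 r), grad2 T f y` (`poincare`; `vol (2 r) ≤ vol (2 r + 1) ≤ K vol r`). Sum over `x ∈ N`. The left
side is at least `∑ f²` as the balls `B(x, r)` cover `X`. Every `y` is in at most `K³` balls `B(x, 3 r)`, `x ∈ N`: by `packing`, the number `m` of such `x` satisfies `m vol (r / 2) ≤ vol (3 r + r / 2) ≤ vol (2 (2 r + 1) + 1) ≤ K² vol r ≤ K³ vol (r / 2)`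
(`r ≤ 2 (r / 2) + 1`). So `∑ f² ≤ 2 K⁴ r² energy T f ≤ 2 K⁴ r² 4 K⁵ / R² ∑ f² ≤ 8 K⁹ / t² ∑ f² < ∑ f²` (`r t ≤ R`, `t² = 9 K¹⁰`, `∑ f² > 0`), a contradiction.
-/

set_option autoImplicit false

namespace Pool.Agent.BAB67

universe u

/-- The sum of the squares of the differences over a finite set. -/
private theorem dimBound_sum_sq {X : Type} (S : Finset X) (f : X → ℝ) (h0 : ∑ x ∈ S, f x = 0) :
    ∑ x ∈ S, ∑ y ∈ S, (f x - f y) ^ 2 = 2 * (S.card : ℝ) * ∑ x ∈ S, f x ^ 2 := by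
  have h1 : ∀ x ∈ S, ∑ y ∈ S, (f x - f y) ^ 2 = (S.card : ℝ) * f x ^ 2 + ∑ y ∈ S, f y ^ 2 := by
    intro x _
    have h2 : ∀ y ∈ S, (f x - f y) ^ 2 = f x ^ 2 - 2 * f x * f y + f y ^ 2 := fun y _ => by ring
    rw [Finset.sum_congr rfl h2, Finset.sum_add_distrib, Finset.sum_sub_distrib, ← Finset.mul_sum, h0,
      Finset.sum_const, nsmul_eq_mul]
    ring
  rw [Finset.sum_congr rfl h1, Finset.sum_add_distrib, ← Finset.mul_sum, Finset.sum_const, nsmul_eq_mul]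
  ring

private theorem dimBound_vol_card {X : Type} [Fintype X] (T : SimpleGraph X) (c : X) (r : ℕ) :
    vol T c r = (Finset.univ.filter (fun x => T.dist c x ≤ r)).card := by
  classical
  unfold vol
  rw [← Set.ncard_coe_finset]
  congr 1
  ext x
  simp

/-- The local inequality. -/
private theorem dimBound_local {A : Type u} {X : Type} [Group A] [Finite A] [Fintype X] {ψ : A →* Equiv.Perm X}
    {T : SimpleGraph X} (hA : Act ψ T) (hT : T.Connected) {K : ℕ} (hK : Doubling K T) (f : X → ℝ) (c : X) (r : ℕ)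
    (h0 : ∑ y with T.dist c y ≤ r, f y = 0) :
    ∑ y with T.dist c y ≤ r, f y ^ 2 ≤ 2 * (K : ℝ) * (r : ℝ) ^ 2 * ∑ x with T.dist c x ≤ 3 * r, grad2 T f x := by
  have h1 := poincare hA hT f c r
  rw [dimBound_sum_sq _ f h0, ← dimBound_vol_card] at h1
  have h2 : vol T c (2 * r) ≤ K * vol T c r := (vol_mono c (by omega)).trans (hK c r)
  have h2' : (vol T c (2 * r) : ℝ) ≤ K * vol T c r := by exact_mod_cast h2
  have h3 : (1 : ℝ) ≤ vol T c r := by exact_mod_cast vol_pos (T := T) c r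
  have hG : 0 ≤ ∑ x with T.dist c x ≤ 3 * r, grad2 T f x := Finset.sum_nonneg fun x _ => grad2_nonneg T f x
  have h4 : 4 * (r : ℝ) ^ 2 * vol T c (2 * r) * ∑ x with T.dist c x ≤ 3 * r, grad2 T f x ≤
      4 * (r : ℝ) ^ 2 * (K * vol T c r) * ∑ x with T.dist c x ≤ 3 * r, grad2 T f x := by
    gcongr
  have h5 : 2 * (vol T c r : ℝ) * ∑ y with T.dist c y ≤ r, f y ^ 2 ≤
      2 * (vol T c r : ℝ) * (2 * (K : ℝ) * (r : ℝ) ^ 2 * ∑ x with T.dist c x ≤ 3 * r, grad2 T f x) := by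
    refine (h1.trans h4).trans (le_of_eq ?_)
    ring
  exact le_of_mul_le_mul_left h5 (by linarith)

/-- A point is in at most `K ^ 3` balls. -/
private theorem dimBound_mult {A : Type u} {X : Type} [Group A] [Fintype X] {ψ : A →* Equiv.Perm X}
    {T : SimpleGraph X} (hA : Act ψ T) (hT : T.Connected) {K : ℕ} (hK : Doubling K T) {N : Set X} {r : ℕ}
    (hN : ∀ x ∈ N, ∀ y ∈ N, x ≠ y → r < T.dist x y) (y : X) :
    {x | x ∈ N ∧ T.dist y x ≤ 3 * r}.ncard ≤ K ^ 3 := by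
  have h1 := packing (N := {x | x ∈ N ∧ T.dist y x ≤ 3 * r}) (k := r) hA hT
    (fun a ha b hb hab => hN a ha.1 b hb.1 hab) (q := y) (R := 3 * r) (fun x hx => hx.2) y
  have h2 : vol T y (3 * r + r / 2) ≤ vol T y (2 * (2 * r + 1) + 1) := vol_mono y (by omega)
  have h3 : vol T y (2 * (2 * r + 1) + 1) ≤ K * vol T y (2 * r + 1) := hK y _
  have h4 : vol T y (2 * r + 1) ≤ K * vol T y r := hK y _
  have h5 : vol T y r ≤ vol T y (2 * (r / 2) + 1) := vol_mono y (by omega)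
  have h6 : vol T y (2 * (r / 2) + 1) ≤ K * vol T y (r / 2) := hK y _
  have h7 : vol T y (3 * r + r / 2) ≤ K ^ 3 * vol T y (r / 2) := by
    calc vol T y (3 * r + r / 2) ≤ K * vol T y (2 * r + 1) := h2.trans h3
      _ ≤ K * (K * vol T y r) := Nat.mul_le_mul_left _ h4
      _ ≤ K * (K * (K * vol T y (r / 2))) := Nat.mul_le_mul_left _ (Nat.mul_le_mul_left _ (h5.trans h6))
      _ = K ^ 3 * vol T y (r / 2) := by ring
  exact Nat.le_of_mul_le_mul_right (h1.trans h7) (vol_pos (T := T) y (r / 2))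

/-- The number of points of a net. -/
private theorem dimBound_card {A : Type u} {X : Type} [Group A] [Fintype X] {ψ : A →* Equiv.Perm X}
    {T : SimpleGraph X} (hA : Act ψ T) (hT : T.Connected) {K : ℕ} (hK : Doubling K T) {o : X} {R t : ℕ}
    (hR : ∀ x, T.dist o x ≤ R) (ht : 1 ≤ t) {N : Set X}
    (hN : ∀ x ∈ N, ∀ y ∈ N, x ≠ y → R / t < T.dist x y) : N.ncard ≤ K ^ (t + 1) := by
  have h1 := packing_all (k := R / t) hA hT hN o
  have h2 : Nat.card X = vol T o R := (vol_top hR).symm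
  have h3 : R + 1 ≤ 2 ^ (t + 1) * (R / t / 2 + 1) := by
    have h4 : R < (R / t + 1) * t := by
      have := Nat.lt_div_mul_add (a := R) (b := t) (by omega)
      calc R < R / t * t + t := this
        _ = (R / t + 1) * t := by ring
    have h5 : t ≤ 2 ^ t := (Nat.lt_two_pow_self).le
    have h6 : R / t + 1 ≤ 2 * (R / t / 2 + 1) := by omega
    calc R + 1 ≤ (R / t + 1) * t := h4
      _ ≤ (2 * (R / t / 2 + 1)) * 2 ^ t := Nat.mul_le_mul h6 h5
      _ = 2 ^ (t + 1) * (R / t / 2 + 1) := by ring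
  have h4 : vol T o R ≤ K ^ (t + 1) * vol T o (R / t / 2) :=
    (vol_mono o (by omega)).trans (hK.iter o (R / t / 2) (t + 1))
  exact Nat.le_of_mul_le_mul_right (h1.trans (h2.le.trans h4)) (vol_pos (T := T) o (R / t / 2))

theorem dim_bound {A : Type u} {X : Type} [Group A] [Finite A] [Fintype X] {ψ : A →* Equiv.Perm X}
    {T : SimpleGraph X} (hA : Act ψ T) (hT : T.Connected) {K : ℕ} (hK : Doubling K T) {o : X} {R : ℕ}
    (hR : ∀ x, T.dist o x ≤ R) (hRt : 3 * K ^ 5 ≤ R) (W : Submodule ℝ (X → ℝ))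
    (hW : ∀ f ∈ W, energy T f ≤ 4 * (K : ℝ) ^ 5 / (R : ℝ) ^ 2 * ∑ x, f x ^ 2) :
    Module.finrank ℝ W ≤ K ^ (3 * K ^ 5 + 1) := by
  classical
  have hK1 : 1 ≤ K := hK.pos o
  have hK5 : 1 ≤ K ^ 5 := Nat.one_le_pow _ _ hK1
  obtain ⟨t, ht⟩ : ∃ t : ℕ, t = 3 * K ^ 5 := ⟨_, rfl⟩
  rw [← ht] at hRt ⊢
  have ht1 : 1 ≤ t := by omega
  obtain ⟨N, -, hN1, hN2⟩ := exists_net T (Set.univ : Set X) (R / t)
  have hcard : N.ncard ≤ K ^ (t + 1) := dimBound_card hA hT hK hR ht1 hN1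
  obtain ⟨r, hr⟩ : ∃ r : ℕ, r = R / t := ⟨_, rfl⟩
  rw [← hr] at hN1 hN2
  have hr1 : 1 ≤ r := by rw [hr]; exact (Nat.one_le_div_iff (by omega)).2 hRt
  have hrt : r * t ≤ R := by rw [hr]; exact Nat.div_mul_le_self R t
  by_contra hcon
  push Not at hcon
  -- the linear map
  let L : (X → ℝ) →ₗ[ℝ] (N → ℝ) :=
    { toFun := fun f x => ∑ y with T.dist (x : X) y ≤ r, f y
      map_add' := fun f g => by
        funext x
        exact Finset.sum_add_distrib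
      map_smul' := fun a f => by
        funext x
        simp only [Pi.smul_apply, smul_eq_mul, RingHom.id_apply]
        rw [Finset.mul_sum] }
  have hninj : ¬ Function.Injective (L.comp W.subtype) := by
    intro hinj
    have h1 := LinearMap.finrank_le_finrank_of_injective hinj
    have h2 : Module.finrank ℝ (N → ℝ) = N.ncard := by
      haveI : Fintype N := Fintype.ofFinite N
      rw [Module.finrank_fintype_fun_eq_card, ← Nat.card_eq_fintype_card]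
      rfl
    omega
  obtain ⟨f, hfW, hf0, hfN⟩ : ∃ f ∈ W, f ≠ 0 ∧ ∀ x ∈ N, ∑ y with T.dist x y ≤ r, f y = 0 := by
    have h1 : ¬ LinearMap.ker (L.comp W.subtype) = ⊥ := fun h => hninj (LinearMap.ker_eq_bot.1 h)
    obtain ⟨w, hw, hw0⟩ := Submodule.exists_mem_ne_zero_of_ne_bot h1
    refine ⟨w.1, w.2, fun h => hw0 (Subtype.ext h), fun x hx => ?_⟩
    have h2 : L w.1 = 0 := by simpa using hw
    exact congrFun h2 ⟨x, hx⟩
  have hpos : 0 < ∑ x, f x ^ 2 := by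
    obtain ⟨x, hx⟩ := Function.ne_iff.1 hf0
    have hx' : 0 < f x ^ 2 := by
      have : f x ≠ 0 := hx
      positivity
    exact lt_of_lt_of_le hx' (Finset.single_le_sum (f := fun x => f x ^ 2) (fun y _ => sq_nonneg _)
      (Finset.mem_univ x))
  have hNf : N.Finite := Set.toFinite N
  -- sum over the net
  have h1 : ∑ x, f x ^ 2 ≤ ∑ x ∈ hNf.toFinset, ∑ y with T.dist x y ≤ r, f y ^ 2 := by
    calc ∑ y, f y ^ 2 ≤ ∑ y, ∑ x ∈ hNf.toFinset, (if T.dist x y ≤ r then f y ^ 2 else 0) := by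
          refine Finset.sum_le_sum fun y _ => ?_
          obtain ⟨x, hx, hxy⟩ := hN2 y (Set.mem_univ y)
          have h2 : (if T.dist x y ≤ r then f y ^ 2 else 0) = f y ^ 2 := by
            rw [if_pos]
            rw [SimpleGraph.dist_comm]; exact hxy
          refine h2.symm.le.trans ?_
          exact Finset.single_le_sum (f := fun x => if T.dist x y ≤ r then f y ^ 2 else 0)
            (fun z _ => by split_ifs; exacts [sq_nonneg _, le_rfl]) (hNf.mem_toFinset.2 hx)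
      _ = ∑ x ∈ hNf.toFinset, ∑ y, (if T.dist x y ≤ r then f y ^ 2 else 0) := Finset.sum_comm
      _ = ∑ x ∈ hNf.toFinset, ∑ y with T.dist x y ≤ r, f y ^ 2 := by
          refine Finset.sum_congr rfl fun x _ => ?_
          rw [Finset.sum_filter]
  have h2 : ∑ x ∈ hNf.toFinset, ∑ y with T.dist x y ≤ r, f y ^ 2 ≤
      ∑ x ∈ hNf.toFinset, 2 * (K : ℝ) * (r : ℝ) ^ 2 * ∑ y with T.dist x y ≤ 3 * r, grad2 T f y :=
    Finset.sum_le_sum fun x hx => dimBound_local hA hT hK f x r (hfN x (hNf.mem_toFinset.1 hx))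
  have h3 : ∑ x ∈ hNf.toFinset, ∑ y with T.dist x y ≤ 3 * r, grad2 T f y ≤ (K : ℝ) ^ 3 * energy T f := by
    calc ∑ x ∈ hNf.toFinset, ∑ y with T.dist x y ≤ 3 * r, grad2 T f y
        = ∑ x ∈ hNf.toFinset, ∑ y, (if T.dist x y ≤ 3 * r then grad2 T f y else 0) := by
          refine Finset.sum_congr rfl fun x _ => ?_
          rw [Finset.sum_filter]
      _ = ∑ y, ∑ x ∈ hNf.toFinset, (if T.dist x y ≤ 3 * r then grad2 T f y else 0) := Finset.sum_comm
      _ ≤ ∑ y, (K : ℝ) ^ 3 * grad2 T f y := by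
          refine Finset.sum_le_sum fun y _ => ?_
          rw [← Finset.sum_filter, Finset.sum_const, nsmul_eq_mul]
          refine mul_le_mul_of_nonneg_right ?_ (grad2_nonneg T f y)
          have h4 := dimBound_mult hA hT hK hN1 y
          have h5 : (hNf.toFinset.filter (fun x => T.dist x y ≤ 3 * r)).card =
              {x | x ∈ N ∧ T.dist y x ≤ 3 * r}.ncard := by
            rw [← Set.ncard_coe_finset]
            congr 1
            ext x
            rw [Finset.coe_filter, Set.mem_setOf_eq, Set.mem_setOf_eq, hNf.mem_toFinset, SimpleGraph.dist_comm]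
          rw [h5]
          exact_mod_cast h4
      _ = (K : ℝ) ^ 3 * energy T f := by rw [← Finset.mul_sum]; rfl
  have h4 : ∑ x, f x ^ 2 ≤ 2 * (K : ℝ) * (r : ℝ) ^ 2 * ((K : ℝ) ^ 3 * energy T f) := by
    refine (h1.trans h2).trans ?_
    rw [← Finset.mul_sum]
    exact mul_le_mul_of_nonneg_left h3 (by positivity)
  have h5 := hW f hfW
  have hKr : (1 : ℝ) ≤ K := by exact_mod_cast hK1
  have hRpos : (0 : ℝ) < R := by
    have : 0 < R := by omega
    exact_mod_cast this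
  have hrr : (r : ℝ) * (3 * (K : ℝ) ^ 5) ≤ R := by
    have : (r : ℝ) * (t : ℝ) ≤ R := by exact_mod_cast hrt
    rw [ht] at this
    push_cast at this
    exact this
  have h6 : ∑ x, f x ^ 2 ≤ 2 * (K : ℝ) * (r : ℝ) ^ 2 * ((K : ℝ) ^ 3 * (4 * (K : ℝ) ^ 5 / (R : ℝ) ^ 2 * ∑ x, f x ^ 2)) :=
    h4.trans (by gcongr)
  have h7 : 2 * (K : ℝ) * (r : ℝ) ^ 2 * ((K : ℝ) ^ 3 * (4 * (K : ℝ) ^ 5 / (R : ℝ) ^ 2 * ∑ x, f x ^ 2)) =
      (8 * (K : ℝ) ^ 9 * (r : ℝ) ^ 2 / (R : ℝ) ^ 2) * ∑ x, f x ^ 2 := by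
    field_simp
    ring
  have h8 : 8 * (K : ℝ) ^ 9 * (r : ℝ) ^ 2 / (R : ℝ) ^ 2 < 1 := by
    rw [div_lt_one (by positivity)]
    have h9 : ((r : ℝ) * (3 * (K : ℝ) ^ 5)) ^ 2 ≤ (R : ℝ) ^ 2 := pow_le_pow_left₀ (by positivity) hrr 2
    have hrpos : (0 : ℝ) < r := by exact_mod_cast hr1
    have h10 : (K : ℝ) ^ 9 ≤ (K : ℝ) ^ 10 := pow_le_pow_right₀ hKr (by norm_num)
    have h11 : (0 : ℝ) < (K : ℝ) ^ 9 * (r : ℝ) ^ 2 := by positivity
    have h12 : (K : ℝ) ^ 9 * (r : ℝ) ^ 2 ≤ (K : ℝ) ^ 10 * (r : ℝ) ^ 2 := by gcongr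
    nlinarith
  rw [h7] at h6
  nlinarith

end Pool.Agent.BAB67
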