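import Pool.Agent.BAB67.Poincare

/-!
# [BAB67-Eigen] the space of functions of least energy

`exists_eigenspace`. Let `S` be the set of the `f : X → ℝ` with `∑ f = 0` and `∑ f² = 1`; it is compact and not empty (normalise `f₀`). Let `μ` be the minimum of `energy T` (continuous) on `S`. By homogeneity
`Φ f := energy T f - μ ∑ f² ≥ 0` for all `f` with `∑ f = 0`, and `μ ≤ B`. Let `W = {f | ∑ f = 0 and Φ f = 0}`. It is a subspace: `Φ (c f) = c² Φ f`, and `Φ (f + g) + Φ (f - g) = 2 Φ f + 2 Φ g = 0` with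
`Φ (f + g), Φ (f - g) ≥ 0`. `W ≠ ⊥`: it contains the minimum point. For `f ∈ W`: `energy T f = μ ∑ f² ≤ B ∑ f²`. An automorphism `σ` of `T` preserves `∑ f`, `∑ f²` and the energy.
-/

set_option autoImplicit false

namespace Pool.Agent.BAB67

private theorem energy_smul {X : Type} [Fintype X] (T : SimpleGraph X) (c : ℝ) (f : X → ℝ) :
    energy T (c • f) = c ^ 2 * energy T f := by
  classical
  unfold energy grad2
  rw [Finset.mul_sum]
  refine Finset.sum_congr rfl fun x _ => ?_
  rw [Finset.mul_sum]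
  refine Finset.sum_congr rfl fun y _ => ?_
  split_ifs
  · simp only [Pi.smul_apply, smul_eq_mul]; ring
  · ring

private theorem energy_par {X : Type} [Fintype X] (T : SimpleGraph X) (f g : X → ℝ) :
    energy T (f + g) + energy T (f - g) = 2 * energy T f + 2 * energy T g := by
  classical
  unfold energy grad2
  rw [Finset.mul_sum, Finset.mul_sum, ← Finset.sum_add_distrib, ← Finset.sum_add_distrib]
  refine Finset.sum_congr rfl fun x _ => ?_
  rw [Finset.mul_sum, Finset.mul_sum, ← Finset.sum_add_distrib, ← Finset.sum_add_distrib]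
  refine Finset.sum_congr rfl fun y _ => ?_
  split_ifs
  · simp only [Pi.add_apply, Pi.sub_apply]; ring
  · ring

private theorem energy_cont {X : Type} [Fintype X] (T : SimpleGraph X) : Continuous (energy T) := by
  classical
  unfold energy grad2
  refine continuous_finsetSum _ fun x _ => continuous_finsetSum _ fun y _ => ?_
  split_ifs
  · fun_prop
  · fun_prop

private theorem energy_perm {X : Type} [Fintype X] (T : SimpleGraph X) (σ : Equiv.Perm X)
    (hσ : ∀ x y, T.Adj (σ x) (σ y) ↔ T.Adj x y) (f : X → ℝ) : energy T (fun x => f (σ x)) = energy T f := by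
  classical
  unfold energy grad2
  rw [← Equiv.sum_comp σ (fun x => ∑ y, if T.Adj x y then (f x - f y) ^ 2 else 0)]
  refine Finset.sum_congr rfl fun x _ => ?_
  rw [← Equiv.sum_comp σ (fun y => if T.Adj (σ x) y then (f (σ x) - f y) ^ 2 else 0)]
  refine Finset.sum_congr rfl fun y _ => ?_
  simp only [hσ]

theorem exists_eigenspace {X : Type} [Fintype X] (T : SimpleGraph X) (B : ℝ) (f₀ : X → ℝ) (h0 : ∑ x, f₀ x = 0)
    (hne : f₀ ≠ 0) (hE : energy T f₀ ≤ B * ∑ x, f₀ x ^ 2) :
    ∃ W : Submodule ℝ (X → ℝ), W ≠ ⊥ ∧ (∀ f ∈ W, ∑ x, f x = 0) ∧ (∀ f ∈ W, energy T f ≤ B * ∑ x, f x ^ 2) ∧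
      ∀ σ : Equiv.Perm X, (∀ x y, T.Adj (σ x) (σ y) ↔ T.Adj x y) → ∀ f ∈ W, (fun x => f (σ x)) ∈ W := by
  classical
  have hpos : ∀ f : X → ℝ, f ≠ 0 → 0 < ∑ x, f x ^ 2 := by
    intro f hf
    obtain ⟨x, hx⟩ := Function.ne_iff.1 hf
    have hx' : f x ≠ 0 := hx
    exact lt_of_lt_of_le (by positivity : 0 < f x ^ 2)
      (Finset.single_le_sum (f := fun x => f x ^ 2) (fun y _ => sq_nonneg _) (Finset.mem_univ x))
  have hsq : ∀ (c : ℝ) (f : X → ℝ), ∑ x, (c • f) x ^ 2 = c ^ 2 * ∑ x, f x ^ 2 := by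
    intro c f
    rw [Finset.mul_sum]
    refine Finset.sum_congr rfl fun x _ => ?_
    simp only [Pi.smul_apply, smul_eq_mul]; ring
  have hsum : ∀ (c : ℝ) (f : X → ℝ), ∑ x, (c • f) x = c * ∑ x, f x := by
    intro c f
    rw [Finset.mul_sum]
    exact Finset.sum_congr rfl fun x _ => by simp only [Pi.smul_apply, smul_eq_mul]
  let S : Set (X → ℝ) := {f | ∑ x, f x = 0 ∧ ∑ x, f x ^ 2 = 1}
  have hnorm : ∀ f : X → ℝ, ∑ x, f x = 0 → f ≠ 0 → (Real.sqrt (∑ x, f x ^ 2))⁻¹ • f ∈ S := by
    intro f hf0 hf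
    have hp := hpos f hf
    refine ⟨by rw [hsum, hf0, mul_zero], ?_⟩
    rw [hsq, inv_pow, Real.sq_sqrt hp.le, inv_mul_cancel₀ hp.ne']
  have hSne : S.Nonempty := ⟨_, hnorm f₀ h0 hne⟩
  have hSclosed : IsClosed S := by
    apply IsClosed.inter
    · exact isClosed_eq (by fun_prop) continuous_const
    · exact isClosed_eq (by fun_prop) continuous_const
  have hSbdd : Bornology.IsBounded S := by
    rw [isBounded_iff_forall_norm_le]
    refine ⟨1, fun f hf => ?_⟩
    rw [pi_norm_le_iff_of_nonneg zero_le_one]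
    intro x
    have h1 : f x ^ 2 ≤ 1 := by
      rw [← hf.2]
      exact Finset.single_le_sum (f := fun x => f x ^ 2) (fun y _ => sq_nonneg _) (Finset.mem_univ x)
    rw [Real.norm_eq_abs, abs_le]
    constructor <;> nlinarith
  have hScomp : IsCompact S := Metric.isCompact_of_isClosed_isBounded hSclosed hSbdd
  obtain ⟨f₁, hf₁, hmin⟩ := hScomp.exists_isMinOn hSne (energy_cont T).continuousOn
  set μ := energy T f₁ with hμ
  have hΦ : ∀ f : X → ℝ, ∑ x, f x = 0 → μ * ∑ x, f x ^ 2 ≤ energy T f := by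
    intro f hf0
    by_cases hf : f = 0
    · subst hf
      have : energy T (0 : X → ℝ) = 0 := by
        have := energy_smul T 0 (0 : X → ℝ)
        simpa using this
      rw [this]
      simp
    · have hp := hpos f hf
      have h1 : μ ≤ energy T ((Real.sqrt (∑ x, f x ^ 2))⁻¹ • f) := hmin (hnorm f hf0 hf)
      rw [energy_smul, inv_pow, Real.sq_sqrt hp.le] at h1
      rw [inv_mul_eq_div, le_div_iff₀ hp] at h1
      exact h1
  have hμB : μ ≤ B := by
    have h1 := hΦ f₀ h0
    exact le_of_mul_le_mul_right (h1.trans hE) (hpos f₀ hne)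
  have hsqpar : ∀ f g : X → ℝ, ∑ x, (f + g) x ^ 2 + ∑ x, (f - g) x ^ 2 = 2 * ∑ x, f x ^ 2 + 2 * ∑ x, g x ^ 2 := by
    intro f g
    rw [Finset.mul_sum, Finset.mul_sum, ← Finset.sum_add_distrib, ← Finset.sum_add_distrib]
    refine Finset.sum_congr rfl fun x _ => ?_
    simp only [Pi.add_apply, Pi.sub_apply]; ring
  let W : Submodule ℝ (X → ℝ) :=
    { carrier := {f | ∑ x, f x = 0 ∧ energy T f = μ * ∑ x, f x ^ 2}
      add_mem' := by
        rintro f g ⟨hf1, hf2⟩ ⟨hg1, hg2⟩
        have hs1 : ∑ x, (f + g) x = 0 := by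
          simp only [Pi.add_apply, Finset.sum_add_distrib, hf1, hg1, add_zero]
        have hs2 : ∑ x, (f - g) x = 0 := by
          simp only [Pi.sub_apply, Finset.sum_sub_distrib, hf1, hg1, sub_zero]
        refine ⟨hs1, ?_⟩
        have h1 := hΦ _ hs1
        have h2 := hΦ _ hs2
        have h3 := energy_par T f g
        have h4 := hsqpar f g
        rw [hf2, hg2] at h3
        have h5 : μ * ∑ x, (f + g) x ^ 2 + μ * ∑ x, (f - g) x ^ 2 =
            2 * (μ * ∑ x, f x ^ 2) + 2 * (μ * ∑ x, g x ^ 2) := by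
          rw [← mul_add, h4]
          ring
        exact le_antisymm (by linarith) h1
      zero_mem' := by
        refine ⟨by simp, ?_⟩
        have := energy_smul T 0 (0 : X → ℝ)
        simpa using this
      smul_mem' := by
        rintro c f ⟨hf1, hf2⟩
        refine ⟨by rw [hsum, hf1, mul_zero], ?_⟩
        rw [energy_smul, hsq, hf2]
        ring }
  refine ⟨W, ?_, fun f hf => hf.1, fun f hf => ?_, fun σ hσ f hf => ?_⟩
  · intro hbot
    have h1 : f₁ ∈ W := ⟨hf₁.1, by rw [hf₁.2, mul_one]⟩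
    rw [hbot, Submodule.mem_bot] at h1
    have h2 := hf₁.2
    rw [h1] at h2
    simp at h2
  · have h1 : energy T f = μ * ∑ x, f x ^ 2 := hf.2
    rw [h1]
    exact mul_le_mul_of_nonneg_right hμB (Finset.sum_nonneg fun _ _ => sq_nonneg _)
  · refine ⟨?_, ?_⟩
    · rw [Equiv.sum_comp σ f]
      exact hf.1
    · rw [energy_perm T σ hσ f, Equiv.sum_comp σ (fun x => f x ^ 2)]
      exact hf.2

end Pool.Agent.BAB67
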