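import Pool.Agent.BAB67.Defs

/-!
# [BAB67-Orth] finite simple groups of orthogonal matrices

`orth_bound`. Let `‖·‖` be the operator norm on `E →L[ℝ] E`, `R g : E →L[ℝ] E` the operator `ρ g` (`‖R g‖ ≤ 1`, `R` multiplicative, `R g = 1` iff `g = 1`). For `x = R g - 1`: `ν g = ‖R g - 1‖`.
* `ν (h g h⁻¹) = ν g` (`R h` is an isometry onto).
* `ν (g h g⁻¹ h⁻¹) ≤ 2 ν g ν h`: `R (g h g⁻¹ h⁻¹) - 1 = (R g R h - R h R g) R (g⁻¹ h⁻¹)` and `R g R h - R h R g = (R g - 1) (R h - 1) - (R h - 1) (R g - 1)`.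
* Suppose that there is `g ≠ 1` with `ν g < 1 / 2`; choose one with `ν g` minimal. If `h ≠ 1`, `ν h < 1 / 2` then `ν (g h g⁻¹ h⁻¹) ≤ 2 ν g ν h < ν g` (`ν g > 0`), so `g h g⁻¹ h⁻¹ = 1`. So `g` commutes with all elements of `S = {h | ν h < 1 / 2}`. `S` is
  closed under conjugation, so the subgroup generated by `S` is normal and contains `g ≠ 1`; it is `G`. So `g` is central; the centre is a normal subgroup, so it is `G`, contradiction to `hG`.
* So `ν g ≥ 1 / 2` for all `g ≠ 1`, hence `‖R g - R h‖ = ν (h⁻¹ g) ≥ 1 / 2` for `g ≠ h` (`R h` is an isometry onto). The elements `2 • R g` have norm at most `2` and pairwise distances at least `1`: by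
  `Besicovitch.card_le_of_separated` (Mathlib.MeasureTheory.Covering.BesicovitchVectorSpace) there are at most `5 ^ finrank (E →L[ℝ] E) = 5 ^ (finrank E) ^ 2`.
-/

set_option autoImplicit false

namespace Pool.Agent.BAB67

universe u v

private noncomputable def Rop {G : Type u} [Group G] {E : Type v} [NormedAddCommGroup E]
    [InnerProductSpace ℝ E] (ρ : G →* (E ≃ₗᵢ[ℝ] E)) (g : G) : E →L[ℝ] E :=
  ((ρ g).toContinuousLinearEquiv : E →L[ℝ] E)

section aux

variable {G : Type u} [Group G] {E : Type v} [NormedAddCommGroup E] [InnerProductSpace ℝ E]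
  (ρ : G →* (E ≃ₗᵢ[ℝ] E))

private lemma Rop_apply (g : G) (x : E) : Rop ρ g x = ρ g x := rfl

private lemma Rop_mul (g h : G) : Rop ρ (g * h) = Rop ρ g * Rop ρ h := by
  ext x
  rw [ContinuousLinearMap.mul_apply, Rop_apply, Rop_apply, Rop_apply, map_mul]
  rfl

private lemma Rop_one : Rop ρ (1 : G) = 1 := by
  ext x
  rw [Rop_apply, map_one]
  rfl

private lemma Rop_norm (g : G) : ‖Rop ρ g‖ ≤ 1 := by
  refine ContinuousLinearMap.opNorm_le_bound _ zero_le_one (fun x => ?_)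
  rw [Rop_apply, LinearIsometryEquiv.norm_map, one_mul]

private lemma norm_mul_Rop_le (T : E →L[ℝ] E) (g : G) : ‖T * Rop ρ g‖ ≤ ‖T‖ := by
  calc ‖T * Rop ρ g‖ ≤ ‖T‖ * ‖Rop ρ g‖ := norm_mul_le _ _
    _ ≤ ‖T‖ * 1 := mul_le_mul_of_nonneg_left (Rop_norm ρ g) (norm_nonneg _)
    _ = ‖T‖ := mul_one _

private lemma norm_Rop_mul_le (T : E →L[ℝ] E) (g : G) : ‖Rop ρ g * T‖ ≤ ‖T‖ := by
  calc ‖Rop ρ g * T‖ ≤ ‖Rop ρ g‖ * ‖T‖ := norm_mul_le _ _
    _ ≤ 1 * ‖T‖ := mul_le_mul_of_nonneg_right (Rop_norm ρ g) (norm_nonneg _)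
    _ = ‖T‖ := one_mul _

private noncomputable def nu (g : G) : ℝ := ‖Rop ρ g - 1‖

private lemma nu_conj (g h : G) : nu ρ (h * g * h⁻¹) ≤ nu ρ g := by
  have e : Rop ρ (h * g * h⁻¹) - 1 = Rop ρ h * (Rop ρ g - 1) * Rop ρ h⁻¹ := by
    rw [mul_sub, sub_mul, mul_one, ← Rop_mul, ← Rop_mul, ← Rop_mul, mul_inv_cancel, Rop_one]
  unfold nu
  rw [e]
  exact (norm_mul_Rop_le ρ _ _).trans (norm_Rop_mul_le ρ _ _)

private lemma nu_comm (g h : G) : nu ρ (g * h * g⁻¹ * h⁻¹) ≤ 2 * nu ρ g * nu ρ h := by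
  have e : Rop ρ (g * h * g⁻¹ * h⁻¹) - 1 =
      ((Rop ρ g - 1) * (Rop ρ h - 1) - (Rop ρ h - 1) * (Rop ρ g - 1)) * Rop ρ (g⁻¹ * h⁻¹) := by
    have e1 : (Rop ρ g - 1) * (Rop ρ h - 1) - (Rop ρ h - 1) * (Rop ρ g - 1) =
        Rop ρ (g * h) - Rop ρ (h * g) := by
      rw [Rop_mul, Rop_mul]
      noncomm_ring
    rw [e1, sub_mul, ← Rop_mul, ← Rop_mul]
    have e2 : h * g * (g⁻¹ * h⁻¹) = 1 := by group
    have e3 : g * h * (g⁻¹ * h⁻¹) = g * h * g⁻¹ * h⁻¹ := by group
    rw [e2, e3, Rop_one]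
  unfold nu
  rw [e]
  refine (norm_mul_Rop_le ρ _ _).trans ?_
  refine (norm_sub_le _ _).trans ?_
  have h1 := norm_mul_le (Rop ρ g - 1) (Rop ρ h - 1)
  have h2 := norm_mul_le (Rop ρ h - 1) (Rop ρ g - 1)
  linarith [mul_comm ‖Rop ρ g - 1‖ ‖Rop ρ h - 1‖]

private lemma nu_pos (hρ : Function.Injective ρ) {g : G} (hg : g ≠ 1) : 0 < nu ρ g := by
  unfold nu
  rw [norm_pos_iff, sub_ne_zero]
  intro h
  apply hg
  apply hρ
  rw [map_one]
  ext x
  have := congrArg (fun T : E →L[ℝ] E => T x) h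
  simpa [Rop_apply] using this

private lemma nu_ge [Finite G] [IsSimpleGroup G] (hG : NC G) (hρ : Function.Injective ρ) {g : G}
    (hg : g ≠ 1) : 1 / 2 ≤ nu ρ g := by
  by_contra hcon
  push Not at hcon
  obtain ⟨m, ⟨hm1, hm2⟩, hmin⟩ := Set.exists_min_image {g : G | g ≠ 1 ∧ nu ρ g < 1 / 2} (nu ρ)
    (Set.toFinite _) ⟨g, hg, hcon⟩
  have hmpos := nu_pos ρ hρ hm1
  -- the minimal element commutes with the small elements
  have hcomm : ∀ h : G, nu ρ h < 1 / 2 → m * h = h * m := by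
    intro h hh
    by_contra hne
    have hc1 : m * h * m⁻¹ * h⁻¹ ≠ 1 := by
      intro h1
      apply hne
      have h2 : m * h * m⁻¹ = h := by
        rwa [mul_inv_eq_one] at h1
      rw [← mul_inv_eq_iff_eq_mul]
      exact h2
    have hlt : nu ρ (m * h * m⁻¹ * h⁻¹) < nu ρ m := by
      refine (nu_comm ρ m h).trans_lt ?_
      have h0 : 0 ≤ nu ρ h := norm_nonneg _
      nlinarith
    have := hmin _ ⟨hc1, hlt.trans hm2⟩
    exact absurd this (not_le.mpr hlt)
  -- it is central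
  have hcent : m ∈ Subgroup.center G := by
    let S : Set G := {h : G | nu ρ h < 1 / 2}
    have hS : Subgroup.normalClosure S = ⊤ := by
      rcases (Subgroup.normalClosure_normal (s := S)).eq_bot_or_eq_top with h | h
      · exfalso
        have : m ∈ Subgroup.normalClosure S := Subgroup.subset_normalClosure hm2
        rw [h, Subgroup.mem_bot] at this
        exact hm1 this
      · exact h
    have hle : Subgroup.normalClosure S ≤ Subgroup.centralizer {m} := by
      unfold Subgroup.normalClosure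
      rw [Subgroup.closure_le]
      intro x hx
      rw [Group.mem_conjugatesOfSet_iff] at hx
      obtain ⟨a, ha, hax⟩ := hx
      obtain ⟨c, hc⟩ := isConj_iff.mp hax
      have hx2 : nu ρ x < 1 / 2 := by
        rw [← hc]
        exact (nu_conj ρ a c).trans_lt ha
      rw [SetLike.mem_coe, Subgroup.mem_centralizer_singleton_iff]
      exact (hcomm x hx2).symm
    rw [hS] at hle
    rw [Subgroup.mem_center_iff]
    intro x
    have hx := hle (Subgroup.mem_top x)
    rw [Subgroup.mem_centralizer_singleton_iff] at hx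
    exact hx
  rcases (inferInstance : (Subgroup.center G).Normal).eq_bot_or_eq_top with h | h
  · rw [h, Subgroup.mem_bot] at hcent
    exact hm1 hcent
  · obtain ⟨a, b, hab⟩ := hG
    have ha : a ∈ Subgroup.center G := by rw [h]; exact Subgroup.mem_top a
    exact hab ((Subgroup.mem_center_iff.mp ha b).symm)

private lemma Rop_dist [Finite G] [IsSimpleGroup G] (hG : NC G) (hρ : Function.Injective ρ) {g h : G}
    (hgh : g ≠ h) : 1 / 2 ≤ ‖Rop ρ g - Rop ρ h‖ := by
  have h1 : h⁻¹ * g ≠ 1 := by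
    intro h2
    apply hgh
    rw [inv_mul_eq_one] at h2
    exact h2.symm
  have h3 := nu_ge ρ hG hρ h1
  refine h3.trans ?_
  unfold nu
  have e : Rop ρ (h⁻¹ * g) - 1 = Rop ρ h⁻¹ * (Rop ρ g - Rop ρ h) := by
    rw [mul_sub, ← Rop_mul, ← Rop_mul, inv_mul_cancel, Rop_one]
  rw [e]
  exact norm_Rop_mul_le ρ _ _

end aux

theorem orth_bound {G : Type u} [Group G] [Finite G] [IsSimpleGroup G] (hG : NC G) {E : Type v}
    [NormedAddCommGroup E] [InnerProductSpace ℝ E] [FiniteDimensional ℝ E] (ρ : G →* (E ≃ₗᵢ[ℝ] E))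
    (hρ : Function.Injective ρ) : Nat.card G ≤ 5 ^ (Module.finrank ℝ E) ^ 2 := by
  classical
  have := Fintype.ofFinite G
  let F : G → (E →L[ℝ] E) := fun g => (2 : ℝ) • Rop ρ g
  have hdist : ∀ g h : G, g ≠ h → 1 ≤ ‖F g - F h‖ := by
    intro g h hgh
    have h1 := Rop_dist ρ hG hρ hgh
    have e : F g - F h = (2 : ℝ) • (Rop ρ g - Rop ρ h) := by
      rw [smul_sub]
    rw [e, norm_smul, Real.norm_eq_abs, abs_of_pos (by norm_num : (0 : ℝ) < 2)]
    linarith
  have hinj : Function.Injective F := by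
    intro g h hgh
    by_contra hne
    have h1 := hdist g h hne
    rw [hgh, sub_self, norm_zero] at h1
    linarith
  have hcard := Besicovitch.card_le_of_separated (E := E →L[ℝ] E) (Finset.univ.image F)
    (by
      intro c hc
      rw [Finset.mem_image] at hc
      obtain ⟨g, -, rfl⟩ := hc
      change ‖(2 : ℝ) • Rop ρ g‖ ≤ 2
      rw [norm_smul, Real.norm_eq_abs, abs_of_pos (by norm_num : (0 : ℝ) < 2)]
      have := Rop_norm ρ g
      linarith)
    (by
      intro c hc d hd hcd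
      rw [Finset.mem_image] at hc hd
      obtain ⟨g, -, rfl⟩ := hc
      obtain ⟨h, -, rfl⟩ := hd
      exact hdist g h (fun hgh => hcd (by rw [hgh])))
  rw [Finset.card_image_of_injective _ hinj, Finset.card_univ, ← Nat.card_eq_fintype_card] at hcard
  have hfin : Module.finrank ℝ (E →L[ℝ] E) = Module.finrank ℝ E ^ 2 := by
    rw [← (LinearMap.toContinuousLinearMap (𝕜 := ℝ) (E := E) (F' := E)).finrank_eq,
      Module.finrank_linearMap, sq]
  rwa [hfin] at hcard

end Pool.Agent.BAB67
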