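import Pool.Agent.BAB67.TestFn
import Pool.Agent.BAB67.Eigen
import Pool.Agent.BAB67.DimBound
import Pool.Agent.BAB67.Orth

/-!
# [BAB67-Spectral] simple groups acting on doubling graphs are small

`subspace_bound`: let `G` act on the functions on `X` by `(g f) x = f (ψ g⁻¹ x)`; `W` is invariant. On `E = W` with the inner product `∑ f g` (the submodule of `EuclideanSpace ℝ X` corresponding to `W`) `G` acts by isometries. The homomorphism
`ρ : G → (E ≃ₗᵢ E)` is injective or trivial as `G` is simple. If it is trivial then every `f ∈ W` is invariant, so constant (`ψ` is transitive), so zero as `∑ f = 0`, contradiction to `W ≠ ⊥`. So `orth_bound` applies.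
`spectral_bound`: let `o : X`, `R` the largest distance from `o` (attained at `p`); `R ≥ 1` as `X` has two points. `ψ` is injective (`G` is simple, and `ψ` is not trivial, since it is transitive on at least two points). If
`R < 3 K⁵ =: t`: `|X| = vol T o R ≤ vol T o (2 ^ t - 1) ≤ K ^ t vol T o 0 = K ^ t` (`Doubling.iter` with `r = 0`), and `|G| ≤ |Perm X| = |X|! ≤ (K ^ t)!`. If `t ≤ R`: `test_function`, `exists_eigenspace` with `B = 4 K⁵ / R²`, `dim_bound`, `subspace_bound`:
`|G| ≤ 5 ^ (K ^ (t + 1)) ^ 2`. `N` is the maximum of the two numbers.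
-/

set_option autoImplicit false

namespace Pool.Agent.BAB67

universe u

private noncomputable def spE (X : Type) [Fintype X] : EuclideanSpace ℝ X ≃ₗ[ℝ] (X → ℝ) :=
  WithLp.linearEquiv 2 ℝ (X → ℝ)

private noncomputable def spU {G : Type u} {X : Type} [Group G] [Fintype X] (ψ : G →* Equiv.Perm X) (g : G) :
    EuclideanSpace ℝ X ≃ₗᵢ[ℝ] EuclideanSpace ℝ X :=
  LinearIsometryEquiv.piLpCongrLeft 2 ℝ ℝ (ψ g)

private theorem spU_apply {G : Type u} {X : Type} [Group G] [Fintype X] (ψ : G →* Equiv.Perm X) (g : G)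
    (f : EuclideanSpace ℝ X) (x : X) : spU ψ g f x = f ((ψ g⁻¹) x) := by
  rw [map_inv]
  rfl

theorem subspace_bound {G : Type u} {X : Type} [Group G] [Finite G] [IsSimpleGroup G] [Fintype X] (hG : NC G)
    {ψ : G →* Equiv.Perm X} {T : SimpleGraph X} (hA : Act ψ T) (W : Submodule ℝ (X → ℝ)) (hW : W ≠ ⊥)
    (h0 : ∀ f ∈ W, ∑ x, f x = 0)
    (hinv : ∀ σ : Equiv.Perm X, (∀ x y, T.Adj (σ x) (σ y) ↔ T.Adj x y) → ∀ f ∈ W, (fun x => f (σ x)) ∈ W) :
    Nat.card G ≤ 5 ^ (Module.finrank ℝ W) ^ 2 := by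
  classical
  let WE : Submodule ℝ (EuclideanSpace ℝ X) := W.map (spE X).symm.toLinearMap
  have hmem : ∀ f : EuclideanSpace ℝ X, f ∈ WE ↔ (spE X f) ∈ W := by
    intro f
    constructor
    · rintro ⟨w, hw, rfl⟩
      exact hw
    · intro h
      exact ⟨spE X f, h, (spE X).symm_apply_apply f⟩
  have hU : ∀ g : G, ∀ f ∈ WE, (spU ψ g).toLinearEquiv.toLinearMap f ∈ WE := by
    intro g f hf
    rw [hmem] at hf ⊢
    have h1 := hinv (ψ g⁻¹) (fun x y => hA.adj g⁻¹ x y) _ hf
    have h2 : (spE X) ((spU ψ g).toLinearEquiv.toLinearMap f) = fun x => (spE X f) ((ψ g⁻¹) x) := by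
      funext x
      exact spU_apply ψ g f x
    rw [h2]
    exact h1
  let A : G → (WE →ₗ[ℝ] WE) := fun g => LinearMap.restrict (spU ψ g).toLinearEquiv.toLinearMap (hU g)
  have hAv : ∀ (g : G) (f : WE) (x : X), ((A g f : WE) : EuclideanSpace ℝ X) x = (f : EuclideanSpace ℝ X) ((ψ g⁻¹) x) := by
    intro g f x
    exact spU_apply ψ g f x
  have hmul : ∀ g h : G, (A g) ∘ₗ (A h) = A (g * h) := by
    intro g h
    apply LinearMap.ext
    intro f
    apply Subtype.ext
    apply PiLp.ext
    intro x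
    rw [LinearMap.comp_apply, hAv, hAv, hAv, mul_inv_rev, map_mul, Equiv.Perm.mul_apply]
  have hone : A 1 = LinearMap.id := by
    apply LinearMap.ext
    intro f
    apply Subtype.ext
    apply PiLp.ext
    intro x
    rw [hAv, inv_one, map_one]
    rfl
  let P : G → (WE ≃ₗ[ℝ] WE) := fun g => LinearEquiv.ofLinearMap (A g) (A g⁻¹)
    (by rw [hmul, mul_inv_cancel, hone]) (by rw [hmul, inv_mul_cancel, hone])
  let ρ : G →* (WE ≃ₗᵢ[ℝ] WE) :=
    { toFun := fun g => ⟨P g, fun f => (spU ψ g).norm_map (f : EuclideanSpace ℝ X)⟩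
      map_one' := by
        apply LinearIsometryEquiv.ext
        intro f
        change A 1 f = f
        rw [hone]
        rfl
      map_mul' := fun g h => by
        apply LinearIsometryEquiv.ext
        intro f
        change A (g * h) f = A g (A h f)
        rw [← hmul]
        rfl }
  have hρv : ∀ (g : G) (f : WE) (x : X), ((ρ g f : WE) : EuclideanSpace ℝ X) x = (f : EuclideanSpace ℝ X) ((ψ g⁻¹) x) :=
    hAv
  have hfin : Module.finrank ℝ WE = Module.finrank ℝ W := LinearEquiv.finrank_map_eq (spE X).symm W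
  rw [← hfin]
  apply orth_bound hG ρ
  rw [← MonoidHom.ker_eq_bot_iff]
  rcases Subgroup.Normal.eq_bot_or_eq_top (MonoidHom.normal_ker ρ) with h | h
  · exact h
  · exfalso
    obtain ⟨f, hf, hf0⟩ := Submodule.exists_mem_ne_zero_of_ne_bot hW
    have hf' : (spE X).symm f ∈ WE := by
      rw [hmem, LinearEquiv.apply_symm_apply]
      exact hf
    have hc : ∀ (g : G) (x : X), f ((ψ g⁻¹) x) = f x := by
      intro g x
      have h1 : ρ g = 1 := by
        have : g ∈ ρ.ker := by rw [h]; trivial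
        exact this
      have h2 := hρv g ⟨_, hf'⟩ x
      rw [h1] at h2
      exact h2.symm
    have hcc : ∀ x y : X, f x = f y := by
      intro x y
      obtain ⟨g, hg⟩ := hA.trans x y
      have := hc g⁻¹ x
      rw [inv_inv, hg] at this
      exact this.symm
    apply hf0
    funext x
    have h3 := h0 f hf
    rw [Finset.sum_congr rfl (fun y _ => hcc y x), Finset.sum_const, Finset.card_univ, nsmul_eq_mul] at h3
    have h4 : (Fintype.card X : ℝ) ≠ 0 := by
      have : 0 < Fintype.card X := Fintype.card_pos_iff.2 ⟨x⟩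
      exact_mod_cast this.ne'
    rcases mul_eq_zero.1 h3 with h5 | h5
    · exact absurd h5 h4
    · exact h5

theorem spectral_bound (K : ℕ) : ∃ N : ℕ, ∀ (G : Type u) [Group G] [Finite G] [IsSimpleGroup G], NC G →
    ∀ (X : Type) [Finite X] (ψ : G →* Equiv.Perm X) (T : SimpleGraph X), Act ψ T → T.Connected → Doubling K T →
      (∃ x y : X, x ≠ y) → Nat.card G ≤ N := by
  classical
  refine ⟨max (K ^ (3 * K ^ 5)).factorial (5 ^ (K ^ (3 * K ^ 5 + 1)) ^ 2), ?_⟩
  intro G _ _ _ hG X _ ψ T hA hT hK hxy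
  let _ : Fintype X := Fintype.ofFinite X
  obtain ⟨o, y, hoy⟩ := hxy
  have : Nonempty X := ⟨o⟩
  obtain ⟨p, hp⟩ := Finite.exists_max (fun x => T.dist o x)
  have hR1 : 1 ≤ T.dist o p := by
    have h1 : 0 < T.dist o y := hT.pos_dist_of_ne hoy
    exact le_trans h1 (hp y)
  have hK1 : 1 ≤ K := hK.pos o
  by_cases hlt : T.dist o p < 3 * K ^ 5
  · apply le_trans _ (le_max_left _ _)
    have hψ : Function.Injective ψ := by
      rw [← MonoidHom.ker_eq_bot_iff]
      rcases Subgroup.Normal.eq_bot_or_eq_top (MonoidHom.normal_ker ψ) with h | h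
      · exact h
      · exfalso
        obtain ⟨g, hg⟩ := hA.trans o y
        have h1 : ψ g = 1 := by
          have : g ∈ ψ.ker := by rw [h]; trivial
          exact this
        rw [h1] at hg
        exact hoy hg
    have h2 : Nat.card G ≤ Nat.card (Equiv.Perm X) := Nat.card_le_card_of_injective ψ hψ
    rw [Nat.card_perm] at h2
    refine le_trans h2 (Nat.factorial_le ?_)
    rw [← vol_top (T := T) hp]
    have h3 : T.dist o p ≤ 2 ^ (3 * K ^ 5) * (0 + 1) - 1 := by
      have : 3 * K ^ 5 < 2 ^ (3 * K ^ 5) := Nat.lt_two_pow_self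
      omega
    refine le_trans (vol_mono (T := T) o h3) ?_
    refine le_trans (hK.iter o 0 (3 * K ^ 5)) ?_
    rw [vol_zero hT, mul_one]
  · push Not at hlt
    apply le_trans _ (le_max_right _ _)
    obtain ⟨f, hf0, hfne, hfE⟩ := test_function hA hT hK hp rfl hR1
    obtain ⟨W, hW, hWs, hWE, hWinv⟩ := exists_eigenspace T _ f hf0 hfne hfE
    have hd := dim_bound hA hT hK hp hlt W hWE
    refine le_trans (subspace_bound hG hA W hW hWs hWinv) ?_
    exact Nat.pow_le_pow_right (by norm_num) (Nat.pow_le_pow_left hd 2)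

end Pool.Agent.BAB67
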