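import Pool.Agent.BAB67.Vol

/-!
# [BAB67-TransCase] the kernel is transitive

`transitive_case`. For `F ⊆ Q` let `P F ≤ A` be the group of the `a` with `φ a q = q` for all `q ∈ F`. For a single point, `π` maps `P {q}` onto `G`: for `g = π a` there is `k` with `π k = 1`, `φ k (φ a q) = q`, and
`k a ∈ P {q}`, `π (k a) = g`. Let `F` be a non-empty set with `π (P F) = G` and `|F|` maximal. `F ≠ Q`: otherwise `φ a = 1` for `a ∈ P F`, so `π a = 1`, `G` would be trivial. As `T` is connected
there are adjacent `u ∈ F`, `u' ∉ F`. Let `N` be the set of the neighbours of `u`, `P = P F`, `P' = P (F ∪ N)`. Every `a ∈ P` fixes `u`, so it permutes `N`; `P'` is the kernel of `P → Perm N`, a normal subgroup of `P`.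
`π P'` is normal in `π P = G`, it is not `G` by the maximality of `F` (`u' ∈ N`, `u' ∉ F`), so it is trivial. So `π` induces a surjection of `P / P'` onto `G`, and `|G| ≤ |P / P'| ≤ |Perm N| = |N|! ≤ D!`
(`vol T u 1 = |N| + 1 ≤ D`). (Directly: for `g ∈ G` choose `a ∈ P` with `π a = g`; the map which sends `g` to the permutation of `N` induced by `a` is injective: if `a, a'` induce the same permutation then
`a⁻¹ a' ∈ P'`, so `π a = π a'`.)
-/

set_option autoImplicit false

namespace Pool.Agent.BAB67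

universe u v

theorem transitive_case {A : Type u} {Q : Type} {G : Type v} [Group A] [Group G] [IsSimpleGroup G] [Finite Q]
    {φ : A →* Equiv.Perm Q} {T : SimpleGraph Q} (hA : Act φ T) (hT : T.Connected) {D : ℕ}
    (hD : ∀ q, vol T q 1 ≤ D) (π : A →* G) (hπ : Function.Surjective π) (hker : ∀ a, φ a = 1 → π a = 1)
    (htr : ∀ q q', ∃ a, π a = 1 ∧ φ a q = q') : Nat.card G ≤ D.factorial := by
  classical
  obtain ⟨q₀⟩ := hT.nonempty
  let S : Set (Set Q) := {F | F.Nonempty ∧ ∀ g : G, ∃ a, (∀ q ∈ F, φ a q = q) ∧ π a = g}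
  have hS : S.Nonempty := by
    refine ⟨{q₀}, ⟨q₀, rfl⟩, fun g => ?_⟩
    obtain ⟨a, rfl⟩ := hπ g
    obtain ⟨k, hk, hk'⟩ := htr (φ a q₀) q₀
    refine ⟨k * a, ?_, by rw [map_mul, hk, one_mul]⟩
    rintro q rfl
    rw [map_mul, Equiv.Perm.mul_apply, hk']
  obtain ⟨F, hF⟩ := (Set.toFinite S).exists_maximal hS
  obtain ⟨⟨v, hv⟩, hsur⟩ := hF.prop
  have hne : ∃ w, w ∉ F := by
    by_contra hcon
    push Not at hcon
    obtain ⟨g, hg⟩ := exists_ne (1 : G)
    obtain ⟨a, ha, hag⟩ := hsur g
    refine hg (hag ▸ hker a ?_)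
    ext q
    rw [ha q (hcon q), Equiv.Perm.one_apply]
  obtain ⟨w, hw⟩ := hne
  obtain ⟨p⟩ := hT.preconnected v w
  obtain ⟨d, -, hdu, hdu'⟩ := p.exists_boundary_dart F hv hw
  have hadj := d.adj
  generalize d.toProd.1 = u at hdu hadj
  generalize d.toProd.2 = u' at hdu' hadj
  let N : Set Q := {x | T.Adj u x}
  have hstab : ∀ a, (∀ q ∈ F, φ a q = q) → ∀ x, φ a x ∈ N ↔ x ∈ N := by
    intro a ha x
    have h1 := hA.adj a u x
    rw [ha u hdu] at h1
    exact h1
  have hinv : ∀ a, (∀ q ∈ F, φ a q = q) → ∀ q ∈ F, φ a⁻¹ q = q := by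
    intro a ha q hq
    conv_lhs => rw [← ha q hq]
    rw [← Equiv.Perm.mul_apply, ← map_mul, inv_mul_cancel, map_one, Equiv.Perm.one_apply]
  let P' : Subgroup A :=
    { carrier := {a | ∀ q ∈ F ∪ N, φ a q = q}
      mul_mem' := by
        intro a b ha hb q hq
        rw [map_mul, Equiv.Perm.mul_apply, hb q hq, ha q hq]
      one_mem' := by
        intro q _
        rw [map_one, Equiv.Perm.one_apply]
      inv_mem' := by
        intro a ha q hq
        conv_lhs => rw [← ha q hq]
        rw [← Equiv.Perm.mul_apply, ← map_mul, inv_mul_cancel, map_one, Equiv.Perm.one_apply] }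
  have hnorm : (P'.map π).Normal := by
    refine ⟨?_⟩
    rintro x ⟨c, hc, rfl⟩ g
    obtain ⟨a, ha, rfl⟩ := hsur g
    refine ⟨a * c * a⁻¹, fun q hq => ?_, by rw [map_mul, map_mul, map_inv]⟩
    have h1 : φ a⁻¹ q ∈ F ∪ N := by
      rcases hq with hq | hq
      · left
        rw [hinv a ha q hq]
        exact hq
      · right
        exact (hstab a⁻¹ (hinv a ha) q).2 hq
    rw [map_mul, map_mul, Equiv.Perm.mul_apply, Equiv.Perm.mul_apply, hc _ h1,
      ← Equiv.Perm.mul_apply, ← map_mul, mul_inv_cancel, map_one, Equiv.Perm.one_apply]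
  have hbot : P'.map π = ⊥ := by
    rcases hnorm.eq_bot_or_eq_top with h | h
    · exact h
    · exfalso
      have h1 : F ∪ N ∈ S := by
        refine ⟨⟨v, Or.inl hv⟩, fun g => ?_⟩
        have h2 : g ∈ P'.map π := by rw [h]; trivial
        obtain ⟨a, ha, hag⟩ := h2
        exact ⟨a, ha, hag⟩
      exact hdu' (hF.le_of_ge h1 Set.subset_union_left (Or.inr hadj))
  have htriv : ∀ a, (∀ q ∈ F ∪ N, φ a q = q) → π a = 1 := by
    intro a ha
    have h1 : π a ∈ P'.map π := ⟨a, ha, rfl⟩
    rw [hbot] at h1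
    exact h1
  choose a ha hag using hsur
  let f : G → Equiv.Perm N := fun g => (φ (a g)).subtypePerm (hstab (a g) (ha g))
  have hf : Function.Injective f := by
    intro g g' hgg
    have h1 : π ((a g)⁻¹ * a g') = 1 := by
      refine htriv _ fun q hq => ?_
      rw [map_mul, Equiv.Perm.mul_apply]
      rcases hq with hq | hq
      · rw [ha g' q hq]
        exact hinv _ (ha g) q hq
      · have h2 : φ (a g) q = φ (a g') q := by
          have := congrArg (fun e : Equiv.Perm N => ((e ⟨q, hq⟩ : N) : Q)) hgg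
          simpa [f] using this
        rw [← h2, ← Equiv.Perm.mul_apply, ← map_mul, inv_mul_cancel, map_one,
          Equiv.Perm.one_apply]
    rw [map_mul, map_inv, hag, hag] at h1
    exact inv_mul_eq_one.1 h1
  have h3 : Nat.card G ≤ Nat.card (Equiv.Perm N) := Nat.card_le_card_of_injective f hf
  rw [Nat.card_perm] at h3
  refine h3.trans (Nat.factorial_le ?_)
  refine le_trans ?_ (hD u)
  rw [Nat.card_coe_set_eq]
  refine Set.ncard_le_ncard (fun x hx => ?_) (Set.toFinite _)
  exact (SimpleGraph.dist_eq_one_iff_adj.2 hx).le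

end Pool.Agent.BAB67
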