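import Pool.Agent.BAB67.CoreDoubling
import Pool.Agent.BAB67.QuotD
import Pool.Agent.BAB67.TransCase
import Pool.Agent.BAB67.Spectral

/-!
# [BAB67-CoreBound] the bound in the reduced situation

`core_bound`: let `K` be the constant of `core_doubling h D`, `N'` the constant of `spectral_bound (K ^ 3)`, `N = max D! N'`. If the kernel of `π` is transitive on `Q`: `transitive_case`. Otherwise let `X = Quotient (kerSetoid φ π)`, with at least two points;
`quot_act`, `quot_Act`, `quot_conn`, `quot_doubling` give the hypotheses of `spectral_bound` (`G` is finite as `A` is finite and `π` surjective).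
-/

set_option autoImplicit false

namespace Pool.Agent.BAB67

universe u

theorem core_bound (h D : ℕ) : ∃ N : ℕ, ∀ (A : Type) [Group A] [Finite A] (G : Type u) [Group G]
    [IsSimpleGroup G], NC G → ∀ (Q : Type) [Finite Q] (φ : A →* Equiv.Perm Q) (T : SimpleGraph Q), Core h D φ T →
    ∀ π : A →* G, Function.Surjective π → (∀ a, φ a = 1 → π a = 1) → Nat.card G ≤ N := by
  obtain ⟨K, hK⟩ := core_doubling h D
  obtain ⟨N', hN'⟩ := spectral_bound.{u} (K ^ 3)
  refine ⟨max D.factorial N', ?_⟩
  intro A _ _ G _ _ hG Q _ φ T hcore π hπ hker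
  by_cases htr : ∀ q q', ∃ a, π a = 1 ∧ φ a q = q'
  · exact (transitive_case hcore.act hcore.conn hcore.deg π hπ hker htr).trans (le_max_left _ _)
  · push Not at htr
    obtain ⟨q, q', hqq⟩ := htr
    have hfin : Finite G := Finite.of_surjective π hπ
    obtain ⟨ψ, hψ⟩ := quot_act (φ := φ) hπ
    have hdb : Doubling K T := hK A Q φ T hcore
    refine (hN' G hG (Quotient (kerSetoid φ π)) ψ (fgraph T (Quotient.mk (kerSetoid φ π)))
      (quot_Act hcore.act hπ hψ) (quot_conn hcore.conn) (quot_doubling hcore.act hcore.conn hπ hdb)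
      ⟨Quotient.mk _ q, Quotient.mk _ q', fun he => ?_⟩).trans (le_max_right _ _)
    obtain ⟨a, ha, ha'⟩ := Quotient.exact he
    exact hqq a ha ha'

end Pool.Agent.BAB67
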