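import Mathlib

/-!
# [BAB67-Numeric] from the growth inequality to doubling

`numeric`. Let `b i = log (a (i + 1) / a i) ≥ 0`, `c₀ = log C ≥ 0`, `L = log 16 ≤ 2.8`. Taking logarithms: for `1 ≤ i ≤ j`:
`∑ l ∈ [i, j), b l ≤ c₀ + (j - i) L + 2 (b i + b (i - 1))`. (`a (i + 1) / a (i - 1)` has logarithm `b i + b (i - 1)`.)
Let `B₀ = c₀ + 40 + |log B|` (any number with `2 B₀ > c₀ + 12 L` and `B₀ ≥ log B`). Call `i ≥ 1` good if `b (i - 1) ≤ B₀` and `b i ≤ B₀`. `i = 1` is good: `b 0 ≤ log (a 1) ≤ log (a 2) ≤ log B`,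
`b 1 ≤ log (a 2) ≤ log B` (`1 ≤ a i`, so `a 2 ≤ B` gives `B ≥ 1`).
If `i` is good then one of `i + 1, i + 3, i + 5, ..., i + 11` is good: otherwise each of the six pairs `(b i, b (i + 1)), (b (i + 2), b (i + 3)), ..., (b (i + 10), b (i + 11))` contains a number `> B₀`, so
`6 B₀ < ∑ l ∈ [i, i + 12), b l ≤ c₀ + 12 L + 4 B₀`, contradiction to `2 B₀ > c₀ + 12 L`.
So for every `l ≥ 1` there is a good `i ≤ l` with `l < i + 12` (or `l ≤ i + 11`; induction on `l`: the largest good `i ≤ l`), and then `b l ≤ ∑ l' ∈ [i, l + 1), b l' ≤ c₀ + 12 L + 4 B₀`. Also `b 0 ≤ B₀`.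
`K = exp (c₀ + 12 L + 4 B₀)`.
-/

set_option autoImplicit false

namespace Pool.Agent.BAB67

/-- the statement for the logarithms -/
private theorem numeric_log {c L b : ℝ} (hc : 0 ≤ c) (hL : 0 ≤ L) {β : ℕ → ℝ} (h0 : ∀ i, 0 ≤ β i)
    (hm : Monotone β) (h2 : β 2 ≤ b)
    (h : ∀ i j, 1 ≤ i → i ≤ j → β j ≤ c + (j - i : ℕ) * L + 2 * (β (i + 1) - β (i - 1)) + β i)
    (l : ℕ) : β (l + 1) ≤ c + 12 * L + 4 * (c + 6 * L + |b| + 1) + β l := by
  have hb : b ≤ |b| := le_abs_self b
  have hb0 : 0 ≤ |b| := abs_nonneg b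
  set B₀ : ℝ := c + 6 * L + |b| + 1 with hB₀
  have hB0 : 0 ≤ B₀ := by positivity
  -- good indices
  let Good : ℕ → Prop := fun i => 1 ≤ i ∧ β i - β (i - 1) ≤ B₀ ∧ β (i + 1) - β i ≤ B₀
  have hgood : ∀ i j, Good i → i ≤ j → β j ≤ c + (j - i : ℕ) * L + 4 * B₀ + β i := by
    rintro i j ⟨h1, h3, h4⟩ hij
    have h5 := h i j h1 hij
    linarith
  have hone : Good 1 := by
    refine ⟨le_rfl, ?_, ?_⟩
    · have h3 := h0 (1 - 1)
      have h4 := hm (show (1 : ℕ) ≤ 2 by norm_num)
      linarith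
    · have h3 := h0 1
      have h4 : β (1 + 1) = β 2 := rfl
      rw [h4]
      linarith
  have hbad : ∀ m, 1 ≤ m → ¬ Good m → B₀ < β (m + 1) - β (m - 1) := by
    intro m hm1 hg
    have h3 := hm (Nat.sub_le m 1)
    have h4 := hm (Nat.le_succ m)
    by_contra hcon
    refine hg ⟨hm1, ?_, ?_⟩
    · have h5 : β m ≤ β (m + 1) := h4
      linarith
    · linarith
  have hnext : ∀ i, Good i → ∃ m, i + 1 ≤ m ∧ m ≤ i + 11 ∧ Good m := by
    intro i hi
    by_contra hcon
    push Not at hcon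
    have e1 := hbad (i + 1) (by omega) (fun hg => hcon (i + 1) (by omega) (by omega) hg)
    have e2 := hbad (i + 3) (by omega) (fun hg => hcon (i + 3) (by omega) (by omega) hg)
    have e3 := hbad (i + 5) (by omega) (fun hg => hcon (i + 5) (by omega) (by omega) hg)
    have e4 := hbad (i + 7) (by omega) (fun hg => hcon (i + 7) (by omega) (by omega) hg)
    have e5 := hbad (i + 9) (by omega) (fun hg => hcon (i + 9) (by omega) (by omega) hg)
    have e6 := hbad (i + 11) (by omega) (fun hg => hcon (i + 11) (by omega) (by omega) hg)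
    have f1 : i + 1 - 1 = i := by omega
    have f2 : i + 3 - 1 = i + 1 + 1 := by omega
    have f3 : i + 5 - 1 = i + 3 + 1 := by omega
    have f4 : i + 7 - 1 = i + 5 + 1 := by omega
    have f5 : i + 9 - 1 = i + 7 + 1 := by omega
    have f6 : i + 11 - 1 = i + 9 + 1 := by omega
    rw [f1] at e1
    rw [f2] at e2
    rw [f3] at e3
    rw [f4] at e4
    rw [f5] at e5
    rw [f6] at e6
    have h5 := hgood i (i + 11 + 1) hi (by omega)
    have f7 : i + 11 + 1 - i = 12 := by omega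
    rw [f7] at h5
    have f8 : ((12 : ℕ) : ℝ) = 12 := by norm_num
    rw [f8] at h5
    linarith
  have hall : ∀ l, 1 ≤ l → ∃ i, Good i ∧ i ≤ l ∧ l ≤ i + 11 := by
    intro l hl
    induction l, hl using Nat.le_induction with
    | base => exact ⟨1, hone, le_rfl, by norm_num⟩
    | succ l _ ih =>
      obtain ⟨i, hi, h3, h4⟩ := ih
      by_cases h5 : l + 1 ≤ i + 11
      · exact ⟨i, hi, by omega, h5⟩
      · obtain ⟨m, h6, h7, hg⟩ := hnext i hi
        exact ⟨m, hg, by omega, by omega⟩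
  rcases Nat.eq_zero_or_pos l with rfl | hl
  · have h3 := hone.2.1
    have h4 : β (1 - 1) = β 0 := rfl
    rw [h4] at h3
    have h5 : β (0 + 1) = β 1 := rfl
    rw [h5]
    linarith
  · obtain ⟨i, hi, h3, h4⟩ := hall l hl
    have h5 := hgood i (l + 1) hi (by omega)
    have h6 : ((l + 1 - i : ℕ) : ℝ) ≤ 12 := by
      have : l + 1 - i ≤ 12 := by omega
      exact_mod_cast this
    have h7 : ((l + 1 - i : ℕ) : ℝ) * L ≤ 12 * L := mul_le_mul_of_nonneg_right h6 hL
    have h8 := hm h3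
    linarith

theorem numeric (C B : ℝ) (hC : 1 ≤ C) : ∃ K : ℝ, 1 ≤ K ∧ ∀ a : ℕ → ℝ, (∀ i, 1 ≤ a i) → Monotone a → a 2 ≤ B →
    (∀ i j, 1 ≤ i → i ≤ j → a j ≤ C * 16 ^ (j - i) * (a (i + 1) / a (i - 1)) ^ 2 * a i) →
    ∀ l, a (l + 1) ≤ K * a l := by
  have hc : 0 ≤ Real.log C := Real.log_nonneg hC
  have hL : 0 ≤ Real.log 16 := Real.log_nonneg (by norm_num)
  refine ⟨Real.exp (Real.log C + 12 * Real.log 16 +
    4 * (Real.log C + 6 * Real.log 16 + |Real.log B| + 1)), ?_, ?_⟩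
  · refine Real.one_le_exp ?_
    have := abs_nonneg (Real.log B)
    positivity
  · intro a ha hmono h2 h l
    have hpos : ∀ i, 0 < a i := fun i => lt_of_lt_of_le one_pos (ha i)
    have key := numeric_log (c := Real.log C) (L := Real.log 16) (b := Real.log B)
      (β := fun i => Real.log (a i)) hc hL (fun i => Real.log_nonneg (ha i))
      (fun i j hij => Real.log_le_log (hpos i) (hmono hij))
      (Real.log_le_log (hpos 2) h2) (by
        intro i j h1 hij
        have h3 := Real.log_le_log (hpos j) (h i j h1 hij)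
        have hC0 : C ≠ 0 := by positivity
        have h16 : (16 : ℝ) ^ (j - i) ≠ 0 := by positivity
        have hq : a (i + 1) / a (i - 1) ≠ 0 := (div_pos (hpos _) (hpos _)).ne'
        rw [Real.log_mul (by positivity) (hpos i).ne', Real.log_mul (by positivity) (by positivity),
          Real.log_mul hC0 h16, Real.log_pow, Real.log_pow, Real.log_div (hpos _).ne' (hpos _).ne'] at h3
        push_cast at h3
        exact h3) l
    have h4 : Real.log (a (l + 1)) ≤ Real.log C + 12 * Real.log 16 +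
      4 * (Real.log C + 6 * Real.log 16 + |Real.log B| + 1) + Real.log (a l) := key
    have h5 := Real.exp_le_exp.2 h4
    rw [Real.exp_log (hpos _), Real.exp_add _ (Real.log (a l)), Real.exp_log (hpos _)] at h5
    exact h5

end Pool.Agent.BAB67
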