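import Pool.Agent.BAB67.Growth
import Pool.Agent.BAB67.Numeric

/-!
# [BAB67-CoreDoubling] the reduced situation is doubling

`core_doubling`. Let `C` be the constant of `growth_step h`, `a i = vol T q (4 ^ i)`, `K₁` the constant of `numeric C (D ^ 16)`. `a 2 = vol T q 16 ≤ D ^ 16` (`vol_pow`).
For `1 ≤ i ≤ j`, `growth_step` with `k = 4 ^ i`, `m = 4 ^ (j - i)`: `m k = 4 ^ j`, `m² = 16 ^ (j - i)`, `2 k + 1 ≤ 4 ^ (i + 1)`, `k / 2 ≥ 4 ^ (i - 1)`, so the ratio is at most `a (i + 1) / a (i - 1)`.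
So `a (l + 1) ≤ K₁ a l` for all `l`. Let `r ≥ 1`, `4 ^ l ≤ r < 4 ^ (l + 1)`: `2 r + 1 ≤ 4 ^ (l + 2)`, `vol T q (2 r + 1) ≤ a (l + 2) ≤ K₁² a l ≤ K₁² vol T q r`. For `r = 0`: `vol T q 1 ≤ D`.
`K = max D ⌈K₁²⌉`.
-/

set_option autoImplicit false

namespace Pool.Agent.BAB67

theorem core_doubling (h D : ℕ) : ∃ K : ℕ, ∀ (A Q : Type) [Group A] [Finite A] [Finite Q]
    (φ : A →* Equiv.Perm Q) (T : SimpleGraph Q), Core h D φ T → Doubling K T := by
  obtain ⟨C, hC, hgs⟩ := growth_step h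
  obtain ⟨K₁, hK₁, hnum⟩ := numeric C ((D : ℝ) ^ 16) hC
  refine ⟨max D ⌈K₁ ^ 2⌉₊, fun A Q _ _ _ φ T hcore => ?_⟩
  intro q r
  have hconn := hcore.conn
  have hm : ∀ {s t : ℕ}, s ≤ t → (vol T q s : ℝ) ≤ vol T q t := fun hst => by
    exact_mod_cast vol_mono q hst
  have hp : ∀ s : ℕ, (1 : ℝ) ≤ vol T q s := fun s => by exact_mod_cast vol_pos q s
  have key := hnum (fun i => (vol T q (4 ^ i) : ℝ)) (fun i => hp _)
    (fun i j hij => hm (Nat.pow_le_pow_right (by norm_num) hij))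
    (by
      have h1 := vol_pow hconn hcore.deg q 16
      have h2 : (4 : ℕ) ^ 2 = 16 := by norm_num
      simp only [h2]
      exact_mod_cast h1)
    (by
      intro i j hi hij
      have h1 := hgs A Q φ T hcore.act hconn hcore.cell q (4 ^ i) (4 ^ (j - i)) (Nat.one_le_pow _ _ (by norm_num))
      have h2 : 4 ^ (j - i) * 4 ^ i = 4 ^ j := by
        rw [← pow_add]
        congr 1
        omega
      rw [h2] at h1
      have h3 : (((4 ^ (j - i) : ℕ) : ℝ)) ^ 2 = 16 ^ (j - i) := by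
        push_cast
        rw [← pow_mul, mul_comm, pow_mul]
        norm_num
      rw [h3] at h1
      refine h1.trans ?_
      obtain ⟨i, rfl⟩ : ∃ i', i = i' + 1 := ⟨i - 1, by omega⟩
      have h4 : 2 * 4 ^ (i + 1) + 1 ≤ 4 ^ (i + 1 + 1) := by
        have := Nat.one_le_pow (i + 1) 4 (by norm_num)
        rw [pow_succ 4 (i + 1)]
        omega
      have h5 : 4 ^ i ≤ 4 ^ (i + 1) / 2 := by
        rw [pow_succ]
        omega
      have h6 : (vol T q (2 * 4 ^ (i + 1) + 1) : ℝ) / vol T q (4 ^ (i + 1) / 2) ≤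
          vol T q (4 ^ (i + 1 + 1)) / vol T q (4 ^ i) := by
        have h7 := hp (4 ^ i)
        have h8 := hp (4 ^ (i + 1 + 1))
        exact div_le_div₀ (by linarith) (hm h4) (by linarith) (hm h5)
      have h9 : (0 : ℝ) ≤ (vol T q (2 * 4 ^ (i + 1) + 1) : ℝ) / vol T q (4 ^ (i + 1) / 2) := by
        positivity
      have h10 : i + 1 - 1 = i := rfl
      simp only [h10]
      gcongr)
  rcases Nat.eq_zero_or_pos r with hr | hr
  · subst hr
    have h1 := hcore.deg q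
    have h2 := vol_pos (T := T) q 0
    calc vol T q (2 * 0 + 1) ≤ D := h1
      _ ≤ max D ⌈K₁ ^ 2⌉₊ := le_max_left _ _
      _ ≤ max D ⌈K₁ ^ 2⌉₊ * vol T q 0 := Nat.le_mul_of_pos_right _ h2
  · have h1 : 4 ^ Nat.log 4 r ≤ r := Nat.pow_log_le_self 4 hr.ne'
    have h2 : r < 4 ^ (Nat.log 4 r + 1) := Nat.lt_pow_succ_log_self (by norm_num) r
    have h3 : 2 * r + 1 ≤ 4 ^ (Nat.log 4 r + 1 + 1) := by
      rw [pow_succ 4 (Nat.log 4 r + 1)]
      omega
    have h4 := key (Nat.log 4 r)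
    have h5 := key (Nat.log 4 r + 1)
    have h6 : (vol T q (2 * r + 1) : ℝ) ≤ K₁ ^ 2 * vol T q r := by
      calc (vol T q (2 * r + 1) : ℝ) ≤ vol T q (4 ^ (Nat.log 4 r + 1 + 1)) := hm h3
        _ ≤ K₁ * vol T q (4 ^ (Nat.log 4 r + 1)) := h5
        _ ≤ K₁ * (K₁ * vol T q (4 ^ Nat.log 4 r)) := by gcongr
        _ ≤ K₁ * (K₁ * vol T q r) := by
          have := hm h1
          gcongr
        _ = K₁ ^ 2 * vol T q r := by ring
    have h7 : K₁ ^ 2 ≤ ((max D ⌈K₁ ^ 2⌉₊ : ℕ) : ℝ) :=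
      (Nat.le_ceil _).trans (by exact_mod_cast le_max_right _ _)
    have h8 : (vol T q (2 * r + 1) : ℝ) ≤ ((max D ⌈K₁ ^ 2⌉₊ : ℕ) : ℝ) * vol T q r :=
      h6.trans (mul_le_mul_of_nonneg_right h7 (Nat.cast_nonneg _))
    exact_mod_cast h8

end Pool.Agent.BAB67
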