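import Pool.Agent.BAB67.CellVT
import Pool.Agent.BAB67.Vol
import Pool.Agent.BAB67.Mader

/-!
# [BAB67-CoreVT] vertex-transitive `K_h`-free graphs

`core_vt`: `deg`: all vertices have the same degree `d` (`Act.vol`, `vol_one`), `d card Q ≤ 2 |E| ≤ 2 * 2 ^ h * card Q` (`degree_sum`, `edges_le`), so `d ≤ 2 * 2 ^ h` and `vol T q 1 = d + 1` (`vol_one`).
-/

set_option autoImplicit false

namespace Pool.Agent.BAB67

universe u

theorem core_vt {h : ℕ} {A : Type u} {Q : Type} [Group A] [Finite Q] {φ : A →* Equiv.Perm Q} {T : SimpleGraph Q}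
    (hA : Act φ T) (hT : T.Connected) (hf : ¬ HasModel h T) (hn : ∃ q q' : Q, q ≠ q') :
    Core h (2 * 2 ^ h + 1) φ T := by
  refine ⟨hA, hT, cellProp_of_free hT hf, fun q => ?_, hn⟩
  have h1 : ∀ v, (T.neighborSet q).ncard ≤ (T.neighborSet v).ncard := by
    intro v
    have h2 := hA.vol q v 1
    rw [vol_one hT q, vol_one hT v] at h2
    omega
  have h2 := degree_sum T _ h1
  have h3 := edges_le h Q T hf
  have h4 : 0 < Nat.card Q := by
    have : Nonempty Q := ⟨q⟩
    exact Nat.card_pos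
  have h5 : (T.neighborSet q).ncard * Nat.card Q ≤ (2 * 2 ^ h) * Nat.card Q := by
    calc _ ≤ _ := h2
      _ ≤ 2 * (2 ^ h * Nat.card Q) := by omega
      _ = _ := by ring
  have h6 := Nat.le_of_mul_le_mul_right h5 h4
  rw [vol_one hT q]
  omega

end Pool.Agent.BAB67
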