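import Mathlib

/-!
# BAB67: finite simple automorphism groups of minor-closed graph classes (MP_d97d98_co, helper67)

Goal: for every `h` there is `N` such that a finite non-abelian simple group `G` with `|G| > N` is not the automorphism
group of a graph (finite or infinite) without `K_h` subcontraction.

Plan. By `Witness.lean` (helper96) such a `G` is a quotient of `Aut Y` for a finite `K_h`-free graph `Y`. Take a minimal
finite coloured `K_h`-free graph `(V, Y, κ)` such that `G` is a quotient of `A = CAut Y κ` (`MinRep`). Then `Y` is connected,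
`A` has no fixed vertex; contract a coarsest `A`-invariant partition into connected parts no one of which is invariant:
one gets a transitive action of `A` on a connected graph `T` of bounded degree which is almost a minor of `Y` (`Core`).
Separators in the minors of `T` and averaging over `A` give that `T` is doubling. If `ker π` is transitive on `T` then
`|G| ≤ D!`; otherwise `G` acts faithfully on the doubling graph of the orbits of `ker π`; Kleiner's argument bounds the
dimension of the space of functions of least positive energy, on which `G` acts faithfully, so `|G| ≤ 5^(m^2)`.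
-/

set_option autoImplicit false

namespace Pool.Agent.BAB67

universe u v w

/-! ### Minors -/

/-- A model of `K_k` in `X` by branch sets. -/
def HasModel (k : ℕ) {V : Type u} (X : SimpleGraph V) : Prop :=
  ∃ B : Fin k → Set V, (∀ i, (X.induce (B i)).Connected) ∧
    (∀ i j, i ≠ j → Disjoint (B i) (B j)) ∧
    ∀ i j, i ≠ j → ∃ x ∈ B i, ∃ y ∈ B j, X.Adj x y

/-- `H` is a minor of `G`. -/
def MinorOf {W : Type u} {V : Type v} (H : SimpleGraph W) (G : SimpleGraph V) : Prop :=
  ∃ B : W → Set V, (∀ a, (G.induce (B a)).Connected) ∧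
    (∀ a b, a ≠ b → Disjoint (B a) (B b)) ∧
    ∀ a b, H.Adj a b → ∃ x ∈ B a, ∃ y ∈ B b, G.Adj x y

/-- The image of the graph `G` under the map `c`: two different points are adjacent if there are adjacent vertices
above them. -/
def fgraph {V : Type u} {N : Type v} (G : SimpleGraph V) (c : V → N) : SimpleGraph N where
  Adj x y := x ≠ y ∧ ∃ p q : V, c p = x ∧ c q = y ∧ G.Adj p q
  symm := ⟨fun _ _ ⟨h, p, q, hp, hq, hpq⟩ => ⟨h.symm, q, p, hq, hp, hpq.symm⟩⟩
  loopless := ⟨fun _ h => h.1 rfl⟩

/-- The bipartite graph of a relation. -/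
def bip {O : Type u} {Q : Type v} (I : O → Q → Prop) : SimpleGraph (O ⊕ Q) where
  Adj a b := (∃ o q, a = Sum.inl o ∧ b = Sum.inr q ∧ I o q) ∨ (∃ o q, b = Sum.inl o ∧ a = Sum.inr q ∧ I o q)
  symm := ⟨fun _ _ h => h.symm⟩
  loopless := ⟨by
    rintro a (⟨o, q, h1, h2, -⟩ | ⟨o, q, h1, h2, -⟩)
    · rw [h1] at h2; exact absurd h2 (by simp)
    · rw [h1] at h2; exact absurd h2 (by simp)⟩

/-- Two points of `Q` are adjacent if they have a common neighbour in `O`. -/
def half {O : Type u} {Q : Type v} (I : O → Q → Prop) : SimpleGraph Q where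
  Adj q q' := q ≠ q' ∧ ∃ o, I o q ∧ I o q'
  symm := ⟨fun _ _ ⟨h, o, h1, h2⟩ => ⟨h.symm, o, h2, h1⟩⟩
  loopless := ⟨fun _ h => h.1 rfl⟩

/-! ### Coloured automorphism groups -/

/-- The group of automorphisms of `Y` preserving the colouring `κ`. -/
def CAut {V : Type u} {α : Type v} (Y : SimpleGraph V) (κ : V → α) : Subgroup (Equiv.Perm V) where
  carrier := {g | (∀ a b, Y.Adj (g a) (g b) ↔ Y.Adj a b) ∧ ∀ a, κ (g a) = κ a}
  mul_mem' := by
    rintro g h ⟨h1, h2⟩ ⟨h3, h4⟩
    refine ⟨fun a b => ?_, fun a => ?_⟩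
    · rw [Equiv.Perm.mul_apply, Equiv.Perm.mul_apply, h1, h3]
    · rw [Equiv.Perm.mul_apply, h2, h4]
  one_mem' := ⟨fun _ _ => Iff.rfl, fun _ => rfl⟩
  inv_mem' := by
    rintro g ⟨h1, h2⟩
    refine ⟨fun a b => ?_, fun a => ?_⟩
    · rw [← h1, show g (g⁻¹ a) = a from g.apply_symm_apply a, show g (g⁻¹ b) = b from g.apply_symm_apply b]
    · rw [← h2, show g (g⁻¹ a) = a from g.apply_symm_apply a]

theorem mem_CAut {V : Type u} {α : Type v} {Y : SimpleGraph V} {κ : V → α} {g : Equiv.Perm V} :
    g ∈ CAut Y κ ↔ (∀ a b, Y.Adj (g a) (g b) ↔ Y.Adj a b) ∧ ∀ a, κ (g a) = κ a := Iff.rfl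

/-- `G` is a quotient of `CAut Y κ`. -/
def Rep (G : Type w) [Group G] {V : Type u} {α : Type v} (Y : SimpleGraph V) (κ : V → α) : Prop :=
  ∃ π : CAut Y κ →* G, Function.Surjective π

/-- `G` is not abelian. -/
def NC (G : Type w) [Group G] : Prop := ∃ a b : G, a * b ≠ b * a

/-- `(V, Y, κ)` is a minimal finite coloured `K_h`-free graph such that `G` is a quotient of `CAut Y κ`: first `|V|` is
least, then `|CAut Y κ|` is least among the colourings of `Y`. -/
structure MinRep (h : ℕ) (G : Type w) [Group G] {V α : Type} (Y : SimpleGraph V) (κ : V → α) : Prop where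
  free : ¬ HasModel h Y
  rep : Rep G Y κ
  minV : ∀ (V' α' : Type) [Finite V'] (Y' : SimpleGraph V') (κ' : V' → α'), ¬ HasModel h Y' →
    Rep G Y' κ' → Nat.card V ≤ Nat.card V'
  minA : ∀ (α' : Type) (κ' : V → α'), Rep G Y κ' → Nat.card (CAut Y κ) ≤ Nat.card (CAut Y κ')

/-- An invariant partition into connected parts, no part is invariant. -/
structure GoodPart {V α : Type} (Y : SimpleGraph V) (κ : V → α) (r : Setoid V) : Prop where
  inv : ∀ g ∈ CAut Y κ, ∀ a b, r a b → r (g a) (g b)
  conn : ∀ v, (Y.induce {a | r a v}).Connected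
  moved : ∀ v, ∃ g ∈ CAut Y κ, ¬ r (g v) v

/-! ### Transitive actions on graphs -/

/-- The homomorphism `φ` acts transitively and by automorphisms of `T`. -/
structure Act {A : Type u} {Q : Type v} [Group A] (φ : A →* Equiv.Perm Q) (T : SimpleGraph Q) : Prop where
  adj : ∀ g q q', T.Adj (φ g q) (φ g q') ↔ T.Adj q q'
  trans : ∀ q q', ∃ g, φ g q = q'

/-- The number of points at distance at most `r`. -/
noncomputable def vol {Q : Type u} (T : SimpleGraph Q) (q : Q) (r : ℕ) : ℕ := {p | T.dist q p ≤ r}.ncard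

/-- Doubling (with `r = 0` it bounds the degrees). -/
def Doubling (K : ℕ) {Q : Type u} (T : SimpleGraph Q) : Prop :=
  ∀ q r, vol T q (2 * r + 1) ≤ K * vol T q r

/-- For every `k` and every set `N` which is `k`-dense there are cells around the points of `N` such that the graph of
the cells is `K_h`-free. The cells of two adjacent points are equal or adjacent or have a common neighbour which is
near. -/
def CellProp (h : ℕ) {Q : Type} (T : SimpleGraph Q) : Prop :=
  ∀ (k : ℕ) (N : Set Q), (∀ q, ∃ x ∈ N, T.dist q x ≤ k) →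
    ∃ (M : SimpleGraph N) (c : Q → N), ¬ HasModel h M ∧ (∀ q, T.dist q (c q) ≤ k) ∧
      ∀ q q', T.Adj q q' → ∃ x : N, (c q = x ∨ M.Adj (c q) x) ∧ (x = c q' ∨ M.Adj x (c q')) ∧
        T.dist q x ≤ k + 1

/-- The reduced situation. -/
structure Core (h D : ℕ) {A : Type u} {Q : Type} [Group A] (φ : A →* Equiv.Perm Q) (T : SimpleGraph Q) : Prop where
  act : Act φ T
  conn : T.Connected
  cell : CellProp h T
  deg : ∀ q, vol T q 1 ≤ D
  nontriv : ∃ q q' : Q, q ≠ q'

/-- The orbit of `b`. -/
def orb {A : Type u} {P : Type v} [Group A] (ψ : A →* Equiv.Perm P) (b : P) : Set P := {c | ∃ g, ψ g b = c}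

theorem orb_iff {A : Type u} {P : Type v} [Group A] (ψ : A →* Equiv.Perm P) (b : P) (g : A) (c : P) :
    ψ g c ∈ orb ψ b ↔ c ∈ orb ψ b := by
  constructor
  · rintro ⟨x, hx⟩
    refine ⟨g⁻¹ * x, ?_⟩
    rw [map_mul, Equiv.Perm.mul_apply, hx, ← Equiv.Perm.mul_apply, ← map_mul, inv_mul_cancel, map_one,
      Equiv.Perm.one_apply]
  · rintro ⟨x, rfl⟩
    exact ⟨g * x, by rw [map_mul, Equiv.Perm.mul_apply]⟩

/-- The action on the orbit of `b`. -/
def orbAct {A : Type u} {P : Type v} [Group A] (ψ : A →* Equiv.Perm P) (b : P) :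
    A →* Equiv.Perm (orb ψ b) where
  toFun g := (ψ g).subtypePerm (fun c => orb_iff ψ b g c)
  map_one' := by
    ext c
    simp
  map_mul' g g' := by
    ext c
    simp

theorem orbAct_val {A : Type u} {P : Type v} [Group A] (ψ : A →* Equiv.Perm P) (b : P) (g : A)
    (c : orb ψ b) : ((orbAct ψ b g) c : P) = ψ g c := rfl

/-- The action on the parts of an invariant partition. -/
def partAct {V α : Type} {Y : SimpleGraph V} {κ : V → α} {r : Setoid V}
    (hr : ∀ g ∈ CAut Y κ, ∀ a b, r a b → r (g a) (g b)) : CAut Y κ →* Equiv.Perm (Quotient r) where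
  toFun g :=
    { toFun := Quotient.map g.1 (fun a b h => hr g.1 g.2 a b h)
      invFun := Quotient.map (g⁻¹).1 (fun a b h => hr (g⁻¹).1 (g⁻¹).2 a b h)
      left_inv := by
        rintro ⟨a⟩
        change Quotient.mk r _ = Quotient.mk r _
        simp
      right_inv := by
        rintro ⟨a⟩
        change Quotient.mk r _ = Quotient.mk r _
        simp }
  map_one' := by
    ext ⟨a⟩
    rfl
  map_mul' g g' := by
    ext ⟨a⟩
    rfl

theorem partAct_mk {V α : Type} {Y : SimpleGraph V} {κ : V → α} {r : Setoid V}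
    (hr : ∀ g ∈ CAut Y κ, ∀ a b, r a b → r (g a) (g b)) (g : CAut Y κ) (a : V) :
    partAct hr g (Quotient.mk r a) = Quotient.mk r (g.1 a) := rfl

/-! ### Energy -/

open scoped Classical in
/-- The square of the gradient of `f` at `x`. -/
noncomputable def grad2 {X : Type u} [Fintype X] (T : SimpleGraph X) (f : X → ℝ) (x : X) : ℝ :=
  ∑ y, if T.Adj x y then (f x - f y) ^ 2 else 0

/-- The energy of `f` (every edge is counted twice). -/
noncomputable def energy {X : Type u} [Fintype X] (T : SimpleGraph X) (f : X → ℝ) : ℝ := ∑ x, grad2 T f x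

/-! ### Separators -/

/-- The union of the connected sets outside of `X` with more than half of the vertices. -/
def Big {V : Type u} (G : SimpleGraph V) (X : Set V) : Set V :=
  {v | ∃ C : Set V, (G.induce C).Connected ∧ Disjoint C X ∧ Nat.card V < 2 * C.ncard ∧ v ∈ C}

/-- A covey: a model of `K_k` by sets which contain `X`, each at most `t` points of it, and avoid the big component of
the complement of `X`. -/
structure Covey {V : Type u} (G : SimpleGraph V) (t : ℕ) (X : Set V) {k : ℕ} (B : Fin k → Set V) : Prop where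
  conn : ∀ i, (G.induce (B i)).Connected
  disj : ∀ i j, i ≠ j → Disjoint (B i) (B j)
  adj : ∀ i j, i ≠ j → ∃ x ∈ B i, ∃ y ∈ B j, G.Adj x y
  sub : X ⊆ ⋃ i, B i
  small : ∀ i, (X ∩ B i).ncard ≤ t
  big : ∀ i, Disjoint (B i) (Big G X)

end Pool.Agent.BAB67
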