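import Pool.Agent.BAB67.Separator

/-!
# [BAB67-Division] removing few vertices leaves small components

`division`. Let `c₁ = 2 h √h` (or any constant with: `separator` applied to a graph with `n ≥ 1` vertices and `t = ⌈√(h n)⌉` gives
`|X| ≤ h t ≤ h (√(h n) + 1) ≤ 2 h √h √n = c₁ √n`, for `h ≥ 1`), `b = c₁ / (√2 - 1)`, `a = √2 b + 1`. If `h = 0` there is nothing to prove (`HasModel 0` holds).
Claim, by strong induction on `|U|`, for sets `U` of vertices of a fixed `K_h`-free graph `G` (or for graphs, by induction on the number of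
vertices; subgraphs induced on `U` are `K_h`-free by `induce_minor`): there is `X ⊆ U` such that all connected `C ⊆ U \ X` have `|C| ≤ s`, and
`X = ∅` if `n = |U| ≤ s`, `|X| ≤ a n / √s - b √n` if `n > s`.
Let `n > s`. Let `X₀` be the separator of `G.induce U`, `|X₀| ≤ c₁ √n`. Let `U_1, ..., U_m` be the connected components of `G.induce (U \ X₀)`, `n_i = |U_i| ≤ n / 2`,
`∑ n_i ≤ n`, and `X_i ⊆ U_i` from the induction; `X = X₀ ∪ ⋃ X_i`. A connected `C ⊆ U \ X` is contained in some `U_i`, and `|C| ≤ s`. With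
`m = ∑ n_i` over the `i` with `n_i > s`: for such `i`, `√(n_i) ≥ √2 n_i / √n` (as `n_i ≤ n / 2`). So
`|X| ≤ c₁ √n + a m / √s - √2 b m / √n`, and this is `≤ a n / √s - b √n`, because `a (n - m) / √s ≥ a (n - m) / √n` (`s ≤ n`) and
`(a (n - m) + √2 b m) / √n ≥ √2 b n / √n = √2 b √n = (c₁ + b) √n`.
-/

set_option autoImplicit false

namespace Pool.Agent.BAB67

/-- the graph without the edges at the points of `X` -/
private def divisionCut {V : Type} (G : SimpleGraph V) (X : Set V) : SimpleGraph V where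
  Adj x y := G.Adj x y ∧ x ∉ X ∧ y ∉ X
  symm := ⟨fun _ _ h => ⟨h.1.symm, h.2.2, h.2.1⟩⟩
  loopless := ⟨fun x h => G.loopless.irrefl x h.1⟩

private theorem division_supp_conn {V : Type} (G : SimpleGraph V) (X : Set V)
    (c : (divisionCut G X).ConnectedComponent) : (G.induce c.supp).Connected := by
  have h1 : ((divisionCut G X).induce c.supp).Connected := c.connected_toSimpleGraph
  refine h1.mono ?_
  intro x y hxy
  exact hxy.1

private theorem division_supp_single {V : Type} (G : SimpleGraph V) (X : Set V)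
    (c : (divisionCut G X).ConnectedComponent) {x : V} (hx : x ∈ c.supp) (hxX : x ∈ X) :
    c.supp ⊆ {x} := by
  intro y hy
  have h1 : (divisionCut G X).Reachable x y := by
    rw [SimpleGraph.ConnectedComponent.mem_supp_iff] at hx hy
    exact SimpleGraph.ConnectedComponent.exact (hx.trans hy.symm)
  obtain ⟨w⟩ := h1
  cases w with
  | nil => rfl
  | cons h _ => exact absurd hxX h.2.1

private theorem division_sub {V : Type} (G : SimpleGraph V) (X C : Set V)
    (hC : (G.induce C).Connected) (hd : Disjoint C X) :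
    ∃ c : (divisionCut G X).ConnectedComponent, C ⊆ c.supp := by
  obtain ⟨v⟩ := hC.nonempty
  refine ⟨(divisionCut G X).connectedComponentMk v.1, ?_⟩
  intro w hw
  have h1 : (G.induce C).Reachable ⟨w, hw⟩ v := hC.preconnected _ _
  have hX : ∀ x : C, (x : V) ∉ X := fun x hx => Set.disjoint_left.mp hd x.2 hx
  let f : G.induce C →g divisionCut G X :=
    { toFun := Subtype.val
      map_rel' := fun {a b} hab => ⟨hab, hX a, hX b⟩ }
  have h2 := h1.map f
  exact SimpleGraph.ConnectedComponent.sound h2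

private theorem division_num (c₁ b a : ℝ) (hc₁ : 0 ≤ c₁) (hb : b = 5 / 2 * c₁)
    (ha : a = 7 / 5 * b + 1) (s n m : ℕ) (hs : 1 ≤ s) (hn : s < n) (hm : 2 * m ≤ n) :
    (if m ≤ s then (0 : ℝ) else a * m / √s - b * √m) ≤ m * (a / √s - 7 / 5 * b / √n) := by
  have hs0 : (0 : ℝ) < s := by exact_mod_cast hs
  have hn0 : (0 : ℝ) < n := by exact_mod_cast (by omega : 0 < n)
  have hb0 : 0 ≤ b := by rw [hb]; positivity
  have hss : 0 < √(s : ℝ) := Real.sqrt_pos.mpr hs0
  have hsn : 0 < √(n : ℝ) := Real.sqrt_pos.mpr hn0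
  have hle : √(s : ℝ) ≤ √(n : ℝ) := Real.sqrt_le_sqrt (by exact_mod_cast hn.le)
  split_ifs with h
  · refine mul_nonneg (Nat.cast_nonneg _) ?_
    have h1 : 7 / 5 * b / √(n : ℝ) ≤ a / √(s : ℝ) := by
      refine div_le_div₀ (by rw [ha]; positivity) (by rw [ha]; linarith) hss hle
    linarith
  · have h1 : 7 / 5 * (m : ℝ) / √(n : ℝ) ≤ √(m : ℝ) := by
      rw [div_le_iff₀ hsn, ← Real.sqrt_mul (Nat.cast_nonneg _)]
      refine Real.le_sqrt_of_sq_le ?_
      have h2 : (2 : ℝ) * m ≤ n := by exact_mod_cast hm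
      have h3 : (0 : ℝ) ≤ m := Nat.cast_nonneg _
      nlinarith
    have h4 := mul_le_mul_of_nonneg_left h1 hb0
    have h5 : (m : ℝ) * (a / √(s : ℝ) - 7 / 5 * b / √(n : ℝ)) =
        a * m / √(s : ℝ) - b * (7 / 5 * (m : ℝ) / √(n : ℝ)) := by ring
    rw [h5]
    linarith

private theorem division_aux (h : ℕ) (c₁ b a : ℝ) (hc₁ : c₁ = h * (√h + 1)) (hb : b = 5 / 2 * c₁)
    (ha : a = 7 / 5 * b + 1) (s : ℕ) (hs : 1 ≤ s) (n : ℕ) :
    ∀ (V : Type) [Finite V] (G : SimpleGraph V), Nat.card V = n → ¬ HasModel h G →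
    ∃ X : Set V, (X.ncard : ℝ) ≤ (if n ≤ s then 0 else a * n / √s - b * √n) ∧
      ∀ C : Set V, (G.induce C).Connected → Disjoint C X → C.ncard ≤ s := by
  induction n using Nat.strong_induction_on with
  | _ n ih =>
  intro V _ G hV hG
  have hcard : ∀ C : Set V, C.ncard ≤ n := fun C => by
    rw [← hV, ← Set.ncard_univ]
    exact Set.ncard_le_ncard (Set.subset_univ _) Set.finite_univ
  by_cases hns : n ≤ s
  · refine ⟨∅, ?_, fun C _ _ => (hcard C).trans hns⟩
    rw [if_pos hns]
    simp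
  · have hns' : s < n := not_le.mp hns
    obtain ⟨X₀, hX₀, hsep⟩ := separator G h ⌈√((h : ℝ) * n)⌉₊ hG (by
      have h1 : √((h : ℝ) * n) ≤ (⌈√((h : ℝ) * n)⌉₊ : ℝ) := Nat.le_ceil _
      have h2 : (h : ℝ) * n ≤ (⌈√((h : ℝ) * n)⌉₊ : ℝ) ^ 2 := by
        calc (h : ℝ) * n = √((h : ℝ) * n) ^ 2 := (Real.sq_sqrt (by positivity)).symm
          _ ≤ _ := by gcongr
      rw [hV]
      exact_mod_cast h2)
    have hcomp : ∀ c : (divisionCut G X₀).ConnectedComponent, 2 * Nat.card c.supp ≤ n := by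
      intro c
      by_cases hx : ∃ x ∈ c.supp, x ∈ X₀
      · obtain ⟨x, hx, hxX⟩ := hx
        have h1 := Set.ncard_le_ncard (division_supp_single G X₀ c hx hxX) (Set.finite_singleton _)
        rw [Set.ncard_singleton] at h1
        rw [Nat.card_coe_set_eq]
        omega
      · push Not at hx
        have h1 := hsep c.supp (division_supp_conn G X₀ c) (Set.disjoint_left.mpr hx)
        rw [Nat.card_coe_set_eq, ← hV]
        exact h1
    have hex : ∀ c : (divisionCut G X₀).ConnectedComponent, ∃ X : Set c.supp,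
        (X.ncard : ℝ) ≤ (if Nat.card c.supp ≤ s then 0 else
          a * (Nat.card c.supp : ℕ) / √s - b * √(Nat.card c.supp : ℕ)) ∧
        ∀ C : Set c.supp, ((G.induce c.supp).induce C).Connected → Disjoint C X →
          C.ncard ≤ s := by
      intro c
      refine ih (Nat.card c.supp) (by have := hcomp c; omega) c.supp (G.induce c.supp) rfl ?_
      exact fun hm => hG ((induce_minor G c.supp).hasModel hm)
    choose Y hY hYC using hex
    classical
    haveI : Fintype V := Fintype.ofFinite V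
    haveI : Finite (divisionCut G X₀).ConnectedComponent :=
      Finite.of_surjective _ (Quot.mk_surjective (r := (divisionCut G X₀).Reachable))
    haveI : Fintype (divisionCut G X₀).ConnectedComponent := Fintype.ofFinite _
    have hsum : ∑ c : (divisionCut G X₀).ConnectedComponent, Nat.card c.supp = n := by
      rw [← Nat.card_sigma, ← hV]
      exact Nat.card_congr (Equiv.sigmaFiberEquiv (divisionCut G X₀).connectedComponentMk)
    refine ⟨X₀ ∪ ⋃ c, Subtype.val '' (Y c), ?_, ?_⟩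
    · rw [if_neg hns]
      have h1 : ((X₀ ∪ ⋃ c, Subtype.val '' (Y c)).ncard : ℝ) ≤
          X₀.ncard + ∑ c, ((Y c).ncard : ℝ) := by
        have h2 : (X₀ ∪ ⋃ c, Subtype.val '' (Y c)).ncard ≤ X₀.ncard + ∑ c, (Y c).ncard := by
          refine (Set.ncard_union_le _ _).trans (Nat.add_le_add_left ?_ _)
          refine (Set.ncard_iUnion_le_of_fintype _).trans (Finset.sum_le_sum fun c _ => ?_)
          exact Set.ncard_image_le (Set.toFinite _)
        exact_mod_cast h2
      have hc0 : 0 ≤ c₁ := by rw [hc₁]; positivity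
      have hn0 : (0 : ℝ) < n := by exact_mod_cast (by omega : 0 < n)
      have hsn : 0 < √(n : ℝ) := Real.sqrt_pos.mpr hn0
      have h3 : ∑ c, ((Y c).ncard : ℝ) ≤ n * (a / √s - 7 / 5 * b / √n) := by
        calc ∑ c, ((Y c).ncard : ℝ) ≤
            ∑ c : (divisionCut G X₀).ConnectedComponent,
              (Nat.card c.supp : ℝ) * (a / √s - 7 / 5 * b / √n) :=
              Finset.sum_le_sum fun c _ => (hY c).trans
                (division_num c₁ b a hc0 hb ha s n _ hs hns' (hcomp c))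
          _ = n * (a / √s - 7 / 5 * b / √n) := by
              rw [← Finset.sum_mul, ← Nat.cast_sum, hsum]
      have h4 : (X₀.ncard : ℝ) ≤ c₁ * √n := by
        have h5 : (X₀.ncard : ℝ) ≤ h * (⌈√((h : ℝ) * n)⌉₊ : ℝ) := by exact_mod_cast hX₀
        have h6 : (⌈√((h : ℝ) * n)⌉₊ : ℝ) ≤ √((h : ℝ) * n) + 1 :=
          (Nat.ceil_lt_add_one (Real.sqrt_nonneg _)).le
        have h7 : √((h : ℝ) * n) = √(h : ℝ) * √(n : ℝ) := Real.sqrt_mul (Nat.cast_nonneg _) _
        have h8 : (1 : ℝ) ≤ √(n : ℝ) := by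
          rw [Real.one_le_sqrt]
          exact_mod_cast (by omega : 1 ≤ n)
        have h13 : (⌈√((h : ℝ) * n)⌉₊ : ℝ) ≤ √(h : ℝ) * √(n : ℝ) + √(n : ℝ) := by
          rw [← h7]
          linarith
        calc (X₀.ncard : ℝ) ≤ h * (⌈√((h : ℝ) * n)⌉₊ : ℝ) := h5
          _ ≤ h * (√(h : ℝ) * √(n : ℝ) + √(n : ℝ)) :=
              mul_le_mul_of_nonneg_left h13 (Nat.cast_nonneg _)
          _ = c₁ * √n := by rw [hc₁]; ring
      have h9 : (n : ℝ) * (a / √s - 7 / 5 * b / √n) = a * n / √s - 7 / 5 * b * √n := by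
        have h10 : (n : ℝ) = √(n : ℝ) * √(n : ℝ) := (Real.mul_self_sqrt hn0.le).symm
        have h11 : (n : ℝ) / √(n : ℝ) = √(n : ℝ) := by
          rw [div_eq_iff hsn.ne']; exact h10
        calc (n : ℝ) * (a / √s - 7 / 5 * b / √n) = a * n / √s - 7 / 5 * b * (n / √n) := by ring
          _ = _ := by rw [h11]
      rw [h9] at h3
      have h12 : c₁ * √(n : ℝ) = 2 / 5 * b * √(n : ℝ) := by rw [hb]; ring
      linarith
    · intro C hC hd
      rw [Set.disjoint_union_right] at hd
      obtain ⟨c, hc⟩ := division_sub G X₀ C hC hd.1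
      have h1 : ((G.induce c.supp).induce (Subtype.val ⁻¹' C)).Connected := by
        let f : G.induce C →g (G.induce c.supp).induce (Subtype.val ⁻¹' C) :=
          { toFun := fun x => ⟨⟨x.1, hc x.2⟩, x.2⟩
            map_rel' := fun {a b} hab => hab }
        refine hC.map f ?_
        rintro ⟨⟨x, hx⟩, hx'⟩
        exact ⟨⟨x, hx'⟩, rfl⟩
      have h2 := hYC c (Subtype.val ⁻¹' C) h1 (by
        rw [Set.disjoint_left]
        intro x hx hx'
        refine Set.disjoint_left.mp hd.2 hx ?_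
        exact Set.mem_iUnion.mpr ⟨c, ⟨x, hx', rfl⟩⟩)
      have h3 : Subtype.val '' (Subtype.val ⁻¹' C : Set c.supp) = C := by
        rw [Subtype.image_preimage_coe]
        exact Set.inter_eq_right.mpr hc
      rw [← h3, Set.ncard_image_of_injective _ Subtype.val_injective]
      exact h2

theorem division (h : ℕ) : ∃ a : ℝ, 0 < a ∧ ∀ (V : Type) [Finite V] (G : SimpleGraph V), ¬ HasModel h G →
    ∀ s : ℕ, 1 ≤ s → ∃ X : Set V, (X.ncard : ℝ) ≤ a * Nat.card V / √s ∧
      ∀ C : Set V, (G.induce C).Connected → Disjoint C X → C.ncard ≤ s := by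
  refine ⟨7 / 5 * (5 / 2 * (h * (√h + 1))) + 1, by positivity, ?_⟩
  intro V _ G hG s hs
  obtain ⟨X, hX, hXC⟩ := division_aux h (h * (√h + 1)) (5 / 2 * (h * (√h + 1)))
    (7 / 5 * (5 / 2 * (h * (√h + 1))) + 1) rfl rfl rfl s hs (Nat.card V) V G rfl hG
  refine ⟨X, hX.trans ?_, hXC⟩
  split_ifs with h1
  · positivity
  · have h2 : 0 ≤ 5 / 2 * ((h : ℝ) * (√h + 1)) * √(Nat.card V : ℝ) := by positivity
    linarith

end Pool.Agent.BAB67
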