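import Pool.Agent.BAB67.MinRep

/-!
# [BAB67-Kernel] the kernel of the action on an orbit of parts

`kernel_cond`. Let `S = orb (partAct hr.inv) b`, `κ' : V → α × Option (Quotient r)`, `κ' v = (κ v, some ⟦v⟧)` if `⟦v⟧ ∈ S` and `(κ v, none)` otherwise. `CAut Y κ'` is the set of the `g ∈ CAut Y κ` which fix every
part in `S` (as a part), that is, `orbAct (partAct hr.inv) b g = 1` (for `v` with `⟦v⟧ ∉ S` also `⟦g v⟧ ∉ S`). It is normalised by `CAut Y κ` and it is not `CAut Y κ` because by `hr.moved` some `g` moves the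
part `b` (`b = ⟦v⟧`, `¬ r (g v) v`). So `normal_trivial` gives `π a = 1`.
-/

set_option autoImplicit false

namespace Pool.Agent.BAB67

universe w

variable {h : ℕ} {G : Type w} [Group G] {V α : Type} [Finite V] {Y : SimpleGraph V} {κ : V → α}

open Classical in
/-- the colouring which also records the parts in the orbit of `b` -/
private noncomputable def kernelCol {r : Setoid V} (hr : GoodPart Y κ r) (b : Quotient r) (v : V) :
    α × Option (Quotient r) :=
  (κ v, if Quotient.mk r v ∈ orb (partAct hr.inv) b then some (Quotient.mk r v) else none)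

omit [Finite V] in
private theorem kernel_mem {r : Setoid V} (hr : GoodPart Y κ r) (b : Quotient r)
    {g : Equiv.Perm V} (hg : g ∈ CAut Y κ) : g ∈ CAut Y (kernelCol hr b) ↔
      ∀ v, Quotient.mk r v ∈ orb (partAct hr.inv) b → Quotient.mk r (g v) = Quotient.mk r v := by
  classical
  constructor
  · rintro ⟨-, h2⟩ v hv
    have h3 := congrArg Prod.snd (h2 v)
    simp only [kernelCol] at h3
    rw [if_pos hv] at h3
    split_ifs at h3 with h4
    exact Option.some.inj h3
  · intro h1
    refine ⟨hg.1, fun v => ?_⟩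
    have h2 : Quotient.mk r (g v) ∈ orb (partAct hr.inv) b ↔
        Quotient.mk r v ∈ orb (partAct hr.inv) b :=
      orb_iff (partAct hr.inv) b ⟨g, hg⟩ (Quotient.mk r v)
    simp only [kernelCol]
    rw [hg.2 v]
    by_cases hv : Quotient.mk r v ∈ orb (partAct hr.inv) b
    · rw [if_pos hv, if_pos (h2.2 hv), h1 v hv]
    · rw [if_neg hv, if_neg (fun h => hv (h2.1 h))]

theorem kernel_cond [IsSimpleGroup G] (hm : MinRep h G Y κ) {r : Setoid V} (hr : GoodPart Y κ r) (b : Quotient r)
    (π : CAut Y κ →* G) (hπ : Function.Surjective π) (a : CAut Y κ) (ha : orbAct (partAct hr.inv) b a = 1) :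
    π a = 1 := by
  classical
  have hle : CAut Y (kernelCol hr b) ≤ CAut Y κ := by
    rintro g ⟨h1, h2⟩
    exact ⟨h1, fun v => congrArg Prod.fst (h2 v)⟩
  have hne : CAut Y (kernelCol hr b) ≠ CAut Y κ := by
    intro heq
    obtain ⟨v, rfl⟩ := Quotient.exists_rep b
    obtain ⟨g, hg, hgv⟩ := hr.moved v
    have h1 : g ∈ CAut Y (kernelCol hr (Quotient.mk r v)) := by rw [heq]; exact hg
    have h2 := (kernel_mem hr _ hg).1 h1 v ⟨1, by rw [map_one, Equiv.Perm.one_apply]⟩
    exact hgv (Quotient.exact h2)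
  have hn : ∀ g ∈ CAut Y κ, ∀ x ∈ CAut Y (kernelCol hr b),
      g * x * g⁻¹ ∈ CAut Y (kernelCol hr b) := by
    intro g hg x hx
    have hx' := hle hx
    refine (kernel_mem hr b ((CAut Y κ).mul_mem ((CAut Y κ).mul_mem hg hx')
      ((CAut Y κ).inv_mem hg))).2 fun v hv => ?_
    have h1 : Quotient.mk r (g⁻¹ v) ∈ orb (partAct hr.inv) b :=
      (orb_iff (partAct hr.inv) b ⟨g⁻¹, (CAut Y κ).inv_mem hg⟩ (Quotient.mk r v)).2 hv
    have h2 := (kernel_mem hr b hx').1 hx _ h1
    have h3 : r (g (x (g⁻¹ v))) (g (g⁻¹ v)) := hr.inv g hg _ _ (Quotient.exact h2)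
    have h4 : g (g⁻¹ v) = v := g.apply_symm_apply v
    rw [h4] at h3
    exact Quotient.sound h3
  have h5 : a.1 ∈ CAut Y (kernelCol hr b) := by
    refine (kernel_mem hr b a.2).2 fun v hv => ?_
    have h6 := congrArg (fun e : Equiv.Perm (orb (partAct hr.inv) b) =>
      ((e ⟨Quotient.mk r v, hv⟩ : orb (partAct hr.inv) b) : Quotient r)) ha
    simpa [orbAct_val, partAct_mk] using h6
  exact hm.normal_trivial hle hne hn π hπ a.1 h5

end Pool.Agent.BAB67
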