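import Pool.Agent.BAB67.Minor

/-!
# [BAB67-PartMin] coarsest good partitions

`goodPart_bot`: equality of vertices is a good partition if `A = CAut Y κ` has no fixed vertex.
`exists_goodPart`: a good partition with the least number of parts (`Nat.card (Quotient r)`).
`orbit_union_connected`. Let `r` be such a partition, `Z = fgraph Y (Quotient.mk r)`, `ψ = partAct`, `b, b'` adjacent in `Z`, `S = orb ψ b ∪ orb ψ b'`. Suppose that `Z.induce S` is not connected. Let `r'` be the
equivalence relation: `u r' v` iff `u r v`, or the parts of `u` and `v` are both in `S` and are connected in `Z.induce S`. It is invariant (`A` acts on `Z.induce S` by automorphisms). The classes of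
`r'` are connected in `Y`: a class is a part, or the union of the parts in a component of `Z.induce S` (`conn_biUnion`). It has less classes than `r` (`r ≤ r'` and the parts `b ≠ b'` are merged:
the map `Quotient r → Quotient r'` is surjective and not injective). By minimality `r'` is not good, so there is `v` with `r' (g v) v` for all `g ∈ A`. As `r` is good, `v` is not in a class of `r`
only, so the part `p` of `v` is in `S`, and the component `D` of `p` in `Z.induce S` contains `ψ g p` for all `g`, so it contains `orb ψ b` or `orb ψ b'` (whichever contains `p`); say `orb ψ b ⊆ D`. Every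
`q ∈ orb ψ b'`, `q = ψ g b'`, is adjacent to `ψ g b ∈ D`, so `q ∈ D`. So `D = S`, and `Z.induce S` is connected after all.
-/

set_option autoImplicit false

namespace Pool.Agent.BAB67

variable {V α : Type} [Finite V] {Y : SimpleGraph V} {κ : V → α}

omit [Finite V] in
theorem goodPart_bot (h : ∀ v, ∃ g ∈ CAut Y κ, g v ≠ v) : GoodPart Y κ (⊥ : Setoid V) := by
  refine ⟨?_, ?_, ?_⟩
  · intro g _ a b hab
    have : a = b := hab
    subst this
    exact Setoid.refl' _ _
  · intro v
    have e : {a | (⊥ : Setoid V) a v} = {v} := by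
      ext a
      rfl
    rw [e]
    exact conn_singleton Y v
  · intro v
    obtain ⟨g, hg, hv⟩ := h v
    exact ⟨g, hg, fun h' => hv h'⟩

theorem exists_goodPart (h : ∀ v, ∃ g ∈ CAut Y κ, g v ≠ v) : ∃ r : Setoid V, GoodPart Y κ r ∧
    ∀ r' : Setoid V, GoodPart Y κ r' → Nat.card (Quotient r) ≤ Nat.card (Quotient r') := by
  classical
  have hex : ∃ n : ℕ, ∃ r : Setoid V, GoodPart Y κ r ∧ Nat.card (Quotient r) = n :=
    ⟨_, ⊥, goodPart_bot h, rfl⟩
  obtain ⟨r, hr, hn⟩ := Nat.find_spec hex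
  refine ⟨r, hr, fun r' hr' => ?_⟩
  rw [hn]
  exact Nat.find_min' hex ⟨r', hr', rfl⟩

private lemma PartMin_adj {r : Setoid V} (hr : ∀ g ∈ CAut Y κ, ∀ a b, r a b → r (g a) (g b))
    (g : CAut Y κ) (c c' : Quotient r) (h : (fgraph Y (Quotient.mk r)).Adj c c') :
    (fgraph Y (Quotient.mk r)).Adj (partAct hr g c) (partAct hr g c') := by
  obtain ⟨h1, p, q, hp, hq, hpq⟩ := h
  refine ⟨fun h => h1 ((partAct hr g).injective h), g.1 p, g.1 q, ?_, ?_, ?_⟩
  · rw [← hp, partAct_mk]
  · rw [← hq, partAct_mk]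
  · exact (g.2.1 p q).2 hpq

private lemma PartMin_adj_iff {r : Setoid V} (hr : ∀ g ∈ CAut Y κ, ∀ a b, r a b → r (g a) (g b))
    (g : CAut Y κ) (c c' : Quotient r) :
    (fgraph Y (Quotient.mk r)).Adj (partAct hr g c) (partAct hr g c') ↔
      (fgraph Y (Quotient.mk r)).Adj c c' := by
  refine ⟨fun h => ?_, PartMin_adj hr g c c'⟩
  have h2 := PartMin_adj hr g⁻¹ _ _ h
  have e : ∀ c, partAct hr g⁻¹ (partAct hr g c) = c := by
    intro c
    rw [← Equiv.Perm.mul_apply, ← map_mul, inv_mul_cancel, map_one, Equiv.Perm.one_apply]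
  rwa [e, e] at h2

private lemma PartMin_fibre {r : Setoid V} (hr : ∀ v, (Y.induce {a | r a v}).Connected)
    (c : Quotient r) : (Y.induce {a | Quotient.mk r a = c}).Connected := by
  obtain ⟨v, rfl⟩ := Quotient.exists_rep c
  have e : {a | Quotient.mk r a = Quotient.mk r v} = {a | r a v} := by
    ext a
    exact Quotient.eq
  rw [e]
  exact hr v

/-- if one orbit is in one component then everything is connected -/
private lemma PartMin_all {A P : Type} [Group A] (ψ : A →* Equiv.Perm P) (Z : SimpleGraph P)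
    (hψ : ∀ g c c', Z.Adj (ψ g c) (ψ g c') ↔ Z.Adj c c') {b b' : P} (hb : Z.Adj b b') (S : Set P)
    (hS : S = orb ψ b ∪ orb ψ b') {p : P} (hp : p ∈ S) (hpb : p ∈ orb ψ b)
    (hreach : ∀ g (h : ψ g p ∈ S), (Z.induce S).Reachable ⟨ψ g p, h⟩ ⟨p, hp⟩) :
    (Z.induce S).Connected := by
  obtain ⟨g₀, hg₀⟩ := hpb
  have h1 : ∀ g (h : ψ g b ∈ S), (Z.induce S).Reachable ⟨ψ g b, h⟩ ⟨p, hp⟩ := by
    intro g h
    have e : ψ g b = ψ (g * g₀⁻¹) p := by
      rw [← hg₀, ← Equiv.Perm.mul_apply, ← map_mul, inv_mul_cancel_right]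
    have h' : ψ (g * g₀⁻¹) p ∈ S := e ▸ h
    have h2 := hreach (g * g₀⁻¹) h'
    have e2 : (⟨ψ g b, h⟩ : S) = ⟨ψ (g * g₀⁻¹) p, h'⟩ := Subtype.ext e
    rw [e2]
    exact h2
  have h3 : ∀ x : S, (Z.induce S).Reachable x ⟨p, hp⟩ := by
    rintro ⟨x, hx⟩
    have hx' := hx
    rw [hS] at hx'
    rcases hx' with ⟨g, rfl⟩ | ⟨g, rfl⟩
    · exact h1 g hx
    · have hgb : ψ g b ∈ S := by
        rw [hS]
        exact Or.inl ⟨g, rfl⟩
      refine SimpleGraph.Reachable.trans (SimpleGraph.Adj.reachable ?_) (h1 g hgb)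
      exact ((hψ g b b').2 hb).symm
  haveI : Nonempty S := ⟨⟨p, hp⟩⟩
  exact ⟨fun x y => (h3 x).trans (h3 y).symm⟩

/-- the component of a point as a subset of the whole graph is connected -/
private lemma PartMin_comp {P : Type} (Z : SimpleGraph P) (S : Set P) {p : P} (hp : p ∈ S) :
    (Z.induce {c | ∃ hc : c ∈ S, (Z.induce S).Reachable ⟨c, hc⟩ ⟨p, hp⟩}).Connected := by
  refine SimpleGraph.induce_connected_of_patches p ⟨hp, SimpleGraph.Reachable.refl _⟩ ?_
  rintro c ⟨hc, hcr⟩
  obtain ⟨w⟩ := hcr.symm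
  let f : Z.induce S →g Z := (SimpleGraph.Embedding.induce S).toHom
  let w' : Z.Walk p c := w.map f
  have hsub : ∀ x ∈ w'.support, ∃ hx : x ∈ S, (Z.induce S).Reachable ⟨x, hx⟩ ⟨p, hp⟩ := by
    intro x hx
    have hx2 : x ∈ (w.map f).support := hx
    rw [SimpleGraph.Walk.support_map, List.mem_map] at hx2
    obtain ⟨y, hy, rfl⟩ := hx2
    refine ⟨y.2, ?_⟩
    classical
    exact (w.takeUntil y hy).reachable.symm
  refine ⟨{x | x ∈ w'.support}, fun x hx => hsub x hx, w'.start_mem_support, w'.end_mem_support,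
    ?_⟩
  exact (w'.connected_induce_support).preconnected _ _

theorem orbit_union_connected {r : Setoid V} (hr : GoodPart Y κ r)
    (hmin : ∀ r' : Setoid V, GoodPart Y κ r' → Nat.card (Quotient r) ≤ Nat.card (Quotient r'))
    {b b' : Quotient r} (hb : (fgraph Y (Quotient.mk r)).Adj b b') :
    ((fgraph Y (Quotient.mk r)).induce (orb (partAct hr.inv) b ∪ orb (partAct hr.inv) b')).Connected := by
  classical
  set Z := fgraph Y (Quotient.mk r) with hZ
  set ψ := partAct hr.inv with hψ
  set S := orb ψ b ∪ orb ψ b' with hS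
  have hψadj : ∀ g c c', Z.Adj (ψ g c) (ψ g c') ↔ Z.Adj c c' := PartMin_adj_iff hr.inv
  have hψS : ∀ g c, c ∈ S → ψ g c ∈ S := by
    intro g c hc
    rcases hc with hc | hc
    · exact Or.inl ((orb_iff ψ b g c).2 hc)
    · exact Or.inr ((orb_iff ψ b' g c).2 hc)
  have hbS : b ∈ S := Or.inl ⟨1, by rw [map_one]; rfl⟩
  have hbS' : b' ∈ S := Or.inr ⟨1, by rw [map_one]; rfl⟩
  -- the relation on parts
  let R : Quotient r → Quotient r → Prop := fun c d =>
    c = d ∨ ∃ (hc : c ∈ S) (hd : d ∈ S), (Z.induce S).Reachable ⟨c, hc⟩ ⟨d, hd⟩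
  have hRrefl : ∀ c, R c c := fun c => Or.inl rfl
  have hRsymm : ∀ c d, R c d → R d c := by
    rintro c d (h | ⟨hc, hd, h⟩)
    · exact Or.inl h.symm
    · exact Or.inr ⟨hd, hc, h.symm⟩
  have hRtrans : ∀ c d e, R c d → R d e → R c e := by
    rintro c d e (h | ⟨hc, hd, h⟩) (h' | ⟨hd', he, h'⟩)
    · exact Or.inl (h.trans h')
    · subst h
      exact Or.inr ⟨hd', he, h'⟩
    · subst h'
      exact Or.inr ⟨hc, hd, h⟩
    · exact Or.inr ⟨hc, he, h.trans h'⟩
  let r' : Setoid V := ⟨fun u v => R (Quotient.mk r u) (Quotient.mk r v),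
    fun u => hRrefl _, fun h => hRsymm _ _ h, fun h h' => hRtrans _ _ _ h h'⟩
  have hr'def : ∀ u v, r' u v ↔ R (Quotient.mk r u) (Quotient.mk r v) := fun u v => Iff.rfl
  have hRψ : ∀ g c d, R c d → R (ψ g c) (ψ g d) := by
    rintro g c d (h | ⟨hc, hd, h⟩)
    · exact Or.inl (by rw [h])
    · refine Or.inr ⟨hψS g c hc, hψS g d hd, ?_⟩
      let f : Z.induce S →g Z.induce S :=
        ⟨fun x => ⟨ψ g x.1, hψS g x.1 x.2⟩, fun {x y} hxy => (hψadj g x.1 y.1).2 hxy⟩
      exact h.map f
  have hinv : ∀ g ∈ CAut Y κ, ∀ a b, r' a b → r' (g a) (g b) := by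
    intro g hg u v huv
    exact hRψ ⟨g, hg⟩ _ _ huv
  have hconn : ∀ v, (Y.induce {a | r' a v}).Connected := by
    intro v
    by_cases hv : Quotient.mk r v ∈ S
    · have e : {a | r' a v} = ⋃ c ∈ {c | ∃ hc : c ∈ S, (Z.induce S).Reachable ⟨c, hc⟩
          ⟨Quotient.mk r v, hv⟩}, {a | Quotient.mk r a = c} := by
        ext a
        simp only [Set.mem_setOf_eq, Set.mem_iUnion, exists_prop]
        constructor
        · rintro (h | ⟨hc, hd, h⟩)
          · refine ⟨Quotient.mk r a, ⟨h ▸ hv, ?_⟩, rfl⟩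
            have e2 : (⟨Quotient.mk r a, h ▸ hv⟩ : S) = ⟨Quotient.mk r v, hv⟩ := Subtype.ext h
            rw [e2]
          · exact ⟨Quotient.mk r a, ⟨hc, h⟩, rfl⟩
        · rintro ⟨c, ⟨hc, h⟩, rfl⟩
          exact Or.inr ⟨hc, hv, h⟩
      rw [e]
      refine conn_biUnion (H := Z) (PartMin_comp Z S hv) (fun c _ => PartMin_fibre hr.conn c) ?_
      rintro c _ d _ ⟨_, p, q, hp, hq, hpq⟩
      exact ⟨p, hp, q, hq, hpq⟩
    · have e : {a | r' a v} = {a | r a v} := by
        ext a
        constructor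
        · rintro (h | ⟨hc, hd, h⟩)
          · exact Quotient.exact h
          · exact absurd hd hv
        · intro h
          exact Or.inl (Quotient.sound h)
      rw [e]
      exact hr.conn v
  -- not good
  have hnot : ¬ ∀ v, ∃ g ∈ CAut Y κ, ¬ r' (g v) v := by
    intro hmoved
    have hle := hmin r' ⟨hinv, hconn, hmoved⟩
    let f : Quotient r → Quotient r' := Quotient.map id (fun u v h => by
      change R _ _
      exact Or.inl (Quotient.sound h))
    have hf : Function.Surjective f := by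
      rintro ⟨v⟩
      exact ⟨Quotient.mk r v, rfl⟩
    have hlt : Nat.card (Quotient r') < Nat.card (Quotient r) := by
      refine lt_of_le_of_ne (Nat.card_le_card_of_surjective f hf) ?_
      intro heq
      have hbij : Function.Bijective f := by
        rw [Nat.bijective_iff_surjective_and_card]
        exact ⟨hf, heq.symm⟩
      have hbb' : f b = f b' := by
        obtain ⟨u, rfl⟩ := Quotient.exists_rep b
        obtain ⟨v, rfl⟩ := Quotient.exists_rep b'
        change Quotient.mk r' u = Quotient.mk r' v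
        refine Quotient.sound ?_
        change R _ _
        exact Or.inr ⟨hbS, hbS', SimpleGraph.Adj.reachable hb⟩
      exact hb.1 (hbij.1 hbb')
    omega
  push Not at hnot
  obtain ⟨v, hv⟩ := hnot
  have hvS : Quotient.mk r v ∈ S := by
    by_contra hvS
    obtain ⟨g, hg, hgv⟩ := hr.moved v
    rcases hv g hg with h | ⟨hc, hd, h⟩
    · exact hgv (Quotient.exact h)
    · exact hvS hd
  have hreach : ∀ g (h : ψ g (Quotient.mk r v) ∈ S),
      (Z.induce S).Reachable ⟨ψ g (Quotient.mk r v), h⟩ ⟨Quotient.mk r v, hvS⟩ := by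
    intro g h
    rcases hv g.1 g.2 with h' | ⟨hc, hd, h'⟩
    · have e : (⟨ψ g (Quotient.mk r v), h⟩ : S) = ⟨Quotient.mk r v, hvS⟩ := Subtype.ext h'
      rw [e]
    · exact h'
  have hvS2 : Quotient.mk r v ∈ orb ψ b ∪ orb ψ b' := hvS
  rcases hvS2 with hvb | hvb
  · exact PartMin_all ψ Z hψadj hb S hS hvS hvb hreach
  · exact PartMin_all ψ Z hψadj hb.symm S (by rw [hS, Set.union_comm]) hvS hvb hreach

/-- the quotient graph is preserved, connected and a minor -/
theorem part_facts {r : Setoid V} (hr : GoodPart Y κ r) (hY : Y.Connected) :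
    (∀ g c c', (fgraph Y (Quotient.mk r)).Adj (partAct hr.inv g c) (partAct hr.inv g c') ↔
      (fgraph Y (Quotient.mk r)).Adj c c') ∧ (fgraph Y (Quotient.mk r)).Connected ∧
    MinorOf (fgraph Y (Quotient.mk r)) Y ∧ ∀ c : Quotient r, ∃ g, partAct hr.inv g c ≠ c := by
  refine ⟨PartMin_adj_iff hr.inv, ?_, fgraph_minor Y _ (PartMin_fibre hr.conn), ?_⟩
  · have h1 : ∀ u v, Y.Walk u v →
        (fgraph Y (Quotient.mk r)).Reachable (Quotient.mk r u) (Quotient.mk r v) := by
      intro u v w
      induction w with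
      | nil => exact SimpleGraph.Reachable.refl _
      | @cons u v w h p ih =>
        refine SimpleGraph.Reachable.trans ?_ ih
        by_cases he : Quotient.mk r u = Quotient.mk r v
        · rw [he]
        · exact SimpleGraph.Adj.reachable ⟨he, u, v, rfl, rfl, h⟩
    haveI : Nonempty V := hY.nonempty
    haveI : Nonempty (Quotient r) := this.map (Quotient.mk r)
    refine ⟨fun c d => ?_⟩
    obtain ⟨u, rfl⟩ := Quotient.exists_rep c
    obtain ⟨v, rfl⟩ := Quotient.exists_rep d
    obtain ⟨w⟩ := hY.preconnected u v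
    exact h1 u v w
  · intro c
    obtain ⟨v, rfl⟩ := Quotient.exists_rep c
    obtain ⟨g, hg, hgv⟩ := hr.moved v
    refine ⟨⟨g, hg⟩, fun h => hgv ?_⟩
    exact Quotient.exact h

end Pool.Agent.BAB67
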