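import Pool.Agent.BAB67.MinConn
import Pool.Agent.BAB67.PartMin
import Pool.Agent.BAB67.Kernel
import Pool.Agent.BAB67.CoreBip

/-!
# [BAB67-RedBip] the reduction if no two adjacent parts are in the same orbit

`reduction_bip`: `Z = fgraph Y (Quotient.mk r)`, `ψ = partAct hr.inv`, `O = orb ψ b`, `Q = orb ψ b'` (subtypes), `I o q = Z.Adj o q`, `φO = orbAct ψ b`, `φQ = orbAct ψ b'`.
`O` and `Q` are disjoint (if `c = ψ g b = ψ g' b'` then `b' = ψ (g'⁻¹ g) b` is in the orbit of `b`, contradiction to `hno`), and there are no edges inside `O` or `Q` (`hno`), so `bip I` is isomorphic to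
`Z.induce (O ∪ Q)`, which is connected (`orbit_union_connected`); it is a minor of `Z` (`inj_minor`, the map is injective as `O ∩ Q = ∅`), and `Z` is a minor of `Y` (`part_facts`), so it is `K_h`-free.
`Q` has two different points: some `g` moves `b'` (`part_facts`). So `core_bip` applies. The last claim is `kernel_cond` for `b'`.
-/

set_option autoImplicit false

namespace Pool.Agent.BAB67

universe w

private theorem rb_mem {A : Type*} {P : Type*} [Group A] (ψ : A →* Equiv.Perm P) (b : P) : b ∈ orb ψ b :=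
  ⟨1, by rw [map_one, Equiv.Perm.one_apply]⟩

private theorem rb_two {A : Type*} {P : Type*} [Group A] (ψ : A →* Equiv.Perm P) {b x y : P} (hx : x ∈ orb ψ b)
    (hy : y ∈ orb ψ b) : ∃ g, ψ g x = y := by
  obtain ⟨g, rfl⟩ := hx
  obtain ⟨g', rfl⟩ := hy
  refine ⟨g' * g⁻¹, ?_⟩
  rw [← Equiv.Perm.mul_apply, ← map_mul, inv_mul_cancel_right]

private theorem rb_trans {A : Type*} {P : Type*} [Group A] (ψ : A →* Equiv.Perm P) (b : P) (x y : orb ψ b) :
    ∃ g, orbAct ψ b g x = y := by
  obtain ⟨g, hg⟩ := rb_two ψ x.2 y.2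
  exact ⟨g, Subtype.ext (by rw [orbAct_val]; exact hg)⟩

theorem reduction_bip {h : ℕ} {G : Type w} [Group G] [IsSimpleGroup G] (hG : NC G) {V α : Type} [Finite V]
    {Y : SimpleGraph V} {κ : V → α} (hm : MinRep h G Y κ) {r : Setoid V} (hr : GoodPart Y κ r)
    (hmin : ∀ r' : Setoid V, GoodPart Y κ r' → Nat.card (Quotient r) ≤ Nat.card (Quotient r'))
    (hno : ∀ (c : Quotient r) (g : CAut Y κ), ¬ (fgraph Y (Quotient.mk r)).Adj c (partAct hr.inv g c))
    (b b' : Quotient r) (hb : (fgraph Y (Quotient.mk r)).Adj b b')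
    (hcard : (orb (partAct hr.inv) b').ncard ≤ (orb (partAct hr.inv) b).ncard) :
    ∃ (Q : Type) (_ : Finite Q) (φ : CAut Y κ →* Equiv.Perm Q) (T : SimpleGraph Q),
      Core h (2 * 2 ^ h * (1 + (2 * 2 ^ h) ^ 2) + 1) φ T ∧
        ∀ π : CAut Y κ →* G, Function.Surjective π → ∀ a, φ a = 1 → π a = 1 := by
  classical
  obtain ⟨hadj, hZc, hZm, hmv⟩ := part_facts hr (hm.connected hG)
  have hS := orbit_union_connected hr hmin hb
  have hin : ∀ (e x y : Quotient r), x ∈ orb (partAct hr.inv) e → y ∈ orb (partAct hr.inv) e →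
      ¬ (fgraph Y (Quotient.mk r)).Adj x y := by
    intro e x y hx hy hxy
    obtain ⟨g, hg⟩ := rb_two (partAct hr.inv) hx hy
    rw [← hg] at hxy
    exact hno x g hxy
  have hdisj : ∀ x, x ∈ orb (partAct hr.inv) b → x ∈ orb (partAct hr.inv) b' → False := by
    intro x hx hx'
    obtain ⟨g, hg⟩ := rb_two (partAct hr.inv) (rb_mem _ b) hx
    obtain ⟨g', hg'⟩ := rb_two (partAct hr.inv) hx' (rb_mem _ b')
    rw [← hg, ← Equiv.Perm.mul_apply, ← map_mul] at hg'
    rw [← hg'] at hb
    exact hno b _ hb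
  let I : orb (partAct hr.inv) b → orb (partAct hr.inv) b' → Prop :=
    fun o q => (fgraph Y (Quotient.mk r)).Adj o.1 q.1
  have hI : ∀ g o q, I (orbAct (partAct hr.inv) b g o) (orbAct (partAct hr.inv) b' g q) ↔ I o q := by
    intro g o q
    change (fgraph Y (Quotient.mk r)).Adj _ _ ↔ (fgraph Y (Quotient.mk r)).Adj _ _
    rw [orbAct_val, orbAct_val]
    exact hadj g o.1 q.1
  have hc : (bip I).Connected := by
    let F : (fgraph Y (Quotient.mk r)).induce (orb (partAct hr.inv) b ∪ orb (partAct hr.inv) b') →g bip I :=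
      { toFun := fun x => if hx : x.1 ∈ orb (partAct hr.inv) b then Sum.inl ⟨x.1, hx⟩
          else Sum.inr ⟨x.1, x.2.resolve_left hx⟩
        map_rel' := by
          rintro ⟨x, hx⟩ ⟨y, hy⟩ hxy
          have hxy' : (fgraph Y (Quotient.mk r)).Adj x y := hxy
          by_cases h1 : x ∈ orb (partAct hr.inv) b
          · by_cases h2 : y ∈ orb (partAct hr.inv) b
            · exact absurd hxy' (hin b x y h1 h2)
            · simp only [h1, h2, dif_pos, dif_neg, not_false_iff]
              left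
              exact ⟨_, _, rfl, rfl, hxy'⟩
          · by_cases h2 : y ∈ orb (partAct hr.inv) b
            · simp only [h1, h2, dif_pos, dif_neg, not_false_iff]
              right
              exact ⟨_, _, rfl, rfl, hxy'.symm⟩
            · exact absurd hxy' (hin b' x y (hx.resolve_left h1) (hy.resolve_left h2)) }
    refine hS.map F ?_
    rintro (⟨o, ho⟩ | ⟨q, hq⟩)
    · refine ⟨⟨o, Or.inl ho⟩, ?_⟩
      change (if hx : o ∈ orb (partAct hr.inv) b then Sum.inl (⟨o, hx⟩ : orb (partAct hr.inv) b)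
          else Sum.inr (⟨o, _⟩ : orb (partAct hr.inv) b')) = _
      rw [dif_pos ho]
    · refine ⟨⟨q, Or.inr hq⟩, ?_⟩
      change (if hx : q ∈ orb (partAct hr.inv) b then Sum.inl (⟨q, hx⟩ : orb (partAct hr.inv) b)
          else Sum.inr (⟨q, _⟩ : orb (partAct hr.inv) b')) = _
      rw [dif_neg (fun h' => hdisj q h' hq)]
  have hf : ¬ HasModel h (bip I) := by
    intro hmod
    have h1 : MinorOf (bip I) (fgraph Y (Quotient.mk r)) := by
      refine inj_minor (Sum.elim (fun o => o.1) (fun q => q.1)) ?_ ?_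
      · rintro (⟨x, hx⟩ | ⟨x, hx⟩) (⟨y, hy⟩ | ⟨y, hy⟩) hxy
        · have : x = y := hxy
          subst this
          rfl
        · have : x = y := hxy
          subst this
          exact (hdisj x hx hy).elim
        · have : x = y := hxy
          subst this
          exact (hdisj x hy hx).elim
        · have : x = y := hxy
          subst this
          rfl
      · rintro x y (⟨o, q, rfl, rfl, h2⟩ | ⟨o, q, rfl, rfl, h2⟩)
        · exact h2
        · exact h2.symm
    exact hm.free ((h1.trans hZm).hasModel hmod)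
  have hcard' : Nat.card (orb (partAct hr.inv) b') ≤ Nat.card (orb (partAct hr.inv) b) := hcard
  have hn : ∃ q q' : orb (partAct hr.inv) b', q ≠ q' := by
    obtain ⟨g, hg⟩ := hmv b'
    refine ⟨⟨partAct hr.inv g b', ⟨g, rfl⟩⟩, ⟨b', rb_mem _ b'⟩, ?_⟩
    intro h1
    exact hg (congrArg Subtype.val h1)
  exact ⟨orb (partAct hr.inv) b', inferInstance, orbAct (partAct hr.inv) b', half I,
    core_bip hI (rb_trans _ b) (rb_trans _ b') hc hf hcard' hn,
    fun π hπ a ha => kernel_cond hm hr b' π hπ a ha⟩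

end Pool.Agent.BAB67
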