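import Pool.Agent.BAB67.RedVT
import Pool.Agent.BAB67.RedBip

/-!
# [BAB67-Reduction] the reduction

`reduction`: `hm.moved` and `exists_goodPart` give `r`, good with the least number of parts. `Z = fgraph Y (Quotient.mk r)` is connected (`part_facts`, `MinRep.connected`) and has at least two vertices (`part_facts`: every
part is moved), so it has an edge `b b'`. If some `c` is adjacent to `ψ g c`: `reduction_vt` and `Core.mono`. Otherwise `reduction_bip` for `(b, b')` or `(b', b)`.
-/

set_option autoImplicit false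

namespace Pool.Agent.BAB67

universe w

theorem reduction {h : ℕ} {G : Type w} [Group G] [IsSimpleGroup G] (hG : NC G) {V α : Type} [Finite V]
    {Y : SimpleGraph V} {κ : V → α} (hm : MinRep h G Y κ) :
    ∃ (Q : Type) (_ : Finite Q) (φ : CAut Y κ →* Equiv.Perm Q) (T : SimpleGraph Q),
      Core h (2 * 2 ^ h * (1 + (2 * 2 ^ h) ^ 2) + 1) φ T ∧
        ∀ π : CAut Y κ →* G, Function.Surjective π → ∀ a, φ a = 1 → π a = 1 := by
  obtain ⟨r, hr, hmin⟩ := exists_goodPart (fun v => hm.moved v)
  obtain ⟨_, hZc, _, hZm⟩ := part_facts hr (hm.connected hG)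
  by_cases hex : ∃ (c : Quotient r) (g : CAut Y κ),
      (fgraph Y (Quotient.mk r)).Adj c (partAct hr.inv g c)
  · obtain ⟨c, g, hc⟩ := hex
    obtain ⟨Q, hQ, φ, T, hcore, hker⟩ := reduction_vt hG hm hr hmin c g hc
    refine ⟨Q, hQ, φ, T, hcore.mono ?_, hker⟩
    have h1 : 2 * 2 ^ h * 1 ≤ 2 * 2 ^ h * (1 + (2 * 2 ^ h) ^ 2) :=
      Nat.mul_le_mul_left _ (Nat.le_add_right _ _)
    omega
  · have hno : ∀ (c : Quotient r) (g : CAut Y κ),
        ¬ (fgraph Y (Quotient.mk r)).Adj c (partAct hr.inv g c) :=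
      fun c g hc => hex ⟨c, g, hc⟩
    obtain ⟨v⟩ := hm.nonempty
    obtain ⟨g, hg⟩ := hZm (Quotient.mk r v)
    obtain ⟨b, b', hb⟩ : ∃ b b' : Quotient r, (fgraph Y (Quotient.mk r)).Adj b b' := by
      have key : ∀ (x y : Quotient r), (fgraph Y (Quotient.mk r)).Walk x y → x ≠ y →
          ∃ b b' : Quotient r, (fgraph Y (Quotient.mk r)).Adj b b' := by
        intro x y p hxy
        cases p with
        | nil => exact absurd rfl hxy
        | cons hadj _ => exact ⟨_, _, hadj⟩
      obtain ⟨p⟩ := hZc.preconnected (partAct hr.inv g (Quotient.mk r v)) (Quotient.mk r v)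
      exact key _ _ p hg
    rcases le_total (orb (partAct hr.inv) b').ncard (orb (partAct hr.inv) b).ncard with hle | hle
    · exact reduction_bip hG hm hr hmin hno b b' hb hle
    · exact reduction_bip hG hm hr hmin hno b' b hb.symm hle

end Pool.Agent.BAB67
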