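import Pool.Agent.BAB67.CoreBound
import Pool.Agent.BAB67.Reduction

/-!
# [BAB67-Finite] the theorem for quotients of automorphism groups of finite coloured graphs

`finite_bound`: `exists_minRep`, `reduction` and `core_bound`.
-/

set_option autoImplicit false

namespace Pool.Agent.BAB67

universe u

theorem finite_bound (h : ℕ) : ∃ N : ℕ, ∀ (G : Type u) [Group G] [IsSimpleGroup G], NC G →
    ∀ (V α : Type) [Finite V] (Y : SimpleGraph V) (κ : V → α), ¬ HasModel h Y → Rep G Y κ → Nat.card G ≤ N := by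
  obtain ⟨N, hN⟩ := core_bound h (2 * 2 ^ h * (1 + (2 * 2 ^ h) ^ 2) + 1)
  refine ⟨N, ?_⟩
  intro G _ _ hG V α _ Y κ hf hr
  obtain ⟨V', α', _, Y', κ', hm⟩ := exists_minRep hf hr
  obtain ⟨Q, _, φ, T, hc, hπ⟩ := reduction hG hm
  obtain ⟨π, hs⟩ := hm.rep
  exact hN (CAut Y' κ') G hG Q φ T hc π hs (hπ π hs)

end Pool.Agent.BAB67
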