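import Pool.Agent.BAB67.Pieces
import Pool.Agent.BAB67.Avg

/-!
# [BAB67-Growth] the growth inequality

`growth_step`: let `a` be the constant of `pieces h`, `C = 2 (4 a² + 1)`. Let `v = vol T q`, `ρ = v (2 k + 1) / v (k / 2) ≥ 1` and `s = ⌈4 m² a² ρ²⌉` or `1` if this is `0` (it is not), so
`1 ≤ s ≤ 4 m² a² ρ² + 1 ≤ (4 a² + 1) m² ρ²`, and `√s ≥ 2 m a ρ`. `pieces` gives `|W| v (k / 2) ≤ a card Q / √s * v (2 k + 1)`, so
`2 m |W| ≤ 2 m a ρ card Q / √s ≤ card Q`. `averaging` with `S = s * v k`: `v (m k) ≤ 2 s v k ≤ C m² ρ² v k`.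
-/

set_option autoImplicit false

namespace Pool.Agent.BAB67

theorem growth_step (h : ℕ) : ∃ C : ℝ, 1 ≤ C ∧ ∀ (A Q : Type) [Group A] [Finite A] [Finite Q]
    (φ : A →* Equiv.Perm Q) (T : SimpleGraph Q), Act φ T → T.Connected → CellProp h T →
    ∀ (q : Q) (k m : ℕ), 1 ≤ m →
      (vol T q (m * k) : ℝ) ≤ C * m ^ 2 * ((vol T q (2 * k + 1) : ℝ) / vol T q (k / 2)) ^ 2 * vol T q k := by
  obtain ⟨a, ha, hP⟩ := pieces h
  refine ⟨2 * (4 * a ^ 2 + 1), by nlinarith [sq_nonneg a], ?_⟩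
  intro A Q _ _ _ φ T hact hconn hcell q k m hm
  set ρ : ℝ := (vol T q (2 * k + 1) : ℝ) / vol T q (k / 2) with hρ
  have hv1 : (1 : ℝ) ≤ vol T q (k / 2) := by exact_mod_cast vol_pos (T := T) q (k / 2)
  have hv0 : (0 : ℝ) < vol T q (k / 2) := by linarith
  have hv2 : (vol T q (k / 2) : ℝ) ≤ vol T q (2 * k + 1) := by
    exact_mod_cast vol_mono (T := T) q (by omega)
  have hρ1 : 1 ≤ ρ := by
    rw [hρ, le_div_iff₀ hv0]; linarith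
  have hm1 : (1 : ℝ) ≤ m := by exact_mod_cast hm
  have hmρ : (1 : ℝ) ≤ (m : ℝ) * ρ := by nlinarith
  set s : ℕ := ⌈4 * (m : ℝ) ^ 2 * a ^ 2 * ρ ^ 2⌉₊ with hs
  have hpos : 0 < 4 * (m : ℝ) ^ 2 * a ^ 2 * ρ ^ 2 := by positivity
  have hs1 : 1 ≤ s := by
    rw [hs]; exact Nat.ceil_pos.mpr hpos
  have hs2 : (s : ℝ) < 4 * (m : ℝ) ^ 2 * a ^ 2 * ρ ^ 2 + 1 := by
    rw [hs]; exact Nat.ceil_lt_add_one hpos.le
  have hs3 : 4 * (m : ℝ) ^ 2 * a ^ 2 * ρ ^ 2 ≤ s := by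
    rw [hs]; exact Nat.le_ceil _
  have hs4 : (s : ℝ) ≤ (4 * a ^ 2 + 1) * ((m : ℝ) ^ 2 * ρ ^ 2) := by
    have h1 : (1 : ℝ) ≤ (m : ℝ) ^ 2 * ρ ^ 2 := by
      have := one_le_pow₀ hmρ (n := 2)
      calc (1 : ℝ) ≤ ((m : ℝ) * ρ) ^ 2 := this
        _ = _ := by ring
    nlinarith
  have hsq : 2 * m * a * ρ ≤ √(s : ℝ) := by
    apply Real.le_sqrt_of_sq_le
    have hq : (2 * (m : ℝ) * a * ρ) ^ 2 = 4 * (m : ℝ) ^ 2 * a ^ 2 * ρ ^ 2 := by ring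
    rw [hq]
    exact hs3
  have hsq0 : 0 < √(s : ℝ) := Real.sqrt_pos.mpr (by exact_mod_cast hs1)
  obtain ⟨ι, piece, W, h1, h2, h3⟩ := hP A Q φ T hact hconn hcell q k s hs1
  have h4 : 2 * (m : ℝ) * W.ncard ≤ Nat.card Q := by
    have h5 : (W.ncard : ℝ) ≤ a * Nat.card Q / √(s : ℝ) * ρ := by
      rw [hρ, ← mul_div_assoc, le_div_iff₀ hv0]
      exact h3
    have hQ : (0 : ℝ) ≤ Nat.card Q := by positivity
    calc 2 * (m : ℝ) * W.ncard ≤ 2 * (m : ℝ) * (a * Nat.card Q / √(s : ℝ) * ρ) := by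
          apply mul_le_mul_of_nonneg_left h5 (by positivity)
      _ = (2 * m * a * ρ) * Nat.card Q / √(s : ℝ) := by ring
      _ ≤ √(s : ℝ) * Nat.card Q / √(s : ℝ) := by
          apply div_le_div_of_nonneg_right _ hsq0.le
          exact mul_le_mul_of_nonneg_right hsq hQ
      _ = Nat.card Q := by field_simp
  have h6 : 2 * m * W.ncard ≤ Nat.card Q := by exact_mod_cast h4
  have h7 := averaging hact hconn piece W k m (s * vol T q k) h2 h1 h6 q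
  have h8 : (vol T q (m * k) : ℝ) ≤ 2 * (s * vol T q k) := by exact_mod_cast h7
  have hvk : (0 : ℝ) ≤ vol T q k := by positivity
  calc (vol T q (m * k) : ℝ) ≤ 2 * (s * vol T q k) := h8
    _ ≤ 2 * (((4 * a ^ 2 + 1) * ((m : ℝ) ^ 2 * ρ ^ 2)) * vol T q k) := by
        apply mul_le_mul_of_nonneg_left _ (by norm_num)
        exact mul_le_mul_of_nonneg_right hs4 hvk
    _ = 2 * (4 * a ^ 2 + 1) * m ^ 2 * ρ ^ 2 * vol T q k := by ring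

end Pool.Agent.BAB67
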