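import Pool.Agent.BAB67.CompMoved
import Pool.Agent.BAB67.CompFixed

/-!
# BAB67-MinConn: a minimal representation is connected
-/

set_option autoImplicit false

namespace Pool.Agent.BAB67

universe w

variable {h : ℕ} {G : Type w} [Group G] {V α : Type} [Finite V] {Y : SimpleGraph V} {κ : V → α}

theorem MinRep.connected [IsSimpleGroup G] (hG : NC G) (hm : MinRep h G Y κ) : Y.Connected := by
  by_contra hc
  obtain ⟨g, hg, v, hv⟩ := hm.comp_moved hc
  exact hv (hm.comp_fixed hG g hg v)

end Pool.Agent.BAB67
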