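import Pool.Agent.BAB67.Minor

/-!
# [BAB67-MinRep] minimal representations

`exists_minRep`: choose `n` minimal such that there are `V', α', Y', κ'` with `Finite V'`, `Nat.card V' = n`, `Y'` `K_h`-free and `Rep G Y' κ'`; then for fixed `V', Y'` choose `α', κ'` with
`Nat.card (CAut Y' κ')` minimal.
`MinRep.eq_of_rep`: `minA` and `hle` (finite groups): if the restriction of `π` to `CAut Y κ'` is surjective then `CAut Y κ' = CAut Y κ`.
`MinRep.normal_trivial`: `π` maps the normal subgroup `CAut Y κ'` of `CAut Y κ` to a normal subgroup of `G`, which is `⊥` or `⊤`; it is not `⊤` by `eq_of_rep` and `hne`.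
`MinRep.moved`: suppose that `v` is fixed by all of `CAut Y κ`. Let `V' = {w // w ≠ v}`, `Y' = Y.induce`, `κ' w = (κ w, Y.Adj v w) : α × Prop`. `Y'` is `K_h`-free (`inj_minor`). An element of
`CAut Y' κ'` extends (by `v ↦ v`) to an element of `CAut Y κ`; this defines a homomorphism `CAut Y' κ' → CAut Y κ` which is onto, because every element of `CAut Y κ` fixes `v` and restricts.
So `Rep G Y' κ'`, contradiction to `minV`.
`MinRep.nonempty`: `G` is not trivial, so `CAut Y κ` is not trivial.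
-/

set_option autoImplicit false

namespace Pool.Agent.BAB67

universe w

variable {h : ℕ} {G : Type w} [Group G] {V α α' : Type} [Finite V] {Y : SimpleGraph V} {κ : V → α} {κ' : V → α'}

theorem exists_minRep (hf : ¬ HasModel h Y) (hr : Rep G Y κ) :
    ∃ (V' α'' : Type) (_ : Finite V') (Y' : SimpleGraph V') (κ'' : V' → α''), MinRep h G Y' κ'' := by
  classical
  have hP : ∃ n : ℕ, ∃ (V' α'' : Type) (_ : Finite V') (Y' : SimpleGraph V') (κ'' : V' → α''),
      Nat.card V' = n ∧ ¬ HasModel h Y' ∧ Rep G Y' κ'' := ⟨_, V, α, inferInstance, Y, κ, rfl, hf, hr⟩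
  obtain ⟨V1, α1, hfin, Y1, κ1, hc1, hf1, hr1⟩ := Nat.find_spec hP
  have hQ : ∃ m : ℕ, ∃ (α'' : Type) (κ'' : V1 → α''),
      Nat.card (CAut Y1 κ'') = m ∧ Rep G Y1 κ'' := ⟨_, α1, κ1, rfl, hr1⟩
  obtain ⟨α2, κ2, hc2, hr2⟩ := Nat.find_spec hQ
  refine ⟨V1, α2, hfin, Y1, κ2, hf1, hr2, ?_, ?_⟩
  · intro V' α' _ Y' κ' hf' hr'
    rw [hc1]
    exact Nat.find_min' hP ⟨V', α', inferInstance, Y', κ', rfl, hf', hr'⟩
  · intro α' κ' hr'
    rw [hc2]
    exact Nat.find_min' hQ ⟨α', κ', rfl, hr'⟩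

theorem MinRep.eq_of_rep (hm : MinRep h G Y κ) (hle : CAut Y κ' ≤ CAut Y κ) (π : CAut Y κ →* G)
    (hs : ∀ x : G, ∃ g, ∃ hg : g ∈ CAut Y κ', π ⟨g, hle hg⟩ = x) : CAut Y κ' = CAut Y κ := by
  refine Subgroup.eq_of_le_of_card_ge hle (hm.minA α' κ' ⟨π.comp (Subgroup.inclusion hle), ?_⟩)
  intro x
  obtain ⟨g, hg, hx⟩ := hs x
  exact ⟨⟨g, hg⟩, hx⟩

theorem MinRep.normal_trivial [IsSimpleGroup G] (hm : MinRep h G Y κ) (hle : CAut Y κ' ≤ CAut Y κ)
    (hne : CAut Y κ' ≠ CAut Y κ) (hn : ∀ g ∈ CAut Y κ, ∀ x ∈ CAut Y κ', g * x * g⁻¹ ∈ CAut Y κ')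
    (π : CAut Y κ →* G) (hπ : Function.Surjective π) (x : Equiv.Perm V) (hx : x ∈ CAut Y κ') :
    π ⟨x, hle hx⟩ = 1 := by
  have hN : ((CAut Y κ').subgroupOf (CAut Y κ)).Normal := by
    refine ⟨fun n hn' g => ?_⟩
    rw [Subgroup.mem_subgroupOf] at hn' ⊢
    exact hn g.1 g.2 n.1 hn'
  have hN' : (((CAut Y κ').subgroupOf (CAut Y κ)).map π).Normal := hN.map π hπ
  rcases hN'.eq_bot_or_eq_top with hb | ht
  · have : π ⟨x, hle hx⟩ ∈ ((CAut Y κ').subgroupOf (CAut Y κ)).map π :=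
      ⟨⟨x, hle hx⟩, by simpa [Subgroup.mem_subgroupOf] using hx, rfl⟩
    rw [hb] at this
    simpa using this
  · exfalso
    refine hne (hm.eq_of_rep hle π fun y => ?_)
    have : y ∈ ((CAut Y κ').subgroupOf (CAut Y κ)).map π := by rw [ht]; trivial
    obtain ⟨g, hg, hgy⟩ := this
    refine ⟨g.1, ?_, hgy⟩
    have : g ∈ (CAut Y κ').subgroupOf (CAut Y κ) := hg
    rwa [Subgroup.mem_subgroupOf] at this

theorem MinRep.moved (hm : MinRep h G Y κ) (v : V) : ∃ g ∈ CAut Y κ, g v ≠ v := by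
  classical
  by_contra hcon
  push Not at hcon
  obtain ⟨π, hπ⟩ := hm.rep
  let Y' : SimpleGraph {w : V // w ≠ v} := Y.comap Subtype.val
  let κ₁ : {w : V // w ≠ v} → α × Prop := fun w => (κ w.1, Y.Adj v w.1)
  have hf' : ¬ HasModel h Y' := by
    intro hmod
    refine hm.free (MinorOf.hasModel (inj_minor (H := Y') (G := Y) Subtype.val Subtype.val_injective ?_) hmod)
    intro a b hab
    exact hab
  have hext : ∀ g : Equiv.Perm {w : V // w ≠ v}, g ∈ CAut Y' κ₁ →
      Equiv.Perm.ofSubtype g ∈ CAut Y κ := by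
    intro g hg
    obtain ⟨hg1, hg2⟩ := hg
    have hfix : Equiv.Perm.ofSubtype g v = v := Equiv.Perm.ofSubtype_apply_of_not_mem g (by simp)
    have hval : ∀ (a : V) (ha : a ≠ v), Equiv.Perm.ofSubtype g a = (g ⟨a, ha⟩ : V) := fun a ha =>
      Equiv.Perm.ofSubtype_apply_of_mem g ha
    have hadjv : ∀ (a : V) (ha : a ≠ v), Y.Adj v (g ⟨a, ha⟩ : V) ↔ Y.Adj v a := by
      intro a ha
      have := hg2 ⟨a, ha⟩
      have h2 := congrArg Prod.snd this
      simp only [κ₁] at h2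
      exact Iff.of_eq h2
    refine ⟨fun a b => ?_, fun a => ?_⟩
    · by_cases ha : a = v
      · by_cases hb : b = v
        · rw [ha, hb, hfix]
        · rw [ha, hfix, hval b hb]
          exact hadjv b hb
      · by_cases hb : b = v
        · rw [hb, hfix, hval a ha, Y.adj_comm, Y.adj_comm a v]
          exact hadjv a ha
        · rw [hval a ha, hval b hb]
          exact hg1 ⟨a, ha⟩ ⟨b, hb⟩
    · by_cases ha : a = v
      · rw [ha, hfix]
      · rw [hval a ha]
        exact congrArg Prod.fst (hg2 ⟨a, ha⟩)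
  let ψ : CAut Y' κ₁ →* CAut Y κ :=
    ((Equiv.Perm.ofSubtype).comp (CAut Y' κ₁).subtype).codRestrict (CAut Y κ)
      (fun g => hext g.1 g.2)
  have hψ : Function.Surjective ψ := by
    intro g
    have hgv : g.1 v = v := hcon g.1 g.2
    have hp : ∀ x : V, g.1 x ≠ v ↔ x ≠ v := by
      intro x
      refine not_congr ?_
      constructor
      · intro hx
        exact g.1.injective (hx.trans hgv.symm)
      · intro hx
        rw [hx, hgv]
    refine ⟨⟨Equiv.Perm.subtypePerm g.1 hp, ?_, ?_⟩, ?_⟩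
    · intro a b
      exact g.2.1 a.1 b.1
    · intro a
      refine Prod.ext (g.2.2 a.1) ?_
      have := g.2.1 v a.1
      rw [hgv] at this
      exact propext this
    · refine Subtype.ext ?_
      exact Equiv.Perm.ofSubtype_subtypePerm hp (fun x hx hxv => hx (by rw [hxv, hgv]))
  have hle := hm.minV {w : V // w ≠ v} (α × Prop) Y' κ₁ hf' ⟨π.comp ψ, hπ.comp hψ⟩
  have hlt : Nat.card {w : V // w ≠ v} < Nat.card V :=
    Finite.card_subtype_lt (x := v) (by simp)
  omega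

theorem MinRep.nonempty [IsSimpleGroup G] (hm : MinRep h G Y κ) : Nonempty V := by
  by_contra hV
  rw [not_nonempty_iff] at hV
  obtain ⟨π, hπ⟩ := hm.rep
  obtain ⟨a, b, hab⟩ := exists_pair_ne G
  obtain ⟨x, rfl⟩ := hπ a
  obtain ⟨y, rfl⟩ := hπ b
  exact hab (congrArg π (Subsingleton.elim x y))

end Pool.Agent.BAB67
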