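import Pool.Agent.BAB67.Defs

/-!
# [BAB67-Minor] basic facts on minors

* `conn_singleton`, `conn_univ`: trivial.
* `conn_biUnion`: `S` is a set of indices which is connected in `H`, `B a` is connected in `G` for `a ∈ S`, and for
  `H`-adjacent `a, b ∈ S` there is an edge between `B a` and `B b`: then the union of the `B a`, `a ∈ S`, is connected
  (walk in `H.induce S` from `a` to `b`, induction on the walk).
* `MinorOf.trans`: branch sets `⋃ b ∈ B a, B' b`, connected by `conn_biUnion`.
* `MinorOf.hasModel`: a model of `K_k` in `H` gives one in `G`: the same proof.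
* `fgraph_minor`: the branch set of `x` is the fibre of `c` over `x`.
* `induce_minor`: branch sets `{a}`. `iso_minor`: the same.
* `conn_union_adj`: two connected sets with an edge between them (or with a common point) have a connected union.
-/

set_option autoImplicit false

namespace Pool.Agent.BAB67

universe u v w

theorem conn_singleton {V : Type u} (G : SimpleGraph V) (a : V) : (G.induce ({a} : Set V)).Connected := by
  rw [SimpleGraph.connected_iff_exists_forall_reachable]
  refine ⟨⟨a, rfl⟩, ?_⟩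
  rintro ⟨b, hb⟩
  have : b = a := hb
  subst this
  exact SimpleGraph.Reachable.refl _

theorem conn_union_adj {V : Type u} {G : SimpleGraph V} {S T : Set V} (hS : (G.induce S).Connected)
    (hT : (G.induce T).Connected) {a b : V} (ha : a ∈ S) (hb : b ∈ T) (hab : G.Adj a b) :
    (G.induce (S ∪ T)).Connected :=
  SimpleGraph.connected_induce_union hS.preconnected hT.preconnected ha hb hab

theorem conn_union_inter {V : Type u} {G : SimpleGraph V} {S T : Set V} (hS : (G.induce S).Connected)
    (hT : (G.induce T).Connected) (h : (S ∩ T).Nonempty) : (G.induce (S ∪ T)).Connected :=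
  SimpleGraph.induce_union_connected hS.preconnected hT.preconnected h

private theorem minor_walk_aux {V : Type u} {W : Type v} {G : SimpleGraph V} {H : SimpleGraph W} {S : Set W}
    {B : W → Set V} (hB : ∀ a ∈ S, (G.induce (B a)).Connected)
    (hadj : ∀ a ∈ S, ∀ b ∈ S, H.Adj a b → ∃ x ∈ B a, ∃ y ∈ B b, G.Adj x y) {a b : S}
    (p : (H.induce S).Walk a b) :
    ∃ s' ⊆ ⋃ a ∈ S, B a, B a.1 ⊆ s' ∧ B b.1 ⊆ s' ∧ (G.induce s').Connected := by
  induction p with
  | @nil c =>
    refine ⟨B c.1, ?_, subset_rfl, subset_rfl, hB c.1 c.2⟩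
    exact Set.subset_biUnion_of_mem c.2
  | @cons c d e h p ih =>
    obtain ⟨s', hs', hd, he, hc⟩ := ih
    obtain ⟨x, hx, y, hy, hxy⟩ := hadj c.1 c.2 d.1 d.2 h
    refine ⟨B c.1 ∪ s', Set.union_subset (Set.subset_biUnion_of_mem c.2) hs', Set.subset_union_left,
      he.trans Set.subset_union_right, ?_⟩
    exact conn_union_adj (hB c.1 c.2) hc hx (hd hy) hxy

/-- a connected set, connected blocks over its points, edges between blocks over adjacent points -/
theorem conn_biUnion {V : Type u} {W : Type v} {G : SimpleGraph V} {H : SimpleGraph W} {S : Set W}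
    (hS : (H.induce S).Connected) {B : W → Set V} (hB : ∀ a ∈ S, (G.induce (B a)).Connected)
    (hadj : ∀ a ∈ S, ∀ b ∈ S, H.Adj a b → ∃ x ∈ B a, ∃ y ∈ B b, G.Adj x y) :
    (G.induce (⋃ a ∈ S, B a)).Connected := by
  obtain ⟨a0⟩ := hS.nonempty
  obtain ⟨⟨u0, hu0⟩⟩ := (hB a0.1 a0.2).nonempty
  refine SimpleGraph.induce_connected_of_patches u0 (Set.mem_biUnion a0.2 hu0) ?_
  intro z hz
  obtain ⟨b, hb, hzb⟩ := Set.mem_iUnion₂.1 hz
  obtain ⟨p⟩ := hS.preconnected a0 ⟨b, hb⟩
  obtain ⟨s', hs', h1, h2, h3⟩ := minor_walk_aux hB hadj p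
  exact ⟨s', hs', h1 hu0, h2 hzb, h3.preconnected _ _⟩

private theorem minor_disj_aux {V : Type u} {W : Type v} {B' : W → Set V}
    (hd : ∀ a b, a ≠ b → Disjoint (B' a) (B' b)) {S T : Set W} (hST : Disjoint S T) :
    Disjoint (⋃ a ∈ S, B' a) (⋃ a ∈ T, B' a) := by
  rw [Set.disjoint_left]
  intro x hx hx'
  obtain ⟨a, ha, hxa⟩ := Set.mem_iUnion₂.1 hx
  obtain ⟨b, hb, hxb⟩ := Set.mem_iUnion₂.1 hx'
  have hab : a ≠ b := by
    rintro rfl
    exact Set.disjoint_left.1 hST ha hb
  exact Set.disjoint_left.1 (hd a b hab) hxa hxb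

theorem MinorOf.trans {V : Type u} {W : Type v} {U : Type w} {G : SimpleGraph V} {H : SimpleGraph W}
    {F : SimpleGraph U} (h1 : MinorOf F H) (h2 : MinorOf H G) : MinorOf F G := by
  obtain ⟨B, hB, hBd, hBa⟩ := h1
  obtain ⟨B', hB', hBd', hBa'⟩ := h2
  refine ⟨fun c => ⋃ a ∈ B c, B' a, fun c => ?_, fun c d hcd => ?_, fun c d hcd => ?_⟩
  · exact conn_biUnion (hB c) (fun a _ => hB' a) (fun a _ b _ hab => hBa' a b hab)
  · exact minor_disj_aux hBd' (hBd c d hcd)
  · obtain ⟨x, hx, y, hy, hxy⟩ := hBa c d hcd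
    obtain ⟨x', hx', y', hy', hxy'⟩ := hBa' x y hxy
    exact ⟨x', Set.mem_biUnion hx hx', y', Set.mem_biUnion hy hy', hxy'⟩

theorem MinorOf.hasModel {V : Type u} {W : Type v} {G : SimpleGraph V} {H : SimpleGraph W} (h : MinorOf H G) {k : ℕ}
    (hk : HasModel k H) : HasModel k G := by
  obtain ⟨B, hB, hBd, hBa⟩ := hk
  obtain ⟨B', hB', hBd', hBa'⟩ := h
  refine ⟨fun c => ⋃ a ∈ B c, B' a, fun c => ?_, fun c d hcd => ?_, fun c d hcd => ?_⟩
  · exact conn_biUnion (hB c) (fun a _ => hB' a) (fun a _ b _ hab => hBa' a b hab)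
  · exact minor_disj_aux hBd' (hBd c d hcd)
  · obtain ⟨x, hx, y, hy, hxy⟩ := hBa c d hcd
    obtain ⟨x', hx', y', hy', hxy'⟩ := hBa' x y hxy
    exact ⟨x', Set.mem_biUnion hx hx', y', Set.mem_biUnion hy hy', hxy'⟩

theorem fgraph_minor {V : Type u} {N : Type v} (G : SimpleGraph V) (c : V → N)
    (hc : ∀ x, (G.induce {p | c p = x}).Connected) : MinorOf (fgraph G c) G := by
  refine ⟨fun x => {p | c p = x}, hc, fun a b hab => ?_, fun a b hab => ?_⟩
  · rw [Set.disjoint_left]
    intro p hp hp'
    have h1 : c p = a := hp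
    have h2 : c p = b := hp'
    exact hab (h1.symm.trans h2)
  · obtain ⟨-, p, q, hp, hq, hpq⟩ := hab
    exact ⟨p, hp, q, hq, hpq⟩

/-- an injective map which maps edges to edges is a minor embedding -/
private theorem minor_inj_aux {V : Type u} {W : Type v} {G : SimpleGraph V} {H : SimpleGraph W} (f : W → V)
    (hf : Function.Injective f) (hadj : ∀ a b, H.Adj a b → G.Adj (f a) (f b)) : MinorOf H G := by
  refine ⟨fun a => {f a}, fun a => conn_singleton G (f a), fun a b hab => ?_, fun a b hab => ?_⟩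
  · rw [Set.disjoint_left]
    intro p hp hp'
    have h1 : p = f a := hp
    have h2 : p = f b := hp'
    exact hab (hf (h1.symm.trans h2))
  · exact ⟨f a, rfl, f b, rfl, hadj a b hab⟩

theorem induce_minor {V : Type u} (G : SimpleGraph V) (S : Set V) : MinorOf (G.induce S) G :=
  minor_inj_aux (fun a : S => (a : V)) Subtype.val_injective (fun _ _ h => h)

/-- an injective map which maps edges to edges is a minor embedding -/
theorem inj_minor {V : Type u} {W : Type v} {G : SimpleGraph V} {H : SimpleGraph W} (f : W → V)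
    (hf : Function.Injective f) (hadj : ∀ a b, H.Adj a b → G.Adj (f a) (f b)) : MinorOf H G :=
  minor_inj_aux f hf hadj

end Pool.Agent.BAB67
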