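import Pool.Agent.BAB67.Defs
import Mathlib.GroupTheory.SpecificGroups.Alternating.Simple

/-!
# [BAB67-PermQ] symmetric groups have no non-abelian simple quotient

`perm_quot`. Suppose `f` is surjective, `K` its kernel. The image of the alternating group is normal in `G`. If it is trivial then any two transpositions have the same image
(their product is even) and `G` is generated by one element (`Equiv.Perm.closure_isSwap`), abelian. So it is `G`. If there is no transposition then `Perm β` and `G` are
trivial, abelian. Let `τ` be a transposition; there is an even `σ` with `f σ = f τ`, so `x = τ σ⁻¹ ∈ K` is odd.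
Claim: a normal subgroup `K` of `Perm β` which contains an odd `x` is everything; then `G` is trivial, a contradiction. It is enough to find a 3-cycle in `K`: then `K` contains
the alternating group (`Equiv.Perm.closure_three_cycles_eq_alternating` and the fact that all 3-cycles are conjugate, `Equiv.Perm.isConj_of_cycleType_eq`), and with the odd `x` everything (`K` contains
`x τ`-multiples: for odd `y`, `y = x (x⁻¹ y)`). `[x, t] = x t x⁻¹ t⁻¹ ∈ K` for every transposition `t = (a c)`, and it is `(x a  x c) (a c)`.
 - If `x` is not an involution there is `a` with `x (x a) ≠ a`; with `c = x⁻¹ a`: `(x a  a)(a c)` is a 3-cycle (`x a, a, c` are different).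
 - If `x` is an involution with a fixed point `c` and `x a ≠ a`: `(x a  c)(a c)` is a 3-cycle.
 - If `x` is an involution without fixed point, `a ≠ b = x a`. If `β = {a, b}` then `x` generates `Perm β`. Otherwise let `c ∉ {a, b}`, `d = x c`: `y = [x, (a c)] = (b d) (a c) ∈ K`. If there is
   `e ∉ {a, b, c, d}` then `y` has the fixed point `e` and `[y, (a e)] = (c e)(a e)` is a 3-cycle. If `β = {a, b, c, d}` then `x = (a b)(c d)` is even, contradiction.
(Alternatively: `alternatingGroup.isSimpleGroup` of Mathlib for `5 ≤ card β`, and small cases.)
-/

set_option autoImplicit false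

namespace Pool.Agent.BAB67

universe u v

/-- Small symmetric groups are solvable. -/
private theorem permQ_small {β : Type u} [Finite β] (h : Nat.card β ≤ 4) :
    Group.IsSolvable (Equiv.Perm β) := by
  classical
  have := Fintype.ofFinite β
  have hA : Group.IsSolvable (alternatingGroup β) := by
    rcases Nat.lt_or_ge 3 (Nat.card β) with h3 | h3
    · have h4 : Nat.card β = 4 := by omega
      have hn : (alternatingGroup.kleinFour β).Normal := alternatingGroup.normal_kleinFour h4
      have hk : Group.IsSolvable (alternatingGroup.kleinFour β) :=
        Group.isSolvable_of_comm (isMulCommutative_iff.1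
          (alternatingGroup.kleinFour_isKleinFour h4).isMulCommutative)
      have hq : Group.IsSolvable (alternatingGroup β ⧸ alternatingGroup.kleinFour β) := by
        have h5 : IsMulCommutative (alternatingGroup β ⧸ alternatingGroup.kleinFour β) := by
          rw [Subgroup.Normal.quotient_commutative_iff_commutator_le]
          exact (alternatingGroup.kleinFour_eq_commutator h4).ge
        exact Group.isSolvable_of_comm (isMulCommutative_iff.1 h5)
      exact (Group.isSolvable_iff_subgroup_quotient _).2 ⟨hk, hq⟩
    · exact Group.isSolvable_of_comm (isMulCommutative_iff.1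
        (alternatingGroup.isMulCommutative_of_card_le_three h3))
  refine Group.isSolvable_of_ker_le_range (alternatingGroup β).subtype
    (Equiv.Perm.sign : Equiv.Perm β →* ℤˣ) ?_
  intro x hx
  exact ⟨⟨x, hx⟩, rfl⟩

theorem perm_quot {β : Type u} [Finite β] {G : Type v} [Group G] [IsSimpleGroup G] (hG : NC G)
    (f : Equiv.Perm β →* G) : ¬ Function.Surjective f := by
  classical
  intro hf
  obtain ⟨a, b, hab⟩ := hG
  have := Fintype.ofFinite β
  rcases Nat.lt_or_ge (Nat.card β) 5 with h | h
  · have h1 := permQ_small (β := β) (by omega)
    have h2 : Group.IsSolvable G := Group.isSolvable_of_surjective hf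
    exact hab (IsSimpleGroup.comm_iff_isSolvable.2 h2 a b)
  · by_cases hK : Nontrivial f.ker
    · have h1 := Equiv.Perm.alternatingGroup_le_of_normal h hK
      obtain ⟨x, rfl⟩ := hf a
      obtain ⟨y, rfl⟩ := hf b
      apply hab
      have h2 : x * y * x⁻¹ * y⁻¹ ∈ f.ker := by
        apply h1
        rw [Equiv.Perm.mem_alternatingGroup, map_mul, map_mul, map_mul, map_inv, map_inv,
          mul_comm (Equiv.Perm.sign x), mul_inv_cancel_right, mul_inv_cancel]
      rw [MonoidHom.mem_ker] at h2
      simp only [map_mul, map_inv] at h2
      calc f x * f y = (f x * f y * (f x)⁻¹ * (f y)⁻¹) * (f y * f x) := by group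
        _ = f y * f x := by rw [h2, one_mul]
    · have hinj : Function.Injective f := by
        rw [← MonoidHom.ker_eq_bot_iff]
        rwa [Subgroup.nontrivial_iff_ne_bot, not_not] at hK
      have hN : ((alternatingGroup β).map f).Normal :=
        Subgroup.Normal.map inferInstance f hf
      rcases hN.eq_bot_or_eq_top with h1 | h1
      · rw [Subgroup.map_eq_bot_iff_of_injective _ hinj] at h1
        have h2 := alternatingGroup.nontrivial_of_three_le_card (α := β) (by omega)
        rw [Subgroup.nontrivial_iff_ne_bot] at h2
        exact h2 h1
      · have h3 : Nontrivial β := by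
          rw [← Finite.one_lt_card_iff_nontrivial]
          omega
        obtain ⟨p, q, hpq⟩ := exists_pair_ne β
        have h4 : f (Equiv.swap p q) ∈ (alternatingGroup β).map f := by
          rw [h1]
          exact Subgroup.mem_top _
        rw [Subgroup.mem_map_iff_mem hinj, Equiv.Perm.mem_alternatingGroup,
          Equiv.Perm.sign_swap hpq] at h4
        exact absurd h4 (by decide)

end Pool.Agent.BAB67
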