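import Pool.Agent.BAB67.Net
import Pool.Agent.BAB67.Division

/-!
# [BAB67-Pieces] cutting `Q` into small pieces

`pieces`: let `a` be the constant of `division h`. Let `N` be a net of `Q` (`exists_net` with `S = univ`): pairwise distances greater than `k`, every point has distance at most `k`
from `N`. `CellProp` gives `M`, `c`. `division` for `M` gives `X ⊆ N`, `|X| ≤ a |N| / √s`. The label `piece q` of `q` is the set of the `y : N` which are reachable from `c q` in
`M` by a walk avoiding `X`, if `c q ∉ X`, and `{c q}` if `c q ∈ X` (for instance `piece q = {y | y = c q ∨ (the two are connected in M.induce Xᶜ)}`). Each label is a set `L` of at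
most `s` points of `N` (`1 ≤ s`; a component of `M.induce Xᶜ` is a connected set disjoint from `X`), and `c q ∈ piece q`. So
`{p | piece p = piece q} ⊆ {p | c p ∈ piece q}`, and at most `vol T q₀ k` points `p` have `c p = x` as `T.dist p (c p) ≤ k`. This is the first claim.
`W` = set of the points `q` with `T.dist q x ≤ 2 k + 1` for some `x ∈ X`: `|W| ≤ |X| vol T q₀ (2 k + 1)`, so
`|W| vol T q₀ (k / 2) ≤ a |N| vol T q₀ (k / 2) / √s * vol T q₀ (2 k + 1) ≤ a card Q / √s * vol T q₀ (2 k + 1)` by `packing_all`.
Second claim: let `T.dist q p ≤ k` and `piece p ≠ piece q`. On a shortest walk from `q` to `p` there are adjacent `u, u'` with `T.dist q u ≤ k` and `piece u ≠ piece u'`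
(induction: otherwise all labels on the walk are equal). `CellProp` gives `x` with `c u = x` or adjacent, `x = c u'` or adjacent, `T.dist u x ≤ k + 1`. If `x ∈ X`
then `T.dist q x ≤ 2 k + 1`. If `c u ∈ X` then `T.dist q (c u) ≤ 2 k`. If `c u' ∈ X`, then `T.dist q (c u') ≤ T.dist q u + 1 + k ≤ 2 k + 1`. In these cases `q ∈ W`. Otherwise
`c u`, `x`, `c u'` are not in `X` and are in the same component of `M.induce Xᶜ`, so `piece u = piece u'`, contradiction.
-/

set_option autoImplicit false

namespace Pool.Agent.BAB67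

/-- `u` and `v` are joined by a walk avoiding `X`. -/
private def Pieces.Av {V : Type} (M : SimpleGraph V) (X : Set V) (u v : V) : Prop :=
  ∃ w : M.Walk u v, ∀ z ∈ w.support, z ∉ X

private theorem Pieces.Av.symm {V : Type} {M : SimpleGraph V} {X : Set V} {u v : V} (h : Pieces.Av M X u v) :
    Pieces.Av M X v u := by
  obtain ⟨w, hw⟩ := h
  exact ⟨w.reverse, fun z hz => hw z (by simpa using hz)⟩

private theorem Pieces.Av.trans {V : Type} {M : SimpleGraph V} {X : Set V} {u v x : V}
    (h : Pieces.Av M X u v) (h' : Pieces.Av M X v x) : Pieces.Av M X u x := by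
  obtain ⟨w, hw⟩ := h
  obtain ⟨w', hw'⟩ := h'
  refine ⟨w.append w', fun z hz => ?_⟩
  rw [SimpleGraph.Walk.mem_support_append_iff] at hz
  rcases hz with hz | hz
  · exact hw z hz
  · exact hw' z hz

private theorem Pieces.Av.step {V : Type} {M : SimpleGraph V} {X : Set V} {u v : V} (hu : u ∉ X) (hv : v ∉ X)
    (h : u = v ∨ M.Adj u v) : Pieces.Av M X u v := by
  rcases h with rfl | h
  · refine ⟨SimpleGraph.Walk.nil, fun z hz => ?_⟩
    rw [SimpleGraph.Walk.support_nil, List.mem_singleton] at hz
    rwa [hz]
  · refine ⟨h.toWalk, fun z hz => ?_⟩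
    simp at hz
    rcases hz with rfl | rfl
    · exact hu
    · exact hv

private theorem Pieces.connected {V : Type} {M : SimpleGraph V} {X : Set V} {u : V} (hu : u ∉ X) :
    (M.induce {y | Pieces.Av M X u y}).Connected := by
  classical
  refine SimpleGraph.induce_connected_of_patches u (Pieces.Av.step hu hu (Or.inl rfl)) ?_
  rintro v ⟨w, hw⟩
  refine ⟨{z | z ∈ w.support}, ?_, w.start_mem_support, w.end_mem_support, ?_⟩
  · intro z hz
    exact ⟨w.takeUntil z hz, fun y hy => hw y (SimpleGraph.Walk.support_takeUntil_subset_support w hz hy)⟩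
  · exact w.connected_induce_support.preconnected _ _

private theorem Pieces.ncard_cover {Q α : Type} [Finite Q] [Finite α] (S : Set Q) (L : Set α) (B : α → Set Q) (m : ℕ)
    (hB : ∀ x ∈ L, (B x).ncard ≤ m) (hS : ∀ q ∈ S, ∃ x ∈ L, q ∈ B x) : S.ncard ≤ L.ncard * m := by
  classical
  have := Fintype.ofFinite Q
  have := Fintype.ofFinite α
  have h1 : S ⊆ ((L.toFinset.biUnion fun x => (B x).toFinset : Finset Q) : Set Q) := by
    intro q hq
    obtain ⟨x, hx, hq'⟩ := hS q hq
    simp only [Finset.coe_biUnion, Set.mem_iUnion]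
    exact ⟨x, by simpa using hx, by simpa using hq'⟩
  calc S.ncard ≤ ((L.toFinset.biUnion fun x => (B x).toFinset : Finset Q) : Set Q).ncard :=
        Set.ncard_le_ncard h1 (Set.toFinite _)
    _ = (L.toFinset.biUnion fun x => (B x).toFinset).card := Set.ncard_coe_finset _
    _ ≤ L.toFinset.card * m := Finset.card_biUnion_le_card_mul _ _ _ (fun x hx => by
        rw [← Set.ncard_eq_toFinset_card']
        exact hB x (by simpa using hx))
    _ = L.ncard * m := by rw [← Set.ncard_eq_toFinset_card']

theorem pieces (h : ℕ) : ∃ a : ℝ, 0 < a ∧ ∀ (A Q : Type) [Group A] [Finite Q] (φ : A →* Equiv.Perm Q)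
    (T : SimpleGraph Q), Act φ T → T.Connected → CellProp h T → ∀ (q₀ : Q) (k s : ℕ), 1 ≤ s →
    ∃ (ι : Type) (piece : Q → ι) (W : Set Q), (∀ q, {p | piece p = piece q}.ncard ≤ s * vol T q₀ k) ∧
      (∀ q ∉ W, ∀ p, T.dist q p ≤ k → piece p = piece q) ∧
      (W.ncard : ℝ) * vol T q₀ (k / 2) ≤ a * Nat.card Q / √s * vol T q₀ (2 * k + 1) := by
  obtain ⟨a, ha, hdiv⟩ := division h
  refine ⟨a, ha, ?_⟩
  intro A Q _ _ φ T hact hT hcell q₀ k s hs
  obtain ⟨N, -, hsep, hnet⟩ := exists_net T Set.univ k
  obtain ⟨M, c, hM, hck, hadj⟩ := hcell k N (fun q => hnet q (Set.mem_univ q))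
  obtain ⟨X, hXc, hXs⟩ := hdiv N M hM s hs
  refine ⟨Set N, fun q => {y | y = c q ∨ Pieces.Av M X (c q) y}, {q | ∃ x ∈ X, T.dist q (x : N) ≤ 2 * k + 1},
    ?_, ?_, ?_⟩
  · intro q
    have hL : ({y | y = c q ∨ Pieces.Av M X (c q) y} : Set N).ncard ≤ s := by
      by_cases hq : c q ∈ X
      · have : ({y | y = c q ∨ Pieces.Av M X (c q) y} : Set N) = {c q} := by
          ext y
          simp only [Set.mem_ofPred_eq, Set.mem_singleton_iff, or_iff_left_iff_imp]
          rintro ⟨w, hw⟩
          exact absurd hq (hw _ w.start_mem_support)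
        rw [this, Set.ncard_singleton]
        exact hs
      · have : ({y | y = c q ∨ Pieces.Av M X (c q) y} : Set N) = {y | Pieces.Av M X (c q) y} := by
          ext y
          simp only [Set.mem_ofPred_eq, or_iff_right_iff_imp]
          rintro rfl
          exact Pieces.Av.step hq hq (Or.inl rfl)
        rw [this]
        refine hXs _ (Pieces.connected hq) ?_
        rw [Set.disjoint_left]
        rintro y ⟨w, hw⟩
        exact hw _ w.end_mem_support
    have h1 := Pieces.ncard_cover {p | ({y | y = c p ∨ Pieces.Av M X (c p) y} : Set N) =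
      {y | y = c q ∨ Pieces.Av M X (c q) y}} ({y | y = c q ∨ Pieces.Av M X (c q) y} : Set N)
      (fun x => {p | T.dist (x : Q) p ≤ k}) (vol T q₀ k) (fun x _ => (hact.vol (x : Q) q₀ k).le) ?_
    · exact h1.trans (Nat.mul_le_mul_right _ hL)
    · intro p hp
      refine ⟨c p, ?_, ?_⟩
      · have : c p ∈ ({y | y = c p ∨ Pieces.Av M X (c p) y} : Set N) := Or.inl rfl
        rw [hp] at this
        exact this
      · rw [Set.mem_ofPred_eq, SimpleGraph.dist_comm]
        exact hck p
  · intro q hq p hp
    have key : ∀ (q p : Q) (w : T.Walk p q), ¬ (∃ x ∈ X, T.dist q (x : N) ≤ 2 * k + 1) → w.length ≤ k →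
        ({y | y = c p ∨ Pieces.Av M X (c p) y} : Set N) = {y | y = c q ∨ Pieces.Av M X (c q) y} := by
      clear hp hq p q
      intro q p w
      induction w with
      | nil => intro _ _; rfl
      | @cons p u q hpu w ih =>
        intro hq hw
        rw [SimpleGraph.Walk.length_cons] at hw
        rw [← ih hq (by omega)]
        push Not at hq
        have hqu : T.dist q u ≤ w.length := by
          rw [SimpleGraph.dist_comm]
          exact T.dist_le w
        obtain ⟨x, hx1, hx2, hx3⟩ := hadj u p hpu.symm
        have hxX : x ∉ X := by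
          intro hx
          have := hq x hx
          have := hT.dist_triangle (u := q) (v := u) (w := (x : Q))
          omega
        have huX : c u ∉ X := by
          intro hx
          have := hq _ hx
          have := hT.dist_triangle (u := q) (v := u) (w := (c u : Q))
          have := hck u
          omega
        have hpX : c p ∉ X := by
          intro hx
          have h1 := hq _ hx
          have h2 := hT.dist_triangle (u := q) (v := u) (w := (c p : Q))
          have h3 := hT.dist_triangle (u := u) (v := p) (w := (c p : Q))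
          have h4 := hck p
          have h5 : T.dist u p = 1 := SimpleGraph.dist_eq_one_iff_adj.2 hpu.symm
          omega
        have hav : Pieces.Av M X (c u) (c p) :=
          (Pieces.Av.step huX hxX hx1).trans (Pieces.Av.step hxX hpX hx2)
        ext y
        constructor
        · rintro (rfl | hy)
          · exact Or.inr hav
          · exact Or.inr (hav.trans hy)
        · rintro (rfl | hy)
          · exact Or.inr hav.symm
          · exact Or.inr (hav.symm.trans hy)
    obtain ⟨w, hw⟩ := hT.exists_walk_length_eq_dist p q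
    exact key q p w hq (by rw [hw, SimpleGraph.dist_comm]; exact hp)
  · have h1 : ({q | ∃ x ∈ X, T.dist q (x : N) ≤ 2 * k + 1} : Set Q).ncard ≤ X.ncard * vol T q₀ (2 * k + 1) := by
      refine Pieces.ncard_cover _ X (fun x => {p | T.dist (x : Q) p ≤ 2 * k + 1}) (vol T q₀ (2 * k + 1))
        (fun x _ => (hact.vol (x : Q) q₀ (2 * k + 1)).le) ?_
      rintro q ⟨x, hx, hq⟩
      refine ⟨x, hx, ?_⟩
      rw [Set.mem_ofPred_eq, SimpleGraph.dist_comm]
      exact hq
    have h2 := packing_all hact hT hsep q₀
    have h3 : (Nat.card N : ℝ) * vol T q₀ (k / 2) ≤ Nat.card Q := by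
      rw [Nat.card_coe_set_eq]
      exact_mod_cast h2
    have h4 : (({q | ∃ x ∈ X, T.dist q (x : N) ≤ 2 * k + 1} : Set Q).ncard : ℝ) ≤
        X.ncard * vol T q₀ (2 * k + 1) := by exact_mod_cast h1
    have hs0 : (0 : ℝ) < √s := Real.sqrt_pos.2 (by exact_mod_cast hs)
    calc (({q | ∃ x ∈ X, T.dist q (x : N) ≤ 2 * k + 1} : Set Q).ncard : ℝ) * vol T q₀ (k / 2)
        ≤ X.ncard * vol T q₀ (2 * k + 1) * vol T q₀ (k / 2) :=
          mul_le_mul_of_nonneg_right h4 (Nat.cast_nonneg _)
      _ = X.ncard * (vol T q₀ (k / 2) * vol T q₀ (2 * k + 1)) := by ring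
      _ ≤ (a * Nat.card N / √s) * (vol T q₀ (k / 2) * vol T q₀ (2 * k + 1)) :=
          mul_le_mul_of_nonneg_right hXc (by positivity)
      _ = a / √s * (Nat.card N * vol T q₀ (k / 2)) * vol T q₀ (2 * k + 1) := by ring
      _ ≤ a / √s * Nat.card Q * vol T q₀ (2 * k + 1) := by
          refine mul_le_mul_of_nonneg_right ?_ (Nat.cast_nonneg _)
          exact mul_le_mul_of_nonneg_left h3 (by positivity)
      _ = a * Nat.card Q / √s * vol T q₀ (2 * k + 1) := by ring

end Pool.Agent.BAB67
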