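import Pool.Agent.BAB67.Vol

/-!
# [BAB67-Poincare] the Poincare inequality (Kleiner)

`grad2_nonneg`, `sq_le_grad2` (one term of the sum) are clear. `count_fibre`: for `z, x : X` let `n` be the number of the `g` with `ψ g z = x`; it does not depend on `x`
(translate) nor on `z` (the sum over `x` is `|A|`, so `n * |X| = |A|`): `n = |A| / |X|`.
`poincare`. For `p` with `T.dist c p ≤ 2 r` fix a shortest walk `c = z p 0, ..., z p ℓ = p`, `ℓ ≤ 2 r`. For `g : A`, by the Cauchy-Schwarz inequality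
`(f (ψ g c) - f (ψ g p))² ≤ ℓ ∑ i < ℓ, (f (ψ g (z p i)) - f (ψ g (z p (i+1))))² ≤ 2 r ∑ i < ℓ, grad2 T f (ψ g (z p i))`.
Sum over all `g` with `T.dist c (ψ g c) ≤ r` and over all `p ∈ B(c, 2 r)`. For fixed `p`, `i`: `ψ g (z p i)` has distance at most `r + 2 r` from `c`, and every point `x` is taken by `n` elements `g`, so the sum over `g` of
`grad2 T f (ψ g (z p i))` is at most `n ∑ x ∈ B(c, 3 r), grad2 T f x`. So the right side is at most `vol T c (2 r) * 2 r * 2 r * n ∑ x ∈ B(c, 3 r), grad2 T f x`. The left side: for given `g` with `x = ψ g c`,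
`p ↦ ψ g p` maps `B(c, 2 r)` onto `B(x, 2 r)`, which contains `B(c, r)`; every `x ∈ B(c, r)` is taken by `n` elements `g`; so the left side is at least `n ∑ x ∈ B(c, r), ∑ y ∈ B(c, r), (f x - f y)²`.
Divide by `n > 0` (`n ≥ 1` by transitivity).
-/

set_option autoImplicit false

namespace Pool.Agent.BAB67

universe u

theorem grad2_nonneg {X : Type} [Fintype X] (T : SimpleGraph X) (f : X → ℝ) (x : X) : 0 ≤ grad2 T f x := by
  unfold grad2
  refine Finset.sum_nonneg fun y _ => ?_
  split_ifs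
  · exact sq_nonneg _
  · exact le_rfl

theorem sq_le_grad2 {X : Type} [Fintype X] {T : SimpleGraph X} (f : X → ℝ) {x y : X} (h : T.Adj x y) :
    (f x - f y) ^ 2 ≤ grad2 T f x := by
  classical
  unfold grad2
  have h1 := Finset.single_le_sum (s := Finset.univ)
    (f := fun z => if T.Adj x z then (f x - f z) ^ 2 else 0)
    (fun z _ => by
      show (0 : ℝ) ≤ if T.Adj x z then (f x - f z) ^ 2 else 0
      split_ifs
      · exact sq_nonneg _
      · exact le_rfl) (Finset.mem_univ y)
  simp only [h, if_true] at h1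
  convert h1 using 2

/-- The fibres of the orbit maps have the same number of elements. -/
private lemma pc_card_fibre {A : Type u} {X : Type} [Group A] [Fintype A] [DecidableEq X] [Fintype X]
    {ψ : A →* Equiv.Perm X} {T : SimpleGraph X} (hA : Act ψ T) (c z x : X) :
    (Finset.univ.filter fun g : A => ψ g z = x).card =
      (Finset.univ.filter fun g : A => ψ g c = c).card := by
  obtain ⟨h1, hh1⟩ := hA.trans z c
  obtain ⟨h2, hh2⟩ := hA.trans c x
  symm
  refine Finset.card_bij (fun g _ => h2 * g * h1) ?_ ?_ ?_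
  · intro g hg
    simp only [Finset.mem_filter, Finset.mem_univ, true_and] at hg ⊢
    rw [map_mul, map_mul, Equiv.Perm.mul_apply, Equiv.Perm.mul_apply, hh1, hg, hh2]
  · intro g _ g' _ h
    exact mul_left_cancel (mul_right_cancel h)
  · intro g hg
    simp only [Finset.mem_filter, Finset.mem_univ, true_and] at hg
    refine ⟨h2⁻¹ * g * h1⁻¹, ?_, by group⟩
    simp only [Finset.mem_filter, Finset.mem_univ, true_and]
    have e1 : ψ h1⁻¹ c = z := by
      rw [map_inv, ← hh1]; exact (ψ h1).symm_apply_apply z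
    have e2 : ψ h2⁻¹ x = c := by
      rw [map_inv, ← hh2]; exact (ψ h2).symm_apply_apply c
    rw [map_mul, map_mul, Equiv.Perm.mul_apply, Equiv.Perm.mul_apply, e1, hg, e2]

private lemma pc_sum_act {A : Type u} {X : Type} [Group A] [Fintype A] [DecidableEq X] [Fintype X]
    {ψ : A →* Equiv.Perm X} {T : SimpleGraph X} (hA : Act ψ T) (c z : X) (F : X → ℝ) :
    ∑ g : A, F (ψ g z) =
      ((Finset.univ.filter fun g : A => ψ g c = c).card : ℝ) * ∑ x, F x := by
  rw [← Finset.sum_fiberwise (s := Finset.univ) (g := fun g : A => ψ g z)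
    (f := fun g : A => F (ψ g z)), Finset.mul_sum]
  refine Finset.sum_congr rfl fun x _ => ?_
  have h1 : ∀ g ∈ Finset.univ.filter (fun g : A => ψ g z = x), F (ψ g z) = F x := by
    intro g hg
    rw [(Finset.mem_filter.mp hg).2]
  rw [Finset.sum_congr rfl h1, Finset.sum_const, pc_card_fibre hA c z x, nsmul_eq_mul]

theorem poincare {A : Type u} {X : Type} [Group A] [Finite A] [Fintype X] {ψ : A →* Equiv.Perm X}
    {T : SimpleGraph X} (hA : Act ψ T) (hT : T.Connected) (f : X → ℝ) (c : X) (r : ℕ) :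
    ∑ x with T.dist c x ≤ r, ∑ y with T.dist c y ≤ r, (f x - f y) ^ 2 ≤
      4 * (r : ℝ) ^ 2 * vol T c (2 * r) * ∑ x with T.dist c x ≤ 3 * r, grad2 T f x := by
  classical
  obtain ⟨_⟩ := nonempty_fintype A
  set n : ℕ := (Finset.univ.filter fun g : A => ψ g c = c).card with hn
  have hn1 : 1 ≤ n := by
    rw [hn]
    refine Finset.card_pos.mpr ⟨1, ?_⟩
    simp
  have hn0 : (0 : ℝ) < n := by exact_mod_cast hn1
  set E : ℝ := ∑ x with T.dist c x ≤ 3 * r, grad2 T f x with hE
  have hE0 : 0 ≤ E := Finset.sum_nonneg fun x _ => grad2_nonneg T f x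
  set Gr : Finset A := Finset.univ.filter fun g : A => T.dist c (ψ g c) ≤ r with hGr
  -- the sum of the gradients over the translates of a point of `B(c, 2 r)`
  have hgrad : ∀ z : X, T.dist c z ≤ 2 * r → ∑ g ∈ Gr, grad2 T f (ψ g z) ≤ n * E := by
    intro z hz
    have h1 : ∑ g ∈ Gr, grad2 T f (ψ g z) ≤
        ∑ g : A, (if T.dist c (ψ g z) ≤ 3 * r then grad2 T f (ψ g z) else 0) := by
      rw [hGr, Finset.sum_filter]
      refine Finset.sum_le_sum fun g _ => ?_
      by_cases hg : T.dist c (ψ g c) ≤ r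
      · have h2 : T.dist c (ψ g z) ≤ 3 * r := by
          have h3 := hT.dist_triangle (u := c) (v := ψ g c) (w := ψ g z)
          rw [hA.dist] at h3
          omega
        rw [if_pos hg, if_pos h2]
      · rw [if_neg hg]
        split_ifs
        · exact grad2_nonneg T f _
        · exact le_rfl
    have h2 := pc_sum_act hA c z (fun x => if T.dist c x ≤ 3 * r then grad2 T f x else 0)
    rw [h2, ← Finset.sum_filter] at h1
    exact h1
  -- the upper bound for one point `p`
  have hup : ∀ p : X, T.dist c p ≤ 2 * r →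
      ∑ g ∈ Gr, (f (ψ g c) - f (ψ g p)) ^ 2 ≤ 4 * (r : ℝ) ^ 2 * (n * E) := by
    intro p hp
    obtain ⟨w, hw⟩ := hT.exists_walk_length_eq_dist c p
    have hl : w.length ≤ 2 * r := by omega
    have hdist : ∀ i, T.dist c (w.getVert i) ≤ 2 * r := by
      intro i
      have h1 : w.getVert i ∈ w.support := w.getVert_mem_support i
      have h2 := SimpleGraph.dist_le (w.takeUntil _ h1)
      have h3 := w.length_takeUntil_le_length h1
      omega
    have hcs : ∀ g : A, (f (ψ g c) - f (ψ g p)) ^ 2 ≤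
        (w.length : ℝ) * ∑ i ∈ Finset.range w.length, grad2 T f (ψ g (w.getVert i)) := by
      intro g
      have h1 : f (ψ g c) - f (ψ g p) = ∑ i ∈ Finset.range w.length,
          (f (ψ g (w.getVert i)) - f (ψ g (w.getVert (i + 1)))) := by
        rw [Finset.sum_range_sub' (fun i => f (ψ g (w.getVert i)))]
        simp
      rw [h1]
      have h2 := sq_sum_le_card_mul_sum_sq (s := Finset.range w.length)
        (f := fun i => f (ψ g (w.getVert i)) - f (ψ g (w.getVert (i + 1))))
      rw [Finset.card_range] at h2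
      refine h2.trans (mul_le_mul_of_nonneg_left ?_ (Nat.cast_nonneg _))
      refine Finset.sum_le_sum fun i hi => ?_
      have h3 : T.Adj (w.getVert i) (w.getVert (i + 1)) :=
        w.adj_getVert_succ (Finset.mem_range.mp hi)
      exact sq_le_grad2 f ((hA.adj g _ _).mpr h3)
    calc ∑ g ∈ Gr, (f (ψ g c) - f (ψ g p)) ^ 2
        ≤ ∑ g ∈ Gr, (w.length : ℝ) *
            ∑ i ∈ Finset.range w.length, grad2 T f (ψ g (w.getVert i)) :=
          Finset.sum_le_sum fun g _ => hcs g
      _ = (w.length : ℝ) * ∑ i ∈ Finset.range w.length,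
            ∑ g ∈ Gr, grad2 T f (ψ g (w.getVert i)) := by
          rw [← Finset.mul_sum, Finset.sum_comm]
      _ ≤ (w.length : ℝ) * ∑ i ∈ Finset.range w.length, n * E :=
          mul_le_mul_of_nonneg_left (Finset.sum_le_sum fun i _ => hgrad _ (hdist i))
            (Nat.cast_nonneg _)
      _ = (w.length : ℝ) ^ 2 * (n * E) := by
          rw [Finset.sum_const, Finset.card_range, nsmul_eq_mul]; ring
      _ ≤ 4 * (r : ℝ) ^ 2 * (n * E) := by
          refine mul_le_mul_of_nonneg_right ?_ (mul_nonneg hn0.le hE0)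
          have h5 : (w.length : ℝ) ≤ 2 * r := by exact_mod_cast hl
          have h6 : (0 : ℝ) ≤ w.length := Nat.cast_nonneg _
          nlinarith
  -- the lower bound
  have hlow : (n : ℝ) * ∑ x with T.dist c x ≤ r, ∑ y with T.dist c y ≤ r, (f x - f y) ^ 2 ≤
      ∑ p with T.dist c p ≤ 2 * r, ∑ g ∈ Gr, (f (ψ g c) - f (ψ g p)) ^ 2 := by
    have h0 : ∑ p with T.dist c p ≤ 2 * r, ∑ g ∈ Gr, (f (ψ g c) - f (ψ g p)) ^ 2 =
        ∑ g ∈ Gr, ∑ p with T.dist c p ≤ 2 * r, (f (ψ g c) - f (ψ g p)) ^ 2 := Finset.sum_comm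
    rw [h0]
    have h1 : (n : ℝ) * ∑ x with T.dist c x ≤ r, ∑ y with T.dist c y ≤ r, (f x - f y) ^ 2 =
        ∑ g ∈ Gr, ∑ y with T.dist c y ≤ r, (f (ψ g c) - f y) ^ 2 := by
      rw [hGr, Finset.sum_filter, Finset.sum_filter]
      exact (pc_sum_act hA c c (fun x => if T.dist c x ≤ r then
        ∑ y with T.dist c y ≤ r, (f x - f y) ^ 2 else 0)).symm
    rw [h1]
    refine Finset.sum_le_sum fun g hg => ?_
    have hg' : T.dist c (ψ g c) ≤ r := (Finset.mem_filter.mp hg).2
    rw [Finset.sum_filter, Finset.sum_filter]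
    have h2 : ∑ p : X, (if T.dist c p ≤ 2 * r then (f (ψ g c) - f (ψ g p)) ^ 2 else 0) =
        ∑ y : X, (if T.dist (ψ g c) y ≤ 2 * r then (f (ψ g c) - f y) ^ 2 else 0) := by
      rw [← Equiv.sum_comp (ψ g)
        (fun y => if T.dist (ψ g c) y ≤ 2 * r then (f (ψ g c) - f y) ^ 2 else 0)]
      refine Finset.sum_congr rfl fun p _ => ?_
      rw [hA.dist]
    rw [h2]
    refine Finset.sum_le_sum fun y _ => ?_
    by_cases hy : T.dist c y ≤ r
    · have h3 : T.dist (ψ g c) y ≤ 2 * r := by
        have h4 := hT.dist_triangle (u := ψ g c) (v := c) (w := y)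
        rw [SimpleGraph.dist_comm (u := ψ g c) (v := c)] at h4
        omega
      rw [if_pos hy, if_pos h3]
    · rw [if_neg hy]
      split_ifs
      · exact sq_nonneg _
      · exact le_rfl
  have hvol : (vol T c (2 * r) : ℝ) = ((Finset.univ.filter fun p => T.dist c p ≤ 2 * r).card : ℝ) := by
    unfold vol
    rw [Set.ncard_eq_toFinset_card']
    congr 2
    ext p
    simp
  have hall : ∑ p with T.dist c p ≤ 2 * r, ∑ g ∈ Gr, (f (ψ g c) - f (ψ g p)) ^ 2 ≤
      (vol T c (2 * r) : ℝ) * (4 * (r : ℝ) ^ 2 * (n * E)) := by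
    rw [hvol, ← nsmul_eq_mul]
    exact Finset.sum_le_card_nsmul _ _ _ fun p hp => hup p (Finset.mem_filter.mp hp).2
  have h8 := hlow.trans hall
  have h9 : (n : ℝ) * ∑ x with T.dist c x ≤ r, ∑ y with T.dist c y ≤ r, (f x - f y) ^ 2 ≤
      (n : ℝ) * (4 * (r : ℝ) ^ 2 * vol T c (2 * r) * E) := by
    refine h8.trans (le_of_eq ?_)
    ring
  exact le_of_mul_le_mul_left h9 hn0

end Pool.Agent.BAB67
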