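import Pool.Agent.BAB67.Vol

/-!
# [BAB67-QuotG] the graph of the orbits of the kernel

`quot_act`: for `g : G` choose `a` with `π a = g`; the class of `φ a q` depends only on `g` and the class of `q` (if `π a = π a'` and `q' = φ k q`, `π k = 1`, then `φ a' q' = φ (a' k a⁻¹) (φ a q)`, `π (a' k a⁻¹) = 1`).
`quot_conn`: the map `q ↦ ⟦q⟧` maps adjacent points to equal or adjacent points and is onto.
`quot_dist_le`: a walk of `T` gives a walk of the quotient which is not longer.
`quot_lift`: induction on the length of a shortest walk from `⟦q⟧` to `y`: if `⟦q⟧` is adjacent to `z` then `z = ⟦u'⟧`, `⟦q⟧ = ⟦u⟧`, `u, u'` adjacent; `q = φ k u` with `π k = 1`, so `q` is adjacent to `φ k u'`, and `⟦φ k u'⟧ = z`.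
`quot_Act`: transitive: `T` is; adjacency: `ψ (π a)` is induced by the automorphism `φ a` of `T`, and so is its inverse.
-/

set_option autoImplicit false

namespace Pool.Agent.BAB67

universe u v

/-- The orbits of the kernel of `π`. -/
def kerSetoid {A : Type u} {Q : Type} {G : Type v} [Group A] [Group G] (φ : A →* Equiv.Perm Q) (π : A →* G) :
    Setoid Q where
  r q q' := ∃ a, π a = 1 ∧ φ a q = q'
  iseqv :=
    { refl := fun q => ⟨1, map_one π, by rw [map_one, Equiv.Perm.one_apply]⟩
      symm := by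
        rintro q q' ⟨a, ha, rfl⟩
        refine ⟨a⁻¹, by rw [map_inv, ha, inv_one], ?_⟩
        rw [← Equiv.Perm.mul_apply, ← map_mul, inv_mul_cancel, map_one, Equiv.Perm.one_apply]
      trans := by
        rintro q q' q'' ⟨a, ha, rfl⟩ ⟨a', ha', rfl⟩
        exact ⟨a' * a, by rw [map_mul, ha, ha', one_mul], by rw [map_mul, Equiv.Perm.mul_apply]⟩ }

variable {A : Type u} {Q : Type} {G : Type v} [Group A] [Group G] {φ : A →* Equiv.Perm Q} {π : A →* G}
  {T : SimpleGraph Q}

private lemma quot_mk_eq {a a' : A} (haa : π a = π a') (q : Q) :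
    (Quotient.mk (kerSetoid φ π) (φ a q)) = Quotient.mk _ (φ a' q) := by
  apply Quotient.sound
  refine ⟨a' * a⁻¹, ?_, ?_⟩
  · rw [map_mul, map_inv, haa, mul_inv_cancel]
  · rw [← Equiv.Perm.mul_apply, ← map_mul, inv_mul_cancel_right]

private lemma quot_rel (a : A) {q q' : Q} (h : (kerSetoid φ π) q q') :
    (kerSetoid φ π) (φ a q) (φ a q') := by
  obtain ⟨k, hk, rfl⟩ := h
  refine ⟨a * k * a⁻¹, ?_, ?_⟩
  · rw [map_mul, map_mul, hk, mul_one, map_inv, mul_inv_cancel]
  · rw [← Equiv.Perm.mul_apply, ← map_mul, inv_mul_cancel_right, map_mul, Equiv.Perm.mul_apply]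

private lemma quot_mk_rel (a : A) {q q' : Q}
    (h : (Quotient.mk (kerSetoid φ π) q) = Quotient.mk _ q') :
    (Quotient.mk (kerSetoid φ π) (φ a q)) = Quotient.mk _ (φ a q') :=
  Quotient.sound (quot_rel a (Quotient.exact h))

theorem quot_act (hπ : Function.Surjective π) : ∃ ψ : G →* Equiv.Perm (Quotient (kerSetoid φ π)),
    ∀ a q, ψ (π a) (Quotient.mk _ q) = Quotient.mk _ (φ a q) := by
  choose s hs using hπ
  let f : G →* Function.End (Quotient (kerSetoid φ π)) :=
    { toFun := fun g => Quotient.map (φ (s g)) (fun _ _ h => quot_rel (s g) h)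
      map_one' := by
        funext x
        induction x using Quotient.inductionOn with
        | h q =>
          change Quotient.mk _ (φ (s 1) q) = Quotient.mk _ q
          rw [quot_mk_eq (a := s 1) (a' := 1) (by rw [hs, map_one]) q, map_one, Equiv.Perm.one_apply]
      map_mul' := by
        intro g h
        funext x
        induction x using Quotient.inductionOn with
        | h q =>
          change Quotient.mk _ (φ (s (g * h)) q) = Quotient.mk _ (φ (s g) (φ (s h) q))
          rw [quot_mk_eq (a := s (g * h)) (a' := s g * s h) (by rw [hs, map_mul, hs, hs]) q, map_mul,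
            Equiv.Perm.mul_apply] }
  refine ⟨MonoidHom.toHomPerm f, fun a q => ?_⟩
  change Quotient.mk _ (φ (s (π a)) q) = Quotient.mk _ (φ a q)
  exact quot_mk_eq (hs _) q

private lemma quot_adj (h : Act φ T) {ψ : G →* Equiv.Perm (Quotient (kerSetoid φ π))}
    (hψ : ∀ a q, ψ (π a) (Quotient.mk _ q) = Quotient.mk _ (φ a q)) (a : A)
    {x y : Quotient (kerSetoid φ π)} (hxy : (fgraph T (Quotient.mk (kerSetoid φ π))).Adj x y) :
    (fgraph T (Quotient.mk (kerSetoid φ π))).Adj (ψ (π a) x) (ψ (π a) y) := by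
  obtain ⟨hne, p, q, rfl, rfl, hpq⟩ := hxy
  refine ⟨fun he => hne ((ψ (π a)).injective he), φ a p, φ a q, ?_, ?_, (h.adj a p q).mpr hpq⟩
  · rw [hψ]
  · rw [hψ]

theorem quot_Act (h : Act φ T) (hπ : Function.Surjective π) {ψ : G →* Equiv.Perm (Quotient (kerSetoid φ π))}
    (hψ : ∀ a q, ψ (π a) (Quotient.mk _ q) = Quotient.mk _ (φ a q)) :
    Act ψ (fgraph T (Quotient.mk (kerSetoid φ π))) := by
  constructor
  · intro g x y
    obtain ⟨a, rfl⟩ := hπ g
    constructor
    · intro hxy
      have h1 := quot_adj h hψ a⁻¹ hxy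
      have e : ∀ z, ψ (π a⁻¹) (ψ (π a) z) = z := by
        intro z
        rw [← Equiv.Perm.mul_apply, ← map_mul, ← map_mul, inv_mul_cancel, map_one, map_one,
          Equiv.Perm.one_apply]
      rwa [e, e] at h1
    · exact quot_adj h hψ a
  · intro x y
    induction x using Quotient.inductionOn with
    | h q =>
      induction y using Quotient.inductionOn with
      | h q' =>
        obtain ⟨a, ha⟩ := h.trans q q'
        exact ⟨π a, by rw [hψ, ha]⟩

private lemma quot_walk {q q' : Q} (w : T.Walk q q') :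
    ∃ w' : (fgraph T (Quotient.mk (kerSetoid φ π))).Walk (Quotient.mk _ q) (Quotient.mk _ q'),
      w'.length ≤ w.length := by
  induction w with
  | nil => exact ⟨SimpleGraph.Walk.nil, le_rfl⟩
  | cons hadj w ih =>
    rename_i u v t
    obtain ⟨w', hw'⟩ := ih
    by_cases he : (Quotient.mk (kerSetoid φ π) u) = Quotient.mk _ v
    · rw [he]
      refine ⟨w', ?_⟩
      rw [SimpleGraph.Walk.length_cons]
      omega
    · refine ⟨SimpleGraph.Walk.cons ⟨he, u, v, rfl, rfl, hadj⟩ w', ?_⟩
      rw [SimpleGraph.Walk.length_cons, SimpleGraph.Walk.length_cons]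
      omega

theorem quot_conn (hT : T.Connected) : (fgraph T (Quotient.mk (kerSetoid φ π))).Connected := by
  have hne : Nonempty (Quotient (kerSetoid φ π)) := hT.nonempty.map (Quotient.mk _)
  refine { preconnected := ?_, nonempty := hne }
  intro x y
  induction x using Quotient.inductionOn with
  | h q =>
    induction y using Quotient.inductionOn with
    | h q' =>
      obtain ⟨w⟩ := hT.preconnected q q'
      obtain ⟨w', -⟩ := quot_walk (φ := φ) (π := π) w
      exact ⟨w'⟩

theorem quot_dist_le (hT : T.Connected) (q q' : Q) :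
    (fgraph T (Quotient.mk (kerSetoid φ π))).dist (Quotient.mk _ q) (Quotient.mk _ q') ≤ T.dist q q' := by
  obtain ⟨w, hw⟩ := hT.exists_walk_length_eq_dist q q'
  obtain ⟨w', hw'⟩ := quot_walk (φ := φ) (π := π) w
  rw [← hw]
  exact (SimpleGraph.dist_le w').trans hw'

private lemma quot_lift_walk (h : Act φ T) (hT : T.Connected) {x y : Quotient (kerSetoid φ π)}
    (w : (fgraph T (Quotient.mk (kerSetoid φ π))).Walk x y) :
    ∀ q, Quotient.mk (kerSetoid φ π) q = x → ∃ q', Quotient.mk _ q' = y ∧ T.dist q q' ≤ w.length := by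
  induction w with
  | nil => exact fun q hq => ⟨q, hq, by rw [SimpleGraph.dist_self]; exact Nat.zero_le _⟩
  | cons hadj w ih =>
    intro q hq
    obtain ⟨-, u, u', hu, hu', huu⟩ := hadj
    obtain ⟨k, hk, hku⟩ := Quotient.exact (hu.trans hq.symm)
    have h1 : (Quotient.mk (kerSetoid φ π) (φ k u')) = Quotient.mk _ u' := by
      have := quot_mk_eq (φ := φ) (π := π) (a := k) (a' := 1) (by rw [hk, map_one]) u'
      rwa [map_one, Equiv.Perm.one_apply] at this
    obtain ⟨q', hq', hd⟩ := ih (φ k u') (h1.trans hu')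
    refine ⟨q', hq', ?_⟩
    have h2 : T.Adj q (φ k u') := by
      rw [← hku]
      exact (h.adj k u u').mpr huu
    have h3 := hT.dist_triangle (u := q) (v := φ k u') (w := q')
    have h4 : T.dist q (φ k u') = 1 := SimpleGraph.dist_eq_one_iff_adj.mpr h2
    rw [SimpleGraph.Walk.length_cons]
    omega

theorem quot_lift (h : Act φ T) (hT : T.Connected) (q : Q) (y : Quotient (kerSetoid φ π)) :
    ∃ q', Quotient.mk _ q' = y ∧
      T.dist q q' ≤ (fgraph T (Quotient.mk (kerSetoid φ π))).dist (Quotient.mk _ q) y := by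
  obtain ⟨w, hw⟩ := (quot_conn (φ := φ) (π := π) hT).exists_walk_length_eq_dist (Quotient.mk _ q) y
  rw [← hw]
  exact quot_lift_walk h hT w q rfl

end Pool.Agent.BAB67
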