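import Pool.Agent.BAB67.MinConn
import Pool.Agent.BAB67.PartMin
import Pool.Agent.BAB67.Kernel
import Pool.Agent.BAB67.CoreVT

/-!
# [BAB67-RedVT] the reduction if two adjacent parts are in the same orbit

`Core.mono` is clear. `reduction_vt`: `Z = fgraph Y (Quotient.mk r)`, `ψ = partAct hr.inv`, `b' = ψ g b`; `Q = orb ψ b` (the subtype), `T = Z.induce (orb ψ b)`, `φ = orbAct ψ b`. `orb ψ b' = orb ψ b`, so `T` is connected by
`orbit_union_connected`. `Act`: `part_facts` and the definition of `orb`. `T` is a minor of `Z` (`induce_minor`), which is a minor of `Y` (`part_facts`), so it is `K_h`-free. `b ≠ b'` as they are adjacent.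
So `core_vt` applies. The last claim is `kernel_cond`.
-/

set_option autoImplicit false

namespace Pool.Agent.BAB67

universe u w

theorem Core.mono {h D D' : ℕ} {A : Type u} {Q : Type} [Group A] {φ : A →* Equiv.Perm Q} {T : SimpleGraph Q}
    (hc : Core h D φ T) (hD : D ≤ D') : Core h D' φ T :=
  ⟨hc.act, hc.conn, hc.cell, fun q => (hc.deg q).trans hD, hc.nontriv⟩

/-- The action on an orbit is an action by automorphisms on the induced graph. -/
private theorem redVT_act {A : Type u} {P : Type} [Group A] (ψ : A →* Equiv.Perm P)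
    (Z : SimpleGraph P) (hψ : ∀ g c c', Z.Adj (ψ g c) (ψ g c') ↔ Z.Adj c c') (b : P) :
    Act (orbAct ψ b) (Z.induce (orb ψ b)) := by
  refine ⟨fun g q q' => ?_, ?_⟩
  · change Z.Adj ((orbAct ψ b g) q : P) ((orbAct ψ b g) q' : P) ↔ Z.Adj (q : P) (q' : P)
    rw [orbAct_val, orbAct_val]
    exact hψ g _ _
  · rintro ⟨q, x, hx⟩ ⟨q', y, hy⟩
    refine ⟨y * x⁻¹, Subtype.ext ?_⟩
    rw [orbAct_val]
    change ψ (y * x⁻¹) q = q'
    rw [← hx, ← hy, ← Equiv.Perm.mul_apply, ← map_mul, inv_mul_cancel_right]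

theorem reduction_vt {h : ℕ} {G : Type w} [Group G] [IsSimpleGroup G] (hG : NC G) {V α : Type} [Finite V]
    {Y : SimpleGraph V} {κ : V → α} (hm : MinRep h G Y κ) {r : Setoid V} (hr : GoodPart Y κ r)
    (hmin : ∀ r' : Setoid V, GoodPart Y κ r' → Nat.card (Quotient r) ≤ Nat.card (Quotient r'))
    (b : Quotient r) (g : CAut Y κ) (hb : (fgraph Y (Quotient.mk r)).Adj b (partAct hr.inv g b)) :
    ∃ (Q : Type) (_ : Finite Q) (φ : CAut Y κ →* Equiv.Perm Q) (T : SimpleGraph Q),
      Core h (2 * 2 ^ h + 1) φ T ∧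
        ∀ π : CAut Y κ →* G, Function.Surjective π → ∀ a, φ a = 1 → π a = 1 := by
  have hY : Y.Connected := hm.connected hG
  obtain ⟨h1, -, h3, -⟩ := part_facts hr hY
  have horb : orb (partAct hr.inv) (partAct hr.inv g b) = orb (partAct hr.inv) b := by
    ext c
    constructor
    · rintro ⟨x, rfl⟩
      exact ⟨x * g, by rw [map_mul, Equiv.Perm.mul_apply]⟩
    · rintro ⟨x, rfl⟩
      refine ⟨x * g⁻¹, ?_⟩
      rw [← Equiv.Perm.mul_apply, ← map_mul, inv_mul_cancel_right]
  have hconn := orbit_union_connected hr hmin hb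
  rw [horb, Set.union_self] at hconn
  have hbo : b ∈ orb (partAct hr.inv) b := ⟨1, by rw [map_one, Equiv.Perm.one_apply]⟩
  have hgo : partAct hr.inv g b ∈ orb (partAct hr.inv) b := ⟨g, rfl⟩
  refine ⟨orb (partAct hr.inv) b, inferInstance, orbAct (partAct hr.inv) b,
    (fgraph Y (Quotient.mk r)).induce (orb (partAct hr.inv) b), ?_,
    fun π hπ a ha => kernel_cond hm hr b π hπ a ha⟩
  refine core_vt (redVT_act _ _ h1 b) hconn ?_ ⟨⟨b, hbo⟩, ⟨_, hgo⟩, ?_⟩
  · intro hk
    exact hm.free (((induce_minor _ _).trans h3).hasModel hk)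
  · intro he
    exact hb.1 (congrArg Subtype.val he)

end Pool.Agent.BAB67
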