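import Pool.Agent.BAB67.Minor

/-!
# [BAB67-SepBig] the big component

Two connected sets disjoint from `X`, each with more than half of the vertices, meet; so their union is connected and disjoint from `X`.
`big_conn`: take a connected `C` disjoint from `X` with more than half of the vertices and `|C|` maximal; then `C = Big G X` (the union with
another one is not larger). `big_closed`: if `v ∈ C`, `C` as in the definition, then `C ∪ {w}` is as in the definition.
`big_subset`: let `C` be as in the definition; `Big G X` is connected (`big_conn`), contains a point of `U`, and all neighbours in `Big G X` of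
points of `U` are in `U` (they are not in `X`), so `Big G X ⊆ U` (walk in `G.induce (Big G X)`).
-/

set_option autoImplicit false

namespace Pool.Agent.BAB67

universe u

variable {V : Type u} {G : SimpleGraph V} {X X' : Set V}

theorem big_mono (h : X ⊆ X') : Big G X' ⊆ Big G X := by
  rintro v ⟨C, h1, h2, h3, h4⟩
  exact ⟨C, h1, h2.mono_right h, h3, h4⟩

theorem big_disjoint : Disjoint (Big G X) X := by
  rw [Set.disjoint_left]
  rintro v ⟨C, _, h2, _, h4⟩ hv
  exact Set.disjoint_left.1 h2 h4 hv

theorem subset_big {C : Set V} (h1 : (G.induce C).Connected) (h2 : Disjoint C X) (h3 : Nat.card V < 2 * C.ncard) :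
    C ⊆ Big G X := fun _ hv => ⟨C, h1, h2, h3, hv⟩

private theorem meet_aux [Finite V] {C C' : Set V} (h : Nat.card V < 2 * C.ncard)
    (h' : Nat.card V < 2 * C'.ncard) : (C ∩ C').Nonempty := by
  by_contra hne
  rw [Set.not_nonempty_iff_eq_empty] at hne
  have hd : Disjoint C C' := Set.disjoint_iff_inter_eq_empty.2 hne
  have h1 := Set.ncard_union_eq hd (Set.toFinite C) (Set.toFinite C')
  have h2 : (C ∪ C').ncard ≤ Nat.card V := by
    rw [← Set.ncard_univ]
    exact Set.ncard_le_ncard (Set.subset_univ _) (Set.toFinite _)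
  omega

theorem big_conn [Finite V] (h : (Big G X).Nonempty) : (G.induce (Big G X)).Connected ∧
    Nat.card V < 2 * (Big G X).ncard := by
  obtain ⟨v, C0, h1, h2, h3, _⟩ := h
  obtain ⟨C, ⟨hC1, hC2, hC3⟩, hmax⟩ := Set.exists_max_image
    {C : Set V | (G.induce C).Connected ∧ Disjoint C X ∧ Nat.card V < 2 * C.ncard} Set.ncard
    (Set.toFinite _) ⟨C0, h1, h2, h3⟩
  have hE : Big G X = C := by
    apply Set.Subset.antisymm
    · rintro w ⟨C', h1', h2', h3', h4'⟩
      have hm := meet_aux hC3 h3'
      have hle := Set.ncard_le_ncard (Set.subset_union_left (s := C) (t := C')) (Set.toFinite _)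
      have h5 := hmax (C ∪ C') ⟨conn_union_inter hC1 h1' hm, Disjoint.union_left hC2 h2', by omega⟩
      have h6 : C = C ∪ C' := Set.eq_of_subset_of_ncard_le Set.subset_union_left h5 (Set.toFinite _)
      rw [h6]
      exact Or.inr h4'
    · exact subset_big hC1 hC2 hC3
  rw [hE]
  exact ⟨hC1, hC3⟩

theorem big_closed [Finite V] {v w : V} (hv : v ∈ Big G X) (hvw : G.Adj v w) (hw : w ∉ X) : w ∈ Big G X := by
  obtain ⟨C, h1, h2, h3, h4⟩ := hv
  have hle := Set.ncard_le_ncard (Set.subset_union_left (s := C) (t := {w})) (Set.toFinite _)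
  refine ⟨C ∪ {w}, conn_union_adj h1 (conn_singleton G w) h4 rfl hvw, ?_, by omega, Or.inr rfl⟩
  exact Disjoint.union_left h2 (Set.disjoint_singleton_left.2 hw)

theorem big_subset [Finite V] {U : Set V} (hU : ∀ v ∈ U, ∀ w, G.Adj v w → w ∉ X → w ∈ U)
    (h : (Big G X ∩ U).Nonempty) : Big G X ⊆ U := by
  obtain ⟨a, ha, haU⟩ := h
  obtain ⟨hc, _⟩ := big_conn ⟨a, ha⟩
  intro b hb
  obtain ⟨p⟩ := hc.preconnected ⟨a, ha⟩ ⟨b, hb⟩
  have key : ∀ (x y : Big G X) (_ : (G.induce (Big G X)).Walk x y), x.1 ∈ U → y.1 ∈ U := by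
    intro x y q
    induction q with
    | nil => exact id
    | @cons x z y h q ih =>
      intro hx
      exact ih (hU x.1 hx z.1 h (fun hz => Set.disjoint_left.1 big_disjoint z.2 hz))
  exact key _ _ p haU

end Pool.Agent.BAB67
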