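import Pool.Agent.BAB67.SepBig

/-!
# [BAB67-SepCovey] the steps of the Alon-Seymour-Thomas argument

`Covey.card`: `X` is the union of the `X ∩ B i`.
`Covey.remove`: `X' = X \ B i`, `B' = B` without the index `i` (`Fin.succAbove`). `Big G X ⊆ Big G X'` (`big_mono`). `Big G X' ⊆ Big G X` by `big_subset` for
`U = Big G X` and `X'`: if `v ∈ Big G X` is adjacent to `w ∉ X'` then `w ∉ B i` (by `h`), so `w ∉ X` and `w ∈ Big G X` (`big_closed`). `Big G X' ∩ U` is not
empty as `Big G X ⊆ Big G X'`. So `B' j` is disjoint from `Big G X'`.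
`Covey.add`: `B' = Fin.cons S B` or `Fin.snoc B S`, `X' = X ∪ S`; `S` is disjoint from `B j` as `S ⊆ Big G X` and `hc.big`. `Big G X' ⊆ Big G X` and it is disjoint from
`S` (as from `X'`), `S` is not empty (connected), so the inclusion is strict. `X ∩ B j`: `(X ∪ S) ∩ B j = X ∩ B j`; `(X ∪ S) ∩ S = S`.
`Covey.replace`: let `β = Big G X`, `D = Big G (X ∪ Z)`, `D ⊆ β`. Let `C'` be the set of the vertices of `B i ∪ (β \ D)` which are reachable from `B i` inside
`B i ∪ (β \ D)`; it is connected, `B i ⊆ C'`, `C' ⊆ B i ∪ (β \ D)`. `X' = (X \ B i) ∪ (Z ∩ C')`, `B' = Function.update B i C'`.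
 - disjoint: `C' ⊆ B i ∪ β`, and `B j` is disjoint from `β`; adjacent: `B i ⊆ C'`; `X' ⊆ ⋃ B'`; `X' ∩ C' = Z ∩ C'` has at most `t` elements
   (points of `X \ B i` are in some `B j`, `j ≠ i`), `X' ∩ B j ⊆ X ∩ B j` (`Z ∩ C' ⊆ β` is disjoint from `B j`).
 - `U' = β \ C'` satisfies: if `u ∈ U'`, `w ∉ X'` is adjacent to `u` then `w ∈ U'`. Suppose not. If `w ∉ β` then `w ∈ X` (`big_closed`), so `w ∈ B i`; as `u ∉ C'`,
   `u ∉ β \ D`, so `u ∈ D`; but no vertex of `D` has a neighbour in `B i` (hypothesis `hD`). If `w ∈ β ∩ C'` then again `u ∈ D`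
   (otherwise `u ∈ β \ D` is adjacent to `w ∈ C'`, so `u ∈ C'`); `w ∉ D` (`C' ∩ D = ∅`), so `w ∈ X ∪ Z` (`big_closed`), `w ∉ X` (`w ∈ β`), so `w ∈ Z ∩ C' ⊆ X'`,
   contradiction.
 - `D ⊆ Big G X'`: `D` is connected and has more than half of the vertices (`big_conn`, `hne`), and is disjoint from `X'` (`D` is disjoint from
   `X ∪ Z`): `subset_big`. `D ⊆ U'` as `D ∩ C' = ∅` (`D ∩ B i = ∅` by `hc.big`). So `Big G X' ∩ U' ≠ ∅` and `Big G X' ⊆ U'` (`big_subset`); it is disjoint from `C'`
   and from `B j` (as `U' ⊆ β`).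
 - strict: the vertex `v ∈ β` with a neighbour in `B i` (`hA`) is not in `D`, so it is in `C'`, so it is in `β` and not in `U'`.
-/

set_option autoImplicit false

namespace Pool.Agent.BAB67

universe u

variable {V : Type u} [Finite V] {G : SimpleGraph V} {X : Set V} {t k : ℕ}

theorem Covey.card {B : Fin k → Set V} (hc : Covey G t X B) : X.ncard ≤ k * t := by
  classical
  have h1 : X = ⋃ i, (X ∩ B i) := by
    rw [← Set.inter_iUnion]
    exact (Set.inter_eq_left.2 hc.sub).symm
  have h2 : (⋃ i, (X ∩ B i)).ncard ≤ ∑ i : Fin k, (X ∩ B i).ncard := by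
    have := Set.ncard_iUnion_le_of_fintype (fun i : Fin k => X ∩ B i)
    exact this
  have h3 : ∑ i : Fin k, (X ∩ B i).ncard ≤ ∑ _i : Fin k, t := Finset.sum_le_sum fun i _ => hc.small i
  have h4 : ∑ _i : Fin k, t = k * t := by simp
  calc X.ncard = (⋃ i, (X ∩ B i)).ncard := by rw [← h1]
    _ ≤ _ := h2
    _ ≤ _ := h3
    _ = _ := h4

omit [Finite V] in
theorem Covey.model {B : Fin k → Set V} (hc : Covey G t X B) : HasModel k G := ⟨B, hc.conn, hc.disj, hc.adj⟩

theorem Covey.remove {B : Fin (k + 1) → Set V} (hc : Covey G t X B) (i : Fin (k + 1))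
    (h : ∀ v ∈ Big G X, ∀ w ∈ B i, ¬ G.Adj v w) (hne : (Big G X).Nonempty) :
    ∃ (X' : Set V) (B' : Fin k → Set V), Covey G t X' B' ∧ Big G X' = Big G X := by
  have hsub : Big G X ⊆ Big G (X \ B i) := big_mono Set.sdiff_subset
  have hsup : Big G (X \ B i) ⊆ Big G X := by
    apply big_subset
    · intro v hv w hvw hw
      have hwB : w ∉ B i := fun hwB => h v hv w hwB hvw
      have hwX : w ∉ X := fun hwX => hw ⟨hwX, hwB⟩
      exact big_closed hv hvw hwX
    · obtain ⟨a, ha⟩ := hne
      exact ⟨a, hsub ha, ha⟩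
  have heq : Big G (X \ B i) = Big G X := Set.Subset.antisymm hsup hsub
  refine ⟨X \ B i, fun j => B (i.succAbove j), ⟨fun j => hc.conn _, fun a b hab => hc.disj _ _ ?_,
    fun a b hab => hc.adj _ _ ?_, ?_, ?_, ?_⟩, heq⟩
  · exact fun hh => hab (Fin.succAbove_right_injective hh)
  · exact fun hh => hab (Fin.succAbove_right_injective hh)
  · rintro x ⟨hx, hxi⟩
    obtain ⟨j, hj⟩ := Set.mem_iUnion.1 (hc.sub hx)
    have hji : j ≠ i := by
      rintro rfl
      exact hxi hj
    obtain ⟨j', rfl⟩ := Fin.exists_succAbove_eq hji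
    exact Set.mem_iUnion.2 ⟨j', hj⟩
  · intro j
    exact (Set.ncard_le_ncard (Set.inter_subset_inter_left _ Set.sdiff_subset) (Set.toFinite _)).trans (hc.small _)
  · intro j
    rw [heq]
    exact hc.big _

theorem Covey.add {B : Fin k → Set V} (hc : Covey G t X B) {S : Set V} (hS : S ⊆ Big G X)
    (hSc : (G.induce S).Connected) (hSt : S.ncard ≤ t) (hadj : ∀ i, ∃ v ∈ S, ∃ w ∈ B i, G.Adj v w) :
    ∃ (X' : Set V) (B' : Fin (k + 1) → Set V), Covey G t X' B' ∧ Big G X' ⊂ Big G X := by
  have hdB : ∀ j, Disjoint (B j) S := fun j => (hc.big j).mono_right hS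
  have hmono : Big G (X ∪ S) ⊆ Big G X := big_mono Set.subset_union_left
  have hdS : Disjoint S (Big G (X ∪ S)) := (big_disjoint.mono_right Set.subset_union_right).symm
  obtain ⟨⟨s, hs⟩⟩ := hSc.nonempty
  refine ⟨X ∪ S, Fin.cons S B, ⟨?_, ?_, ?_, ?_, ?_, ?_⟩, ?_⟩
  · intro i
    refine Fin.cases ?_ (fun j => ?_) i
    · exact hSc
    · exact hc.conn j
  · intro i j
    refine Fin.cases ?_ (fun i => ?_) i
    · refine Fin.cases ?_ (fun j => ?_) j
      · intro hh; exact absurd rfl hh
      · intro _; simpa using (hdB j).symm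
    · refine Fin.cases ?_ (fun j => ?_) j
      · intro _; simpa using hdB i
      · intro hh
        have : i ≠ j := fun e => hh (by rw [e])
        simpa using hc.disj i j this
  · intro i j
    refine Fin.cases ?_ (fun i => ?_) i
    · refine Fin.cases ?_ (fun j => ?_) j
      · intro hh; exact absurd rfl hh
      · intro _
        obtain ⟨v, hv, w, hw, hvw⟩ := hadj j
        exact ⟨v, by simpa using hv, w, by simpa using hw, hvw⟩
    · refine Fin.cases ?_ (fun j => ?_) j
      · intro _
        obtain ⟨v, hv, w, hw, hvw⟩ := hadj i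
        exact ⟨w, by simpa using hw, v, by simpa using hv, hvw.symm⟩
      · intro hh
        have : i ≠ j := fun e => hh (by rw [e])
        obtain ⟨x, hx, y, hy, hxy⟩ := hc.adj i j this
        exact ⟨x, by simpa using hx, y, by simpa using hy, hxy⟩
  · rintro x (hx | hx)
    · obtain ⟨j, hj⟩ := Set.mem_iUnion.1 (hc.sub hx)
      exact Set.mem_iUnion.2 ⟨j.succ, by simpa using hj⟩
    · exact Set.mem_iUnion.2 ⟨0, by simpa using hx⟩
  · intro i
    refine Fin.cases ?_ (fun j => ?_) i
    · rw [Fin.cons_zero]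
      exact (Set.ncard_le_ncard Set.inter_subset_right (Set.toFinite _)).trans hSt
    · rw [Fin.cons_succ]
      have : (X ∪ S) ∩ B j = X ∩ B j := by
        rw [Set.union_inter_distrib_right]
        rw [Set.disjoint_iff_inter_eq_empty.1 (hdB j).symm, Set.union_empty]
      rw [this]
      exact hc.small j
  · intro i
    refine Fin.cases ?_ (fun j => ?_) i
    · rw [Fin.cons_zero]; exact hdS
    · rw [Fin.cons_succ]; exact (hc.big j).mono_right hmono
  · refine ⟨hmono, fun hh => ?_⟩
    exact Set.disjoint_left.1 hdS hs (hh (hS hs))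

/-- the part of `P` which is reachable from the connected set `B` inside `B ∪ P` -/
private theorem exists_comp {B P : Set V} (hB : (G.induce B).Connected) :
    ∃ C : Set V, B ⊆ C ∧ C ⊆ B ∪ P ∧ (G.induce C).Connected ∧
      ∀ u ∈ P, ∀ w ∈ C, G.Adj u w → u ∈ C := by
  obtain ⟨C, ⟨hC1, hC2, hC3⟩, hmax⟩ := Set.exists_max_image
    {C : Set V | B ⊆ C ∧ C ⊆ B ∪ P ∧ (G.induce C).Connected} Set.ncard (Set.toFinite _)
    ⟨B, subset_rfl, Set.subset_union_left, hB⟩
  refine ⟨C, hC1, hC2, hC3, ?_⟩
  intro u hu w hw huw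
  by_contra huC
  have h1 : (G.induce (C ∪ {u})).Connected := conn_union_adj hC3 (conn_singleton G u) hw rfl huw.symm
  have h2 := hmax (C ∪ {u}) ⟨hC1.trans Set.subset_union_left,
    Set.union_subset hC2 (Set.singleton_subset_iff.2 (Or.inr hu)), h1⟩
  have h3 : (C ∪ {u}).ncard = C.ncard + 1 := by
    rw [Set.union_singleton]
    exact Set.ncard_insert_of_notMem huC (Set.toFinite _)
  omega

theorem Covey.replace {B : Fin k → Set V} (hc : Covey G t X B) {Z : Set V} (hZ : Z ⊆ Big G X) (hZt : Z.ncard ≤ t)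
    (i : Fin k) (hD : ∀ v ∈ Big G (X ∪ Z), ∀ w ∈ B i, ¬ G.Adj v w) (hne : (Big G (X ∪ Z)).Nonempty)
    (hA : ∃ v ∈ Big G X, ∃ w ∈ B i, G.Adj v w) :
    ∃ (X' : Set V) (B' : Fin k → Set V), Covey G t X' B' ∧ Big G X' ⊂ Big G X := by
  classical
  have hDβ : Big G (X ∪ Z) ⊆ Big G X := big_mono Set.subset_union_left
  have hDXZ : Disjoint (Big G (X ∪ Z)) (X ∪ Z) := big_disjoint
  have hβX : Disjoint (Big G X) X := big_disjoint
  obtain ⟨C, hBC, hCsub, hCc, hCcl⟩ := exists_comp (P := Big G X \ Big G (X ∪ Z)) (hc.conn i)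
  have hCβ : C ⊆ B i ∪ Big G X := hCsub.trans (Set.union_subset_union_right _ Set.sdiff_subset)
  have hCD : Disjoint C (Big G (X ∪ Z)) := by
    rw [Set.disjoint_left]
    intro x hx hxD
    rcases hCsub hx with h | h
    · exact Set.disjoint_left.1 (hc.big i) h (hDβ hxD)
    · exact h.2 hxD
  have hdj : ∀ j, j ≠ i → Disjoint (B j) C := by
    intro j hj
    rw [Set.disjoint_left]
    intro x hx hxC
    rcases hCβ hxC with h | h
    · exact Set.disjoint_left.1 (hc.disj j i hj) hx h
    · exact Set.disjoint_left.1 (hc.big j) hx h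
  -- the new set
  set X' : Set V := (X \ B i) ∪ (Z ∩ C) with hX'
  have hU : Big G X' ⊆ Big G X \ C := by
    apply big_subset
    · rintro u ⟨huβ, huC⟩ w huw hwX'
      by_cases hwβ : w ∈ Big G X
      · refine ⟨hwβ, fun hwC => ?_⟩
        have huD : u ∈ Big G (X ∪ Z) := by
          by_contra hh
          exact huC (hCcl u ⟨huβ, hh⟩ w hwC huw)
        have hwD : w ∉ Big G (X ∪ Z) := fun hh => Set.disjoint_left.1 hCD hwC hh
        have hwXZ : w ∈ X ∪ Z := by
          by_contra hh
          exact hwD (big_closed huD huw hh)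
        rcases hwXZ with h | h
        · exact Set.disjoint_left.1 hβX hwβ h
        · exact hwX' (Or.inr ⟨h, hwC⟩)
      · exfalso
        have hwX : w ∈ X := by
          by_contra hh
          exact hwβ (big_closed huβ huw hh)
        have hwB : w ∈ B i := by
          by_contra hh
          exact hwX' (Or.inl ⟨hwX, hh⟩)
        have huD : u ∈ Big G (X ∪ Z) := by
          by_contra hh
          exact huC (hCcl u ⟨huβ, hh⟩ w (hBC hwB) huw)
        exact hD u huD w hwB huw
    · obtain ⟨a, ha⟩ := hne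
      obtain ⟨hc1, hc2⟩ := big_conn ⟨a, ha⟩
      have hdX' : Disjoint (Big G (X ∪ Z)) X' := by
        refine hDXZ.mono_right ?_
        rintro x (hx | hx)
        · exact Or.inl hx.1
        · exact Or.inr hx.1
      have := subset_big hc1 hdX' hc2
      exact ⟨a, this ha, hDβ ha, fun haC => Set.disjoint_left.1 hCD haC ha⟩
  refine ⟨X', Function.update B i C, ⟨?_, ?_, ?_, ?_, ?_, ?_⟩, ?_⟩
  · intro j
    by_cases hj : j = i
    · subst hj; rw [Function.update_self]; exact hCc
    · rw [Function.update_of_ne hj]; exact hc.conn j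
  · intro a b hab
    by_cases ha : a = i
    · subst ha
      have hb : b ≠ a := fun e => hab e.symm
      simpa [Function.update_of_ne hb] using (hdj b hb).symm
    · by_cases hb : b = i
      · subst hb
        simpa [Function.update_of_ne ha] using hdj a ha
      · simpa [Function.update_of_ne ha, Function.update_of_ne hb] using hc.disj a b hab
  · intro a b hab
    by_cases ha : a = i
    · subst ha
      have hb : b ≠ a := fun e => hab e.symm
      obtain ⟨x, hx, y, hy, hxy⟩ := hc.adj a b hab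
      exact ⟨x, by simpa using hBC hx, y, by simpa [Function.update_of_ne hb] using hy, hxy⟩
    · by_cases hb : b = i
      · subst hb
        obtain ⟨x, hx, y, hy, hxy⟩ := hc.adj a b hab
        exact ⟨x, by simpa [Function.update_of_ne ha] using hx, y, by simpa using hBC hy, hxy⟩
      · obtain ⟨x, hx, y, hy, hxy⟩ := hc.adj a b hab
        exact ⟨x, by simpa [Function.update_of_ne ha] using hx, y, by simpa [Function.update_of_ne hb] using hy, hxy⟩
  · rintro x (hx | hx)
    · obtain ⟨j, hj⟩ := Set.mem_iUnion.1 (hc.sub hx.1)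
      have hji : j ≠ i := by
        rintro rfl
        exact hx.2 hj
      exact Set.mem_iUnion.2 ⟨j, by simpa [Function.update_of_ne hji] using hj⟩
    · exact Set.mem_iUnion.2 ⟨i, by simpa using hx.2⟩
  · intro j
    by_cases hj : j = i
    · subst hj
      have : X' ∩ Function.update B j C j ⊆ Z := by
        rintro x ⟨hx, hxC⟩
        rw [Function.update_self] at hxC
        rcases hx with hx | hx
        · exfalso
          obtain ⟨l, hl⟩ := Set.mem_iUnion.1 (hc.sub hx.1)
          have hlj : l ≠ j := by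
            rintro rfl
            exact hx.2 hl
          exact Set.disjoint_left.1 (hdj l hlj) hl hxC
        · exact hx.1
      exact (Set.ncard_le_ncard this (Set.toFinite _)).trans hZt
    · rw [Function.update_of_ne hj]
      have : X' ∩ B j ⊆ X ∩ B j := by
        rintro x ⟨hx, hxB⟩
        rcases hx with hx | hx
        · exact ⟨hx.1, hxB⟩
        · exact absurd (hZ hx.1) (fun hh => Set.disjoint_left.1 (hc.big j) hxB hh)
      exact (Set.ncard_le_ncard this (Set.toFinite _)).trans (hc.small j)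
  · intro j
    by_cases hj : j = i
    · subst hj
      rw [Function.update_self, Set.disjoint_left]
      intro x hx hxβ
      exact (hU hxβ).2 hx
    · rw [Function.update_of_ne hj]
      exact (hc.big j).mono_right (fun x hx => (hU hx).1)
  · refine ⟨fun x hx => (hU hx).1, fun hh => ?_⟩
    obtain ⟨v, hv, w, hw, hvw⟩ := hA
    have hvD : v ∉ Big G (X ∪ Z) := fun hvD => hD v hvD w hw hvw
    have hvC : v ∈ C := hCcl v ⟨hv, hvD⟩ w (hBC hw) hvw
    exact (hU (hh hv)).2 hvC

end Pool.Agent.BAB67
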