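import Pool.Agent.BAB67.Minor

/-!
# [BAB67-SepTree] Alon-Seymour-Thomas: a small connected set meeting all the sets or a small cut

`tree_or_cut`. If `k = 0` take `S = {u}` for some `u ∈ U`. Let `k ≥ 1`. Consider the layered graph on `U × Fin k`: `(v, i)` and
`(w, i)` are adjacent if `G.Adj v w` (`v, w ∈ U`), and `(v, i)`, `(v, i + 1)` are adjacent if `v ∈ A (i + 1)`. Let `R 0` be the set of the
points `(v, 0)` with `v ∈ A 0`, `R (j + 1)` the union of `R j` and of the neighbours of `R j`; every point of `R j` is the end of a path with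
at most `j + 1` vertices which starts in `A 0 × {0}`.
* If `R (r - 1)` meets `A (k - 1) × {k - 1}` then let `P` be such a path with at most `r` vertices, and `S` the set of the first
  coordinates of its vertices: it is connected in `G` (consecutive first coordinates are equal or adjacent), `|S| ≤ r`; the path starts at
  a point of `A 0`, ends at a point of `A (k - 1)` and for `0 < i` it enters the layer `i` for the first time at a point of `A i`. (To avoid
  paths, prove by induction on `j`: for every `(v, i) ∈ R j` there is `S ⊆ U`, `|S| ≤ j + 1`, `v ∈ S`, `S` connected, `S` meets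
  `A 0, ..., A i`: a vertical edge leads from `(v, i)` to `(v, i ± 1)`; going down keeps the set, going up uses `v ∈ A (i + 1)`.)
* Otherwise the sets `R 0, R 1 \ R 0, ..., R (r - 1) \ R (r - 2)` are disjoint subsets of `U × Fin k`, which has `k |U|` points, so one of them,
  `L`, has at most `k |U| / r` points. Let `Z` be the set of its first coordinates. Let `C ⊆ U` be connected, disjoint from `Z`,
  and suppose it meets all `A i`, `a i ∈ C ∩ A i`. The set `C × Fin k` is disjoint from `L`. If `L = R j \ R (j - 1)` (or `R 0`) then a connected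
  subset of the layered graph which is disjoint from `L` and contains a point of `R 0` is contained in `R (j - 1)` (if `j = 0`: contains no
  point of `R 0`). So all `(v, 0)`, `v ∈ C`, are in `R (j - 1)` (as `(a 0, 0)` is), then `(a 1, 1)` and all `(v, 1)`, `v ∈ C`, and so on:
  `(a (k - 1), k - 1) ∈ R (j - 1) ⊆ R (r - 1)`, contradiction.
-/

set_option autoImplicit false

namespace Pool.Agent.BAB67

section Layers

variable {V : Type} (G : SimpleGraph V) (U : Set V) (k : ℕ) (A : Fin k → Set V)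

/-- the set `A i`, empty for `i ≥ k` -/
private def AA (i : ℕ) : Set V := {v | ∃ h : i < k, v ∈ A ⟨i, h⟩}

/-- the balls in the layered graph -/
private def R : ℕ → Set (V × ℕ)
  | 0 => {p | p.2 = 0 ∧ p.1 ∈ AA k A 0}
  | j + 1 => R j ∪ {q | q.1 ∈ U ∧ q.2 < k ∧ ∃ p ∈ R j, (p.2 = q.2 ∧ G.Adj p.1 q.1) ∨
      (p.1 = q.1 ∧ ((q.2 = p.2 + 1 ∧ p.1 ∈ AA k A q.2) ∨ (p.2 = q.2 + 1)))}

variable {G U k A}

private theorem R_mono {i j : ℕ} (h : i ≤ j) : R G U k A i ⊆ R G U k A j := by
  induction j, h using Nat.le_induction with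
  | base => exact subset_rfl
  | succ j _ ih => exact ih.trans Set.subset_union_left

private theorem R_sub (hA : ∀ i, A i ⊆ U) (j : ℕ) : R G U k A j ⊆ U ×ˢ Set.Iio k := by
  induction j with
  | zero =>
    rintro ⟨v, i⟩ ⟨h1, h2, h3⟩
    exact ⟨hA _ h3, by rw [Set.mem_Iio]; change i < k; rw [show i = 0 from h1]; exact h2⟩
  | succ j ih =>
    rintro q (hq | ⟨h1, h2, -⟩)
    · exact ih hq
    · exact ⟨h1, h2⟩

private theorem R_path [Finite V] (hA : ∀ i, A i ⊆ U) (j : ℕ) : ∀ p ∈ R G U k A j, ∃ S : Set V,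
    S ⊆ U ∧ S.ncard ≤ j + 1 ∧ p.1 ∈ S ∧ (G.induce S).Connected ∧
      ∀ i ≤ p.2, (S ∩ AA k A i).Nonempty := by
  induction j with
  | zero =>
    rintro ⟨v, i⟩ ⟨h1, h2⟩
    refine ⟨{v}, ?_, by simp, rfl, conn_singleton G v, ?_⟩
    · rw [Set.singleton_subset_iff]
      obtain ⟨h3, h4⟩ := h2
      exact hA _ h4
    · intro i' hi'
      have h3 : i' = 0 := by
        have h4 : i = 0 := h1
        have h5 : i' ≤ i := hi'
        omega
      rw [h3]
      exact ⟨v, rfl, h2⟩
  | succ j ih =>
    rintro q (hq | ⟨h1, h2, p, hp, h3⟩)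
    · obtain ⟨S, s1, s2, s3, s4, s5⟩ := ih q hq
      exact ⟨S, s1, by omega, s3, s4, s5⟩
    · obtain ⟨S, s1, s2, s3, s4, s5⟩ := ih p hp
      rcases h3 with ⟨h4, h5⟩ | ⟨h4, ⟨h5, h6⟩ | h5⟩
      · refine ⟨S ∪ {q.1}, Set.union_subset s1 (Set.singleton_subset_iff.2 h1), ?_,
          Or.inr rfl, conn_union_adj s4 (conn_singleton G q.1) s3 rfl h5, ?_⟩
        · have := Set.ncard_union_le S {q.1}
          rw [Set.ncard_singleton] at this
          omega
        · intro i hi
          obtain ⟨x, hx1, hx2⟩ := s5 i (by omega)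
          exact ⟨x, Or.inl hx1, hx2⟩
      · refine ⟨S, s1, by omega, h4 ▸ s3, s4, ?_⟩
        intro i hi
        rcases Nat.lt_or_ge i q.2 with h7 | h7
        · exact s5 i (by omega)
        · have h8 : i = q.2 := by omega
          rw [h8]
          exact ⟨p.1, s3, h6⟩
      · refine ⟨S, s1, by omega, h4 ▸ s3, s4, ?_⟩
        intro i hi
        exact s5 i (by omega)

private theorem prop_conn {C Q : Set V} (hC : (G.induce C).Connected)
    (h : ∀ v ∈ C, ∀ w ∈ C, G.Adj v w → v ∈ Q → w ∈ Q) {a : V} (ha : a ∈ C) (haQ : a ∈ Q) :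
    C ⊆ Q := by
  intro w hw
  have h1 : (G.induce C).Reachable ⟨a, ha⟩ ⟨w, hw⟩ := hC.preconnected _ _
  rw [SimpleGraph.reachable_iff_reflTransGen] at h1
  have h2 : ∀ x : C, Relation.ReflTransGen (G.induce C).Adj ⟨a, ha⟩ x → (x : V) ∈ Q := by
    intro x hx
    induction hx with
    | refl => exact haQ
    | tail _ hbc ih => exact h _ (Subtype.coe_prop _) _ (Subtype.coe_prop _) hbc ih
  exact h2 _ h1

end Layers

theorem tree_or_cut {V : Type} [Finite V] (G : SimpleGraph V) (U : Set V) (hU : U.Nonempty) (k r : ℕ) (hr : 1 ≤ r)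
    (A : Fin k → Set V) (hA : ∀ i, A i ⊆ U) :
    (∃ S : Set V, S ⊆ U ∧ S.ncard ≤ r ∧ (G.induce S).Connected ∧ ∀ i, (S ∩ A i).Nonempty) ∨
    (∃ Z : Set V, Z ⊆ U ∧ r * Z.ncard ≤ k * U.ncard ∧
      ∀ C : Set V, C ⊆ U → (G.induce C).Connected → Disjoint C Z → ∃ i, Disjoint C (A i)) := by
  classical
  rcases Nat.eq_zero_or_pos k with hk | hk
  · subst hk
    obtain ⟨u, hu⟩ := hU
    exact Or.inl ⟨{u}, Set.singleton_subset_iff.2 hu, by simpa using hr, conn_singleton G u,
      fun i => i.elim0⟩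
  obtain ⟨r', rfl⟩ : ∃ r', r = r' + 1 := ⟨r - 1, by omega⟩
  by_cases hcase : ∃ p ∈ R G U k A r', p.2 = k - 1
  · left
    obtain ⟨p, hp, hpk⟩ := hcase
    obtain ⟨S, s1, s2, -, s4, s5⟩ := R_path hA r' p hp
    refine ⟨S, s1, s2, s4, fun i => ?_⟩
    obtain ⟨x, hx1, h2, hx2⟩ := s5 i (by have := i.2; omega)
    exact ⟨x, hx1, hx2⟩
  right
  push Not at hcase
  have hfin : ∀ j, (R G U k A j).Finite := fun j =>
    ((Set.toFinite U).prod (Set.finite_Iio k)).subset (R_sub hA j)
  let Rm : ℕ → Set (V × ℕ) := fun j => Nat.casesOn j ∅ (fun i => R G U k A i)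
  have hRm : ∀ j, Rm j ⊆ R G U k A j := by
    intro j
    cases j with
    | zero => exact Set.empty_subset _
    | succ i => exact R_mono (Nat.le_succ i)
  -- a small level
  obtain ⟨j, hj, hjs⟩ : ∃ j ≤ r', (r' + 1) * (R G U k A j \ Rm j).ncard ≤ k * U.ncard := by
    by_contra hcon
    push Not at hcon
    have h1 : ∀ j ≤ r', (j + 1) * (k * U.ncard) < (r' + 1) * (R G U k A j).ncard := by
      intro j
      induction j with
      | zero =>
        intro h0
        have h2 := hcon 0 h0
        have h3 : R G U k A 0 \ Rm 0 = R G U k A 0 := Set.sdiff_empty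
        rw [h3] at h2
        omega
      | succ i ih =>
        intro hi
        have h2 := ih (by omega)
        have h3 := hcon (i + 1) hi
        have h4 : (R G U k A (i + 1) \ R G U k A i).ncard + (R G U k A i).ncard =
            (R G U k A (i + 1)).ncard :=
          Set.ncard_sdiff_add_ncard_of_subset (R_mono (Nat.le_succ i)) (hfin _)
        have h5 : k * U.ncard < (r' + 1) * (R G U k A (i + 1) \ R G U k A i).ncard := h3
        rw [← h4, mul_add]
        have h6 : (i + 1 + 1) * (k * U.ncard) = (i + 1) * (k * U.ncard) + k * U.ncard := by ring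
        rw [h6]
        omega
    have h2 := h1 r' le_rfl
    have h3 : (R G U k A r').ncard ≤ U.ncard * k := by
      have h4 := Set.ncard_le_ncard (R_sub (G := G) hA r')
        ((Set.toFinite U).prod (Set.finite_Iio k))
      rw [Set.ncard_prod] at h4
      have h5 : (Set.Iio k).ncard = k := by
        rw [← Finset.coe_Iio, Set.ncard_coe_finset]
        simp
      rwa [h5] at h4
    have h4 := lt_of_mul_lt_mul_left h2 (Nat.zero_le _)
    rw [mul_comm k] at h4
    omega
  have hLfin : (R G U k A j \ Rm j).Finite := (hfin j).subset Set.sdiff_subset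
  refine ⟨Prod.fst '' (R G U k A j \ Rm j), ?_, ?_, ?_⟩
  · rintro _ ⟨p, ⟨hp, -⟩, rfl⟩
    exact (R_sub hA j hp).1
  · exact (Nat.mul_le_mul_left _ (Set.ncard_image_le hLfin)).trans hjs
  · intro C hCU hC hCZ
    by_contra hcon
    push Not at hcon
    have ha : ∀ i, i < k → ∃ a ∈ C, a ∈ AA k A i := by
      intro i hi
      obtain ⟨a, ha1, ha2⟩ := Set.not_disjoint_iff.1 (hcon ⟨i, hi⟩)
      exact ⟨a, ha1, hi, ha2⟩
    have hstay : ∀ v ∈ C, ∀ i, (v, i) ∈ R G U k A j → (v, i) ∈ Rm j := by
      intro v hv i hvi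
      by_contra h
      exact Set.disjoint_left.1 hCZ hv ⟨(v, i), ⟨hvi, h⟩, rfl⟩
    -- `j` is not zero
    obtain ⟨a₀, ha₀, ha₀'⟩ := ha 0 hk
    have h0 : (a₀, 0) ∈ R G U k A j := R_mono (Nat.zero_le j) ⟨rfl, ha₀'⟩
    cases j with
    | zero => exact (hstay a₀ ha₀ 0 h0).elim
    | succ j =>
      have hstay' : ∀ v ∈ C, ∀ i, (v, i) ∈ R G U k A (j + 1) → (v, i) ∈ R G U k A j := hstay
      have hall : ∀ i, i < k → ∀ v ∈ C, (v, i) ∈ R G U k A j := by
        intro i
        induction i with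
        | zero =>
          intro _
          refine prop_conn (Q := {v | (v, 0) ∈ R G U k A j}) hC ?_ ha₀ (hstay' a₀ ha₀ 0 h0)
          intro v hv w hw hvw hvQ
          exact hstay' w hw 0 (Or.inr ⟨hCU hw, hk, (v, 0), hvQ, Or.inl ⟨rfl, hvw⟩⟩)
        | succ i ih =>
          intro hi
          obtain ⟨a, haC, haA⟩ := ha (i + 1) hi
          have h1 : (a, i) ∈ R G U k A j := ih (by omega) a haC
          have h2 : (a, i + 1) ∈ R G U k A (j + 1) :=
            Or.inr ⟨hCU haC, hi, (a, i), h1, Or.inr ⟨rfl, Or.inl ⟨rfl, haA⟩⟩⟩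
          refine prop_conn (Q := {v | (v, i + 1) ∈ R G U k A j}) hC ?_ haC
            (hstay' a haC (i + 1) h2)
          intro v hv w hw hvw hvQ
          exact hstay' w hw (i + 1) (Or.inr ⟨hCU hw, hi, (v, i + 1), hvQ, Or.inl ⟨rfl, hvw⟩⟩)
      have h3 := hall (k - 1) (by omega) a₀ ha₀
      exact hcase (a₀, k - 1) (R_mono (by omega) h3) rfl

end Pool.Agent.BAB67
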