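import Pool.Agent.BAB67.SepTree
import Pool.Agent.BAB67.SepCovey

/-!
# [BAB67-Separator] Alon-Seymour-Thomas separators

`separator`. Suppose the contrary: for every `X` with `|X| ≤ h t` there is a connected set disjoint from `X` with more than half of the
vertices, that is `Big G X ≠ ∅`. Among all `(k, X, B)` with `Covey G t X B` (there is one: `k = 0`, `X = ∅`) choose one with `(|Big G X|, k)`
lexicographically minimal. A covey is a model of `K_k`, so `k < h` (if `h ≤ k`, restrict the model to `Fin h`), and `|X| ≤ k t ≤ h t`
(`Covey.card`), so `β = Big G X ≠ ∅`. For all `i` some `v ∈ β` has a neighbour in `B i` (otherwise, writing `k = k' + 1`, `Covey.remove` contradicts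
minimality). Let `A i = {v ∈ β | v has a neighbour in B i}`. If `t = 0` then `h * card V ≤ 0`, `h = 0` (then `HasModel 0 G`, contradiction to `hG`) or `V` is
empty (then the conclusion holds with `X = ∅`: a connected set is not empty). So `t ≥ 1`. Apply `tree_or_cut` with `U = β`, `r = t`.
In the first case `Covey.add` contradicts minimality. In the second case `t |Z| ≤ k |β| ≤ h card V ≤ t ^ 2`, so `|Z| ≤ t`, `|X ∪ Z| ≤ k t + t ≤ h t`, so
`D = Big G (X ∪ Z)` is not empty, it is connected (`big_conn`), contained in `β` (`big_mono`), disjoint from `Z`; so it is disjoint from some `A i`, that is,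
no vertex of `D` has a neighbour in `B i`; `Covey.replace` contradicts minimality.
-/

set_option autoImplicit false

namespace Pool.Agent.BAB67

private theorem separator_mono {V : Type} {G : SimpleGraph V} {h k : ℕ} (hhk : h ≤ k) (hk : HasModel k G) :
    HasModel h G := by
  obtain ⟨B, h1, h2, h3⟩ := hk
  have hinj : ∀ i j : Fin h, i ≠ j → Fin.castLE hhk i ≠ Fin.castLE hhk j :=
    fun i j hij h4 => hij (Fin.castLE_injective hhk h4)
  exact ⟨fun i => B (Fin.castLE hhk i), fun i => h1 _, fun i j hij => h2 _ _ (hinj i j hij),
    fun i j hij => h3 _ _ (hinj i j hij)⟩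

private theorem separator_measure {a b h k : ℕ} (hab : a < b) (hk : k < h) :
    a * (h + 1) + (k + 1) < b * (h + 1) + k := by
  have h1 : (a + 1) * (h + 1) ≤ b * (h + 1) := Nat.mul_le_mul_right _ hab
  have h2 : (a + 1) * (h + 1) = a * (h + 1) + (h + 1) := by ring
  omega

theorem separator {V : Type} [Finite V] (G : SimpleGraph V) (h t : ℕ) (hG : ¬ HasModel h G)
    (ht : h * Nat.card V ≤ t ^ 2) :
    ∃ X : Set V, X.ncard ≤ h * t ∧ ∀ C : Set V, (G.induce C).Connected → Disjoint C X → 2 * C.ncard ≤ Nat.card V :=
  by
  by_contra hcon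
  push Not at hcon
  have hbig : ∀ X : Set V, X.ncard ≤ h * t → (Big G X).Nonempty := by
    intro X hX
    obtain ⟨C, h1, h2, h3⟩ := hcon X hX
    obtain ⟨⟨v, hv⟩⟩ := h1.nonempty
    exact ⟨v, C, h1, h2, h3, hv⟩
  have key : ∀ (n k : ℕ) (X : Set V) (B : Fin k → Set V), Covey G t X B →
      (Big G X).ncard * (h + 1) + k = n → False := by
    intro n
    induction n using Nat.strong_induction_on with
    | _ n ih =>
      intro k X B hc hn
      have hkh : k < h := by
        by_contra hkh
        exact hG (separator_mono (not_lt.1 hkh) hc.model)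
      have hX : X.ncard ≤ k * t := hc.card
      have hkt : (k + 1) * t ≤ h * t := Nat.mul_le_mul_right t hkh
      have hkt' : (k + 1) * t = k * t + t := by ring
      have hne : (Big G X).Nonempty := hbig X (by omega)
      have hadj : ∀ i, ∃ v ∈ Big G X, ∃ w ∈ B i, G.Adj v w := by
        intro i
        by_contra hi
        push Not at hi
        cases k with
        | zero => exact i.elim0
        | succ k =>
          obtain ⟨X', B', hc', hX'⟩ := hc.remove i hi hne
          exact ih _ (by rw [hX', ← hn]; omega) k X' B' hc' rfl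
      have ht1 : 1 ≤ t := by
        by_contra h0
        have h1 : t = 0 := by omega
        obtain ⟨v, -⟩ := hne
        have : Nonempty V := ⟨v⟩
        have h2 : 0 < Nat.card V := Nat.card_pos
        have h3 : 0 < h * Nat.card V := Nat.mul_pos (by omega) h2
        rw [h1] at ht
        simp at ht
        omega
      let A : Fin k → Set V := fun i => {v | v ∈ Big G X ∧ ∃ w ∈ B i, G.Adj v w}
      rcases tree_or_cut G (Big G X) hne k t ht1 A (fun i v hv => hv.1) with
        ⟨S, hS, hSt, hSc, hSA⟩ | ⟨Z, hZ, hZt, hZC⟩
      · obtain ⟨X', B', hc', hX'⟩ := hc.add hS hSc hSt fun i => by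
          obtain ⟨v, hv, -, w, hw, hvw⟩ := hSA i
          exact ⟨v, hv, w, hw, hvw⟩
        exact ih _ (by rw [← hn]; exact separator_measure (Set.ncard_lt_ncard hX' (Set.toFinite _)) hkh)
          (k + 1) X' B' hc' rfl
      · have hZt' : Z.ncard ≤ t := by
          have h1 : (Big G X).ncard ≤ Nat.card V := by
            rw [← Set.ncard_univ]
            exact Set.ncard_le_ncard (Set.subset_univ _) (Set.toFinite _)
          have h2 : t * Z.ncard ≤ t * t := by
            calc t * Z.ncard ≤ k * (Big G X).ncard := hZt
              _ ≤ h * Nat.card V := Nat.mul_le_mul hkh.le h1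
              _ ≤ t ^ 2 := ht
              _ = t * t := sq t
          exact Nat.le_of_mul_le_mul_left h2 ht1
        have hXZ : (X ∪ Z).ncard ≤ h * t := by
          have := Set.ncard_union_le X Z
          omega
        have hne' := hbig (X ∪ Z) hXZ
        have hsub : Big G (X ∪ Z) ⊆ Big G X := big_mono Set.subset_union_left
        obtain ⟨i, hi⟩ := hZC (Big G (X ∪ Z)) hsub (big_conn hne').1
          (big_disjoint.mono_right Set.subset_union_right)
        obtain ⟨X', B', hc', hX'⟩ := hc.replace hZ hZt' i
          (fun v hv w hw hvw => Set.disjoint_left.1 hi hv ⟨hsub hv, w, hw, hvw⟩) hne' (hadj i)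
        refine ih _ ?_ k X' B' hc' rfl
        have h1 := separator_measure (Set.ncard_lt_ncard hX' (Set.toFinite _)) hkh
        omega
  refine key _ 0 ∅ (fun i => i.elim0) ?_ rfl
  exact ⟨fun i => i.elim0, fun i => i.elim0, fun i => i.elim0, Set.empty_subset _, fun i => i.elim0,
    fun i => i.elim0⟩

end Pool.Agent.BAB67
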