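import Pool.Agent.BAB67.Poincare

/-!
# [BAB67-TestFn] a function of small energy

`sum_sq_sub`: `∑ x, ∑ y, (f x - f y)² = 2 |X| ∑ f² - 2 (∑ f)²`.
`test_function`. Let `n = |X|`, `f₀ x = T.dist o x`, `f = f₀ - (∑ f₀) / n`. `energy T f = energy T f₀`, and for adjacent `x, y`, `|f₀ x - f₀ y| ≤ 1`, so `grad2 T f x ≤` number of neighbours of `x` `≤ vol T x 1 ≤ K vol T x 0 = K` and
`energy T f ≤ K n`. Let `r = R / 4` (so `4 r ≤ R ≤ 4 r + 3 = 2 (2 r + 1) + 1`). The balls `B(o, r)` and `B(p, r)` are disjoint, since `2 r < R`; for `x ∈ B(o, r)`, `y ∈ B(p, r)`: `f₀ x ≤ r`, `f₀ y ≥ R - r`, `|f₀ x - f₀ y| ≥ R - 2 r ≥ R / 2`. So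
`∑ x, ∑ y, (f x - f y)² ≥ 2 v² (R / 2)²`, `v = vol T o r = vol T p r` (`Act.vol`). `n = vol T o R ≤ K² v` (`vol_top`). As `∑ f = 0`: `2 n ∑ f² ≥ v² R² / 2 ≥ n² R² / (2 K⁴)`, so `∑ f² ≥ n R² / (4 K⁴) > 0` and
`energy T f ≤ K n ≤ 4 K⁵ / R² ∑ f²`.
-/

set_option autoImplicit false

namespace Pool.Agent.BAB67

universe u

theorem sum_sq_sub {X : Type} [Fintype X] (f : X → ℝ) :
    ∑ x, ∑ y, (f x - f y) ^ 2 = 2 * (Fintype.card X : ℝ) * ∑ x, f x ^ 2 - 2 * (∑ x, f x) ^ 2 := by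
  have h1 : ∀ x, ∑ y, (f x - f y) ^ 2 =
      (Fintype.card X : ℝ) * f x ^ 2 - 2 * f x * ∑ y, f y + ∑ y, f y ^ 2 := by
    intro x
    have h2 : ∀ y, (f x - f y) ^ 2 = f x ^ 2 - 2 * f x * f y + f y ^ 2 := fun y => by ring
    rw [Finset.sum_congr rfl fun y _ => h2 y, Finset.sum_add_distrib, Finset.sum_sub_distrib, ← Finset.mul_sum,
      Finset.sum_const, nsmul_eq_mul, Finset.card_univ]
  have h3 : ∑ x, 2 * f x * ∑ y, f y = 2 * (∑ x, f x) ^ 2 := by
    rw [← Finset.sum_mul, ← Finset.mul_sum]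
    ring
  rw [Finset.sum_congr rfl fun x _ => h1 x, Finset.sum_add_distrib, Finset.sum_sub_distrib, ← Finset.mul_sum, h3,
    Finset.sum_const, nsmul_eq_mul, Finset.card_univ]
  ring

private theorem testFn_vol_card {X : Type} [Fintype X] (T : SimpleGraph X) (c : X) (r : ℕ) :
    (vol T c r : ℝ) = ∑ x, (if T.dist c x ≤ r then (1 : ℝ) else 0) := by
  classical
  rw [Finset.sum_boole]
  unfold vol
  rw [← Set.ncard_coe_finset]
  congr 2
  ext x
  simp

/-- The gradient of a 1-Lipschitz function. -/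
private theorem testFn_grad {X : Type} [Fintype X] {T : SimpleGraph X} (hT : T.Connected) {K : ℕ}
    (hK : Doubling K T) (f : X → ℝ) (hf : ∀ x y, T.Adj x y → (f x - f y) ^ 2 ≤ 1) (x : X) :
    grad2 T f x ≤ K := by
  classical
  have h1 : vol T x 1 ≤ K := by
    have h2 : vol T x (2 * 0 + 1) ≤ K * vol T x 0 := hK x 0
    rw [vol_zero hT] at h2
    simpa using h2
  rw [vol_one hT] at h1
  have h2 : grad2 T f x ≤ ∑ y, (if T.Adj x y then (1 : ℝ) else 0) := by
    unfold grad2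
    refine Finset.sum_le_sum fun y _ => ?_
    by_cases h : T.Adj x y
    · rw [if_pos h, if_pos h]
      exact hf x y h
    · rw [if_neg h, if_neg h]
  have h3 : ∑ y, (if T.Adj x y then (1 : ℝ) else 0) = (T.neighborSet x).ncard := by
    rw [Finset.sum_boole, ← Set.ncard_coe_finset]
    congr 2
    ext y
    simp
  have h4 : ((T.neighborSet x).ncard : ℝ) + 1 ≤ K := by exact_mod_cast h1
  linarith

theorem test_function {A : Type u} {X : Type} [Group A] [Fintype X] {ψ : A →* Equiv.Perm X} {T : SimpleGraph X}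
    (hA : Act ψ T) (hT : T.Connected) {K : ℕ} (hK : Doubling K T) {o p : X} {R : ℕ} (hR : ∀ x, T.dist o x ≤ R)
    (hp : T.dist o p = R) (hR1 : 1 ≤ R) :
    ∃ f : X → ℝ, ∑ x, f x = 0 ∧ f ≠ 0 ∧ energy T f ≤ 4 * (K : ℝ) ^ 5 / (R : ℝ) ^ 2 * ∑ x, f x ^ 2 := by
  classical
  haveI : Nonempty X := ⟨o⟩
  have hn : (0 : ℝ) < Fintype.card X := by exact_mod_cast Fintype.card_pos
  obtain ⟨m, hm⟩ : ∃ m : ℝ, m = (∑ x, (T.dist o x : ℝ)) / Fintype.card X := ⟨_, rfl⟩
  have hsum : ∑ x, ((T.dist o x : ℝ) - m) = 0 := by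
    rw [Finset.sum_sub_distrib, Finset.sum_const, nsmul_eq_mul, Finset.card_univ, hm]
    field_simp
    ring
  have hRr : (1 : ℝ) ≤ R := by exact_mod_cast hR1
  have hK1 : (1 : ℝ) ≤ K := by exact_mod_cast hK.pos o
  -- the energy
  have hEn : energy T (fun x => (T.dist o x : ℝ) - m) ≤ K * Fintype.card X := by
    have h1 : ∀ x y, T.Adj x y → (((T.dist o x : ℝ) - m) - ((T.dist o y : ℝ) - m)) ^ 2 ≤ 1 := by
      intro x y hxy
      have h2 : T.dist x y = 1 := SimpleGraph.dist_eq_one_iff_adj.2 hxy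
      have h3 : T.dist o x ≤ T.dist o y + 1 := by
        have := hT.dist_triangle (u := o) (v := y) (w := x)
        rw [SimpleGraph.dist_comm (u := y) (v := x), h2] at this
        exact this
      have h4 : T.dist o y ≤ T.dist o x + 1 := by
        have := hT.dist_triangle (u := o) (v := x) (w := y)
        rw [h2] at this
        exact this
      have h3' : (T.dist o x : ℝ) ≤ T.dist o y + 1 := by exact_mod_cast h3
      have h4' : (T.dist o y : ℝ) ≤ T.dist o x + 1 := by exact_mod_cast h4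
      nlinarith
    unfold energy
    calc ∑ x, grad2 T (fun x => (T.dist o x : ℝ) - m) x ≤ ∑ _x : X, (K : ℝ) :=
          Finset.sum_le_sum fun x _ => testFn_grad hT hK _ h1 x
      _ = K * Fintype.card X := by rw [Finset.sum_const, nsmul_eq_mul, Finset.card_univ]; ring
  -- the double sum
  obtain ⟨r, hr⟩ : ∃ r : ℕ, r = R / 4 := ⟨_, rfl⟩
  obtain ⟨v, hv⟩ : ∃ v : ℝ, v = vol T o r := ⟨_, rfl⟩
  have hvp : (vol T p r : ℝ) = v := by rw [hv, hA.vol p o r]
  have hv0 : 1 ≤ v := by rw [hv]; exact_mod_cast vol_pos (T := T) o r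
  have hnv : (Fintype.card X : ℝ) ≤ K ^ 2 * v := by
    have h1 : vol T o R = Nat.card X := vol_top hR
    have h2 : vol T o R ≤ vol T o (2 * (2 * r + 1) + 1) := vol_mono o (by omega)
    have h3 : vol T o (2 * (2 * r + 1) + 1) ≤ K * vol T o (2 * r + 1) := hK o _
    have h4 : vol T o (2 * r + 1) ≤ K * vol T o r := hK o _
    have h5 : Fintype.card X ≤ K ^ 2 * vol T o r := by
      rw [← Nat.card_eq_fintype_card, ← h1]
      calc vol T o R ≤ K * vol T o (2 * r + 1) := h2.trans h3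
        _ ≤ K * (K * vol T o r) := Nat.mul_le_mul_left _ h4
        _ = K ^ 2 * vol T o r := by ring
    rw [hv]
    exact_mod_cast h5
  have hdouble : 2 * v ^ 2 * ((R : ℝ) / 2) ^ 2 ≤
      ∑ x, ∑ y, (((T.dist o x : ℝ) - m) - ((T.dist o y : ℝ) - m)) ^ 2 := by
    have h1 : ∀ x y, T.dist o x ≤ r → T.dist p y ≤ r → (R : ℝ) / 2 ≤ (T.dist o y : ℝ) - T.dist o x := by
      intro x y hx hy
      have h2 := hT.dist_triangle (u := o) (v := y) (w := p)
      rw [hp, SimpleGraph.dist_comm (u := y) (v := p)] at h2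
      have h3 : R + 2 * T.dist o x ≤ 2 * T.dist o y := by omega
      have h4 : (R : ℝ) + 2 * T.dist o x ≤ 2 * T.dist o y := by exact_mod_cast h3
      linarith
    have h2 : ∀ x y, ((if T.dist o x ≤ r then (1 : ℝ) else 0) * (if T.dist p y ≤ r then (1 : ℝ) else 0) +
        (if T.dist p x ≤ r then (1 : ℝ) else 0) * (if T.dist o y ≤ r then (1 : ℝ) else 0)) * ((R : ℝ) / 2) ^ 2 ≤
        (((T.dist o x : ℝ) - m) - ((T.dist o y : ℝ) - m)) ^ 2 := by
      intro x y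
      have hsq : ∀ a b : ℝ, (R : ℝ) / 2 ≤ b - a → ((R : ℝ) / 2) ^ 2 ≤ (a - b) ^ 2 := by
        intro a b hab
        have : ((R : ℝ) / 2) ^ 2 ≤ (b - a) ^ 2 := pow_le_pow_left₀ (by positivity) hab 2
        nlinarith
      have hsub : (((T.dist o x : ℝ) - m) - ((T.dist o y : ℝ) - m)) = (T.dist o x : ℝ) - T.dist o y := by ring
      rw [hsub]
      by_cases hA1 : T.dist o x ≤ r ∧ T.dist p y ≤ r
      · have h3 : ¬ T.dist p x ≤ r := by
          intro h4
          have h5 := h1 x x hA1.1 h4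
          linarith
        rw [if_pos hA1.1, if_pos hA1.2, if_neg h3]
        have := hsq _ _ (h1 x y hA1.1 hA1.2)
        linarith
      · have h3 : (if T.dist o x ≤ r then (1 : ℝ) else 0) * (if T.dist p y ≤ r then (1 : ℝ) else 0) = 0 := by
          by_cases h4 : T.dist o x ≤ r
          · rw [if_neg (fun h5 => hA1 ⟨h4, h5⟩), mul_zero]
          · rw [if_neg h4, zero_mul]
        rw [h3]
        by_cases hB1 : T.dist p x ≤ r ∧ T.dist o y ≤ r
        · rw [if_pos hB1.1, if_pos hB1.2]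
          have h5 := hsq _ _ (h1 y x hB1.2 hB1.1)
          have h6 : ((T.dist o y : ℝ) - T.dist o x) ^ 2 = ((T.dist o x : ℝ) - T.dist o y) ^ 2 := by ring
          rw [h6] at h5
          linarith
        · have h4 : (if T.dist p x ≤ r then (1 : ℝ) else 0) * (if T.dist o y ≤ r then (1 : ℝ) else 0) = 0 := by
            by_cases h4 : T.dist p x ≤ r
            · rw [if_neg (fun h5 => hB1 ⟨h4, h5⟩), mul_zero]
            · rw [if_neg h4, zero_mul]
          rw [h4]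
          have := sq_nonneg ((T.dist o x : ℝ) - T.dist o y)
          linarith
    have h3 : ∑ x, ∑ y, ((if T.dist o x ≤ r then (1 : ℝ) else 0) * (if T.dist p y ≤ r then (1 : ℝ) else 0) +
        (if T.dist p x ≤ r then (1 : ℝ) else 0) * (if T.dist o y ≤ r then (1 : ℝ) else 0)) * ((R : ℝ) / 2) ^ 2 =
        2 * v ^ 2 * ((R : ℝ) / 2) ^ 2 := by
      have h4 : ∑ x, (if T.dist o x ≤ r then (1 : ℝ) else 0) = v := by rw [← testFn_vol_card, hv]
      have h5 : ∑ x, (if T.dist p x ≤ r then (1 : ℝ) else 0) = v := by rw [← testFn_vol_card, hvp]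
      simp_rw [← Finset.sum_mul, Finset.sum_add_distrib, ← Finset.mul_sum, ← Finset.sum_mul, h4, h5]
      ring
    rw [← h3]
    exact Finset.sum_le_sum fun x _ => Finset.sum_le_sum fun y _ => h2 x y
  rw [sum_sq_sub, hsum] at hdouble
  obtain ⟨S, hS⟩ : ∃ S : ℝ, S = ∑ x, ((T.dist o x : ℝ) - m) ^ 2 := ⟨_, rfl⟩
  obtain ⟨n, hnn⟩ : ∃ n : ℝ, n = Fintype.card X := ⟨_, rfl⟩
  rw [← hS] at hdouble
  rw [← hnn] at hdouble hn hEn hnv
  have hv2 : v ^ 2 * (R : ℝ) ^ 2 ≤ 4 * n * S := by nlinarith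
  have hn2 : n ^ 2 ≤ (K : ℝ) ^ 4 * v ^ 2 := by
    calc n ^ 2 ≤ ((K : ℝ) ^ 2 * v) ^ 2 := pow_le_pow_left₀ hn.le hnv 2
      _ = (K : ℝ) ^ 4 * v ^ 2 := by ring
  have hmain : n * (R : ℝ) ^ 2 ≤ 4 * (K : ℝ) ^ 4 * S := by
    have h1 : n * (n * (R : ℝ) ^ 2) ≤ n * (4 * (K : ℝ) ^ 4 * S) := by
      calc n * (n * (R : ℝ) ^ 2) = n ^ 2 * (R : ℝ) ^ 2 := by ring
        _ ≤ ((K : ℝ) ^ 4 * v ^ 2) * (R : ℝ) ^ 2 := by gcongr
        _ = (K : ℝ) ^ 4 * (v ^ 2 * (R : ℝ) ^ 2) := by ring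
        _ ≤ (K : ℝ) ^ 4 * (4 * n * S) := by gcongr
        _ = n * (4 * (K : ℝ) ^ 4 * S) := by ring
    exact le_of_mul_le_mul_left h1 hn
  have hSpos : 0 < S := by
    have h1 : 0 < n * (R : ℝ) ^ 2 := by positivity
    have h2 : 0 < 4 * (K : ℝ) ^ 4 := by positivity
    by_contra h3
    push Not at h3
    nlinarith
  refine ⟨fun x => (T.dist o x : ℝ) - m, hsum, ?_, ?_⟩
  · intro h0
    have h1 : S = 0 := by
      rw [hS]
      refine Finset.sum_eq_zero fun x _ => ?_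
      have := congrFun h0 x
      simp only [Pi.zero_apply] at this
      rw [this]
      norm_num
    linarith
  · have h1 : ∑ x, (fun x => (T.dist o x : ℝ) - m) x ^ 2 = S := hS.symm
    rw [h1]
    refine hEn.trans ?_
    rw [div_mul_eq_mul_div, le_div_iff₀ (by positivity)]
    calc (K : ℝ) * n * (R : ℝ) ^ 2 = K * (n * (R : ℝ) ^ 2) := by ring
      _ ≤ K * (4 * (K : ℝ) ^ 4 * S) := by gcongr
      _ = 4 * (K : ℝ) ^ 5 * S := by ring

end Pool.Agent.BAB67
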