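import Pool.Agent.BAB67.Minor

/-!
# BAB67-Witness: infinite graphs do not represent more finite groups than finite ones

Copied from the hand-in MP_d97d98_co.FiniteWitness of helper96: every finite group which is the automorphism group of a
graph (finite or infinite) without model of `K_k` is a retract of the automorphism group of a finite graph without
model of `K_k`.
-/

namespace Pool.Agent.BAB67.Witness

open Pool.Agent.BAB67

universe u v

/-- `f` is a contraction of the graph `X` onto the graph `Y`: two distinct vertices `a, b` of `Y` are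
adjacent exactly when they are the images of two adjacent vertices of `X`, and every fibre of `f`
induces a (nonempty) connected subgraph of `X`. -/
def IsContraction {V W : Type u} (X : SimpleGraph V) (Y : SimpleGraph W) (f : V → W) : Prop :=
  (∀ a b : W, Y.Adj a b ↔ a ≠ b ∧ ∃ x y : V, f x = a ∧ f y = b ∧ X.Adj x y) ∧
  ∀ a : W, (X.induce (f ⁻¹' {a})).Connected

/-- `X` has a subcontraction to the complete graph on `k` vertices: some contraction `Y` of `X`
contains `k` pairwise adjacent vertices. -/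
def HasSubcontractionToK (k : ℕ) {V : Type u} (X : SimpleGraph V) : Prop :=
  ∃ (W : Type u) (Y : SimpleGraph W) (f : V → W) (e : Fin k → W),
    IsContraction X Y f ∧ Function.Injective e ∧ ∀ i j : Fin k, i ≠ j → Y.Adj (e i) (e j)

/-! ### Models of complete graphs (branch sets) -/

theorem hasModel_of_hasSub {k : ℕ} {V : Type u} {X : SimpleGraph V}
    (h : HasSubcontractionToK k X) : HasModel k X := by
  obtain ⟨W, Y, f, e, ⟨hadj, hconn⟩, he, hK⟩ := h
  refine ⟨fun i => f ⁻¹' {e i}, fun i => hconn (e i), ?_, ?_⟩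
  · intro i j hij
    rw [Set.disjoint_left]
    intro x hx hx'
    simp only [Set.mem_preimage, Set.mem_singleton_iff] at hx hx'
    exact hij (he (hx.symm.trans hx'))
  · intro i j hij
    obtain ⟨_, x, y, hx, hy, hxy⟩ := (hadj _ _).1 (hK i j hij)
    exact ⟨x, hx, y, hy, hxy⟩

theorem hasSub_of_hasModel {k : ℕ} {V : Type u} {X : SimpleGraph V}
    (h : HasModel k X) : HasSubcontractionToK k X := by
  classical
  obtain ⟨B, hconn, hdisj, hadj⟩ := h
  have hne : ∀ i, ∃ x, x ∈ B i := by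
    intro i
    obtain ⟨x⟩ := (hconn i).nonempty
    exact ⟨x.1, x.2⟩
  choose b hb using hne
  have huniq : ∀ i j x, x ∈ B i → x ∈ B j → i = j := by
    intro i j x hi hj
    by_contra hij
    exact Set.disjoint_left.1 (hdisj i j hij) hi hj
  let F : V → V := fun x => if h : ∃ i, x ∈ B i then b h.choose else x
  have hF1 : ∀ i x, x ∈ B i → F x = b i := by
    intro i x hx
    have h : ∃ i, x ∈ B i := ⟨i, hx⟩
    have : h.choose = i := huniq _ _ x h.choose_spec hx
    simp only [F, dif_pos h, this]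
  have hF2 : ∀ x, (¬ ∃ i, x ∈ B i) → F x = x := by
    intro x hx
    simp only [F, dif_neg hx]
  let W := {a : V // ∃ x, F x = a}
  let f : V → W := fun x => ⟨F x, x, rfl⟩
  let Y : SimpleGraph W :=
    { Adj := fun a b => a ≠ b ∧ ∃ x y : V, f x = a ∧ f y = b ∧ X.Adj x y
      symm := ⟨fun a b ⟨h, x, y, hx, hy, hxy⟩ => ⟨h.symm, y, x, hy, hx, hxy.symm⟩⟩
      loopless := ⟨fun a h => h.1 rfl⟩ }
  refine ⟨W, Y, f, fun i => f (b i), ⟨fun a b => Iff.rfl, ?_⟩, ?_, ?_⟩
  · rintro ⟨a, x, rfl⟩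
    by_cases hx : ∃ i, x ∈ B i
    · obtain ⟨i, hi⟩ := hx
      have hset : f ⁻¹' {⟨F x, x, rfl⟩} = B i := by
        ext y
        have hfy : y ∈ f ⁻¹' {⟨F x, x, rfl⟩} ↔ F y = F x := by
          constructor
          · intro h
            exact congrArg Subtype.val h
          · intro h
            exact Subtype.ext h
        rw [hfy, hF1 i x hi]
        constructor
        · intro hy
          by_cases hy' : ∃ j, y ∈ B j
          · obtain ⟨j, hj⟩ := hy'
            rw [hF1 j y hj] at hy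
            have : b j ∈ B i := hy ▸ hb i
            have hji := huniq _ _ _ (hb j) this
            subst hji
            exact hj
          · rw [hF2 y hy'] at hy
            exact absurd ⟨i, hy ▸ hb i⟩ hy'
        · intro hy
          exact hF1 i y hy
      rw [hset]
      exact hconn i
    · have hset : f ⁻¹' {⟨F x, x, rfl⟩} = {x} := by
        ext y
        have hfy : y ∈ f ⁻¹' {⟨F x, x, rfl⟩} ↔ F y = F x := by
          constructor
          · intro h
            exact congrArg Subtype.val h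
          · intro h
            exact Subtype.ext h
        rw [hfy, hF2 x hx]
        constructor
        · intro hy
          by_cases hy' : ∃ j, y ∈ B j
          · obtain ⟨j, hj⟩ := hy'
            rw [hF1 j y hj] at hy
            exact absurd ⟨j, hy ▸ hb j⟩ hx
          · rw [hF2 y hy'] at hy
            exact hy
        · intro hy
          subst hy
          exact hF2 y hx
      rw [hset]
      have : Nonempty ({x} : Set V) := ⟨⟨x, rfl⟩⟩
      have : Subsingleton ({x} : Set V) := ⟨fun p q => Subtype.ext (p.2.trans q.2.symm)⟩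
      exact ⟨fun p q => by rw [Subsingleton.elim p q]⟩
  · intro i j hij
    have h1 : F (b i) = F (b j) := congrArg Subtype.val hij
    rw [hF1 i _ (hb i), hF1 j _ (hb j)] at h1
    exact huniq _ _ _ (hb i) (h1 ▸ hb j)
  · intro i j hij
    obtain ⟨x, hx, y, hy, hxy⟩ := hadj i j hij
    refine ⟨?_, x, y, ?_, ?_, hxy⟩
    · intro h
      have h1 : F (b i) = F (b j) := congrArg Subtype.val h
      rw [hF1 i _ (hb i), hF1 j _ (hb j)] at h1
      exact hij (huniq _ _ _ (hb i) (h1 ▸ hb j))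
    · exact Subtype.ext ((hF1 i x hx).trans (hF1 i _ (hb i)).symm)
    · exact Subtype.ext ((hF1 j y hy).trans (hF1 j _ (hb j)).symm)

/-- Models are transported by isomorphisms (across universes). -/
theorem hasModel_iso {k : ℕ} {V : Type u} {W : Type v} {X : SimpleGraph V} {Y : SimpleGraph W}
    (e : X ≃g Y) (h : HasModel k X) : HasModel k Y := by
  obtain ⟨B, hconn, hdisj, hadj⟩ := h
  refine ⟨fun i => e '' (B i), fun i => ?_, fun i j hij => ?_, fun i j hij => ?_⟩
  · have hi := hconn i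
    let φ : X.induce (B i) →g Y.induce (e '' (B i)) :=
      { toFun := fun x => ⟨e x.1, x.1, x.2, rfl⟩
        map_rel' := by
          intro a b hab
          exact e.map_adj_iff.2 hab }
    have hφ : Function.Surjective φ := by
      rintro ⟨_, x, hx, rfl⟩
      exact ⟨⟨x, hx⟩, rfl⟩
    exact hi.map φ hφ
  · rw [Set.disjoint_left]
    rintro _ ⟨x, hx, rfl⟩ ⟨y, hy, hxy⟩
    have : y = x := e.injective hxy
    subst this
    exact Set.disjoint_left.1 (hdisj i j hij) hx hy
  · obtain ⟨x, hx, y, hy, hxy⟩ := hadj i j hij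
    exact ⟨e x, ⟨x, hx, rfl⟩, e y, ⟨y, hy, rfl⟩, e.map_adj_iff.2 hxy⟩

/-- A graph with an edge has models of `K_0`, `K_1`, `K_2`. -/
theorem hasModel_of_edge {k : ℕ} (hk : k ≤ 2) {V : Type u} {X : SimpleGraph V} {a b : V}
    (hab : X.Adj a b) : HasModel k X := by
  refine ⟨fun i => if i.1 = 0 then {a} else {b}, fun i => ?_, fun i j hij => ?_, fun i j hij => ?_⟩
  · have key : ∀ x : V, (X.induce ({x} : Set V)).Connected := by
      intro x
      have : Nonempty ({x} : Set V) := ⟨⟨x, rfl⟩⟩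
      have : Subsingleton ({x} : Set V) := ⟨fun p q => Subtype.ext (p.2.trans q.2.symm)⟩
      exact ⟨fun p q => by rw [Subsingleton.elim p q]⟩
    by_cases hi : i.1 = 0
    · have h := key a
      rwa [← if_pos (α := Set V) (t := {a}) (e := {b}) hi] at h
    · have h := key b
      rwa [← if_neg (α := Set V) (t := {a}) (e := {b}) hi] at h
  · have hij' : i.1 ≠ j.1 := fun h => hij (Fin.ext h)
    have hi := i.2
    have hj := j.2
    rcases Nat.eq_zero_or_pos i.1 with h0 | h0
    · have h1 : j.1 ≠ 0 := by omega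
      simp only [h0, h1, if_true, if_false]
      rw [Set.disjoint_singleton]
      exact hab.ne
    · have h1 : j.1 = 0 := by omega
      have h2 : i.1 ≠ 0 := by omega
      simp only [h2, h1, if_true, if_false]
      rw [Set.disjoint_singleton]
      exact hab.ne'
  · have hij' : i.1 ≠ j.1 := fun h => hij (Fin.ext h)
    have hi := i.2
    have hj := j.2
    rcases Nat.eq_zero_or_pos i.1 with h0 | h0
    · have h1 : j.1 ≠ 0 := by omega
      simp only [h0, h1, if_true, if_false]
      exact ⟨a, rfl, b, rfl, hab⟩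
    · have h1 : j.1 = 0 := by omega
      have h2 : i.1 ≠ 0 := by omega
      simp only [h2, h1, if_true, if_false]
      exact ⟨b, rfl, a, rfl, hab.symm⟩

/-! ### Compactness -/

section Compactness

variable {V : Type u} (X : SimpleGraph V)

/-- The smallest invariant set containing `S`. -/
def sat (S : Set V) : Set V := {v | ∃ g : X ≃g X, ∃ w ∈ S, g w = v}

theorem subset_sat (S : Set V) : S ⊆ sat X S := fun v hv => ⟨1, v, hv, rfl⟩

theorem sat_mono {S T : Set V} (h : S ⊆ T) : sat X S ⊆ sat X T := by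
  rintro v ⟨g, w, hw, rfl⟩
  exact ⟨g, w, h hw, rfl⟩

theorem sat_invariant (S : Set V) (g : X ≃g X) {v : V} (hv : v ∈ sat X S) : g v ∈ sat X S := by
  obtain ⟨h, w, hw, rfl⟩ := hv
  exact ⟨g * h, w, hw, rfl⟩

theorem sat_finite [Finite (X ≃g X)] {S : Set V} (hS : S.Finite) : (sat X S).Finite := by
  have h : sat X S = ⋃ g : X ≃g X, (fun w => g w) '' S := by
    ext v
    simp only [sat, Set.mem_ofPred_eq, Set.mem_iUnion, Set.mem_image]
  rw [h]
  exact Set.finite_iUnion (fun g => hS.image _)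

theorem compactness [Finite (X ≃g X)] (S : Set V) (hS : S.Finite) :
    ∃ T : Set V, T.Finite ∧ S ⊆ T ∧ (∀ g : X ≃g X, ∀ v ∈ T, g v ∈ T) ∧
      ∀ σ : V → V, (∀ v ∈ T, ∃ g : X ≃g X, g v = σ v) →
        (∀ a ∈ T, ∀ b ∈ T, X.Adj (σ a) (σ b) ↔ X.Adj a b) → (∀ a ∈ T, ∀ b ∈ T, σ a = σ b → a = b) →
        ∃ g : X ≃g X, ∀ v ∈ S, g v = σ v := by
  classical
  by_contra hcon
  push Not at hcon
  have hstep : ∀ F : Finset V, ∃ σ : V → V,
      (∀ v ∈ sat X ((F : Set V) ∪ S), ∃ g : X ≃g X, g v = σ v) ∧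
      (∀ a ∈ sat X ((F : Set V) ∪ S), ∀ b ∈ sat X ((F : Set V) ∪ S),
        (X.Adj (σ a) (σ b) ↔ X.Adj a b)) ∧
      (∀ a ∈ sat X ((F : Set V) ∪ S), ∀ b ∈ sat X ((F : Set V) ∪ S), σ a = σ b → a = b) ∧
      ∀ g : X ≃g X, ∃ v ∈ S, g v ≠ σ v := by
    intro F
    obtain ⟨σ, h1, h2, h3, h4⟩ := hcon (sat X ((F : Set V) ∪ S))
      (sat_finite X (F.finite_toSet.union hS))
      (Set.subset_union_right.trans (subset_sat X _)) (fun g v hv => sat_invariant X _ g hv)
    exact ⟨σ, h1, h2, h3, h4⟩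
  choose σ h1 h2 h3 h4 using hstep
  let 𝒰 : Ultrafilter (Finset V) := Ultrafilter.of Filter.atTop
  have hmem : ∀ v : V, ∀ᶠ F : Finset V in (𝒰 : Filter (Finset V)),
      v ∈ sat X ((F : Set V) ∪ S) := by
    intro v
    have : ∀ᶠ F : Finset V in (Filter.atTop : Filter (Finset V)),
        v ∈ sat X ((F : Set V) ∪ S) := by
      filter_upwards [Filter.eventually_ge_atTop ({v} : Finset V)] with F hF
      exact subset_sat X _ (Or.inl (hF (Finset.mem_singleton_self v)))
    exact (Ultrafilter.of_le _) this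
  have hval : ∀ v : V, ∃ g : X ≃g X, ∀ᶠ F in (𝒰 : Filter (Finset V)), σ F v = g v := by
    intro v
    have hfin : (Set.univ : Set (X ≃g X)).Finite := Set.finite_univ
    have := (Ultrafilter.finite_biUnion_mem_iff (f := 𝒰) hfin
      (s := fun g : X ≃g X => {F : Finset V | σ F v = g v})).1 (by
        have h := hmem v
        have hsub : {F : Finset V | v ∈ sat X ((F : Set V) ∪ S)} ⊆
            ⋃ g ∈ (Set.univ : Set (X ≃g X)), {F : Finset V | σ F v = g v} := by
          intro F hF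
          obtain ⟨g, hg⟩ := h1 F v hF
          simp only [Set.mem_iUnion, Set.mem_univ, Set.mem_ofPred_eq, exists_prop, true_and]
          exact ⟨g, hg.symm⟩
        exact Filter.mem_of_superset h hsub)
    obtain ⟨g, _, hg⟩ := this
    exact ⟨g, hg⟩
  choose γ hγ using hval
  let τ : V → V := fun v => γ v v
  have hτ : ∀ v, ∀ᶠ F in (𝒰 : Filter (Finset V)), σ F v = τ v := hγ
  have hadj : ∀ a b, X.Adj (τ a) (τ b) ↔ X.Adj a b := by
    intro a b
    obtain ⟨F, hF1, hF2, hF3, hF4⟩ := ((hτ a).and ((hτ b).and ((hmem a).and (hmem b)))).exists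
    rw [← hF1, ← hF2]
    exact h2 F a hF3 b hF4
  have hinj : Function.Injective τ := by
    intro a b hab
    obtain ⟨F, hF1, hF2, hF3, hF4⟩ := ((hτ a).and ((hτ b).and ((hmem a).and (hmem b)))).exists
    rw [← hF1, ← hF2] at hab
    exact h3 F a hF3 b hF4 hab
  have hsurj : Function.Surjective τ := by
    intro v
    have hO : (sat X {v}).Finite := sat_finite X (Set.finite_singleton v)
    have hmaps : Set.MapsTo τ (sat X {v}) (sat X {v}) := by
      intro w hw
      exact sat_invariant X _ (γ w) hw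
    have hs := ((hO.injOn_iff_bijOn_of_mapsTo hmaps).1 hinj.injOn).surjOn
    obtain ⟨w, _, hw⟩ := hs (subset_sat X _ (Set.mem_singleton v))
    exact ⟨w, hw⟩
  let g : X ≃g X :=
    { toEquiv := Equiv.ofBijective τ ⟨hinj, hsurj⟩
      map_rel_iff' := by
        intro a b
        exact hadj a b }
  have hall : ∀ᶠ F in (𝒰 : Filter (Finset V)), ∀ v ∈ S, σ F v = τ v :=
    (Filter.eventually_all_finite hS).2 (fun v _ => hτ v)
  obtain ⟨F, hF⟩ := hall.exists
  obtain ⟨v, hv, hne⟩ := h4 F g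
  exact hne (hF v hv).symm

end Compactness

/-! ### The finite graph: colours are encoded by pendant vertices -/

section Construction

variable {V : Type u}

theorem exists_color (X : SimpleGraph V) {T : Set V} (hT : T.Finite) :
    ∃ c : V → ℕ, (∀ (g : X ≃g X) v, c (g v) = c v) ∧
      ∀ a ∈ T, ∀ b ∈ T, c a = c b → ∃ g : X ≃g X, g a = b := by
  let r : Setoid V :=
    { r := fun a b => ∃ g : X ≃g X, g a = b
      iseqv :=
        { refl := fun a => ⟨1, rfl⟩
          symm := fun {a b} ⟨g, hg⟩ => ⟨g.symm, by rw [← hg]; exact g.symm_apply_apply a⟩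
          trans := fun {a b c} ⟨g, hg⟩ ⟨h, hh⟩ => ⟨h * g, by rw [← hh, ← hg]; rfl⟩ } }
  have hfin : ((Quotient.mk r) '' T).Finite := hT.image _
  obtain ⟨f, hf⟩ := Set.countable_iff_exists_injOn.1 hfin.countable
  refine ⟨fun v => f (Quotient.mk r v), fun g v => ?_, fun a ha b hb hab => ?_⟩
  · have : Quotient.mk r (g v) = Quotient.mk r v :=
      Quotient.sound ⟨g.symm, g.symm_apply_apply v⟩
    simp only [this]
  · exact Quotient.exact (hf ⟨a, ha, rfl⟩ ⟨b, hb, rfl⟩ hab)

variable (X : SimpleGraph V) (T : Set V) (c : V → ℕ)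

/-- Vertices `(v, 0)` (base vertices) and `(v, j)` with `1 ≤ j ≤ c v + 2` (leaves), `v ∈ T`. -/
abbrev WT : Type u := {p : V × ℕ // p.1 ∈ T ∧ p.2 ≤ c p.1 + 2}

/-- The graph induced by `X` on `T` with `c v + 2` pendant vertices attached at `v`. -/
def YG : SimpleGraph (WT T c) where
  Adj p q := (p.1.2 = 0 ∧ q.1.2 = 0 ∧ X.Adj p.1.1 q.1.1) ∨
    (p.1.1 = q.1.1 ∧ (p.1.2 = 0 ∧ q.1.2 ≠ 0 ∨ p.1.2 ≠ 0 ∧ q.1.2 = 0))
  symm := ⟨by
    rintro p q (⟨h1, h2, h3⟩ | ⟨h1, h2 | h2⟩)
    · exact Or.inl ⟨h2, h1, h3.symm⟩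
    · exact Or.inr ⟨h1.symm, Or.inr ⟨h2.2, h2.1⟩⟩
    · exact Or.inr ⟨h1.symm, Or.inl ⟨h2.2, h2.1⟩⟩⟩
  loopless := ⟨by
    rintro p (⟨h1, h2, h3⟩ | ⟨h1, h2 | h2⟩)
    · exact h3.ne rfl
    · exact h2.2 h2.1
    · exact h2.1 h2.2⟩

theorem WT_finite {T : Set V} (hT : T.Finite) : Finite (WT T c) := by
  have h : ({p : V × ℕ | p.1 ∈ T ∧ p.2 ≤ c p.1 + 2} : Set (V × ℕ)).Finite := by
    have : ({p : V × ℕ | p.1 ∈ T ∧ p.2 ≤ c p.1 + 2} : Set (V × ℕ)) ⊆
        ⋃ v ∈ T, ({v} : Set V) ×ˢ (Set.Iic (c v + 2)) := by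
      rintro ⟨v, j⟩ ⟨hv, hj⟩
      simp only [Set.mem_iUnion]
      exact ⟨v, hv, rfl, hj⟩
    exact (hT.biUnion (fun v _ => (Set.finite_singleton v).prod (Set.finite_Iic _))).subset this
  exact h

variable {X T c}

theorem leaf_adj {p q : WT T c} (hp : p.1.2 ≠ 0) (h : (YG X T c).Adj p q) :
    q.1.2 = 0 ∧ q.1.1 = p.1.1 := by
  rcases h with ⟨h1, _, _⟩ | ⟨h1, h2 | h2⟩
  · exact absurd h1 hp
  · exact absurd h2.1 hp
  · exact ⟨h2.2, h1.symm⟩

theorem base_iff (p : WT T c) :
    p.1.2 = 0 ↔ ∃ q r, q ≠ r ∧ (YG X T c).Adj p q ∧ (YG X T c).Adj p r := by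
  constructor
  · intro hp
    refine ⟨⟨(p.1.1, 1), p.2.1, by simp only; omega⟩, ⟨(p.1.1, 2), p.2.1, by simp only; omega⟩,
      ?_, ?_, ?_⟩
    · intro h
      have : (1 : ℕ) = 2 := congrArg (fun w : WT T c => w.1.2) h
      omega
    · exact Or.inr ⟨rfl, Or.inl ⟨hp, one_ne_zero⟩⟩
    · exact Or.inr ⟨rfl, Or.inl ⟨hp, two_ne_zero⟩⟩
  · rintro ⟨q, r, hqr, hq, hr⟩
    by_contra hp
    obtain ⟨h1, h2⟩ := leaf_adj hp hq
    obtain ⟨h3, h4⟩ := leaf_adj hp hr
    exact hqr (Subtype.ext (Prod.ext (h2.trans h4.symm) (h1.trans h3.symm)))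

theorem base_map (τ : YG X T c ≃g YG X T c) (p : WT T c) (hp : p.1.2 = 0) : (τ p).1.2 = 0 := by
  obtain ⟨q, r, hqr, hq, hr⟩ := (base_iff (X := X) p).1 hp
  exact (base_iff (X := X) (τ p)).2
    ⟨τ q, τ r, fun h => hqr (τ.injective h), τ.map_adj_iff.2 hq, τ.map_adj_iff.2 hr⟩

theorem leaf_map (τ : YG X T c ≃g YG X T c) (p : WT T c) (hp : p.1.2 ≠ 0) : (τ p).1.2 ≠ 0 := by
  intro h
  have := base_map τ.symm (τ p) h
  rw [τ.symm_apply_apply] at this
  exact hp this

/-- The base vertex at `v`. -/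
def bs {v : V} (hv : v ∈ T) : WT T c := ⟨(v, 0), hv, Nat.zero_le _⟩

theorem leaf_fst (τ : YG X T c ≃g YG X T c) {v : V} (hv : v ∈ T) (p : WT T c) (hp : p.1.2 ≠ 0)
    (hpv : p.1.1 = v) : (τ p).1.1 = (τ (bs hv)).1.1 := by
  have hadj : (YG X T c).Adj p (bs hv) := Or.inr ⟨hpv, Or.inr ⟨hp, rfl⟩⟩
  have h := leaf_adj (leaf_map τ p hp) (τ.map_adj_iff.2 hadj)
  exact h.2.symm

theorem color_le (τ : YG X T c ≃g YG X T c) {v : V} (hv : v ∈ T) :
    c v ≤ c (τ (bs hv)).1.1 := by
  let lf : Fin (c v + 2) → WT T c := fun j => ⟨(v, j.1 + 1), hv, by have := j.2; simp only; omega⟩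
  have hlf : ∀ j, (lf j).1.2 ≠ 0 := fun j => Nat.succ_ne_zero _
  have h1 : ∀ j, (τ (lf j)).1.1 = (τ (bs hv)).1.1 := fun j => leaf_fst τ hv _ (hlf j) rfl
  have h2 : ∀ j, (τ (lf j)).1.2 ≤ c (τ (bs hv)).1.1 + 2 := by
    intro j
    have := (τ (lf j)).2.2
    rwa [h1 j] at this
  have h3 : ∀ j, (τ (lf j)).1.2 ≠ 0 := fun j => leaf_map τ _ (hlf j)
  let f : Fin (c v + 2) → Fin (c (τ (bs hv)).1.1 + 2) :=
    fun j => ⟨(τ (lf j)).1.2 - 1, by have := h2 j; have := h3 j; omega⟩
  have hf : Function.Injective f := by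
    intro i j hij
    have h4 : (τ (lf i)).1.2 - 1 = (τ (lf j)).1.2 - 1 := congrArg Fin.val hij
    have h5 : (τ (lf i)).1.2 = (τ (lf j)).1.2 := by
      have := h3 i
      have := h3 j
      omega
    have h6 : τ (lf i) = τ (lf j) := Subtype.ext (Prod.ext ((h1 i).trans (h1 j).symm) h5)
    have h7 : lf i = lf j := τ.injective h6
    have h8 : i.1 + 1 = j.1 + 1 := congrArg (fun w : WT T c => w.1.2) h7
    exact Fin.ext (by omega)
  have := Fintype.card_le_of_injective f hf
  simp only [Fintype.card_fin] at this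
  omega

theorem bs_map (τ : YG X T c ≃g YG X T c) {v : V} (hv : v ∈ T) :
    τ (bs hv) = bs (τ (bs hv)).2.1 :=
  Subtype.ext (Prod.ext rfl (base_map τ _ rfl))

theorem color_eq (τ : YG X T c ≃g YG X T c) {v : V} (hv : v ∈ T) :
    c (τ (bs hv)).1.1 = c v := by
  refine le_antisymm ?_ (color_le τ hv)
  have h := color_le τ.symm (τ (bs hv)).2.1
  rw [← bs_map τ hv, τ.symm_apply_apply] at h
  exact h

open Classical in
/-- The map induced on `V` by an automorphism of `Y`. -/
noncomputable def ind (τ : YG X T c ≃g YG X T c) (v : V) : V :=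
  if hv : v ∈ T then (τ (bs hv)).1.1 else v

theorem ind_of_mem (τ : YG X T c ≃g YG X T c) {v : V} (hv : v ∈ T) :
    ind τ v = (τ (bs hv)).1.1 := dif_pos hv

theorem ind_mem (τ : YG X T c ≃g YG X T c) {v : V} (hv : v ∈ T) : ind τ v ∈ T := by
  rw [ind_of_mem τ hv]
  exact (τ (bs hv)).2.1

theorem ind_mul (τ τ' : YG X T c ≃g YG X T c) {v : V} (hv : v ∈ T) :
    ind (τ * τ') v = ind τ (ind τ' v) := by
  rw [ind_of_mem τ (ind_mem τ' hv), ind_of_mem _ hv]
  have h : (τ * τ') (bs hv) = τ (bs (ind_mem τ' hv)) := by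
    have h1 : (τ * τ') (bs hv) = τ (τ' (bs hv)) := rfl
    have h2 : (bs (ind_mem τ' hv) : WT T c) = τ' (bs hv) := by
      rw [bs_map τ' hv]
      exact Subtype.ext (Prod.ext (ind_of_mem τ' hv) rfl)
    rw [h1, h2]
  rw [h]

theorem ind_adj (τ : YG X T c ≃g YG X T c) {a b : V} (ha : a ∈ T) (hb : b ∈ T) :
    X.Adj (ind τ a) (ind τ b) ↔ X.Adj a b := by
  have key : ∀ {a b : V} (ha : a ∈ T) (hb : b ∈ T),
      (YG X T c).Adj (bs ha) (bs hb) ↔ X.Adj a b := by
    intro a b ha hb
    constructor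
    · rintro (⟨_, _, h⟩ | ⟨_, h | h⟩)
      · exact h
      · exact absurd rfl h.2
      · exact absurd rfl h.1
    · intro h
      exact Or.inl ⟨rfl, rfl, h⟩
  have h := τ.map_adj_iff (v := bs ha) (w := bs hb)
  rw [bs_map τ ha, bs_map τ hb, key, key] at h
  rw [ind_of_mem τ ha, ind_of_mem τ hb]
  exact h

theorem ind_inj (τ : YG X T c ≃g YG X T c) {a b : V} (ha : a ∈ T) (hb : b ∈ T)
    (h : ind τ a = ind τ b) : a = b := by
  rw [ind_of_mem τ ha, ind_of_mem τ hb] at h
  have h1 : τ (bs ha) = τ (bs hb) := by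
    rw [bs_map τ ha, bs_map τ hb]
    exact Subtype.ext (Prod.ext h rfl)
  have h2 : (bs ha : WT T c) = bs hb := τ.injective h1
  exact congrArg (fun w : WT T c => w.1.1) h2

/-- The automorphism of `Y` induced by an automorphism of `X`. -/
def lift (hT : ∀ g : X ≃g X, ∀ v ∈ T, g v ∈ T) (hc : ∀ (g : X ≃g X) v, c (g v) = c v)
    (g : X ≃g X) : YG X T c ≃g YG X T c where
  toFun p := ⟨(g p.1.1, p.1.2), hT g _ p.2.1, by simp only [hc]; exact p.2.2⟩
  invFun p := ⟨(g.symm p.1.1, p.1.2), hT g.symm _ p.2.1, by simp only [hc]; exact p.2.2⟩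
  left_inv p := Subtype.ext (Prod.ext (g.symm_apply_apply _) rfl)
  right_inv p := Subtype.ext (Prod.ext (g.apply_symm_apply _) rfl)
  map_rel_iff' := by
    intro p q
    change ((p.1.2 = 0 ∧ q.1.2 = 0 ∧ X.Adj (g p.1.1) (g q.1.1)) ∨
      (g p.1.1 = g q.1.1 ∧ (p.1.2 = 0 ∧ q.1.2 ≠ 0 ∨ p.1.2 ≠ 0 ∧ q.1.2 = 0))) ↔
      ((p.1.2 = 0 ∧ q.1.2 = 0 ∧ X.Adj p.1.1 q.1.1) ∨
      (p.1.1 = q.1.1 ∧ (p.1.2 = 0 ∧ q.1.2 ≠ 0 ∨ p.1.2 ≠ 0 ∧ q.1.2 = 0)))
    rw [g.map_adj_iff, g.injective.eq_iff]

/-! ### `Y` has no new clique models -/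

theorem model_down {k : ℕ} (hk : 3 ≤ k) (h : HasModel k (YG X T c)) : HasModel k X := by
  obtain ⟨B, hconn, hdisj, hadj⟩ := h
  have hA : ∀ i, ∀ p ∈ B i, ∃ q ∈ B i, q.1.2 = 0 ∧ q.1.1 = p.1.1 := by
    intro i p hp
    by_cases hp0 : p.1.2 = 0
    · exact ⟨p, hp, hp0, rfl⟩
    by_cases hex : ∃ p' ∈ B i, p' ≠ p
    · obtain ⟨p', hp', hne⟩ := hex
      obtain ⟨w⟩ := (hconn i).preconnected ⟨p, hp⟩ ⟨p', hp'⟩
      cases w with
      | nil => exact absurd rfl hne
      | @cons _ r _ hr _ =>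
        have hr' : (YG X T c).Adj p r.1 := hr
        obtain ⟨h1, h2⟩ := leaf_adj hp0 hr'
        exact ⟨r.1, r.2, h1, h2⟩
    · push Not at hex
      have hj : ∃ j1 j2 : Fin k, j1 ≠ i ∧ j2 ≠ i ∧ j1 ≠ j2 := by
        have hi := i.2
        by_cases hi0 : i.1 = 0
        · refine ⟨⟨1, by omega⟩, ⟨2, by omega⟩, ?_, ?_, ?_⟩
          · intro h; have := congrArg Fin.val h; simp only at this; omega
          · intro h; have := congrArg Fin.val h; simp only at this; omega
          · intro h; have := congrArg Fin.val h; simp only at this; omega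
        · by_cases hi1 : i.1 = 1
          · refine ⟨⟨0, by omega⟩, ⟨2, by omega⟩, ?_, ?_, ?_⟩
            · intro h; have := congrArg Fin.val h; simp only at this; omega
            · intro h; have := congrArg Fin.val h; simp only at this; omega
            · intro h; have := congrArg Fin.val h; simp only at this; omega
          · refine ⟨⟨0, by omega⟩, ⟨1, by omega⟩, ?_, ?_, ?_⟩
            · intro h; have := congrArg Fin.val h; simp only at this; omega
            · intro h; have := congrArg Fin.val h; simp only at this; omega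
            · intro h; have := congrArg Fin.val h; simp only at this; omega
      obtain ⟨j1, j2, h1, h2, h12⟩ := hj
      obtain ⟨x1, hx1, y1, hy1, hxy1⟩ := hadj i j1 h1.symm
      obtain ⟨x2, hx2, y2, hy2, hxy2⟩ := hadj i j2 h2.symm
      rw [hex x1 hx1] at hxy1
      rw [hex x2 hx2] at hxy2
      obtain ⟨h3, h4⟩ := leaf_adj hp0 hxy1
      obtain ⟨h5, h6⟩ := leaf_adj hp0 hxy2
      have : y1 = y2 := Subtype.ext (Prod.ext (h4.trans h6.symm) (h3.trans h5.symm))
      subst this
      exact absurd hy2 (Set.disjoint_left.1 (hdisj j1 j2 h12) hy1)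
  let B' : Fin k → Set V := fun i => {v | ∃ q ∈ B i, q.1.2 = 0 ∧ q.1.1 = v}
  refine ⟨B', fun i => ?_, fun i j hij => ?_, fun i j hij => ?_⟩
  · let pr : B i → B' i := fun p => ⟨p.1.1.1, hA i p.1 p.2⟩
    have hwalk : ∀ p q : B i, ((YG X T c).induce (B i)).Walk p q →
        (X.induce (B' i)).Reachable (pr p) (pr q) := by
      intro p q w
      induction w with
      | nil => exact SimpleGraph.Reachable.refl _
      | cons hr _ ih =>
        rename_i a b d _
        refine SimpleGraph.Reachable.trans ?_ ih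
        have hr' : (YG X T c).Adj a.1 b.1 := hr
        rcases hr' with ⟨_, _, h⟩ | ⟨h, _⟩
        · have h' : (X.induce (B' i)).Adj (pr a) (pr b) := h
          exact h'.reachable
        · have h' : pr a = pr b := Subtype.ext h
          rw [h']
    have hne : Nonempty (B' i) := by
      obtain ⟨p⟩ := (hconn i).nonempty
      exact ⟨pr p⟩
    refine ⟨?_⟩
    rintro ⟨a, p, hp, hp0, rfl⟩ ⟨b, q, hq, hq0, rfl⟩
    obtain ⟨w⟩ := (hconn i).preconnected ⟨p, hp⟩ ⟨q, hq⟩
    exact hwalk _ _ w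
  · rw [Set.disjoint_left]
    rintro v ⟨p, hp, hp0, hpv⟩ ⟨q, hq, hq0, hqv⟩
    have : p = q := Subtype.ext (Prod.ext (hpv.trans hqv.symm) (hp0.trans hq0.symm))
    subst this
    exact Set.disjoint_left.1 (hdisj i j hij) hp hq
  · obtain ⟨p, hp, q, hq, hpq⟩ := hadj i j hij
    rcases hpq with ⟨h1, h2, h3⟩ | ⟨h1, _⟩
    · exact ⟨p.1.1, ⟨p, hp, h1, rfl⟩, q.1.1, ⟨q, hq, h2, rfl⟩, h3⟩
    · exfalso
      obtain ⟨p', hp', hp0, hpv⟩ := hA i p hp
      obtain ⟨q', hq', hq0, hqv⟩ := hA j q hq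
      have : p' = q' :=
        Subtype.ext (Prod.ext (hpv.trans (h1.trans hqv.symm)) (hp0.trans hq0.symm))
      subst this
      exact Set.disjoint_left.1 (hdisj i j hij) hp' hq'

end Construction

/-! ### Conclusion -/

/-- Transport of automorphism groups along an isomorphism. -/
def conj {V : Type u} {W : Type v} {X : SimpleGraph V} {Y : SimpleGraph W} (e : X ≃g Y) :
    (X ≃g X) ≃* (Y ≃g Y) where
  toFun g := (e.symm.trans g).trans e
  invFun h := (e.trans h).trans e.symm
  left_inv g := by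
    ext v
    simp
  right_inv h := by
    ext v
    simp
  map_mul' g h := by
    ext v
    change e (g (h (e.symm v))) = e (g (e.symm (e (h (e.symm v)))))
    rw [e.symm_apply_apply]

/-- A finite graph may be replaced by a graph on `Fin n`. -/
theorem to_fin (k : ℕ) {V : Type u} (X : SimpleGraph V) {W : Type u} [Finite W]
    (Y : SimpleGraph W) (hY : ¬ HasModel k Y) (π : (Y ≃g Y) →* (X ≃g X))
    (σ : (X ≃g X) →* (Y ≃g Y)) (h : π.comp σ = MonoidHom.id (X ≃g X)) :
    ∃ (n : ℕ) (Y' : SimpleGraph (Fin n)), ¬ HasSubcontractionToK k Y' ∧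
      ∃ (π : (Y' ≃g Y') →* (X ≃g X)) (σ : (X ≃g X) →* (Y' ≃g Y')),
        π.comp σ = MonoidHom.id (X ≃g X) := by
  obtain ⟨n, ⟨e⟩⟩ := Finite.exists_equiv_fin W
  let Y' : SimpleGraph (Fin n) := Y.comap e.symm
  let E : Y' ≃g Y := { toEquiv := e.symm, map_rel_iff' := Iff.rfl }
  refine ⟨n, Y', fun hcon => hY (hasModel_iso E (hasModel_of_hasSub hcon)),
    π.comp (conj E).toMonoidHom, (conj E.symm).toMonoidHom.comp σ, ?_⟩
  ext g v
  have h1 : (conj E) ((conj E.symm) (σ g)) = σ g := by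
    ext w
    change E (E.symm ((σ g) (E (E.symm w)))) = σ g w
    rw [E.apply_symm_apply, E.apply_symm_apply]
  have h2 : π (σ g) = g := by
    have := congrArg (fun φ => φ g) h
    exact this
  change (π ((conj E) ((conj E.symm) (σ g)))) v = g v
  rw [h1, h2]

theorem edgeless_finite {V : Type u} (X : SimpleGraph V) [Finite (X ≃g X)]
    (h : ∀ a b, ¬ X.Adj a b) : Finite V := by
  classical
  by_contra hinf
  rw [not_finite_iff_infinite] at hinf
  obtain ⟨a⟩ : Nonempty V := inferInstance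
  let f : V → (X ≃g X) := fun b =>
    { toEquiv := Equiv.swap a b
      map_rel_iff' := by
        intro x y
        exact ⟨fun hh => absurd hh (h _ _), fun hh => absurd hh (h _ _)⟩ }
  have hf : Function.Injective f := by
    intro b d hbd
    have h1 : (f b) a = (f d) a := by rw [hbd]
    have h2 : Equiv.swap a b a = Equiv.swap a d a := h1
    rwa [Equiv.swap_apply_left, Equiv.swap_apply_left] at h2
  exact (Infinite.of_injective f hf).not_finite inferInstance

/-- **Finite witnesses.** Let `X` be a graph, finite or infinite, whose automorphism group is finite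
and which has no subcontraction to `K_k`. Then there is a *finite* graph `Y` without subcontraction to
`K_k` such that `Aut X` is a retract of `Aut Y`: there are homomorphisms `σ : Aut X → Aut Y` and
`π : Aut Y → Aut X` with `π ∘ σ = id`. -/
theorem result (k : ℕ) {V : Type u} (X : SimpleGraph V) [Finite (X ≃g X)]
    (hX : ¬ HasSubcontractionToK k X) :
    ∃ (n : ℕ) (Y : SimpleGraph (Fin n)), ¬ HasSubcontractionToK k Y ∧
      ∃ (π : (Y ≃g Y) →* (X ≃g X)) (σ : (X ≃g X) →* (Y ≃g Y)),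
        π.comp σ = MonoidHom.id (X ≃g X) := by
  classical
  have hX' : ¬ HasModel k X := fun h => hX (hasSub_of_hasModel h)
  by_cases hedge : ∃ a b, X.Adj a b
  · obtain ⟨a, b, hab⟩ := hedge
    have hk : 3 ≤ k := by
      by_contra hk
      exact hX' (hasModel_of_edge (by omega) hab)
    -- a finite invariant set on which the group acts faithfully
    have hS : ∃ S : Set V, S.Finite ∧ (∀ g : X ≃g X, ∀ v ∈ S, g v ∈ S) ∧
        ∀ g h : X ≃g X, (∀ v ∈ S, g v = h v) → g = h := by
      have hx : ∀ p : (X ≃g X) × (X ≃g X), ∃ v : V, p.1 ≠ p.2 → p.1 v ≠ p.2 v := by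
        intro p
        by_cases hp : p.1 = p.2
        · exact ⟨a, fun h => absurd hp h⟩
        · by_contra hcon
          push Not at hcon
          exact hp (RelIso.ext (fun v => (hcon v).2))
      choose x hx using hx
      refine ⟨sat X (Set.range x), sat_finite X (Set.finite_range x),
        fun g v hv => sat_invariant X _ g hv, fun g h hgh => ?_⟩
      by_contra hne
      exact hx (g, h) hne (hgh _ (subset_sat X _ ⟨(g, h), rfl⟩))
    obtain ⟨S, hSfin, hSinv, hSfaith⟩ := hS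
    obtain ⟨T, hTfin, hST, hTinv, hT⟩ := compactness X S hSfin
    obtain ⟨c, hc1, hc2⟩ := exists_color X hTfin
    have : Finite (WT T c) := WT_finite c hTfin
    have hex : ∀ τ : YG X T c ≃g YG X T c, ∃ g : X ≃g X, ∀ v ∈ S, g v = ind τ v := by
      intro τ
      refine hT (ind τ) ?_ ?_ ?_
      · intro v hv
        exact hc2 v hv _ (ind_mem τ hv) (by rw [ind_of_mem τ hv]; exact (color_eq τ hv).symm)
      · intro a ha b hb
        exact ind_adj τ ha hb
      · intro a ha b hb hab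
        exact ind_inj τ ha hb hab
    choose P hP using hex
    let π : (YG X T c ≃g YG X T c) →* (X ≃g X) := MonoidHom.mk' P (by
      intro τ τ'
      refine hSfaith _ _ (fun v hv => ?_)
      rw [hP (τ * τ') v hv, ind_mul τ τ' (hST hv), ← hP τ' v hv,
        ← hP τ (P τ' v) (hSinv _ v hv)]
      rfl)
    let σ : (X ≃g X) →* (YG X T c ≃g YG X T c) := MonoidHom.mk' (lift hTinv hc1) (by
      intro g h
      rfl)
    refine to_fin k X (YG X T c) (fun h => hX' (model_down hk h)) π σ ?_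
    ext1 g
    refine hSfaith _ _ (fun v hv => ?_)
    change P (lift hTinv hc1 g) v = g v
    rw [hP _ v hv, ind_of_mem _ (hST hv)]
    rfl
  · push Not at hedge
    have := edgeless_finite X hedge
    exact to_fin k X X hX' (MonoidHom.id _) (MonoidHom.id _) rfl

end Pool.Agent.BAB67.Witness
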